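import Pool.Agent.MST.EFw
import Pool.Agent.MST.Fin
import Pool.Agent.MSTLim.Pat

/-! # Part (S): shifted labels

(problem MP_e1ab72_pr)

`sh w = w - 1/2`. The sets `Op`, the trees, the events `EF`, `Clean` and the patterns of the labels `w` at the level `1/2` are those of `sh w` at
the level `0`. -/

set_option autoImplicit false

namespace Pool.Agent.MSTS

open Pool.Agent.TriPerc Pool.Agent.MST Set MeasureTheory

/-- The shifted labels. -/
noncomputable def sh (w : Lab) : Lab := fun v => w v - 1 / 2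

theorem sh_op (w : Lab) (p : ℝ) : Op (p - 1 / 2) (sh w) = Op p w := by
  ext v
  change w v - 1 / 2 ≤ p - 1 / 2 ↔ w v ≤ p
  constructor <;> intro h <;> linarith

theorem sh_op0 (w : Lab) : Op 0 (sh w) = Op (1 / 2) w := by
  have h := sh_op w (1 / 2)
  rwa [sub_self] at h

theorem sh_le (w : Lab) (u v : V) : sh w u ≤ sh w v ↔ w u ≤ w v := by
  unfold sh
  constructor <;> intro h <;> linarith

theorem sh_mt {A W : Set V} {w : Lab} {x y : V} : MT A W (sh w) x y ↔ MT A W w x y :=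
  ⟨mt_congr fun u _ v _ => sh_le w u v, mt_congr fun u _ v _ => (sh_le w u v).symm⟩

theorem sh_dbl {A W : Set V} {w : Lab} {x y : V} : Dbl A W (sh w) x y ↔ Dbl A W w x y :=
  ⟨dbl_congr fun u _ v _ => sh_le w u v, dbl_congr fun u _ v _ => (sh_le w u v).symm⟩

theorem sh_efz {m n : ℤ} {w : Lab} {z : Fin 6 → V} :
    EFz 0 m n (sh w) z ↔ EFz (1 / 2) m n w z := by
  unfold EFz
  rw [sh_op0, sh_dbl, sh_dbl]

theorem sh_ef {m n : ℤ} {w : Lab} : EF 0 m n (sh w) ↔ EF (1 / 2) m n w := by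
  rw [ef_iff, ef_iff]
  exact exists_congr fun z => sh_efz

theorem sh_crs {m n : ℤ} {w : Lab} {y : V} : Crs 0 m n (sh w) y ↔ Crs (1 / 2) m n w y := by
  unfold Crs
  rw [sh_op0]

theorem sh_clean {m n : ℤ} {w : Lab} : Clean 0 m n (sh w) ↔ Clean (1 / 2) m n w := by
  unfold Clean
  simp only [sh_efz, sh_crs, sh_op0]

theorem U_sh (w : Lab) (x y u v : V) :
    MSTLim.U (sh w) x y < MSTLim.U (sh w) u v ↔ MSTLim.U w x y < MSTLim.U w u v := by
  have h : ∀ a b c d : V, EL (sh w) a b < EL (sh w) c d ↔ EL w a b < EL w c d := fun a b c d =>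
    el_lt_congr (A := univ) (fun u _ v _ => sh_le w u v) trivial trivial trivial trivial
  exact h x y u v

theorem sh_mst (w : Lab) (x y : V) : MSTLim.MST (sh w) x y ↔ MSTLim.MST w x y := by
  unfold MSTLim.MST
  simp only [U_sh]

theorem sh_tp {w : Lab} {f : ℕ → V} {n : ℕ} :
    MSTLim.TreePath (sh w) f n ↔ MSTLim.TreePath w f n := by
  unfold MSTLim.TreePath
  simp only [sh_mst]

theorem sh_ps {e a b : ℝ} {w : Lab} : MSTLim.PS e (sh w) a b ↔ MSTLim.PS e w a b := by
  unfold MSTLim.PS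
  simp only [sh_tp]

/-- A path of `MT univ ∅` is a tree path. -/
theorem tp_of_mt {w : Lab} {f : ℕ → V} {n : ℕ} (h : IsPa (MT univ ∅ w) f n) :
    MSTLim.TreePath w f n := by
  refine ⟨fun i hi => ?_, fun i hi j hj hij => h.inj i j hi hj hij⟩
  have h1 := h.step i hi
  refine ⟨h1.1, fun hc => h1.2.2.2 (rtg_mono ?_ hc)⟩
  intro a b hab
  exact Or.inl ⟨hab.1, trivial, trivial, hab.2⟩

/-- The components of the open set are finite almost surely. -/
theorem ae_fin_sh : ∀ᵐ w ∂P, ∀ v, (comp (Op 0 (sh w)) v).Finite := by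
  filter_upwards [MST.ae_fin] with w hw v
  rw [sh_op0]
  exact hw v

/-- The shifted labels are in `[-1/2, 1/2]`. -/
theorem sh_rng {w : Lab} (h : ∀ v, w v ∈ Icc (0 : ℝ) 1) (v : V) :
    -1 / 2 ≤ sh w v ∧ sh w v ≤ 1 / 2 := by
  have h1 := h v
  unfold sh
  constructor <;> linarith [h1.1, h1.2]

end Pool.Agent.MSTS
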