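import Pool.Agent.MST.EFw
import Pool.Agent.MST.OrdG

/-!
# (6f): the order of the four visits of the circle of radius `rho`

`ord6`: four connected sets `P i` in `Op p w ∩ Ann 0 rho nn`, pairwise disjoint, with feet `a i` on
the circle of radius `rho` and tops `b i` on the circle of radius `nn`, in the groups `i` of
`E_F`.  If the annulus `Ann 0 ms nn`, `rho ≤ ms < nn`, is clean, then `a 0, a 2` separate `a 1`
from `a 3`.

`ord6_path`: the version for four pieces of a simple path `h`: `w0' → q0`, `q1 ← w1` and so on.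

`ord6_pts`: the version for four points `p0, p1, p2, p3` of the circle of radius `rho` which are
joined to the circle of radius `nn` in the clusters `X0`, `Y`, `Y'`, `X3`.
-/

set_option autoImplicit false

namespace Pool.Agent.MST

open Pool.Agent.TriPerc

variable {w : Lab} {m n m' rho ms nn : ℤ} {p : ℝ} {z z' : Fin 6 → V}

/-- A connected set which meets both circles contains a crossing of a smaller annulus. -/
theorem top_crs {P : Set V} (hP : IsConn P) (hsub : P ⊆ Op p w ∩ Ann 0 m n) {a b : V}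
    (ha : a ∈ P) (na : nrm a = m) (hb : b ∈ P) (nb : nrm b = n) (h1 : m ≤ m') (h2 : m' < n) :
    ∃ y ∈ P, Crs p m' n w y := by
  obtain ⟨x, hx, y, hy, hxy⟩ := arm_of_conn (z := 0) (n := m') (m := n) (hP a ha b hb)
    (by rw [sub_zero]; omega) (by rw [sub_zero]; omega) h2.le
  have k1 := hxy.left
  have k2 := hxy.right
  have k3 := mem_ann0.1 k1.2
  have k4 := mem_ann0.1 k2.2
  have hx' : nrm (x - 0) ≤ m' := hx
  have hy' : n ≤ nrm (y - 0) := hy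
  rw [sub_zero] at hx' hy'
  refine ⟨y, k2.1, by omega, x, by omega, (hxy.mono ?_).symm⟩
  rintro v ⟨hv1, hv2⟩
  exact ⟨(hsub hv1).1, hv2⟩

/-- **The order of the feet**. -/
theorem ord6 (hm : 1 ≤ rho) (h1 : rho ≤ ms) (h2 : ms < nn) (hz : EFz p ms nn w z')
    {P : Fin 4 → Set V} (hP : ∀ i, IsConn (P i)) (hsub : ∀ i, P i ⊆ Op p w ∩ Ann 0 rho nn)
    (hd : ∀ i j, i ≠ j → Disjoint (P i) (P j)) {a b : Fin 4 → V} (ha : ∀ i, a i ∈ P i)
    (na : ∀ i, nrm (a i) = rho) (hb : ∀ i, b i ∈ P i) (nb : ∀ i, nrm (b i) = nn)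
    (hcl : ∀ i : Fin 4, ∀ y ∈ P i, Crs p ms nn w y → ∃ k, grp k = (i : ℕ) ∧
      Conn (Op p w ∩ Ann 0 ms nn) (z' k) y) : SepC rho (a 0) (a 2) (a 1) (a 3) := by
  have hy : ∀ i, ∃ y ∈ P i, ∃ k, grp k = (i : ℕ) ∧ nrm y = nn ∧
      Conn (Op p w ∩ Ann 0 ms nn) (z' k) y := by
    intro i
    obtain ⟨y, hy, hc⟩ := top_crs (hP i) (hsub i) (ha i) (na i) (hb i) (nb i) h1 h2
    obtain ⟨k, hk, hk'⟩ := hcl i y hy hc
    exact ⟨y, hy, k, hk, hc.1, hk'⟩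
  choose y hyP k hk ny hyk using hy
  obtain ⟨e1, e2, -, -, e5, e6, e7, e8, e9⟩ := hz
  have hx : ∀ i, ∃ x, nrm x = ms ∧ Conn (Op p w ∩ Ann 0 ms nn) (z' (k i)) x := fun i => e2 (k i)
  choose x nx hxk using hx
  have hk0 : k 0 = 0 := by
    have := hk 0
    revert this
    generalize k 0 = c
    fin_cases c <;> decide
  have hk2 : k 2 = 3 := by
    have := hk 2
    revert this
    generalize k 2 = c
    fin_cases c <;> decide
  have hk1 : k 1 = 1 ∨ k 1 = 2 := by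
    have := hk 1
    revert this
    generalize k 1 = c
    fin_cases c <;> decide
  have hk3 : k 3 = 4 ∨ k 3 = 5 := by
    have := hk 3
    revert this
    generalize k 3 = c
    fin_cases c <;> decide
  have hs : SepC nn (z' (k 0)) (z' (k 2)) (z' (k 1)) (z' (k 3)) := by
    rw [hk0, hk2]
    rcases hk1 with h | h <;> rcases hk3 with h' | h' <;> rw [h, h']
    · exact e6
    · exact e7
    · exact e8
    · exact e9
  have hG : Cr4 ms nn (comp (Op p w ∩ Ann 0 ms nn) (z' (k 0)))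
      (comp (Op p w ∩ Ann 0 ms nn) (z' (k 1))) (comp (Op p w ∩ Ann 0 ms nn) (z' (k 2)))
      (comp (Op p w ∩ Ann 0 ms nn) (z' (k 3))) := by
    have hdj : ∀ i j, i ≠ j → Disjoint (comp (Op p w ∩ Ann 0 ms nn) (z' (k i)))
        (comp (Op p w ∩ Ann 0 ms nn) (z' (k j))) := by
      intro i j hij
      rw [Set.disjoint_left]
      intro v hv hv'
      have hv1 : Conn (Op p w ∩ Ann 0 ms nn) (z' (k i)) v := hv
      have hv2 : Conn (Op p w ∩ Ann 0 ms nn) (z' (k j)) v := hv'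
      refine e5 (k i) (k j) ?_ (hv1.trans hv2.symm)
      rw [hk i, hk j]
      exact fun h => hij (Fin.ext h)
    have hsb : ∀ i, comp (Op p w ∩ Ann 0 ms nn) (z' (k i)) ⊆ Ann 0 ms nn := by
      intro i v hv
      have hv1 : Conn (Op p w ∩ Ann 0 ms nn) (z' (k i)) v := hv
      exact hv1.right.2
    have hcn : ∀ i, IsConn (comp (Op p w ∩ Ann 0 ms nn) (z' (k i))) := by
      intro i u hu v hv
      have hu1 : Conn (Op p w ∩ Ann 0 ms nn) (z' (k i)) u := hu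
      have hv1 : Conn (Op p w ∩ Ann 0 ms nn) (z' (k i)) v := hv
      exact hu1.in_comp.symm.trans hv1.in_comp
    exact ⟨⟨hdj _ _ (by decide), hdj _ _ (by decide), hdj _ _ (by decide), hdj _ _ (by decide),
      hdj _ _ (by decide), hdj _ _ (by decide)⟩, hsb _, hsb _, hsb _, hsb _, hcn _, hcn _, hcn _,
      hcn _⟩
  have hms : 1 ≤ ms := hm.trans h1
  have hself : ∀ i, z' (k i) ∈ comp (Op p w ∩ Ann 0 ms nn) (z' (k i)) := fun i => by
    have h3 : Conn (Op p w ∩ Ann 0 ms nn) (z' (k i)) (z' (k i)) := Conn.refl (hxk i).left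
    exact h3
  have s1 := (ord_iff hms h2 hG (z0 := z' (k 0)) (z1 := z' (k 1)) (z2 := z' (k 2))
    (z3 := z' (k 3)) ⟨hself 0, hself 1, hself 2, hself 3, e1 _, e1 _, e1 _, e1 _⟩
    (y0 := x 0) (y1 := x 1) (y2 := x 2) (y3 := x 3)
    ⟨hxk 0, hxk 1, hxk 2, hxk 3, nx 0, nx 1, nx 2, nx 3⟩).1 hs
  have s2 := (ord_iff hms h2 hG (z0 := y 0) (z1 := y 1) (z2 := y 2) (z3 := y 3)
    ⟨hyk 0, hyk 1, hyk 2, hyk 3, ny 0, ny 1, ny 2, ny 3⟩ (y0 := x 0) (y1 := x 1) (y2 := x 2)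
    (y3 := x 3) ⟨hxk 0, hxk 1, hxk 2, hxk 3, nx 0, nx 1, nx 2, nx 3⟩).2 s1
  have hG2 : Cr4 rho nn (P 0) (P 1) (P 2) (P 3) :=
    ⟨⟨hd _ _ (by decide), hd _ _ (by decide), hd _ _ (by decide), hd _ _ (by decide),
      hd _ _ (by decide), hd _ _ (by decide)⟩, fun v hv => (hsub 0 hv).2, fun v hv =>
      (hsub 1 hv).2, fun v hv => (hsub 2 hv).2, fun v hv => (hsub 3 hv).2, hP 0, hP 1, hP 2, hP 3⟩
  exact (ord_iff hm (by omega) hG2 (z0 := y 0) (z1 := y 1) (z2 := y 2) (z3 := y 3)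
    ⟨hyP 0, hyP 1, hyP 2, hyP 3, ny 0, ny 1, ny 2, ny 3⟩ (y0 := a 0) (y1 := a 1) (y2 := a 2)
    (y3 := a 3) ⟨ha 0, ha 1, ha 2, ha 3, na 0, na 1, na 2, na 3⟩).1 s2

/-- The piece of a path between the foot `h a` and the next visit of the circle `nn`. -/
theorem piece {h : ℕ → V} {s t a : ℕ} (hst : s ≤ t) (hadj : ∀ k, s ≤ k → k < t →
      Adj (h k) (h (k + 1))) (hnn : rho ≤ nn)
    (ha : (a = s ∧ nrm (h s) = rho ∧ nn ≤ nrm (h t)) ∨
      (a = t ∧ nrm (h t) = rho ∧ nn ≤ nrm (h s))) :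
    ∃ c d : ℕ, s ≤ c ∧ c ≤ d ∧ d ≤ t ∧ c ≤ a ∧ a ≤ d ∧ nrm (h a) = rho ∧
      (∃ q, c ≤ q ∧ q ≤ d ∧ nrm (h q) = nn) ∧ ∀ k, c ≤ k → k ≤ d → nrm (h k) ≤ nn := by
  have hst' : ∀ i, s ≤ i → i < t → nrm (h (i + 1)) ≤ nrm (h i) + 1 ∧
      nrm (h i) - 1 ≤ nrm (h (i + 1)) := by
    intro i h1 h2
    have := abs_le.1 (nrm_adj (hadj i h1 h2) 0)
    rw [sub_zero, sub_zero] at this
    omega
  rcases ha with ⟨rfl, h1, h2⟩ | ⟨rfl, h1, h2⟩
  · obtain ⟨q, q1, q2, q3, q4⟩ := hit_up_first (fun i => nrm (h i)) (n := nn) hst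
      (fun i i1 i2 => (hst' i i1 i2).1) (by omega) h2
    refine ⟨a, q, le_rfl, q1, q2, le_rfl, q1, h1, ⟨q, q1, le_rfl, q3⟩, fun k k1 k2 => ?_⟩
    rcases Nat.eq_or_lt_of_le k2 with h3 | h3
    · rw [h3]
      exact q3.le
    · exact (q4 k k1 h3).le
  · obtain ⟨q, q1, q2, q3, q4⟩ := hit_down_last (fun i => nrm (h i)) (n := nn) hst
      (fun i i1 i2 => (hst' i i1 i2).2) h2 (by omega)
    refine ⟨q, a, q1, q2, le_rfl, q2, le_rfl, h1, ⟨q, le_rfl, q2, q3⟩, fun k k1 k2 => ?_⟩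
    rcases Nat.eq_or_lt_of_le k1 with h3 | h3
    · rw [← h3]
      exact q3.le
    · exact (q4 k h3 k2).le

/-- **(6f) for a path `h`**: the piece `i` of the path runs between the times `s i` and `t i` in the
group `i`, outside `Ball 0 (rho - 1)`, from the circle `rho` (time `a i`) to the circle `nn`. -/
theorem ord6_path {r R : ℤ} (hm : 1 ≤ rho) (h1 : rho ≤ ms) (h2 : ms < nn)
    (hrm : r ≤ ms) (h3 : nn ≤ R)
    (hE : EFz p r R w z) (hz : EFz p ms nn w z')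
    (hzz : ∀ k, Conn (Op p w ∩ Ann 0 r R) (z k) (z' k)) (hcl : Clean p ms nn w) {h : ℕ → V}
    {s t a : Fin 4 → ℕ} (hst : ∀ i, s i ≤ t i)
    (hadj : ∀ i k, s i ≤ k → k < t i → Adj (h k) (h (k + 1)))
    (hlo : ∀ i k, s i ≤ k → k ≤ t i → rho ≤ nrm (h k))
    (hgrp : ∀ i k, s i ≤ k → k ≤ t i → nrm (h k) ≤ nn →
      ∃ c, grp c = ((i : Fin 4) : ℕ) ∧ Conn (Op p w ∩ Ann 0 r R) (z c) (h k))
    (ha : ∀ i, (a i = s i ∧ nrm (h (s i)) = rho ∧ nn ≤ nrm (h (t i))) ∨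
      (a i = t i ∧ nrm (h (t i)) = rho ∧ nn ≤ nrm (h (s i)))) :
    SepC rho (h (a 0)) (h (a 2)) (h (a 1)) (h (a 3)) := by
  have hp := fun i => piece (hst i) (hadj i) (by omega : rho ≤ nn) (ha i)
  choose c d hc hcd hd hca had na hq hnn using hp
  choose q hq1 hq2 nq using hq
  have hin : ∀ i, ∀ v ∈ seg h (c i) (d i), rho ≤ nrm v ∧ nrm v ≤ nn ∧
      ∃ e, grp e = ((i : Fin 4) : ℕ) ∧ Conn (Op p w ∩ Ann 0 r R) (z e) v := by
    rintro i _ ⟨k, k1, k2, rfl⟩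
    have k3 := hc i
    have k4 := hd i
    exact ⟨hlo i k (by omega) (by omega), hnn i k k1 k2,
      hgrp i k (by omega) (by omega) (hnn i k k1 k2)⟩
  refine ord6 hm h1 h2 hz (P := fun i => seg h (c i) (d i)) (fun i => ?_) (fun i v hv => ?_)
    (fun i j hij => ?_) (a := fun i => h (a i)) (b := fun i => h (q i))
    (fun i => ⟨a i, hca i, had i, rfl⟩) na (fun i => ⟨q i, hq1 i, hq2 i, rfl⟩) nq ?_
  · rintro _ ⟨k, k1, k2, rfl⟩ _ ⟨k', k3, k4, rfl⟩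
    have g : ∀ x y, c i ≤ x → x ≤ y → y ≤ d i → Conn (seg h (c i) (d i)) (h x) (h y) := by
      intro x y x1 x2 x3
      have k3 := hc i
      have k4 := hd i
      exact conn_seg x2 (fun q q1 q2 => hadj i q (by omega) (by omega)) fun q q1 q2 =>
        ⟨q, by omega, by omega, rfl⟩
    rcases le_total k k' with h4 | h4
    · exact g k k' k1 h4 k4
    · exact (g k' k k3 h4 k2).symm
  · obtain ⟨k1, k2, e, -, k3⟩ := hin i v hv
    exact ⟨k3.right.1, mem_ann0.2 ⟨k1, k2⟩⟩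
  · rw [Set.disjoint_left]
    intro v hv hv'
    obtain ⟨-, -, e, he, k3⟩ := hin i v hv
    obtain ⟨-, -, e', he', k3'⟩ := hin j v hv'
    refine hE.2.2.2.2.1 e e' ?_ (k3.trans k3'.symm)
    rw [he, he']
    exact fun h => hij (Fin.ext h)
  · intro i y hy hcr
    obtain ⟨-, -, e, he, k3⟩ := hin i y hy
    obtain ⟨k', hk', hk2⟩ := hcl.cl hrm h3 hE hz hzz hcr k3
    exact ⟨k', hk'.trans he, hk2⟩

/-- **(6f) for four points**: `p0, p1, p2, p3` on the circle of radius `rho` are joined to the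
circle of radius `nn` in the clusters `X0` (of `z 0`), `Y` (of `z 1` or `z 2`), `Y2` (of `z 4` or
`z 5`), `X3` (of `z 3`). -/
theorem ord6_pts {r R : ℤ} (hm : 1 ≤ rho) (h1 : rho ≤ ms) (h2 : ms < nn) (hrm : r ≤ ms)
    (h3 : nn ≤ R) (hE : EFz p r R w z) (hz : EFz p ms nn w z')
    (hzz : ∀ k, Conn (Op p w ∩ Ann 0 r R) (z k) (z' k)) (hcl : Clean p ms nn w)
    {X0 Y Y2 X3 : Set V} (hX0 : ∀ v ∈ X0, Conn (Op p w ∩ Ann 0 r R) (z 0) v)
    (hY : ∀ v ∈ Y, Conn (Op p w ∩ Ann 0 r R) (z 1) v ∨ Conn (Op p w ∩ Ann 0 r R) (z 2) v)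
    (hY2 : ∀ v ∈ Y2, Conn (Op p w ∩ Ann 0 r R) (z 4) v ∨ Conn (Op p w ∩ Ann 0 r R) (z 5) v)
    (hX3 : ∀ v ∈ X3, Conn (Op p w ∩ Ann 0 r R) (z 3) v) {p0 p1 p2 p3 : V} (n0 : nrm p0 = rho)
    (n1 : nrm p1 = rho) (n2 : nrm p2 = rho) (n3 : nrm p3 = rho)
    (c0 : ∃ q, nrm q = nn ∧ Conn (X0 ∩ Ann 0 rho nn) p0 q)
    (c1 : ∃ q, nrm q = nn ∧ Conn (Y ∩ Ann 0 rho nn) p1 q)
    (c2 : ∃ q, nrm q = nn ∧ Conn (Y2 ∩ Ann 0 rho nn) p2 q)
    (c3 : ∃ q, nrm q = nn ∧ Conn (X3 ∩ Ann 0 rho nn) p3 q) : SepC rho p1 p2 p0 p3 := by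
  obtain ⟨q0, m0, c0⟩ := c0
  obtain ⟨q1, m1, c1⟩ := c1
  obtain ⟨q2, m2, c2⟩ := c2
  obtain ⟨q3, m3, c3⟩ := c3
  -- the index of the set: `X0, Y, X3, Y2`
  have hc : ∀ i : Fin 4, Conn ((![X0, Y, X3, Y2] : Fin 4 → Set V) i ∩ Ann 0 rho nn)
      ((![p0, p1, p3, p2] : Fin 4 → V) i) ((![q0, q1, q3, q2] : Fin 4 → V) i) := by
    intro i
    fin_cases i
    exacts [c0, c1, c3, c2]
  have hg : ∀ i : Fin 4, ∀ v ∈ (![X0, Y, X3, Y2] : Fin 4 → Set V) i,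
      ∃ e, grp e = (i : ℕ) ∧ Conn (Op p w ∩ Ann 0 r R) (z e) v := by
    intro i v hv
    fin_cases i
    · exact ⟨0, rfl, hX0 v hv⟩
    · rcases hY v hv with h | h
      · exact ⟨1, rfl, h⟩
      · exact ⟨2, rfl, h⟩
    · exact ⟨3, rfl, hX3 v hv⟩
    · rcases hY2 v hv with h | h
      · exact ⟨4, rfl, h⟩
      · exact ⟨5, rfl, h⟩
  obtain ⟨G, hG⟩ : ∃ G : Fin 4 → Set V, ∀ i, G i =
      comp ((![X0, Y, X3, Y2] : Fin 4 → Set V) i ∩ Ann 0 rho nn)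
        ((![p0, p1, p3, p2] : Fin 4 → V) i) := ⟨_, fun _ => rfl⟩
  have hGm : ∀ i, ∀ v ∈ G i, Conn ((![X0, Y, X3, Y2] : Fin 4 → Set V) i ∩ Ann 0 rho nn)
      ((![p0, p1, p3, p2] : Fin 4 → V) i) v := by
    intro i v hv
    rw [hG] at hv
    exact hv
  have hGc : ∀ i, IsConn (G i) := by
    intro i u hu v hv
    have h4 := (hGm i u hu).in_comp
    have h5 := (hGm i v hv).in_comp
    rw [← hG] at h4 h5
    exact h4.symm.trans h5
  have hgr : ∀ i : Fin 4, ∀ v ∈ G i, ∃ e, grp e = (i : ℕ) ∧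
      Conn (Op p w ∩ Ann 0 r R) (z e) v := fun i v hv => hg i v (hGm i v hv).right.1
  have h4 := ord6 hm h1 h2 hz (P := G) hGc (fun i v hv => ?_) (fun i j hij => ?_)
    (a := ![p0, p1, p3, p2]) (b := ![q0, q1, q3, q2]) (fun i => ?_) (fun i => ?_) (fun i => ?_)
    (fun i => ?_) (fun i y hy hcr => ?_)
  · have hne : ∀ {i j : Fin 4} {x y : V}, i ≠ j → x ∈ G i → y ∈ G j → x ≠ y := by
      rintro i j x y hij hx hy rfl
      obtain ⟨e, he, k3⟩ := hgr i x hx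
      obtain ⟨e', he', k3'⟩ := hgr j x hy
      refine hE.2.2.2.2.1 e e' ?_ (k3.trans k3'.symm)
      rw [he, he']
      exact fun h => hij (Fin.ext h)
    have hs : ∀ i, (![p0, p1, p3, p2] : Fin 4 → V) i ∈ G i := fun i => by
      rw [hG]
      have : Conn ((![X0, Y, X3, Y2] : Fin 4 → Set V) i ∩ Ann 0 rho nn)
        ((![p0, p1, p3, p2] : Fin 4 → V) i) ((![p0, p1, p3, p2] : Fin 4 → V) i) :=
        Conn.refl (hc i).left
      exact this
    exact sep_swap hm n0 n1 n3 n2 (hne (by decide : (0 : Fin 4) ≠ 1) (hs 0) (hs 1))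
      (hne (by decide : (0 : Fin 4) ≠ 2) (hs 0) (hs 2))
      (hne (by decide : (0 : Fin 4) ≠ 3) (hs 0) (hs 3))
      (hne (by decide : (1 : Fin 4) ≠ 2) (hs 1) (hs 2))
      (hne (by decide : (1 : Fin 4) ≠ 3) (hs 1) (hs 3))
      (hne (by decide : (2 : Fin 4) ≠ 3) (hs 2) (hs 3)) h4
  · obtain ⟨e, -, k3⟩ := hgr i v hv
    exact ⟨k3.right.1, (hGm i v hv).right.2⟩
  · rw [Set.disjoint_left]
    intro v hv hv'
    obtain ⟨e, he, k3⟩ := hgr i v hv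
    obtain ⟨e', he', k3'⟩ := hgr j v hv'
    refine hE.2.2.2.2.1 e e' ?_ (k3.trans k3'.symm)
    rw [he, he']
    exact fun h => hij (Fin.ext h)
  · rw [hG]
    have : Conn ((![X0, Y, X3, Y2] : Fin 4 → Set V) i ∩ Ann 0 rho nn)
      ((![p0, p1, p3, p2] : Fin 4 → V) i) ((![p0, p1, p3, p2] : Fin 4 → V) i) :=
      Conn.refl (hc i).left
    exact this
  · fin_cases i
    exacts [n0, n1, n3, n2]
  · rw [hG]
    exact hc i
  · fin_cases i
    exacts [m0, m1, m3, m2]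
  · obtain ⟨e, he, k3⟩ := hgr i y hy
    obtain ⟨k', hk', hk2⟩ := hcl.cl hrm h3 hE hz hzz hcr k3
    exact ⟨k', hk'.trans he, hk2⟩

end Pool.Agent.MST
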