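import Pool.Agent.MSTLim.PatSep
import Pool.Agent.TriPerc.Four

/-!
# (S), section 6: the tree path

`EndIn`: the facts about one end of the path `h`.  `h` starts in the component `X` at `h 0`, enters
the joint `U` at the time `t1`, is in the open set `OF` of the final configuration until `t3`, and
leaves the ball of radius `c` for the first time after the visit of the vertex `v` of the cut.

`exit_end` (6b): `h` visits `v` at a time `kb`, and `h[t1, kb]` is in the component of `h t1` in the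
ball of radius `c - 1`.
`mid_out` (6b): between the two visits `kb`, `kb'` of the vertices of the cut `h` is outside of the
ball of radius `mM`.
`visit` (6d): the last visit `w1` of the ball of radius `rho` before `kb`; `h[w1, kb]` is in `Y`.
`start` (6e): the first excursion.
`margin` (6g).
`path_ps`: the path has the strong pattern.
-/

set_option autoImplicit false

namespace Pool.Agent.MSTS

open Pool.Agent.TriPerc Pool.Agent.MST

variable {OF O' O X0 X3 X Y Y' U U' : Set V} {r rho rm n2 mM c R t m a0 : ℤ} {h : ℕ → V}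
  {N t1 t3 kb kb' : ℕ} {v v' x x' y y' : V}

/-- A crossing of the annulus `rho ≤ nrm ≤ n2` in `S` which starts at `x`. -/
def Cr (S : Set V) (rho n2 : ℤ) (x : V) : Prop :=
  nrm x = rho ∧ ∃ x', n2 ≤ nrm x' ∧ Conn (S ∩ {z | rho ≤ nrm z}) x x'

/-- The facts about one end of the path. -/
structure EndIn (OF O' O X Y U : Set V) (r rho rm n2 mM c R : ℤ) (h : ℕ → V) (N t1 t3 : ℕ)
    (v v' : V) : Prop where
  adj : ∀ i < N, Adj (h i) (h (i + 1))
  inj : ∀ i j, i ≤ N → j ≤ N → h i = h j → i = j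
  t13 : t1 ≤ t3
  t3N : t3 ≤ N
  op : ∀ k, t1 ≤ k → k ≤ t3 → h k ∈ OF
  g : ∀ k < t1, h k ∈ X ∧ h k ∈ O
  n0 : nrm (h 0) ≤ rho
  uU : h t1 ∈ U
  nu : n2 < nrm (h t1)
  nu' : nrm (h t1) ≤ mM
  nv : mM < nrm v
  nv' : nrm v < c
  cv : Conn (OF ∩ Ball 0 (c - 1)) (h t1) v
  cv' : ¬ Conn (OF ∩ Ball 0 (c - 1)) (h t1) v'
  sa : ∀ z, Conn (OF ∩ Ball 0 (c - 1)) (h t1) z → z ∈ O' ∨ z ∈ U ∨ nrm z < rho
  vY : v ∈ Y
  UR : ∀ z ∈ U, rho < nrm z
  OO : O' ⊆ O
  clX : ∀ z ∈ X, ∀ z' ∈ O, r ≤ nrm z' → nrm z' ≤ R → Adj z z' → z' ∈ X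
  clY : ∀ z ∈ Y, ∀ z' ∈ O, r ≤ nrm z' → nrm z' ≤ R → Adj z z' → z' ∈ Y
  key : ∀ s kb, t1 ≤ s → s ≤ kb → kb ≤ t3 → h kb = v → h s ∈ U →
    (∀ k, t1 ≤ k → k ≤ kb → Conn (OF ∩ Ball 0 (c - 1)) (h t1) (h k)) →
    ∃ i, s ≤ i ∧ i ≤ kb ∧ nrm (h i) ≤ rho

/-- The norm changes by at most one. -/
theorem nrm_st (hadj : ∀ i < N, Adj (h i) (h (i + 1))) {i : ℕ} (hi : i < N) :
    nrm (h i) - 1 ≤ nrm (h (i + 1)) ∧ nrm (h (i + 1)) ≤ nrm (h i) + 1 := by
  have h1 := nrm_adj (hadj i hi) 0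
  rw [sub_zero, sub_zero, abs_le] at h1
  constructor <;> linarith [h1.1, h1.2]

/-- A closed set contains every vertex joined to one of its vertices. -/
theorem closed_conn {S T : Set V} (hcl : ∀ z ∈ S, ∀ z' ∈ T, Adj z z' → z' ∈ S) (hx : x ∈ S)
    (hc : Conn T x y) : y ∈ S := by
  obtain ⟨-, hr⟩ := hc
  induction hr with
  | refl => exact hx
  | tail _ hbc ih => exact hcl _ ih _ hbc.2 hbc.1

/-- (6b), one end. -/
theorem EndIn.exit_end (H : EndIn OF O' O X Y U r rho rm n2 mM c R h N t1 t3 v v')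
    (nv' : nrm v' < c)
    (cut : ∀ x y, nrm x ≤ mM → c ≤ nrm y → ¬ Conn (OF \ {v, v'}) x y)
    (hex : ∃ k, t1 ≤ k ∧ k ≤ t3 ∧ c ≤ nrm (h k)) :
    ∃ kb, t1 ≤ kb ∧ kb ≤ t3 ∧ h kb = v ∧
      ∀ k, t1 ≤ k → k ≤ kb → Conn (OF ∩ Ball 0 (c - 1)) (h t1) (h k) := by
  classical
  obtain ⟨q1, q2, q3⟩ := Nat.find_spec hex
  obtain ⟨τ, hτ⟩ : ∃ τ, τ = Nat.find hex := ⟨_, rfl⟩
  rw [← hτ] at q1 q2 q3
  have hmin : ∀ k, t1 ≤ k → k < τ → nrm (h k) < c := by
    intro k k1 k2
    by_contra hc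
    exact Nat.find_min hex (hτ ▸ k2) ⟨k1, by omega, not_lt.1 hc⟩
  have hN := H.t3N
  have hin : ∀ k, t1 ≤ k → k < τ → Conn (OF ∩ Ball 0 (c - 1)) (h t1) (h k) := by
    intro k k1 k2
    refine conn_seg k1 (fun i _ i2 => H.adj i (by omega)) fun i i1 i2 => ⟨H.op i i1 (by omega), ?_⟩
    rw [mem_ball0]
    have := hmin i i1 (by omega)
    omega
  by_cases hv : ∃ k, t1 ≤ k ∧ k ≤ τ ∧ h k = v
  · obtain ⟨k, k1, k2, k3⟩ := hv
    have hkτ : k < τ := by
      rcases Nat.eq_or_lt_of_le k2 with e | e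
      · have h1 := H.nv'
        rw [← k3, e] at h1
        omega
      · exact e
    exact ⟨k, k1, by omega, k3, fun i i1 i2 => hin i i1 (by omega)⟩
  · exfalso
    push Not at hv
    refine cut (h t1) (h τ) H.nu' q3 (conn_seg q1 (fun i _ i2 => H.adj i (by omega))
      fun i i1 i2 => ⟨H.op i i1 (by omega), ?_⟩)
    rintro (e | e)
    · exact hv i i1 i2 e
    · change h i = v' at e
      rcases Nat.eq_or_lt_of_le i2 with e' | e'
      · rw [← e, e'] at nv'
        omega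
      · exact H.cv' (e ▸ hin i i1 e')

/-- (6d): the last visit of the ball of radius `rho` before `kb`. -/
theorem EndIn.visit (H : EndIn OF O' O X Y U r rho rm n2 mM c R h N t1 t3 v v')
    (hrho : rho < n2) (hr : r ≤ rho) (hcR : c ≤ R) (k1 : t1 ≤ kb) (k2 : kb ≤ t3) (k3 : h kb = v)
    (hk : ∀ k, t1 ≤ k → k ≤ kb → Conn (OF ∩ Ball 0 (c - 1)) (h t1) (h k)) (hn2 : n2 ≤ mM) :
    ∃ w1, t1 < w1 ∧ w1 < kb ∧ nrm (h w1) = rho ∧ (∀ i, w1 < i → i ≤ kb → rho < nrm (h i)) ∧
      ∀ i, w1 ≤ i → i ≤ kb → h i ∈ Y ∧ h i ∈ O := by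
  have hN := H.t3N
  obtain ⟨i0, i1, i2, i3⟩ := H.key t1 kb le_rfl k1 k2 k3 H.uU hk
  have h1 := H.nu
  have h2 := H.nv
  have hi0 : i0 ≠ t1 := by
    rintro rfl
    omega
  have hi0' : i0 < kb := by
    rcases Nat.eq_or_lt_of_le i2 with e | e
    · rw [e, k3] at i3
      omega
    · exact e
  obtain ⟨w1, a1, a2, a3, a4⟩ := hit_up_last (fun i => nrm (h i)) (n := rho) (s := i0) (t := kb)
    i2 (fun i _ i5 => (nrm_st H.adj (by omega : i < N)).2) i3 (by
      rw [k3]
      omega)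
  have a3' : nrm (h w1) = rho := a3
  have hw1 : w1 < kb := by
    rcases Nat.eq_or_lt_of_le a2 with e | e
    · rw [e, k3] at a3'
      omega
    · exact e
  have hO : ∀ i, w1 ≤ i → i ≤ kb → h i ∈ O := by
    intro i j1 j2
    rcases H.sa _ (hk i (by omega) j2) with e | e | e
    · exact H.OO e
    · exfalso
      obtain ⟨q, q1, q2, q3⟩ := H.key i kb (by omega) j2 k2 k3 e hk
      rcases Nat.eq_or_lt_of_le (j1.trans q1) with e' | e'
      · have hq : i = w1 := by omega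
        have h5 := H.UR _ e
        rw [hq] at h5
        omega
      · have h5 : rho < nrm (h q) := a4 q e' q2
        omega
    · exfalso
      rcases Nat.eq_or_lt_of_le j1 with e' | e'
      · rw [← e'] at e
        omega
      · have h5 : rho < nrm (h i) := a4 i e' j2
        omega
  have hB : ∀ i, t1 ≤ i → i ≤ kb → nrm (h i) ≤ R := by
    intro i j1 j2
    have h3 := mem_ball0.1 (hk i j1 j2).right.2
    omega
  refine ⟨w1, by omega, hw1, a3', a4, fun i j1 j2 => ⟨?_, hO i j1 j2⟩⟩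
  have hc : Conn (O ∩ Ann 0 r R) (h i) (h kb) := conn_seg j2
    (fun k _ l2 => H.adj k (by omega)) fun k l1 l2 => ⟨hO k (by omega) l2, by
      change r ≤ nrm (h k - 0) ∧ nrm (h k - 0) ≤ R
      rw [sub_zero]
      refine ⟨?_, hB k (by omega) l2⟩
      rcases Nat.eq_or_lt_of_le (j1.trans l1) with e' | e'
      · rw [← e', a3']
        exact hr
      · have h5 : rho < nrm (h k) := a4 k e' l2
        omega⟩
  refine closed_conn (T := O ∩ Ann 0 r R) (fun z hz z' hz' hzz => ?_) H.vY (k3 ▸ hc.symm)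
  have h6 : r ≤ nrm (z' - 0) ∧ nrm (z' - 0) ≤ R := hz'.2
  rw [sub_zero] at h6
  exact H.clY z hz z' hz'.1 h6.1 h6.2 hzz

/-- (6e): the first excursion. -/
theorem EndIn.start (H : EndIn OF O' O X Y U r rho rm n2 mM c R h N t1 t3 v v')
    (hrr : rho < rm) (hrn : rm < n2) :
    ∃ w0 al, w0 < al ∧ al < t1 ∧ nrm (h w0) = rho ∧ nrm (h al) = rm ∧
      (∀ i, w0 < i → i ≤ t1 → rho < nrm (h i)) := by
  have hN := H.t3N
  have h13 := H.t13
  have h1 := H.nu
  have h2 := H.n0
  obtain ⟨al, a1, a2, a3, a4⟩ := hit_up_last (fun i => nrm (h i)) (n := rm) (s := 0) (t := t1)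
    (Nat.zero_le _) (fun i _ i5 => (nrm_st H.adj (by omega : i < N)).2)
    (by omega) (by omega)
  have a3' : nrm (h al) = rm := a3
  have hal : al < t1 := by
    rcases Nat.eq_or_lt_of_le a2 with e | e
    · rw [e] at a3'
      omega
    · exact e
  obtain ⟨w0, b1, b2, b3, b4⟩ := hit_up_last (fun i => nrm (h i)) (n := rho) (s := 0) (t := al)
    (Nat.zero_le _) (fun i _ i5 => (nrm_st H.adj (by omega : i < N)).2)
    (by omega) (by omega)
  have b3' : nrm (h w0) = rho := b3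
  have hw0 : w0 < al := by
    rcases Nat.eq_or_lt_of_le b2 with e | e
    · rw [e] at b3'
      omega
    · exact e
  refine ⟨w0, al, hw0, hal, b3', a3', fun i i1 i2 => ?_⟩
  rcases Nat.lt_or_ge al i with e | e
  · have h5 : rm < nrm (h i) := a4 i e i2
    omega
  · exact b4 i i1 e

/-- A connection to distance `m` in the ball of radius `m`. -/
theorem conn_to {z : V} (hx : nrm (x - z) ≤ m) (hy : m ≤ nrm (y - z)) (hc : Conn O x y) :
    ∃ y', m ≤ nrm (y' - z) ∧ Conn (O ∩ Ball z m) x y' := by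
  rcases lt_or_ge (nrm (y - z)) (m + 1) with e | e
  · by_cases hB : Conn (O ∩ Ball z m) x y
    · exact ⟨y, hy, hB⟩
    · by_cases hx' : nrm (x - z) = m
      · exact ⟨x, hx'.ge, Conn.refl ⟨hc.left, hx⟩⟩
      · obtain ⟨p, q, hp, hq, hpq, h1, h2⟩ := hc.exit (A := {w : V | nrm (w - z) < m})
          (by change nrm (x - z) < m; omega) (by change ¬ nrm (y - z) < m; omega)
        have hp' : nrm (p - z) < m := hp
        have hq' : ¬ nrm (q - z) < m := hq
        have h3 := abs_le.1 (nrm_adj hpq z)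
        have h4 : Conn (O ∩ Ball z m) x p := h1.mono fun w hw =>
          ⟨hw.1, le_of_lt (show nrm (w - z) < m from hw.2)⟩
        exact ⟨q, by omega, h4.trans (Conn.of_adj h4.right
          ⟨h2.left, show nrm (q - z) ≤ m by omega⟩ hpq)⟩
  · obtain ⟨p, q, hp, hq, hpq, h1, h2⟩ := hc.exit (A := {w : V | nrm (w - z) ≤ m})
      hx (by change ¬ nrm (y - z) ≤ m; omega)
    have hp' : nrm (p - z) ≤ m := hp
    have hq' : ¬ nrm (q - z) ≤ m := hq
    have h3 := abs_le.1 (nrm_adj hpq z)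
    exact ⟨p, by omega, h1⟩

/-- (6g): the margin. -/
theorem margin {z : V} (htm : t < m) (ht : 0 ≤ t) (hF : ¬ Four O z t m) (hz : z ∈ X)
    (hcl : ∀ z ∈ X, ∀ z' ∈ O, r ≤ nrm z' → nrm z' ≤ R → Adj z z' → z' ∈ X)
    (hr : r ≤ nrm z - m) (hR : nrm z + m ≤ R) (hx : Conn O z x) (nx : nrm x ≤ nrm z - m)
    (hyX : y ∉ X) (hy : Conn O y y') (ny : nrm y' ≤ nrm z - m) : t < nrm (y - z) := by
  by_contra hc
  have tri : ∀ w : V, nrm z - nrm w ≤ nrm (w - z) ∧ nrm w - nrm z ≤ nrm (w - z) := by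
    intro w
    have h1 := nrm_add (w - z) z
    have h2 := nrm_add (z - w) w
    have h3 := nrm_neg (w - z)
    rw [sub_add_cancel] at h1 h2
    rw [neg_sub] at h3
    constructor <;> linarith
  have hzz : nrm (z - z) = 0 := by
    rw [sub_self]
    exact nrm_zero_iff.2 rfl
  obtain ⟨x1, k1, k2⟩ := conn_to (z := z) (m := m) (by omega) (by
    have := (tri x).1
    omega) hx
  obtain ⟨y1, l1, l2⟩ := conn_to (z := z) (m := m) (by omega) (by
    have := (tri y').1
    omega) hy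
  by_cases hj : Conn (O ∩ Ball z m) z y
  · refine hyX (closed_conn (T := O ∩ Ball z m) (fun a ha b hb hab => ?_) hz hj)
    have h4 : nrm (b - z) ≤ m := hb.2
    have h5 := tri b
    exact hcl a ha b hb.1 (by omega) (by omega) hab
  · exact hF (four_of_conn (D := Ball z m) k2 l2 hj (by omega) k1 (by omega) l1 htm.le
      fun w hw => hw.2)

/-- (6b): between the two visits of the vertices of the cut `h` is far outside. -/
theorem mid_out (H : EndIn OF O' O X0 Y U r rho rm n2 mM c R h N t1 t3 v v')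
    (nv' : nrm v' < c) (cut : ∀ x y, nrm x ≤ mM → c ≤ nrm y → ¬ Conn (OF \ {v, v'}) x y)
    (k1 : t1 ≤ kb) (k3 : h kb = v) (l2 : kb' ≤ t3) (l3 : h kb' = v') (hkk : kb < kb')
    (hk : ∀ k, t1 ≤ k → k ≤ kb → Conn (OF ∩ Ball 0 (c - 1)) (h t1) (h k)) {k : ℕ}
    (hkb : kb < k) (hkb' : k < kb') : mM < nrm (h k) := by
  by_contra hc
  rw [not_lt] at hc
  have hN := H.t3N
  have hne : ∀ i, kb < i → i < kb' → h i ∈ OF \ {v, v'} := by
    intro i i1 i2
    refine ⟨H.op i (by omega) (by omega), ?_⟩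
    rintro (e | e)
    · rw [← k3] at e
      have := H.inj i kb (by omega) (by omega) e
      omega
    · change h i = v' at e
      rw [← l3] at e
      have := H.inj i kb' (by omega) (by omega) e
      omega
  have hA : ∀ j, kb < j → j < kb' → nrm (h j) < c := by
    intro j j1 j2
    by_contra hj
    rw [not_lt] at hj
    rcases le_total j k with e | e
    · exact cut (h k) (h j) hc hj (conn_seg e (fun i _ i2 => H.adj i (by omega))
        fun i i1 i2 => hne i (by omega) (by omega)).symm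
    · exact cut (h k) (h j) hc hj (conn_seg e (fun i _ i2 => H.adj i (by omega))
        fun i i1 i2 => hne i (by omega) (by omega))
  have hB : ∀ i, t1 ≤ i → i < kb' → h i ∈ OF ∩ Ball 0 (c - 1) := by
    intro i i1 i2
    rcases Nat.lt_or_ge kb i with e | e
    · refine ⟨H.op i i1 (by omega), ?_⟩
      rw [mem_ball0]
      have := hA i e i2
      omega
    · exact (hk i i1 e).right
  refine H.cv' (l3 ▸ conn_seg (by omega) (fun i _ i2 => H.adj i (by omega)) fun i i1 i2 => ?_)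
  rcases Nat.eq_or_lt_of_le i2 with e | e
  · rw [e]
    refine ⟨H.op kb' (by omega) l2, ?_⟩
    rw [mem_ball0, l3]
    omega
  · exact hB i i1 e

/-- **The tree path has the strong pattern.** -/
theorem path_ps {e a b : ℝ} {ω : Lab} (hω : MSTLim.TreePath ω h N)
    (H : EndIn OF O' O X0 Y U r rho rm n2 mM c R h N t1 t3 v v')
    (H' : EndIn OF O' O X3 Y' U' r rho rm n2 mM c R (fun k => h (N - k)) N (N - t3) (N - t1) v' v)
    (cut : ∀ x y, nrm x ≤ mM → c ≤ nrm y → ¬ Conn (OF \ {v, v'}) x y)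
    (d0 : Disjoint X0 Y) (d0' : Disjoint X0 Y') (d3 : Disjoint X3 Y) (d3' : Disjoint X3 Y')
    (ord : ∀ x0 x3 y y', Cr (X0 ∩ O) rho n2 x0 → Cr (X3 ∩ O) rho n2 x3 → Cr (Y ∩ O) rho n2 y →
      Cr (Y' ∩ O) rho n2 y' → SepC rho y y' x0 x3)
    (mg : ∀ z, nrm z = rm → ¬ Four O z t m) (ht : 0 ≤ t) (htm : t < m) (hr : r ≤ rho)
    (hrr : rho < rm) (hrn : rm < n2) (hnM : n2 ≤ mM) (hcR : c ≤ R)
    (hm1 : rho + m ≤ rm) (hm2 : rm + m ≤ R) (hm3 : rm + t ≤ mM)
    (hρ : rho = ⌊3 / 2 * a⌋) (ha : 10 ≤ a) (hab : 2 * a < b) (hb : b ≤ rm) (hb' : rm ≤ b / e)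
    (heb : e * b ≤ t + 1) (n0 : nrm (h 0) ≤ a) (n3 : nrm (h N) ≤ a) : MSTLim.PS e ω a b := by
  have hN := H.t3N
  have h13 := H.t13
  have nvc' : nrm v' < c := H'.nv'
  have hex : ∃ k, t1 ≤ k ∧ k ≤ t3 ∧ c ≤ nrm (h k) := by
    by_contra hno
    push Not at hno
    refine H'.cv' ?_
    rw [show N - (N - t3) = t3 by omega]
    refine Conn.trans (Conn.symm ?_) H.cv
    refine conn_seg h13 (fun i _ i2 => H.adj i (by omega)) fun i i1 i2 => ⟨H.op i i1 i2, ?_⟩
    rw [mem_ball0]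
    have := hno i i1 i2
    omega
  obtain ⟨kb, k1, k2, k3, hk⟩ := H.exit_end nvc' cut hex
  obtain ⟨kc, l1, l2, l3, hl⟩ := H'.exit_end H.nv' (by rw [Set.pair_comm]; exact cut) (by
    obtain ⟨k, q1, q2, q3⟩ := hex
    refine ⟨N - k, by omega, by omega, ?_⟩
    rwa [show N - (N - k) = k by omega])
  obtain ⟨kb', hkb'⟩ : ∃ kb', kb' = N - kc := ⟨_, rfl⟩
  have l3' : h kb' = v' := by
    rw [hkb']
    exact l3
  have hkk : kb < kb' := by
    by_contra hc
    refine H.cv' ?_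
    have h5 := hk kb' (by omega) (by omega)
    rwa [l3'] at h5
  have hmid : ∀ k, kb < k → k < kb' → mM < nrm (h k) := fun k q1 q2 =>
    mid_out H nvc' cut k1 k3 (by omega) l3' hkk hk q1 q2
  obtain ⟨w1, a1, a2, a3, a4, a5⟩ := H.visit (by omega) hr hcR k1 k2 k3 hk hnM
  obtain ⟨w2', b1, b2, b3, b4, b5⟩ := H'.visit (by omega) hr hcR l1 l2 l3 hl hnM
  obtain ⟨w0, al, c1, c2, c3, c4, c5⟩ := H.start hrr hrn
  obtain ⟨w3', be', d1, d2, d3a, d4, d5⟩ := H'.start hrr hrn
  obtain ⟨w2, hw2⟩ : ∃ w2, w2 = N - w2' := ⟨_, rfl⟩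
  obtain ⟨w3, hw3⟩ : ∃ w3, w3 = N - w3' := ⟨_, rfl⟩
  obtain ⟨be, hbe⟩ : ∃ be, be = N - be' := ⟨_, rfl⟩
  change nrm (h (N - w2')) = rho at b3
  change nrm (h (N - w3')) = rho at d3a
  change nrm (h (N - be')) = rm at d4
  rw [← hw2] at b3
  rw [← hw3] at d3a
  rw [← hbe] at d4
  have b4' : ∀ i, kb' ≤ i → i < w2 → rho < nrm (h i) := by
    intro i i1 i2
    have h5 := b4 (N - i) (by omega) (by omega)
    change rho < nrm (h (N - (N - i))) at h5
    rwa [show N - (N - i) = i by omega] at h5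
  have b5' : ∀ i, kb' ≤ i → i ≤ w2 → h i ∈ Y' ∧ h i ∈ O := by
    intro i i1 i2
    have h5 := b5 (N - i) (by omega) (by omega)
    change h (N - (N - i)) ∈ Y' ∧ h (N - (N - i)) ∈ O at h5
    rwa [show N - (N - i) = i by omega] at h5
  have d5' : ∀ i, t3 ≤ i → i < w3 → rho < nrm (h i) := by
    intro i i1 i2
    have h5 := d5 (N - i) (by omega) (by omega)
    change rho < nrm (h (N - (N - i))) at h5
    rwa [show N - (N - i) = i by omega] at h5
  have g3 : ∀ i, t3 < i → i ≤ N → h i ∈ X3 ∧ h i ∈ O := by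
    intro i i1 i2
    have h5 := H'.g (N - i) (by omega)
    change h (N - (N - i)) ∈ X3 ∧ h (N - (N - i)) ∈ O at h5
    rwa [show N - (N - i) = i by omega] at h5
  have nu3 : n2 < nrm (h t3) := by
    have h5 := H'.nu
    change n2 < nrm (h (N - (N - t3))) at h5
    rwa [show N - (N - t3) = t3 by omega] at h5
  have nu3' : nrm (h t3) ≤ mM := by
    have h5 := H'.nu'
    change nrm (h (N - (N - t3))) ≤ mM at h5
    rwa [show N - (N - t3) = t3 by omega] at h5
  have hadj := H.adj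
  -- the connections
  have cO : ∀ {s q : ℕ} (_ : s ≤ q) (_ : q ≤ N) (_ : ∀ i, s ≤ i → i ≤ q → h i ∈ O),
      Conn O (h s) (h q) := fun {s q} s1 s2 s3 =>
    conn_seg s1 (fun i _ i2 => hadj i (by omega)) s3
  have e0 : Conn O (h al) (h 0) := (cO (Nat.zero_le al) (by omega) fun i _ i2 =>
    (H.g i (by omega)).2).symm
  have e3 : Conn O (h be) (h N) := cO (by omega) le_rfl fun i i1 i2 => (g3 i (by omega) i2).2
  have hn0 : nrm (h 0) ≤ rho := H.n0
  have hn3 : nrm (h N) ≤ rho := by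
    have h5 := H'.n0
    change nrm (h (N - 0)) ≤ rho at h5
    rwa [Nat.sub_zero] at h5
  have xal := (H.g al c2).1
  have xbe := (g3 be (by omega) (by omega)).1
  have dj : ∀ {S T : Set V} {z : V}, Disjoint S T → z ∈ T → z ∉ S := fun hST hz hz' =>
    Set.disjoint_left.1 hST hz' hz
  have tri : ∀ w z : V, nrm w - nrm z ≤ nrm (w - z) := by
    intro w z
    have h1 := nrm_add (w - z) z
    rw [sub_add_cancel] at h1
    linarith
  have clX3 := H'.clX
  have hmarg : ∀ k, w1 ≤ k → k ≤ w2 → t < nrm (h k - h al) ∧ t < nrm (h k - h be) := by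
    intro k q1 q2
    rcases Nat.lt_or_ge kb k with e | e
    · rcases Nat.lt_or_ge k kb' with e' | e'
      · have h5 := hmid k e e'
        have h6 := tri (h k) (h al)
        have h7 := tri (h k) (h be)
        omega
      · have hy := (b5' k e' q2).1
        have hc : Conn O (h k) (h w2) := cO q2 (by omega) fun i i1 i2 => (b5' i (by omega) i2).2
        exact ⟨margin htm ht (mg _ c4) xal H.clX (by omega) (by omega) e0 (by omega)
            (dj d0' hy) hc (by omega),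
          margin htm ht (mg _ d4) xbe clX3 (by omega) (by omega) e3 (by omega)
            (dj d3' hy) hc (by omega)⟩
    · have hy := (a5 k q1 e).1
      have hc : Conn O (h k) (h w1) := (cO q1 (by omega) fun i i1 i2 =>
        (a5 i i1 (by omega)).2).symm
      exact ⟨margin htm ht (mg _ c4) xal H.clX (by omega) (by omega) e0 (by omega)
          (dj d0 hy) hc (by omega),
        margin htm ht (mg _ d4) xbe clX3 (by omega) (by omega) e3 (by omega)
          (dj d3 hy) hc (by omega)⟩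
  -- the order
  have hord : SepC rho (h w1) (h w2) (h w0) (h w3) := by
    refine ord _ _ _ _ ⟨c3, h (t1 - 1), ?_, ?_⟩ ⟨d3a, h (t3 + 1), ?_, ?_⟩ ⟨a3, h kb, ?_, ?_⟩
      ⟨b3, h kb', ?_, ?_⟩
    · have h5 := (nrm_st hadj (i := t1 - 1) (by omega)).2
      rw [show t1 - 1 + 1 = t1 by omega] at h5
      have := H.nu
      omega
    · refine conn_seg (by omega) (fun i _ i2 => hadj i (by omega)) fun i i1 i2 =>
        ⟨H.g i (by omega), ?_⟩
      rcases Nat.eq_or_lt_of_le i1 with e | e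
      · rw [← e]
        exact c3.ge
      · exact (c5 i e (by omega)).le
    · have h5 := (nrm_st hadj (i := t3) (by omega)).1
      omega
    · refine Conn.symm (conn_seg (by omega) (fun i _ i2 => hadj i (by omega)) fun i i1 i2 =>
        ⟨g3 i (by omega) (by omega), ?_⟩)
      rcases Nat.eq_or_lt_of_le i2 with e | e
      · rw [e]
        exact d3a.ge
      · exact (d5' i (by omega) e).le
    · rw [k3]
      have := H.nv
      omega
    · refine conn_seg (by omega) (fun i _ i2 => hadj i (by omega)) fun i i1 i2 =>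
        ⟨a5 i i1 i2, ?_⟩
      rcases Nat.eq_or_lt_of_le i1 with e | e
      · rw [← e]
        exact a3.ge
      · exact (a4 i e i2).le
    · rw [l3']
      have := H'.nv
      omega
    · refine Conn.symm (conn_seg (by omega) (fun i _ i2 => hadj i (by omega)) fun i i1 i2 =>
        ⟨b5' i i1 i2, ?_⟩)
      rcases Nat.eq_or_lt_of_le i2 with e | e
      · rw [e]
        exact b3.ge
      · exact (b4' i i1 e).le
  have heb' : ∀ {q : ℤ}, t < q → e * b ≤ (q : ℝ) := fun {q} hq => heb.trans (by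
    have h5 : t + 1 ≤ q := hq
    exact_mod_cast h5)
  have c4r : ((nrm (h al) : ℤ) : ℝ) = rm := by rw [c4]
  have d4r : ((nrm (h be) : ℤ) : ℝ) = rm := by rw [d4]
  refine MSTLim.ps_of_ord hω hρ ha hab (w0 := 0) (w0' := w0) (al := al) (u1 := al) (w1 := w1)
    (w2 := w2) (u3 := be) (be := be) (w3' := w3) (w3 := N) (Nat.zero_le _) c1 le_rfl (by omega)
    (by omega) (by omega) le_rfl (by omega) (by omega) le_rfl n0 n3 c3 a3 b3 d3a
    (fun k q1 q2 => c5 k q1 (by omega)) ?_ (fun k q1 q2 => d5' k (by omega) q2)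
    (by rw [c4r]; exact hb) (by rw [d4r]; exact hb) (by rw [c4r]; exact hb')
    (by rw [d4r]; exact hb') ?_ ?_ ?_ hord
  · intro k q1 q2
    rcases Nat.lt_or_ge kb k with e | e
    · rcases Nat.lt_or_ge k kb' with e' | e'
      · have := hmid k e e'
        omega
      · exact b4' k e' q2
    · exact a4 k q1 e
  · intro k q1 q2
    rw [show k = al by omega, c4r]
    linarith
  · intro k q1 q2
    rw [show k = be by omega, d4r]
    linarith
  · intro k q1 q2
    have h5 := hmarg k q1 q2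
    exact ⟨heb' h5.1, heb' h5.2⟩

end Pool.Agent.MSTS
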