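import Pool.Agent.MSTG.Defs

/-!
# Mixed four arms of the vertices of minimal cuts and bridges

`mx_of`: let `Z ⊆ Up`, let `p, q` be neighbours of `u` which are not joined in `Z` but joined in `Z`
to vertices at distance at least `dd u` from `u`.  If inside of a set `D ⊇ Ball u (dd u)` no vertex
of `Lo \ Z` is adjacent to the component of `p` in `Z`, then `Mx Lo Up u`.
-/

namespace Pool.Agent.MSTS

open Pool.Agent.TriPerc Pool.Agent.MST Pool.Agent.MSTG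

variable {Lo Up Z D : Set V} {u p q a b : V}

theorem nrm_self0 (u : V) : nrm (u - u) = 0 := by
  rw [sub_self]
  exact nrm_zero_iff.2 rfl

theorem nrm_adj1 {u v : V} (h : Adj u v) : nrm (v - u) ≤ 1 := by
  have h1 := (abs_le.1 (nrm_adj h u)).2
  rw [nrm_self0] at h1
  omega

/-- A connection to distance `d` inside of the ball of radius `d`. -/
theorem arm_ball {d : ℤ} (hp : nrm (p - u) < d) (ha : d ≤ nrm (a - u)) (h : Conn Z p a) :
    ∃ y, nrm (y - u) = d ∧ Conn (Z ∩ Ball u d) p y := by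
  obtain ⟨x, y, hx, hy, hxy, h1, h2⟩ := h.exit (A := {v : V | nrm (v - u) < d}) hp
    (not_lt.2 ha)
  have hx' : nrm (x - u) < d := hx
  have hy' : ¬ nrm (y - u) < d := hy
  have h3 := abs_le.1 (nrm_adj hxy u)
  have hyd : nrm (y - u) = d := by omega
  have h4 : Conn (Z ∩ Ball u d) p x := h1.mono fun v hv =>
    ⟨hv.1, le_of_lt (show nrm (v - u) < d from hv.2)⟩
  exact ⟨y, hyd, h4.trans (Conn.of_adj h4.right ⟨h2.left, hyd.le⟩ hxy)⟩

theorem mx_of (hu : 48 ≤ nrm u) (hZU : Z ⊆ Up) (hLU : Lo ⊆ Up) (hD : Ball u (dd u) ⊆ D)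
    (hp : Adj u p) (hq : Adj u q) (hcp : Conn Z p a) (hcq : Conn Z q b)
    (ha : dd u ≤ nrm (a - u)) (hb : dd u ≤ nrm (b - u)) (hno : ¬ Conn Z p q)
    (hcl : ∀ x y, Conn Z p x → x ∈ D → y ∈ Lo → y ∈ D → Adj x y → y ∈ Z) : Mx Lo Up u := by
  have hd : 3 ≤ dd u := by
    unfold dd
    omega
  have hp1 := nrm_adj1 hp
  have hq1 := nrm_adj1 hq
  obtain ⟨a', na', ca⟩ := arm_ball (by omega) ha hcp
  obtain ⟨b', nb', cb⟩ := arm_ball (by omega) hb hcq
  have hGU : EG (Z ∪ Lo) ≤ EG Up := eg_mono (Set.union_subset hZU hLU)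
  have hpm : p ∈ (Z ∪ Lo) ∩ D := ⟨Or.inl ca.left.1, hD ca.left.2⟩
  have hqm : q ∈ (Z ∪ Lo) ∩ D := ⟨Or.inl cb.left.1, hD cb.left.2⟩
  refine ⟨EG (Z ∪ Lo), eg_mono Set.subset_union_right, hGU, ?_⟩
  refine fg_of_reach (D := D) (u := p) (v := a') (u' := q) (v' := b')
    (eg_mono (Set.subset_univ _)) ?_ ?_ ?_ (by omega) na'.ge (by omega) nb'.ge (by omega)
    fun w hw => hD hw.2
  · rw [cut_eg, reach_eg hpm]
    exact ca.mono fun v hv => ⟨Or.inl hv.1, hD hv.2⟩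
  · rw [cut_eg, reach_eg hqm]
    exact cb.mono fun v hv => ⟨Or.inl hv.1, hD hv.2⟩
  · rw [cut_eg, reach_eg hpm]
    rintro ⟨-, hr⟩
    have key : ∀ y, Relation.ReflTransGen (fun x y => Adj x y ∧ y ∈ (Z ∪ Lo) ∩ D) p y →
        y ∈ D ∧ Conn Z p y := by
      intro y hy
      induction hy with
      | refl => exact ⟨hpm.2, Conn.refl ca.left.1⟩
      | @tail x y _ hxy ih =>
        obtain ⟨hadj, hy1, hy2⟩ := hxy
        have hyZ : y ∈ Z := by
          rcases hy1 with h | h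
          · exact h
          · exact hcl x y ih.2 ih.1 h hy2 hadj
        exact ⟨hy2, ih.2.trans (Conn.of_adj ih.2.right hyZ hadj)⟩
    exact hno (key q hr).2

/-- The case where `Z` contains all vertices of `Lo` in `D`. -/
theorem mx_of' (hu : 48 ≤ nrm u) (hZU : Z ⊆ Up) (hLU : Lo ⊆ Up) (hD : Ball u (dd u) ⊆ D)
    (hp : Adj u p) (hq : Adj u q) (hcp : Conn Z p a) (hcq : Conn Z q b)
    (ha : dd u ≤ nrm (a - u)) (hb : dd u ≤ nrm (b - u)) (hno : ¬ Conn Z p q)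
    (hLZ : Lo ∩ D ⊆ Z) : Mx Lo Up u :=
  mx_of hu hZU hLU hD hp hq hcp hcq ha hb hno fun _ _ _ _ h1 h2 _ => hLZ ⟨h1, h2⟩

end Pool.Agent.MSTS
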