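import Pool.Agent.MST.BrM
import Pool.Agent.MST.Corr
import Pool.Agent.MST.CorrK
import Pool.Agent.MSTS.Mx

/-!
# (S), section 4: the turn

`O` is the open set of the original configuration, `A = Ann 0 j1 j2`, `x0, x3, xa, x4` are vertices
of the outer circle `Cir j2` which are joined in `O ∩ A` to the inner circle, in different
components; `x0, x3` separate `xa` from `x4`.  The zone `Ann 0 m (2 m)` is blocked by `Up`.

`turn_K`: there are `U ⊆ (Up \ Lo) ∩ Ann 0 m (2 m)`, `U ⊆ As Lo Up`, and a connected set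
`K ⊆ Lo ∪ U` with `U ⊆ K`, contained in `Ann 0 a b` and in the corridor
`Th = comp (A \ (CX0 ∪ CX3)) xa`, which is adjacent to `CX0` and to `CX3` and is met by every
crossing of `A` off `CX0 ∪ CX3` which starts on the side of `xa`.
-/

namespace Pool.Agent.MSTS

open Pool.Agent.TriPerc Pool.Agent.MST Pool.Agent.MSTG

variable {Lo Up O S G B0 B1 : Set V} {j1 a m b j2 n : ℤ} {x0 x3 xa x4 u u' v t y y' z : V}

/-- Exchange of a foot on the outer circle. -/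
theorem foot_out (hm : 1 ≤ m) (hmn : m ≤ n) (h0 : B0 ⊆ Ball 0 n) (h1 : B1 ⊆ Ball 0 n)
    (c0 : Conn B0 x0 y) (nx0 : nrm x0 = n) (ny : nrm y ≤ m) (c1 : Conn B1 x3 y')
    (nx3 : nrm x3 = n) (ny' : nrm y' ≤ m) (hG : G ⊆ Ann 0 m n) (hd : Disjoint (B0 ∪ B1) G)
    (nu : nrm u = n) (nv : nrm v = n) (huv : Conn G v u) (nt : nrm t = n) (ht0 : t ≠ x0)
    (ht3 : t ≠ x3) (h : SepC n x0 x3 v t) : SepC n x0 x3 u t := by
  have hn : 1 ≤ n := by omega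
  have h2 : ¬ SepC n x0 x3 v u := not_sep_conn hm hmn nx0 nx3 nv nu (Set.union_subset h0 h1)
    (c0.mono Set.subset_union_left) ny (c1.mono Set.subset_union_right) ny' hG huv hd
  have e0 : ∀ w ∈ G, w ≠ x0 := fun w hw e => Set.disjoint_left.1 hd (Or.inl c0.left) (e ▸ hw)
  have e3 : ∀ w ∈ G, w ≠ x3 := fun w hw e => Set.disjoint_left.1 hd (Or.inr c1.left) (e ▸ hw)
  rw [sep_iff hn nx0 nx3 nv nu (e0 v huv.left) (e3 v huv.left) (e0 u huv.right)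
    (e3 u huv.right)] at h2
  rw [sep_iff hn nx0 nx3 nv nt (e0 v huv.left) (e3 v huv.left) ht0 ht3] at h
  rw [sep_iff hn nx0 nx3 nu nt (e0 u huv.right) (e3 u huv.right) ht0 ht3]
  tauto

/-- Input of the turn. -/
structure TurnIn (Lo Up O : Set V) (j1 a m b j2 : ℤ) (x0 x3 xa x4 : V) : Prop where
  lo : Lo ⊆ O
  up : O ⊆ Up
  pos : 1 ≤ j1
  ja : j1 ≤ a
  am : 16 * a ≤ 15 * m
  mb : 17 * m ≤ 8 * b
  bj : b ≤ j2
  m48 : 48 ≤ m
  block : ¬ Arm Upᶜ 0 m (2 * m)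
  n0 : nrm x0 = j2
  n3 : nrm x3 = j2
  na : nrm xa = j2
  n4 : nrm x4 = j2
  c0 : ∃ y, nrm y = j1 ∧ Conn (O ∩ Ann 0 j1 j2) x0 y
  c3 : ∃ y, nrm y = j1 ∧ Conn (O ∩ Ann 0 j1 j2) x3 y
  ca : ∃ y, nrm y = j1 ∧ Conn (O ∩ Ann 0 j1 j2) xa y
  c4 : ∃ y, nrm y = j1 ∧ Conn (O ∩ Ann 0 j1 j2) x4 y
  h03 : ¬ Conn (O ∩ Ann 0 j1 j2) x0 x3
  h0a : ¬ Conn (O ∩ Ann 0 j1 j2) x0 xa
  h04 : ¬ Conn (O ∩ Ann 0 j1 j2) x0 x4
  h3a : ¬ Conn (O ∩ Ann 0 j1 j2) x3 xa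
  h34 : ¬ Conn (O ∩ Ann 0 j1 j2) x3 x4
  sep : SepC j2 x0 x3 xa x4

/-- The corridor. -/
def Th (O : Set V) (j1 j2 : ℤ) (x0 x3 xa : V) : Set V :=
  comp (Ann 0 j1 j2 \ (comp (O ∩ Ann 0 j1 j2) x0 ∪ comp (O ∩ Ann 0 j1 j2) x3)) xa

theorem comp_disj {T : Set V} {u v : V} (h : ¬ Conn T u v) : Disjoint (comp T u) (comp T v) := by
  rw [Set.disjoint_left]
  intro z hz hz'
  exact h (Conn.trans hz (Conn.symm hz'))

theorem comp_conn {T : Set V} {u v : V} (h : Conn T u v) : Conn (comp T u) u v := h.in_comp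

/-- A component on the other side keeps away from the corridor. -/
theorem TurnIn.away (h : TurnIn Lo Up O j1 a m b j2 x0 x3 xa x4) (nt : nrm t = j2)
    (ht : t ∈ O) (h0t : ¬ Conn (O ∩ Ann 0 j1 j2) x0 t) (h3t : ¬ Conn (O ∩ Ann 0 j1 j2) x3 t)
    (hsep : SepC j2 x0 x3 xa t) {u v : V} (hu : u ∈ Th O j1 j2 x0 x3 xa)
    (hv : v ∈ comp (O ∩ Ann 0 j1 j2) t) : u ≠ v ∧ ¬ Adj u v := by
  obtain ⟨y0, n0, c0⟩ := h.c0
  obtain ⟨y3, n3, c3⟩ := h.c3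
  have hj : j1 ≤ j2 := by
    have := h.ja
    have := h.am
    have := h.mb
    have := h.bj
    have := h.m48
    omega
  have hsub : ∀ s, comp (O ∩ Ann 0 j1 j2) s ⊆ Ann 0 j1 j2 := fun s v hv => (comp_subset hv).2
  have hB : ∀ s, comp (O ∩ Ann 0 j1 j2) s ⊆ Ball 0 j2 := fun s v hv =>
    mem_ball0.2 (mem_ann0.1 (hsub s hv)).2
  refine corr_out h.pos hj (hB x0) (hB x3) c0.in_comp h.n0 n0 c3.in_comp h.n3 n3 h.na (hsub t)
    isConn_comp ?_ (Conn.refl ⟨ht, mem_ann0.2 ⟨by omega, by omega⟩⟩) nt hsep hu hv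
  rw [Set.disjoint_union_right]
  exact ⟨(comp_disj h0t).symm, (comp_disj h3t).symm⟩

theorem TurnIn.hj (h : TurnIn Lo Up O j1 a m b j2 x0 x3 xa x4) : j1 ≤ j2 := by
  have := h.ja
  have := h.am
  have := h.mb
  have := h.bj
  have := h.m48
  omega

/-- Every vertex of the outer circle in the component of `v` is on the side of `v`. -/
theorem TurnIn.side (h : TurnIn Lo Up O j1 a m b j2 x0 x3 xa x4) (nv : nrm v = j2)
    (h0v : ¬ Conn (O ∩ Ann 0 j1 j2) x0 v) (h3v : ¬ Conn (O ∩ Ann 0 j1 j2) x3 v) (nu : nrm u = j2)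
    (hvu : Conn (O ∩ Ann 0 j1 j2) v u) (hsep : SepC j2 x0 x3 v x4) : SepC j2 x0 x3 u x4 := by
  obtain ⟨y0, n0, c0⟩ := h.c0
  obtain ⟨y3, n3, c3⟩ := h.c3
  obtain ⟨y4, n4, c4⟩ := h.c4
  have hB : ∀ s, comp (O ∩ Ann 0 j1 j2) s ⊆ Ball 0 j2 := fun s v hv =>
    mem_ball0.2 (mem_ann0.1 (comp_subset hv).2).2
  refine foot_out h.pos h.hj (hB x0) (hB x3) c0.in_comp h.n0 n0.le c3.in_comp h.n3 n3.le
    (G := comp (O ∩ Ann 0 j1 j2) v) (fun w hw => (comp_subset hw).2) ?_ nu nv hvu.in_comp h.n4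
    ?_ ?_ hsep
  · rw [Set.disjoint_union_left]
    exact ⟨comp_disj h0v, comp_disj h3v⟩
  · rintro rfl
    exact h.h04 (Conn.refl c4.left)
  · rintro rfl
    exact h.h34 (Conn.refl c4.left)

/-- A set `X`, all of whose vertices near the zone are in components of `x0`, `x3` or of vertices
on the other side, does not meet the corridor near the zone. -/
theorem TurnIn.off (h : TurnIn Lo Up O j1 a m b j2 x0 x3 xa x4) {X : Set V}
    (hX : ∀ v ∈ X, v ∈ Ann 0 a b → ∃ t, v ∈ comp (O ∩ Ann 0 j1 j2) t ∧ (t = x0 ∨ t = x3 ∨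
      (nrm t = j2 ∧ ¬ Conn (O ∩ Ann 0 j1 j2) x0 t ∧ ¬ Conn (O ∩ Ann 0 j1 j2) x3 t ∧
        SepC j2 x0 x3 xa t))) {v : V} (hv : v ∈ Th O j1 j2 x0 x3 xa) (hva : v ∈ Ann 0 a b) :
    v ∉ X := by
  intro hvX
  obtain ⟨t, hvt, rfl | rfl | ⟨nt, h0t, h3t, hsep⟩⟩ := hX v hvX hva
  · exact (comp_subset hv).2 (Or.inl hvt)
  · exact (comp_subset hv).2 (Or.inr hvt)
  · exact (h.away nt hvt.left.1 h0t h3t hsep hv hvt).1 rfl

/-- **The turn**. -/
theorem turn_K (h : TurnIn Lo Up O j1 a m b j2 x0 x3 xa x4) :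
    ∃ U K : Set V, U ⊆ (Up \ Lo) ∩ Ann 0 m (2 * m) ∧ U ⊆ As Lo Up ∧ IsConn K ∧ U ⊆ K ∧
      K ⊆ Lo ∪ U ∧ K ⊆ Ann 0 a b ∧ K ⊆ Th O j1 j2 x0 x3 xa ∧
      (∃ x ∈ comp (O ∩ Ann 0 j1 j2) x0, ∃ k ∈ K, Adj x k) ∧
      (∃ x ∈ comp (O ∩ Ann 0 j1 j2) x3, ∃ k ∈ K, Adj x k) ∧
      ∀ (S : Set V) (u u' : V), nrm u = j2 → nrm u' ≤ j1 → Conn S u u' → S ⊆ Ball 0 j2 →
        Disjoint S (comp (O ∩ Ann 0 j1 j2) x0 ∪ comp (O ∩ Ann 0 j1 j2) x3) →
        SepC j2 x0 x3 u x4 → ∃ z ∈ K, z ∈ S := by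
  have hja := h.ja
  have ham := h.am
  have hmb := h.mb
  have hbj := h.bj
  have h48 := h.m48
  have hj1 := h.pos
  have hj : j1 ≤ j2 := by omega
  obtain ⟨y0, n0, c0⟩ := h.c0
  obtain ⟨y3, n3, c3⟩ := h.c3
  obtain ⟨ya, na, ca⟩ := h.ca
  obtain ⟨y4, n4, c4⟩ := h.c4
  obtain ⟨C, hC⟩ : ∃ C : V → Set V, C = fun s => comp (O ∩ Ann 0 j1 j2) s := ⟨_, rfl⟩
  have hsub : ∀ s, C s ⊆ O ∩ Ann 0 j1 j2 := fun s => by
    rw [hC]
    exact comp_subset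
  have hsubA : ∀ s, C s ⊆ Ann 0 j1 j2 := fun s v hv => (hsub s hv).2
  have hB : ∀ s, C s ⊆ Ball 0 j2 := fun s v hv => mem_ball0.2 (mem_ann0.1 (hsubA s hv)).2
  have hconn : ∀ s, IsConn (C s) := fun s => by
    rw [hC]
    exact isConn_comp
  have hin : ∀ {s v : V}, Conn (O ∩ Ann 0 j1 j2) s v → Conn (C s) s v := fun h' => by
    rw [hC]
    exact h'.in_comp
  have hdj : ∀ {s t : V}, ¬ Conn (O ∩ Ann 0 j1 j2) s t → Disjoint (C s) (C t) := fun h' => by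
    rw [hC]
    exact comp_disj h'
  have hadj : ∀ {s x y : V}, x ∈ C s → y ∈ O ∩ Ann 0 j1 j2 → Adj x y → y ∈ C s := by
    intro s x y h1 h2 h3
    rw [hC] at h1 ⊢
    exact comp_adj h1 h2 h3
  obtain ⟨T, hT⟩ : ∃ T : Set V, T = Th O j1 j2 x0 x3 xa := ⟨_, rfl⟩
  have hTc : T = comp (Ann 0 j1 j2 \ (C x0 ∪ C x3)) xa := by
    rw [hT, hC]
    rfl
  rw [← hT]
  have hx0 : x0 ∈ C x0 := (hin c0).left
  have hx3 : x3 ∈ C x3 := (hin c3).left
  -- the corridor contains a crossing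
  have hxa : Conn (Ann 0 j1 j2 \ (C x0 ∪ C x3)) xa ya := (hin ca).mono fun v hv =>
    ⟨hsubA xa hv, fun hv' => hv'.elim (fun h' => Set.disjoint_left.1 (hdj h.h0a) h' hv)
      fun h' => Set.disjoint_left.1 (hdj h.h3a) h' hv⟩
  have hno03 : ¬ Conn (C x0 ∪ C x3) x0 x3 := fun h' => h.h03
    (h'.mono (Set.union_subset (hsub x0) (hsub x3)))
  -- the bridge
  have hbr : Conn (C x0 ∪ C x3 ∪ ((Up ∩ Ann 0 m (2 * m)) ∩ T)) x0 x3 := by
    rw [hTc]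
    refine bridge h.pos hj (hsubA x0) (hsubA x3) (hconn x0) (hconn x3) hx0 h.n0 hx3 h.n3
      (hin c0).right n0 (hin c3).right n3 h.na na hxa fun y y' ny ny' hyy => h.block ?_
    have h1 : Conn ((Up ∩ Ann 0 m (2 * m))ᶜ) y' y := (hyy.mono fun v hv => hv.2).symm
    obtain ⟨z, hz, z', hz', hc⟩ := arm_of_conn (z := 0) (n := m) (m := 2 * m) h1
      (by rw [sub_zero]; omega) (by rw [sub_zero]; omega) (by omega)
    exact ⟨z, hz, z', hz', hc.mono fun v hv => ⟨fun hv' => hv.1 ⟨hv', hv.2⟩, hv.2⟩⟩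
  -- a minimal set
  obtain ⟨W, hWC, hW, hmin⟩ := exists_min_bridge
    (O := C x0 ∪ C x3 ∪ (Lo ∩ Ann 0 a b ∩ T)) (C := (Up \ Lo) ∩ Ann 0 m (2 * m) ∩ T)
    (a := x0) (b := x3) (((finite_ann 0 m (2 * m)).subset fun v hv => hv.1.2)) (hbr.mono (by
      rintro v (hv | ⟨⟨hv1, hv2⟩, hv3⟩)
      · exact Or.inl (Or.inl hv)
      · by_cases hL : v ∈ Lo
        · refine Or.inl (Or.inr ⟨⟨hL, ?_⟩, hv3⟩)
          have := mem_ann0.1 hv2
          exact mem_ann0.2 ⟨by omega, by omega⟩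
        · exact Or.inr ⟨⟨⟨hv1, hL⟩, hv2⟩, hv3⟩))
  have hWT : W ⊆ T := fun v hv => (hWC hv).2
  -- the core
  obtain ⟨K, hKS, hKc, hKd, ⟨p0, hp0, k0, hk0, hpk0⟩, ⟨p3, hp3, k3, hk3, hpk3⟩, hKb⟩ :=
    bridge_core (S := (Lo ∩ Ann 0 a b ∩ T) ∪ W) (hconn x0) (hconn x3) hx0 hx3
      (hW.mono (by
        rintro v ((hv | hv) | hv)
        · exact Or.inl hv
        · exact Or.inr (Or.inl hv)
        · exact Or.inr (Or.inr hv))) hno03
  have hWK : W ⊆ K := by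
    intro v hv
    by_contra hvK
    refine hmin v hv (hKb.mono ?_)
    rintro w (hw | hw)
    · exact Or.inl (Or.inl hw)
    · rcases hKS hw with hw' | hw'
      · exact Or.inl (Or.inr hw')
      · exact Or.inr ⟨hw', fun e => hvK ((show w = v from e) ▸ hw)⟩
  have hWann : ∀ v ∈ W, m ≤ nrm v ∧ nrm v ≤ 2 * m := fun v hv => mem_ann0.1 (hWC hv).1.2
  have hKT : K ⊆ T := fun v hv => by
    rcases hKS hv with hv' | hv'
    · exact hv'.2
    · exact hWT hv'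
  have hKab : K ⊆ Ann 0 a b := fun v hv => by
    rcases hKS hv with hv' | hv'
    · exact hv'.1.2
    · have := hWann v hv'
      exact mem_ann0.2 ⟨by omega, by omega⟩
  have hKA : K ⊆ Ann 0 j1 j2 := fun v hv => by
    have := mem_ann0.1 (hKab hv)
    exact mem_ann0.2 ⟨by omega, by omega⟩
  refine ⟨W, K, fun v hv => (hWC hv).1, ?_, hKc, hWK, ?_, hKab, hKT, ⟨p0, ?_, k0, hk0, hpk0⟩,
    ⟨p3, ?_, k3, hk3, hpk3⟩, ?_⟩
  · intro u hu
    have hua := hWann u hu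
    have hZ : C x0 ∪ C x3 ∪ (Lo ∩ Ann 0 a b ∩ T) ∪ (W \ {u}) ⊆ Up := by
      rintro v (((hv | hv) | hv) | hv)
      · exact h.up (hsub x0 hv).1
      · exact h.up (hsub x3 hv).1
      · exact h.up (h.lo hv.1.1)
      · exact (hWC hv.1).1.1.1
    obtain ⟨⟨p, hup, cp⟩, q, huq, cq⟩ := MSTG.hit
      (S := C x0 ∪ C x3 ∪ (Lo ∩ Ann 0 a b ∩ T) ∪ (W \ {u})) (u := u) (x := x0) (y := x3)
      (Or.inl (Or.inl (Or.inl hx0))) (Or.inl (Or.inl (Or.inr hx3))) (hmin u hu) (hW.mono (by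
        rintro v (hv | hv)
        · exact Or.inr (Or.inl hv)
        · by_cases e : v = u
          · exact Or.inl e
          · exact Or.inr (Or.inr ⟨hv, e⟩)))
    have hdist : ∀ x : V, nrm x = j2 → dd u ≤ nrm (x - u) := by
      intro x nx
      have h1 := nrm_add (x - u) u
      rw [sub_add_cancel] at h1
      unfold dd
      omega
    refine ⟨(hWC hu).1.1.1, (hWC hu).1.1.2, mx_of (D := Ann 0 a b) (by omega) hZ
      (h.lo.trans h.up) ?_ hup huq cp.symm cq.symm (hdist x0 h.n0) (hdist x3 h.n3)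
      (fun hpq => hmin u hu (cp.trans (hpq.trans cq.symm))) ?_⟩
    · intro v hv
      have hv' : nrm (v - u) ≤ dd u := hv
      unfold dd at hv'
      have h1 := nrm_add (v - u) u
      have h2 := nrm_add (-(v - u)) v
      rw [sub_add_cancel] at h1
      rw [nrm_neg, neg_sub, sub_add_cancel] at h2
      exact mem_ann0.2 ⟨by omega, by omega⟩
    · intro x y hx hxD hy hyD hxy
      have hyA : y ∈ Ann 0 j1 j2 := by
        have := mem_ann0.1 hyD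
        exact mem_ann0.2 ⟨by omega, by omega⟩
      have hxT : x ∈ T → y ∉ C x0 ∪ C x3 → y ∈ T := by
        intro h1 h2
        rw [hTc] at h1 ⊢
        exact comp_adj h1 ⟨hyA, h2⟩ hxy
      by_cases hyC : y ∈ C x0 ∪ C x3
      · exact Or.inl (Or.inl hyC)
      · rcases hx.right with ((hv | hv) | hv) | hv
        · exact absurd (Or.inl (hadj hv ⟨h.lo hy, hyA⟩ hxy)) hyC
        · exact absurd (Or.inr (hadj hv ⟨h.lo hy, hyA⟩ hxy)) hyC
        · exact Or.inl (Or.inr ⟨⟨hy, hyD⟩, hxT hv.2 hyC⟩)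
        · exact Or.inl (Or.inr ⟨⟨hy, hyD⟩, hxT (hWT hv.1) hyC⟩)
  · intro v hv
    rcases hKS hv with hv' | hv'
    · exact Or.inl hv'.1.1
    · exact Or.inr hv'
  · rw [hC] at hp0
    exact hp0
  · rw [hC] at hp3
    exact hp3
  · intro S u u' nu nu' hS hSB hSd hsep
    have hKC4 : Disjoint (C x4) (C x0 ∪ C x3 ∪ K) := by
      rw [Set.disjoint_union_right, Set.disjoint_union_right]
      refine ⟨⟨(hdj h.h04).symm, (hdj h.h34).symm⟩, ?_⟩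
      rw [Set.disjoint_left]
      intro v hv hvK
      rw [hC] at hv
      exact (h.away h.n4 c4.left.1 h.h04 h.h34 h.sep (hT ▸ hKT hvK) hv).1 rfl
    refine hit_core h.pos hj (hsubA x0) (hsubA x3) hKA h.n0 h.n3 hKb nu hS nu' hSB ?_ h.n4
      (hin c4) n4.le (hB x4) hKC4 hsep
    rw [hC]
    exact hSd

end Pool.Agent.MSTS
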