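import Pool.Agent.MST.EFw
import Pool.Agent.MSTS.TurnK

/-!
# (S), section 4: the turn for the witnesses of `E_F`

* `efz_flip`: the witnesses in the order `3, 4, 5, 0, 1, 2`.
* `Cl f r R z k`: the component of `z k` in `O ∩ Ann 0 r R`.
* `cl_loc`: a vertex of `Cl f r R z k` in the middle of an annulus `Ann 0 j1 j2`, which is clean near
  both ends, is joined in `O ∩ Ann 0 j1 j2` to a witness of the same group.
* `turn_half`: the sets `U12, K` (section 4 of the text).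
-/

namespace Pool.Agent.MSTS

open Pool.Agent.TriPerc Pool.Agent.MST Pool.Agent.MSTG

variable {f : Lab} {z z' : Fin 6 → V} {p : ℝ} {m n r R j1 j2 s s' a b : ℤ} {v : V}
  {Lo Up : Set V}

/-- The witnesses in the order `3, 4, 5, 0, 1, 2`. -/
theorem efz_flip (h : EFz p m n f z) : EFz p m n f fun k => z (k + 3) := by
  obtain ⟨h1, h2, h3, h4, h5, h6, h7, h8, h9⟩ := h
  refine ⟨fun i => h1 _, fun i => h2 _, h4, h3, fun i j hij => h5 _ _ ?_, ?_, ?_, ?_, ?_⟩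
  · revert hij
    revert i j
    decide
  · exact sep_symm (sep_comm h6)
  · exact sep_symm (sep_comm h8)
  · exact sep_symm (sep_comm h7)
  · exact sep_symm (sep_comm h9)

theorem grp_flip (k k' : Fin 6) : grp (k + 3) = grp (k' + 3) ↔ grp k = grp k' := by
  revert k k'
  decide

/-- The cluster of `z k`. -/
def Cl (f : Lab) (r R : ℤ) (z : Fin 6 → V) (k : Fin 6) : Set V := comp (Op 0 f ∩ Ann 0 r R) (z k)

/-- Localisation of the clusters. -/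
theorem cl_loc (hf : Function.Injective f) (h1 : 1 ≤ j1) (hr : r ≤ j1) (h2 : j1 < s) (h3 : s ≤ s')
    (h4 : s' < j2) (hR : j2 ≤ R) (hE : EFz 0 r R f z) (hE' : EFz 0 j1 j2 f z')
    (hzz : ∀ k, Conn (Op 0 f ∩ Ann 0 (j1 + 1) R) (z k) (z' k)) (hc1 : Clean 0 j1 s f)
    (hc2 : Clean 0 s' j2 f) {k : Fin 6} (hv : v ∈ Cl f r R z k) (n1 : s ≤ nrm v)
    (n2 : nrm v ≤ s') :
    ∃ k', grp k' = grp k ∧ Conn (Op 0 f ∩ Ann 0 j1 j2) (z' k') v := by
  have hv' : Conn (Op 0 f ∩ Ann 0 r R) (z k) v := hv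
  have hzz' : ∀ k, Conn (Op 0 f ∩ Ann 0 r R) (z k) (z' k) := fun k => (hzz k).mono (by
    rintro u ⟨hu1, hu2⟩
    have := mem_ann0.1 hu2
    exact ⟨hu1, mem_ann0.2 ⟨by omega, by omega⟩⟩)
  have nz := hE.1 k
  obtain ⟨x, y, hx, hy, hxy, c1, c2⟩ := hv'.symm.exit (A := {u | j1 < nrm u ∧ nrm u < j2})
    ⟨by omega, by omega⟩ (fun h => by
      have : nrm (z k) < j2 := h.2
      omega)
  have hx1 : j1 < nrm x := hx.1
  have hx2 : nrm x < j2 := hx.2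
  have h5 := abs_le.1 (nrm_adj hxy 0)
  rw [sub_zero, sub_zero] at h5
  have hy' : ¬ (j1 < nrm y ∧ nrm y < j2) := hy
  have hyA : y ∈ Op 0 f ∩ Ann 0 j1 j2 := ⟨c2.left.1, mem_ann0.2 ⟨by omega, by omega⟩⟩
  have c3 : Conn (Op 0 f ∩ Ann 0 j1 j2) v y := (c1.mono (by
    rintro u ⟨⟨hu1, -⟩, hu2⟩
    have h6 : j1 < nrm u := hu2.1
    have h7 : nrm u < j2 := hu2.2
    exact ⟨hu1, mem_ann0.2 ⟨h6.le, h7.le⟩⟩)).trans (Conn.of_adj (by
      refine ⟨c1.right.1.1, mem_ann0.2 ⟨by omega, by omega⟩⟩) hyA hxy)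
  -- the crossing
  have hcr : ∀ {α β : ℤ} {u : V}, j1 ≤ α → α < β → β ≤ j2 → Conn (Op 0 f ∩ Ann 0 j1 j2) v u →
      (nrm u ≤ α ∧ β ≤ nrm v ∨ nrm v ≤ α ∧ β ≤ nrm u) →
      ∃ t, Crs 0 α β f t ∧ Conn (Op 0 f ∩ Ann 0 j1 j2) v t := by
    intro α β u g1 g2 g3 hvu g4
    have harm : Arm (comp (Op 0 f ∩ Ann 0 j1 j2) v) 0 α β := by
      rcases g4 with ⟨g4, g5⟩ | ⟨g4, g5⟩
      · exact arm_of_conn hvu.in_comp.symm (by rwa [sub_zero]) (by rwa [sub_zero]) g2.le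
      · exact arm_of_conn hvu.in_comp (by rwa [sub_zero]) (by rwa [sub_zero]) g2.le
    obtain ⟨t', ht', t, ht, htt⟩ := harm
    have ht1 : nrm (t' - 0) ≤ α := ht'
    have ht2 : β ≤ nrm (t - 0) := ht
    rw [sub_zero] at ht1 ht2
    have e1 := mem_ann0.1 htt.left.2
    have e2 := mem_ann0.1 htt.right.2
    exact ⟨t, ⟨by omega, t', by omega, htt.symm.mono fun w hw => ⟨(comp_subset hw.1).1, hw.2⟩⟩,
      htt.right.1⟩
  have hmono : ∀ {α β : ℤ}, j1 ≤ α → β ≤ j2 →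
      Op 0 f ∩ Ann 0 α β ⊆ Op 0 f ∩ Ann 0 j1 j2 := by
    rintro α β g1 g2 u ⟨hu1, hu2⟩
    have := mem_ann0.1 hu2
    exact ⟨hu1, mem_ann0.2 ⟨by omega, by omega⟩⟩
  have hmono' : Op 0 f ∩ Ann 0 j1 j2 ⊆ Op 0 f ∩ Ann 0 r R := by
    rintro u ⟨hu1, hu2⟩
    have := mem_ann0.1 hu2
    exact ⟨hu1, mem_ann0.2 ⟨by omega, by omega⟩⟩
  by_cases hyj : j1 < nrm y
  · -- the outer end
    obtain ⟨t, ht, hvt⟩ := hcr (α := s') (β := j2) (by omega) h4 le_rfl c3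
      (Or.inr ⟨n2, by omega⟩)
    obtain ⟨k', hk', hkt⟩ := hc2.cl (m := r) (n := R) (z := z) (z' := z') (by omega) hR hE
      (efz_inner hf (by omega) h4 hE') hzz' ht (hv'.trans (hvt.mono hmono'))
    exact ⟨k', hk', (hkt.mono (hmono (by omega) le_rfl)).trans hvt.symm⟩
  · obtain ⟨t, ht, hvt⟩ := hcr (α := j1) (β := s) le_rfl h2 (by omega) c3
      (Or.inl ⟨by omega, n1⟩)
    obtain ⟨z'', hE'', hz''⟩ := efz_restr (m' := j1) (n' := s) hf h1 le_rfl h2 (by omega) hE'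
    have hz3 : ∀ k, Conn (Op 0 f ∩ Ann 0 j1 j2) (z' k) (z'' k) := fun k => (hz'' k).mono (by
      rintro u ⟨hu1, hu2⟩
      have := mem_ann0.1 hu2
      exact ⟨hu1, mem_ann0.2 ⟨by omega, by omega⟩⟩)
    obtain ⟨k', hk', hkt⟩ := hc1.cl (m := r) (n := R) (z := z) (z' := z'') hr (by omega) hE
      hE'' (fun k => (hzz' k).trans ((hz3 k).mono hmono')) ht (hv'.trans (hvt.mono hmono'))
    exact ⟨k', hk', ((hz3 k').trans (hkt.mono (hmono le_rfl (by omega)))).trans hvt.symm⟩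

/-- **Section 4** for the witnesses of `E_F`. -/
theorem turn_half (hf : Function.Injective f) (hlo : Lo ⊆ Op 0 f) (hup : Op 0 f ⊆ Up)
    (h1 : 1 ≤ j1) (hr : r ≤ j1) (h2 : j1 < s) (hsa : s ≤ a) (ham : 16 * a ≤ 15 * m)
    (hmb : 17 * m ≤ 8 * b) (hbs : b ≤ s') (h4 : s' < j2) (hR : j2 ≤ R)
    (h48 : 48 ≤ m) (hE : EFz 0 r R f z) (hc0 : Clean 0 j1 j2 f) (hc1 : Clean 0 j1 s f)
    (hc2 : Clean 0 s' j2 f) (hb : ¬ Arm Upᶜ 0 m (2 * m)) :
    ∃ U K : Set V, U ⊆ (Up \ Lo) ∩ Ann 0 m (2 * m) ∧ U ⊆ As Lo Up ∧ IsConn K ∧ U ⊆ K ∧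
      K ⊆ Lo ∪ U ∧ K ⊆ Ann 0 a b ∧
      (∀ k, grp k ≠ 1 → Disjoint K (Cl f r R z k)) ∧
      (∃ x ∈ Cl f r R z 0, ∃ k ∈ K, Adj x k) ∧ (∃ x ∈ Cl f r R z 3, ∃ k ∈ K, Adj x k) ∧
      ¬ Arm ((Cl f r R z 1 ∪ Cl f r R z 2) \ K) 0 j1 j2 := by
  obtain ⟨z', hE', hzz⟩ := efz_restr (m' := j1) (n' := j2) hf h1 hr (by omega) hR hE
  have hzz' : ∀ k, Conn (Op 0 f ∩ Ann 0 r R) (z k) (z' k) := fun k => (hzz k).mono (by
    rintro u ⟨hu1, hu2⟩
    have := mem_ann0.1 hu2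
    exact ⟨hu1, mem_ann0.2 ⟨by omega, by omega⟩⟩)
  have hmono' : Op 0 f ∩ Ann 0 j1 j2 ⊆ Op 0 f ∩ Ann 0 r R := by
    rintro u ⟨hu1, hu2⟩
    have := mem_ann0.1 hu2
    exact ⟨hu1, mem_ann0.2 ⟨by omega, by omega⟩⟩
  have hE2 := hE'
  obtain ⟨hn, hcr, -, -, hg, h14, h15, h24, h25⟩ := hE'
  have hT : TurnIn Lo Up (Op 0 f) j1 a m b j2 (z' 0) (z' 3) (z' 1) (z' 4) :=
    { lo := hlo
      up := hup
      pos := h1
      ja := by omega
      am := ham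
      mb := hmb
      bj := by omega
      m48 := h48
      block := hb
      n0 := hn 0
      n3 := hn 3
      na := hn 1
      n4 := hn 4
      c0 := hcr 0
      c3 := hcr 3
      ca := hcr 1
      c4 := hcr 4
      h03 := hg 0 3 (by decide)
      h0a := hg 0 1 (by decide)
      h04 := hg 0 4 (by decide)
      h3a := hg 3 1 (by decide)
      h34 := hg 3 4 (by decide)
      sep := h14 }
  obtain ⟨U, K, k1, k2, k3, k4, k5, k6, k7, ⟨x0, hx0, y0, hy0, a0⟩, ⟨x3, hx3, y3, hy3, a3⟩,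
    k8⟩ := turn_K hT
  have hcl : ∀ k, comp (Op 0 f ∩ Ann 0 j1 j2) (z' k) ⊆ Cl f r R z k := by
    intro k u hu
    exact (hzz' k).trans (Conn.mono hmono' hu)
  have g1 : grp 1 = 1 := rfl
  refine ⟨U, K, k1, k2, k3, k4, k5, k6, ?_, ⟨x0, hcl 0 hx0, y0, hy0, a0⟩,
    ⟨x3, hcl 3 hx3, y3, hy3, a3⟩, ?_⟩
  · intro k hk
    rw [Set.disjoint_left]
    intro v hv
    refine hT.off ?_ (k7 hv) (k6 hv)
    intro u hu hua
    have hua' := mem_ann0.1 hua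
    obtain ⟨k', hk', hu'⟩ := cl_loc hf h1 hr h2 (by omega) h4 hR hE hE2 hzz hc1 hc2 hu
      (by omega) (by omega)
    refine ⟨z' k', hu', ?_⟩
    have hk1 : grp k' ≠ 1 := hk' ▸ hk
    have key : k' = 0 ∨ k' = 3 ∨ k' = 4 ∨ k' = 5 := by
      clear * - hk1
      revert hk1
      revert k'
      decide
    rcases key with rfl | rfl | rfl | rfl
    · exact Or.inl rfl
    · exact Or.inr (Or.inl rfl)
    · exact Or.inr (Or.inr ⟨hn 4, hg 0 4 (by decide), hg 3 4 (by decide), h14⟩)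
    · exact Or.inr (Or.inr ⟨hn 5, hg 0 5 (by decide), hg 3 5 (by decide), h15⟩)
  · rintro ⟨x, hx, y, hy, hxy⟩
    have hx' : nrm (x - 0) ≤ j1 := hx
    have hy' : j2 ≤ nrm (y - 0) := hy
    rw [sub_zero] at hx' hy'
    have e1 := mem_ann0.1 hxy.left.2
    have e2 := mem_ann0.1 hxy.right.2
    have hO : ((Cl f r R z 1 ∪ Cl f r R z 2) \ K) ∩ Ann 0 j1 j2 ⊆ Op 0 f ∩ Ann 0 j1 j2 := by
      rintro u ⟨⟨hu | hu, -⟩, hu2⟩
      · exact ⟨(comp_subset hu).1, hu2⟩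
      · exact ⟨(comp_subset hu).1, hu2⟩
    have hyc : Crs 0 j1 j2 f y := ⟨by omega, x, by omega, hxy.symm.mono hO⟩
    obtain ⟨k, hk, hky⟩ : ∃ k : Fin 6, grp k = 1 ∧ Conn (Op 0 f ∩ Ann 0 r R) (z k) y := by
      rcases hxy.right.1.1 with h | h
      · exact ⟨1, rfl, h⟩
      · exact ⟨2, rfl, h⟩
    obtain ⟨k', hk', hky'⟩ := hc0.cl hr hR hE hE2 hzz' hyc hky
    have hk1 : grp k' = 1 := hk'.trans hk
    have hsep : SepC j2 (z' 0) (z' 3) (z' k') (z' 4) := by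
      have key : k' = 1 ∨ k' = 2 := by
        clear * - hk1
        revert hk1
        revert k'
        decide
      rcases key with rfl | rfl
      · exact h14
      · exact h24
    have h0k : ¬ Conn (Op 0 f ∩ Ann 0 j1 j2) (z' 0) (z' k') := hg 0 k' (by
      rw [hk1]
      decide)
    have h3k : ¬ Conn (Op 0 f ∩ Ann 0 j1 j2) (z' 3) (z' k') := hg 3 k' (by
      rw [hk1]
      decide)
    have hsy := hT.side (hn k') h0k h3k (u := y) (by omega) hky' hsep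
    obtain ⟨t, htK, htS⟩ := k8 (((Cl f r R z 1 ∪ Cl f r R z 2) \ K) ∩ Ann 0 j1 j2 ∩
      comp (Op 0 f ∩ Ann 0 j1 j2) (z' k')) y x (by omega) (by omega) (by
        have h5 : Conn (comp (((Cl f r R z 1 ∪ Cl f r R z 2) \ K) ∩ Ann 0 j1 j2) y) y x :=
          hxy.symm.in_comp
        refine h5.mono fun u hu => ⟨comp_subset hu, ?_⟩
        exact Conn.trans hky' (Conn.mono hO hu))
      (fun u hu => mem_ball0.2 (mem_ann0.1 hu.1.2).2) (by
        rw [Set.disjoint_union_right]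
        refine ⟨?_, ?_⟩
        · rw [Set.disjoint_left]
          rintro u ⟨-, hu⟩ hu'
          exact h0k (Conn.trans hu' (Conn.symm hu))
        · rw [Set.disjoint_left]
          rintro u ⟨-, hu⟩ hu'
          exact h3k (Conn.trans hu' (Conn.symm hu))) hsy
    exact htS.1.1.2 htK

end Pool.Agent.MSTS
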