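import Pool.Agent.MSTS.Geo
import Pool.Agent.MSTS.Ord6
import Pool.Agent.MSTS.Path
import Pool.Agent.MSTS.TurnE

/-!
# (S), section 6: the tree path, for the witnesses of `E_F`

`path_psE`: `path_ps` for the clusters of the witnesses `z` of `E_F`; the order of the four visits
of the circle of radius `rho` is `ord6_pts`.
`path_psG`: the same with the radii `Geo`.
-/

set_option autoImplicit false

namespace Pool.Agent.MSTS

open Pool.Agent.TriPerc Pool.Agent.MST Pool.Agent.MSTG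

variable {OF O' U U' : Set V} {f : Lab} {z : Fin 6 → V} {r rho rm n1 n2 mM c R t m : ℤ}
  {h : ℕ → V} {N t1 t3 : ℕ} {v v' x : V}

/-- A crossing up to the outer circle. -/
theorem cr_top {S : Set V} (hn : rho < n2) (hc : Cr S rho n2 x) :
    ∃ q, nrm q = n2 ∧ Conn (S ∩ Ann 0 rho n2) x q := by
  obtain ⟨nx, x', nx', hc⟩ := hc
  obtain ⟨p, q, hp, hq, hpq, h1, h2⟩ := hc.exit (A := {w : V | nrm w < n2})
    (by change nrm x < n2; omega) (by change ¬ nrm x' < n2; omega)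
  have hp' : nrm p < n2 := hp
  have hq' : ¬ nrm q < n2 := hq
  have h3 := nrm_adj hpq 0
  rw [sub_zero, sub_zero, abs_le] at h3
  have hqn : nrm q = n2 := by omega
  have h4 : Conn (S ∩ Ann 0 rho n2) x p := h1.mono fun w hw =>
    ⟨hw.1.1, mem_ann0.2 ⟨hw.1.2, le_of_lt (show nrm w < n2 from hw.2)⟩⟩
  have h5 := h2.left
  exact ⟨q, hqn, h4.trans (Conn.of_adj h4.right
    ⟨h5.1, mem_ann0.2 ⟨h5.2, hqn.le⟩⟩ hpq)⟩

/-- The cluster of a witness is closed. -/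
theorem cl_closed {k : Fin 6} : ∀ a ∈ Cl f r R z k, ∀ b ∈ Op 0 f, r ≤ nrm b → nrm b ≤ R →
    Adj a b → b ∈ Cl f r R z k := fun _ ha _ hb h1 h2 hab =>
  Conn.trans ha (Conn.of_adj (Conn.right ha) ⟨hb, mem_ann0.2 ⟨h1, h2⟩⟩ hab)

/-- The union of two clusters is closed. -/
theorem cl_closed2 {k l : Fin 6} : ∀ a ∈ Cl f r R z k ∪ Cl f r R z l, ∀ b ∈ Op 0 f, r ≤ nrm b →
    nrm b ≤ R → Adj a b → b ∈ Cl f r R z k ∪ Cl f r R z l := by
  rintro a (ha | ha) b hb h1 h2 hab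
  · exact Or.inl (cl_closed a ha b hb h1 h2 hab)
  · exact Or.inr (cl_closed a ha b hb h1 h2 hab)

/-- Clusters of different groups are disjoint. -/
theorem cl_disj {k l : Fin 6} (hE : EFz 0 r R f z) (hkl : grp k ≠ grp l) :
    Disjoint (Cl f r R z k) (Cl f r R z l) := by
  rw [Set.disjoint_left]
  intro a ha hb
  exact hE.2.2.2.2.1 k l hkl (Conn.trans ha (Conn.symm hb))

theorem cl_disj2 {k l l' : Fin 6} (hE : EFz 0 r R f z) (h1 : grp k ≠ grp l)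
    (h2 : grp k ≠ grp l') : Disjoint (Cl f r R z k) (Cl f r R z l ∪ Cl f r R z l') := by
  rw [Set.disjoint_union_right]
  exact ⟨cl_disj hE h1, cl_disj hE h2⟩

/-- **The tree path has the strong pattern**, for the clusters of the witnesses. -/
theorem path_psE {e a b : ℝ} {ω : Lab} (hf : Function.Injective f)
    (hω : MSTLim.TreePath ω h N)
    (H : EndIn OF O' (Op 0 f) (Cl f r R z 0) (Cl f r R z 1 ∪ Cl f r R z 2) U r rho rm n2 mM c R
      h N t1 t3 v v')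
    (H' : EndIn OF O' (Op 0 f) (Cl f r R z 3) (Cl f r R z 4 ∪ Cl f r R z 5) U' r rho rm n2 mM c R
      (fun k => h (N - k)) N (N - t3) (N - t1) v' v)
    (cut : ∀ x y, nrm x ≤ mM → c ≤ nrm y → ¬ Conn (OF \ {v, v'}) x y)
    (hE : EFz 0 r R f z) (hcl : Clean 0 n1 n2 f) (hr1 : 1 ≤ r) (hr : r ≤ rho) (hn1 : rho ≤ n1)
    (hn2 : n1 < n2) (hn2R : n2 ≤ R)
    (mg : ∀ z, nrm z = rm → ¬ Four (Op 0 f) z t m) (ht : 0 ≤ t) (htm : t < m)
    (hrr : rho < rm) (hrn : rm < n2) (hnM : n2 ≤ mM) (hcR : c ≤ R)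
    (hm1 : rho + m ≤ rm) (hm2 : rm + m ≤ R) (hm3 : rm + t ≤ mM)
    (hρ : rho = ⌊3 / 2 * a⌋) (ha : 10 ≤ a) (hab : 2 * a < b) (hb : b ≤ rm) (hb' : rm ≤ b / e)
    (heb : e * b ≤ t + 1) (n0 : nrm (h 0) ≤ a) (n3 : nrm (h N) ≤ a) : MSTLim.PS e ω a b := by
  refine path_ps hω H H' cut (cl_disj2 hE (by decide) (by decide))
    (cl_disj2 hE (by decide) (by decide)) (cl_disj2 hE (by decide) (by decide))
    (cl_disj2 hE (by decide) (by decide)) ?_ mg ht htm hr hrr hrn hnM hcR hm1 hm2 hm3 hρ ha hab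
    hb hb' heb n0 n3
  intro x0 x3 y y' c0 c3 cy cy'
  obtain ⟨z', hE', hzz⟩ := efz_restr hf (m' := n1) (n' := n2) (by omega) (by omega) hn2 hn2R hE
  refine ord6_pts (r := r) (R := R) (by omega) hn1 hn2 (by omega) hn2R hE hE' (fun k =>
    (hzz k).mono fun w hw => ⟨hw.1, ?_⟩) hcl (X0 := Cl f r R z 0 ∩ Op 0 f)
    (Y := (Cl f r R z 1 ∪ Cl f r R z 2) ∩ Op 0 f) (Y2 := (Cl f r R z 4 ∪ Cl f r R z 5) ∩ Op 0 f)
    (X3 := Cl f r R z 3 ∩ Op 0 f) (fun w hw => hw.1) (fun w hw => hw.1) (fun w hw => hw.1)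
    (fun w hw => hw.1) c0.1 cy.1 cy'.1 c3.1 (cr_top (by omega) c0) (cr_top (by omega) cy)
    (cr_top (by omega) cy') (cr_top (by omega) c3)
  have h5 := mem_ann0.1 hw.2
  exact mem_ann0.2 ⟨by omega, h5.2⟩

/-- **The tree path has the strong pattern**, for the radii of `Geo`. -/
theorem path_psG {g : Geo} {lam : V → ℝ} {f : Lab} {omJ : ℝ} {ms : ℕ → ℤ} {om : ℕ → ℝ} {k : ℕ}
    {a b e : ℝ} {ω : Lab} {M : ℤ} (hG : GeoOK g ms k) (hP : PatOK g a b e)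
    (hS : SGood g lam f omJ ms om k) (hf : Function.Injective f) (hE : EFz 0 g.r g.R f z)
    (hω : MSTLim.TreePath ω h N)
    (H : EndIn OF O' (Op 0 f) (Cl f g.r g.R z 0) (Cl f g.r g.R z 1 ∪ Cl f g.r g.R z 2) U g.r g.rho
      g.rm g.n2 M g.c g.R h N t1 t3 v v')
    (H' : EndIn OF O' (Op 0 f) (Cl f g.r g.R z 3) (Cl f g.r g.R z 4 ∪ Cl f g.r g.R z 5) U' g.r g.rho
      g.rm g.n2 M g.c g.R (fun k => h (N - k)) N (N - t3) (N - t1) v' v)
    (cut : ∀ x y, nrm x ≤ M → g.c ≤ nrm y → ¬ Conn (OF \ {v, v'}) x y) (hM : g.n2 ≤ M)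
    (n0 : nrm (h 0) ≤ 2 * g.m0 + 1) (n3 : nrm (h N) ≤ 2 * g.m0 + 1) : MSTLim.PS e ω a b := by
  have q1 := hG.r1
  have q2 := hG.md
  have q3 := hG.p1
  have q4 := hG.a5
  have q5 := hG.m5
  have q6 := hG.b5
  have q7 := hG.p2
  have q8 := hG.m1
  have q9 := hG.j1
  have q10 := hG.a2
  have q11 := hG.m2
  have q12 := hG.b2
  have q13 := hG.j2
  have q14 := hG.m0
  have q15 := hG.mn
  have q16 := hG.rho
  have q17 := hG.n1
  have q18 := hG.n2
  have q19 := hG.mb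
  have q20 := hG.mM
  have q21 := hG.cM
  have q22 := hG.c
  have q23 := hG.mL
  have q24 := hG.R
  have q25 := hG.mrho 0 hG.k0
  have q26 := hG.tm
  have q27 := hG.um
  have q28 := hG.rm1
  have q29 := hG.rm2
  have q30 := hG.md0
  have r0 : ∀ {q : ℤ}, q ≤ 2 * g.m0 + 1 → (q : ℝ) ≤ a := fun {q} hq => by
    have h1 : (q : ℝ) ≤ 2 * (g.m0 : ℝ) + 1 := by exact_mod_cast hq
    exact h1.trans hP.am
  refine path_psE (m := g.um) (t := g.tm) hf hω H H' cut hE hS.cln (by omega) (by omega) q17 q18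
    (by omega) hS.mar (by omega) q27 (by omega) (by omega) hM (by omega) (by omega) (by omega)
    (by omega) hP.rho hP.a10 hP.ab hP.brm hP.rmb ?_ (r0 n0) (r0 n3)
  have h1 := hP.tm
  linarith

end Pool.Agent.MSTS
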