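import Pool.Agent.MST.EFw
import Pool.Agent.MSTG.Comp
import Pool.Agent.MSTLim.Pat

/-! # Part (S): the statement of the deterministic theorem

(problem MP_e1ab72_pr; text: /team-store/MST_S_helper95.md. No sorry in this file: `MasterS` is a definition.)

Labels are shifted (critical level `0`). The zones are `Ann 0 m (2 m)`; from inside to outside:

`r | md (cut Td) | p1 < a5, m5 (turn 45), b5 < p2 | m1 (cut T1) | j1 < a2, m2 (turn 12), b2 < j2 | m0 (cut T0) | mn (N2) | rho ≤ n1 | gates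
m (k-1), ..., m 0 | margin circle rm | n2 | mb (joints) | mM (cut Tc) | cM | c | mL (link) | R`.

The final labels are `fun u => cmap (κ u) (lam u) (f u)` (`MSTG/Comp.lean`). -/

set_option autoImplicit false

namespace Pool.Agent.MSTS

open Pool.Agent.TriPerc Pool.Agent.MST Pool.Agent.MSTG Set

/-- The radii. -/
structure Geo where
  (r md p1 a5 m5 b5 p2 m1 j1 a2 m2 b2 j2 mi m0 mn rho n1 rm tm um n2 mb mM cM c mL R : ℤ)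

/-- The relations between the radii (`m l`, `l < k`, are the radii of the gates, `m 0` is the outermost one). -/
structure GeoOK (g : Geo) (m : ℕ → ℤ) (k : ℕ) : Prop where
  r1 : 1 ≤ g.r
  md : 2 * g.r ≤ g.md
  md0 : 64 ≤ g.md
  p1 : 4 * g.md ≤ g.p1
  a5 : g.p1 < g.a5
  m5 : 16 * (g.a5 + 1) ≤ 15 * g.m5
  b5 : 17 * g.m5 ≤ 8 * (g.b5 - 1)
  p2 : g.b5 < g.p2
  m1 : 2 * g.p2 ≤ g.m1
  j1 : 4 * g.m1 ≤ g.j1
  a2 : g.j1 < g.a2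
  m2 : 16 * (g.a2 + 1) ≤ 15 * g.m2
  b2 : 17 * g.m2 ≤ 8 * (g.b2 - 1)
  j2 : g.b2 < g.j2
  m0 : 2 * g.j2 ≤ g.m0
  mi : 6 * g.mi ≤ g.m0
  mn : 4 * g.m0 ≤ g.mn
  rho : 2 * g.mn ≤ g.rho
  n1 : g.rho ≤ g.n1
  n2 : g.n1 < g.n2
  mb : 4 * g.n2 ≤ g.mb
  mM : 10 * g.mb ≤ g.mM
  cM : 2 * g.mM + 1 ≤ g.cM
  c : 2 * g.cM ≤ g.c
  mL : 2 * g.c ≤ g.mL
  R : 4 * g.mL ≤ g.R
  k0 : 0 < k
  mm : ∀ l, l + 1 < k → 64 * m (l + 1) ≤ m l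
  mrho : ∀ l < k, 16 * g.rho ≤ m l
  mm0 : ∀ l < k, 64 * g.m0 ≤ m l
  mmb : 40 * m 0 ≤ g.mb
  tm : 1 ≤ g.tm
  um : g.tm < g.um
  rm1 : 2 * m 0 + g.um < g.rm
  rm2 : g.rm + g.um < g.n2

/-- The good event, for the labels `f` and the profile `lam`. -/
structure SGood (g : Geo) (lam : V → ℝ) (f : Lab) (omJ : ℝ) (m : ℕ → ℤ) (om : ℕ → ℝ) (k : ℕ) :
    Prop where
  lam0 : ∀ u, 0 ≤ lam u
  lam1 : ∀ u, lam u < 1 / 4
  f0 : ∀ u, -1 / 2 ≤ f u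
  f1 : ∀ u, f u ≤ 1 / 2
  inj : ∀ u v, u ≠ v → ∀ i j : Fin 4 × Fin 6 × Fin 2,
    cmap i (lam u) (f u) ≠ cmap j (lam v) (f v)
  fin : ∀ u, (comp (Op 0 f) u).Finite
  ef : EF 0 g.r g.R f
  -- the cuts
  cd : ¬ Arm (Low lam f) 0 g.md (2 * g.md)
  c1 : ¬ Arm (Low lam f) 0 g.m1 (2 * g.m1)
  c0 : ¬ Arm (Low lam f) 0 g.m0 (2 * g.m0)
  cM : ¬ Arm (Low lam f) 0 g.mM (2 * g.mM)
  -- the bridges
  u5 : ¬ Arm (Upp lam f)ᶜ 0 g.m5 (2 * g.m5)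
  u2 : ¬ Arm (Upp lam f)ᶜ 0 g.m2 (2 * g.m2)
  ub : ¬ Arm (Upp lam f)ᶜ 0 g.mb (2 * g.mb)
  uL : ¬ Arm (Upp lam f)ᶜ 0 g.mL (2 * g.mL)
  -- the windows of the turns
  J0 : 0 < omJ
  J2 : ∀ u, g.a2 < nrm u → nrm u < g.b2 → omJ ≤ lam u
  J5 : ∀ u, g.a5 < nrm u → nrm u < g.b5 → omJ ≤ lam u
  nn : ¬ Arm {v | f v < -omJ / 2} 0 g.mn (2 * g.mn)
  -- clean annuli
  clM : Clean 0 g.cM g.c f
  cl2 : Clean 0 g.j1 g.j2 f
  cl2i : Clean 0 g.j1 g.a2 f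
  cl2o : Clean 0 g.b2 g.j2 f
  cl5 : Clean 0 g.p1 g.p2 f
  cl5i : Clean 0 g.p1 g.a5 f
  cl5o : Clean 0 g.b5 g.p2 f
  cln : Clean 0 g.n1 g.n2 f
  -- the margin
  mar : ∀ z, nrm z = g.rm → ¬ Four (Op 0 f) z g.tm g.um
  -- the gates
  gst : GSt lam f g.mi m om k

/-- The radii `a, b` and the number `e` of the strong pattern. -/
structure PatOK (g : Geo) (a b e : ℝ) : Prop where
  e0 : 0 < e
  a10 : 10 ≤ a
  am : 2 * (g.m0 : ℝ) + 1 ≤ a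
  rho : g.rho = ⌊3 / 2 * a⌋
  ab : 2 * a < b
  arm : 2 * a < g.rm
  brm : b ≤ g.rm
  rmb : g.rm ≤ b / e
  tm : e * b ≤ g.tm

/-- The result: the final labels `F`. -/
structure SOut (g : Geo) (lam : V → ℝ) (f F : Lab) (m : ℕ → ℤ) (om : ℕ → ℝ) (k : ℕ)
    (a b e : ℝ) : Prop where
  rel : ∃ κ : V → Fin 4 × Fin 6 × Fin 2, F = (fun u => cmap (κ u) (lam u) (f u)) ∧
    ∀ u, κ u ≠ (0, 0, 0) → u ∈ FN lam f
  fn : FN lam F = FN lam f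
  low : Low lam F = Low lam f
  upp : Upp lam F = Upp lam f
  f0 : ∀ u, -1 / 2 ≤ F u
  f1 : ∀ u, F u ≤ 1 / 2
  sgn : ∀ u, 2 * g.m0 < nrm u → nrm u < m (k - 1) - 1 → (F u ≤ 0 ↔ f u ≤ 0)
  ch : ∃ (x t : V) (v p z : ℕ → V), Chain F (g.c - 1) (g.mi / 2) x t m om k v p z ∧
    nrm x ≤ 2 * g.m0 + 1 ∧ g.mb - 1 ≤ nrm t
  ps : MSTLim.PS e F a b

/-- **The deterministic theorem of part (S)** (to be proved: `master : MasterS`). -/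
def MasterS : Prop :=
  ∀ (g : Geo) (lam : V → ℝ) (f : Lab) (omJ : ℝ) (m : ℕ → ℤ) (om : ℕ → ℝ) (k : ℕ) (a b e : ℝ),
    GeoOK g m k → PatOK g a b e → SGood g lam f omJ m om k →
      ∃ F, SOut g lam f F m om k a b e

end Pool.Agent.MSTS
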