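import Pool.Agent.MST.Cls
import Pool.Agent.MSTS.Geo
import Pool.Agent.MSTS.TurnE

/-! # Part (S): the final configuration, as section 6 uses it

(problem MP_e1ab72_pr; text: /team-store/MST_S_helper95.md, sections 5 and 6. No sorry in this file.)

`f`: the original labels, `gt`: the tree configuration (`g` of the text: the cut `T_c` without `v, v'` is raised), `F`: the final labels.
`EndS`: the facts about one end (the joint `U`, its vertex `u`, the component `G` of the joint, the vertex `v` of the cut, the turn `K`).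
`SFin`: both ends, the chain of gates, the cut. -/

set_option autoImplicit false

namespace Pool.Agent.MSTS

open Pool.Agent.TriPerc Pool.Agent.MST Pool.Agent.MSTG Set

/-- One end. `Pp` is `O'`, `X` the cluster of the joint, `Y` the cluster with the two root paths, `v'` the vertex of the cut at the other
end, `ρ` the root of `v` in the tree configuration. -/
structure EndS (g : Geo) (f gt F : Lab) (omJ : ℝ) (Pp X Y U K G : Set V) (j1 j2 b2 : ℤ)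
    (u v v' ρ : V) : Prop where
  GX : G ⊆ X
  GO : G ⊆ Op 0 f
  ex : ∀ y ∈ G, ∀ w, Adj y w → w ∈ Op 0 F → w ∈ G ∨ w = u
  uU : u ∈ U
  uG : u ∉ G
  nU : ∀ z ∈ U, g.mb ≤ nrm z ∧ nrm z ≤ 2 * g.mb
  UF : U ⊆ Op 0 F
  nv : g.mM ≤ nrm v ∧ nrm v ≤ 2 * g.mM
  vY : v ∈ Y
  vP : v ∈ Pp
  cv : Conn (Op 0 F ∩ Ball 0 (g.c - 1)) u v
  cv' : ¬ Conn (Op 0 F ∩ Ball 0 (g.c - 1)) u v'
  sa : ∀ z, Conn (Op 0 F ∩ Ball 0 (g.c - 1)) u z → z ∈ Pp ∨ z ∈ U ∨ nrm z < g.rho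
  KC : IsConn K
  Kt : ∀ w ∈ K, F w < -omJ / 2
  Ka : ∀ w ∈ K, nrm w ≤ b2
  Km : ¬ Arm (Y \ K) 0 j1 j2
  vW : ∃ w ∈ Cir g.r, Conn (Op 0 gt ∩ Ann 0 g.r g.R) v w
  FY : ∀ w ∈ Y, gt w ≤ 0 → j1 ≤ nrm w → F w ≤ gt w
  Fg : ∀ w ∈ Y, w ∈ Pp → g.rho ≤ nrm w → F w = gt w
  rt : Rt (Ann 0 g.r g.R) (Cir g.r) gt v ρ
  c2 : ∀ y ∈ Y, ∀ z ∈ U, Adj z y →
    (∃ w ∈ Cir g.r, Conn (Op 0 gt ∩ Ann 0 g.r g.R) y w) →
      ¬ Rt (Ann 0 g.r g.R) (Cir g.r) gt y ρ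

/-- The final configuration. -/
structure SFin (g : Geo) (f gt F : Lab) (omJ : ℝ) (m : ℕ → ℤ) (om : ℕ → ℝ) (k : ℕ)
    (z : Fin 6 → V) (Pp U U' K K' G0 G3 : Set V) (u u' v v' x x3 t ρ ρ' : V)
    (vv pp zz : ℕ → V) : Prop where
  efz : EFz 0 g.r g.R f z
  Fi : Function.Injective F
  gi : Function.Injective gt
  gf : ∀ w, f w ≤ gt w
  Pf : Pp ⊆ Op 0 f ∩ Ann 0 g.r g.R
  Pg : Pp ⊆ Op 0 gt
  e0 : EndS g f gt F omJ Pp (Cl f g.r g.R z 0) (Cl f g.r g.R z 1 ∪ Cl f g.r g.R z 2) U K G0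
    g.j1 g.j2 g.b2 u v v' ρ
  e3 : EndS g f gt F omJ Pp (Cl f g.r g.R z 3) (Cl f g.r g.R z 4 ∪ Cl f g.r g.R z 5) U' K' G3
    g.p1 g.p2 g.b5 u' v' v ρ'
  dG : Disjoint G0 G3
  uG3 : u ∉ G3
  uG0 : u' ∉ G0
  uu : u ≠ u'
  cut : ∀ x y, 2 * nrm x ≤ g.mM → g.c ≤ nrm y → ¬ Conn (Op 0 F \ {v, v'}) x y
  ch : Chain F (g.c - 1) (g.mi / 2) x t m om k vv pp zz
  vG : ∀ l < k, vv l ∈ G0
  tu : Adj t u
  tG : t ∈ G0
  xG : x ∈ G0
  x3G : x3 ∈ G3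
  nx : nrm x ≤ 2 * g.m0 + 1
  nx3 : nrm x3 ≤ 2 * g.m0 + 1
  ux : Conn (Op 0 F) u x3
  fin : (comp (Op 0 F) u).Finite

/-- The statement of section 6 (to be proved: `ps_of_fin : FinS`). -/
def FinS : Prop :=
  ∀ (g : Geo) (lam : V → ℝ) (f gt F : Lab) (omJ : ℝ) (m : ℕ → ℤ) (om : ℕ → ℝ) (k : ℕ)
    (a b e : ℝ) (z : Fin 6 → V) (Pp U U' K K' G0 G3 : Set V) (u u' v v' x x3 t ρ ρ' : V)
    (vv pp zz : ℕ → V), GeoOK g m k → PatOK g a b e → SGood g lam f omJ m om k →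
      SFin g f gt F omJ m om k z Pp U U' K K' G0 G3 u u' v v' x x3 t ρ ρ' vv pp zz →
        MSTLim.PS e F a b

end Pool.Agent.MSTS
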