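import Pool.Agent.MST.JBall
import Pool.Agent.MST.Pa

/-!
# Part (S), section 6: the tree path between the two joints

(text: `/team-store/MST_S_helper95.md`, (6b), (6d), (6e))

* `mid` (6b): a path in `OF` from `u = h t1` to `u' = h t3`, both in `Ball 0 m2`; `OF \ {vb, vb'}` has
  no connection from `Ball 0 m2` to `{c ≤ nrm}`; `vb'` and `u'` are not in the component of `u` in
  `OF ∩ Ball 0 (c - 1)`, `vb` is not in that of `u'`.  Then the path passes `vb`, then `vb'`, stays in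
  the component of `u` up to `vb` and in that of `u'` after `vb'`, and between them it is outside
  `Ball 0 m2`.
* `last_ball` (6d): the last visit of `Ball 0 ρ` before `vb`.
* `side` (6d), (6e): the times `w0' < al < t1 < w1 < kb` at one end.
-/

namespace Pool.Agent.MST

open Pool.Agent.TriPerc

variable {OF O' U S : Set V} {h : ℕ → V} {p q t1 t3 kb : ℕ} {c m2 ρ rm : ℤ} {vb vb' : V}

theorem last_time {Q : ℕ → Prop} (hpq : p ≤ q) (hp : Q p) :
    ∃ s, p ≤ s ∧ s ≤ q ∧ Q s ∧ ∀ k, s < k → k ≤ q → ¬ Q k := by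
  induction q, hpq using Nat.le_induction with
  | base => exact ⟨p, le_rfl, le_rfl, hp, fun k h1 h2 => absurd h1 (by omega)⟩
  | succ q hq ih =>
    by_cases h : Q (q + 1)
    · exact ⟨q + 1, by omega, le_rfl, h, fun k h1 h2 => absurd h1 (by omega)⟩
    · obtain ⟨s, h1, h2, h3, h4⟩ := ih
      refine ⟨s, h1, by omega, h3, fun k k1 k2 => ?_⟩
      rcases Nat.eq_or_lt_of_le k2 with h5 | h5
      · rw [h5]
        exact h
      · exact h4 k k1 (by omega)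

theorem first_time {Q : ℕ → Prop} (hpq : p ≤ q) (hq : Q q) :
    ∃ s, p ≤ s ∧ s ≤ q ∧ Q s ∧ ∀ k, p ≤ k → k < s → ¬ Q k := by
  classical
  have hex : ∃ d, Q (p + d) ∧ p + d ≤ q :=
    ⟨q - p, by rwa [show p + (q - p) = q by omega], by omega⟩
  obtain ⟨d, hd1, hd2, hd3⟩ : ∃ d, Q (p + d) ∧ p + d ≤ q ∧
      ∀ k < d, ¬ (Q (p + k) ∧ p + k ≤ q) :=
    ⟨Nat.find hex, (Nat.find_spec hex).1, (Nat.find_spec hex).2, fun k hk => Nat.find_min hex hk⟩
  refine ⟨p + d, by omega, hd2, hd1, fun k k1 k2 hk => ?_⟩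
  refine hd3 (k - p) (by omega) ⟨?_, by omega⟩
  rwa [show p + (k - p) = k by omega]

theorem nrm_step' {u v : V} (h : Adj u v) : |nrm v - nrm u| ≤ 1 := by
  have h1 := nrm_adj h 0
  rwa [sub_zero, sub_zero] at h1

/-- The last visit of a ball. -/
theorem last_in (ha : ∀ i, p ≤ i → i < q → Adj (h i) (h (i + 1))) (hpq : p ≤ q)
    (hp : nrm (h p) ≤ ρ) (hq : ρ < nrm (h q)) :
    ∃ w, p ≤ w ∧ w < q ∧ nrm (h w) = ρ ∧ ∀ k, w < k → k ≤ q → ρ < nrm (h k) := by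
  obtain ⟨w, h1, h2, h3, h4⟩ := last_time (Q := fun k => nrm (h k) ≤ ρ) hpq hp
  have h5 : w < q := by
    rcases Nat.eq_or_lt_of_le h2 with h6 | h6
    · rw [h6] at h3
      exact absurd h3 (not_le.2 hq)
    · exact h6
  have h6 := abs_le.1 (nrm_step' (ha w h1 h5))
  have h7 : ¬ nrm (h (w + 1)) ≤ ρ := h4 (w + 1) (by omega) h5
  have h8 : nrm (h w) ≤ ρ := h3
  exact ⟨w, h1, h5, by omega, fun k k1 k2 => not_le.1 (h4 k k1 k2)⟩

/-- (6b). -/
theorem mid (ha : ∀ i, t1 ≤ i → i < t3 → Adj (h i) (h (i + 1)))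
    (hinj : ∀ i j, t1 ≤ i → i ≤ t3 → t1 ≤ j → j ≤ t3 → h i = h j → i = j)
    (ht : t1 ≤ t3) (hO : ∀ i, t1 ≤ i → i ≤ t3 → h i ∈ OF) (hu : nrm (h t1) ≤ m2)
    (hu' : nrm (h t3) ≤ m2) (hvb : nrm vb < c) (hvb' : nrm vb' < c)
    (hcut : ∀ x y, nrm x ≤ m2 → c ≤ nrm y → ¬ Conn (OF \ {vb, vb'}) x y)
    (s1 : ¬ Conn (OF ∩ Ball 0 (c - 1)) (h t1) vb')
    (s2 : ¬ Conn (OF ∩ Ball 0 (c - 1)) (h t1) (h t3))
    (s3 : ¬ Conn (OF ∩ Ball 0 (c - 1)) (h t3) vb) :
    ∃ kb kb', t1 ≤ kb ∧ kb < kb' ∧ kb' ≤ t3 ∧ h kb = vb ∧ h kb' = vb' ∧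
      (∀ k, t1 ≤ k → k ≤ kb → Conn (OF ∩ Ball 0 (c - 1)) (h t1) (h k)) ∧
      (∀ k, kb' ≤ k → k ≤ t3 → Conn (OF ∩ Ball 0 (c - 1)) (h t3) (h k)) ∧
      ∀ k, kb < k → k < kb' → m2 < nrm (h k) := by
  have hball : ∀ v : V, nrm v < c → v ∈ Ball 0 (c - 1) := fun v hv => mem_ball0.2 (by omega)
  -- a part of the path inside the ball
  have hin : ∀ i j, t1 ≤ i → i ≤ j → j ≤ t3 → (∀ k, i ≤ k → k ≤ j → nrm (h k) < c) →
      Conn (OF ∩ Ball 0 (c - 1)) (h i) (h j) := fun i j h1 h2 h3 h4 =>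
    conn_seg h2 (fun k k1 k2 => ha k (by omega) (by omega)) fun k k1 k2 =>
      ⟨hO k (by omega) (by omega), hball _ (h4 k k1 k2)⟩
  -- a part of the path from the small ball to the outside passes `vb` or `vb'`
  have hpass : ∀ i j, t1 ≤ i → i ≤ j → j ≤ t3 →
      (nrm (h i) ≤ m2 ∧ c ≤ nrm (h j) ∨ nrm (h j) ≤ m2 ∧ c ≤ nrm (h i)) →
      ∃ k, i ≤ k ∧ k ≤ j ∧ (h k = vb ∨ h k = vb') := by
    intro i j h1 h2 h3 h4
    by_contra hc
    push Not at hc
    have h5 : Conn (OF \ {vb, vb'}) (h i) (h j) :=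
      conn_seg h2 (fun k k1 k2 => ha k (by omega) (by omega)) fun k k1 k2 => by
        refine ⟨hO k (by omega) (by omega), ?_⟩
        rintro (h6 | h6)
        · exact (hc k k1 k2).1 h6
        · exact (hc k k1 k2).2 h6
    rcases h4 with h4 | h4
    · exact hcut _ _ h4.1 h4.2 h5
    · exact hcut _ _ h4.1 h4.2 h5.symm
  -- the first exit
  have hexit : ∃ k, t1 ≤ k ∧ k ≤ t3 ∧ c ≤ nrm (h k) := by
    by_contra hc
    push Not at hc
    exact s2 (hin t1 t3 le_rfl ht le_rfl fun k k1 k2 => hc k k1 k2)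
  obtain ⟨k0, k01, k02, k03⟩ := hexit
  obtain ⟨e1, e11, e12, e13, e14⟩ := first_time (Q := fun k => c ≤ nrm (h k)) k01 k03
  obtain ⟨e2, e21, e22, e23, e24⟩ := last_time (Q := fun k => c ≤ nrm (h k)) k02 k03
  have e13' : c ≤ nrm (h e1) := e13
  have e23' : c ≤ nrm (h e2) := e23
  have hA1 : ∀ k, t1 ≤ k → k < e1 → Conn (OF ∩ Ball 0 (c - 1)) (h t1) (h k) := fun k k1 k2 =>
    hin t1 k le_rfl k1 (by omega) fun q q1 q2 => not_le.1 (e14 q q1 (by omega))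
  have hB1 : ∀ k, e2 < k → k ≤ t3 → Conn (OF ∩ Ball 0 (c - 1)) (h t3) (h k) := fun k k1 k2 =>
    (hin k t3 (by omega) k2 le_rfl fun q q1 q2 => not_le.1 (e24 q (by omega) q2)).symm
  obtain ⟨kb, b1, b2, b3⟩ := hpass t1 e1 le_rfl e11 (by omega) (Or.inl ⟨hu, e13'⟩)
  have b4 : kb < e1 := by
    rcases Nat.eq_or_lt_of_le b2 with h6 | h6
    · rw [h6] at b3
      rcases b3 with b3 | b3
      · rw [b3] at e13'
        omega
      · rw [b3] at e13'
        omega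
    · exact h6
  have b5 : h kb = vb := by
    rcases b3 with b3 | b3
    · exact b3
    · exact absurd (b3 ▸ hA1 kb b1 b4) s1
  obtain ⟨kb', b1', b2', b3'⟩ := hpass e2 t3 (by omega) e22 le_rfl (Or.inr ⟨hu', e23'⟩)
  have b4' : e2 < kb' := by
    rcases Nat.eq_or_lt_of_le b1' with h6 | h6
    · rw [← h6] at b3'
      rcases b3' with b3' | b3'
      · rw [b3'] at e23'
        omega
      · rw [b3'] at e23'
        omega
    · exact h6
  have b5' : h kb' = vb' := by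
    rcases b3' with b3' | b3'
    · exact absurd (b3' ▸ hB1 kb' b4' b2') s3
    · exact b3'
  refine ⟨kb, kb', b1, by omega, b2', b5, b5', fun k k1 k2 => hA1 k k1 (by omega),
    fun k k1 k2 => hB1 k (by omega) k2, fun k k1 k2 => ?_⟩
  by_contra hk
  have hk' : nrm (h k) ≤ m2 := not_lt.1 hk
  by_cases hkA : Conn (OF ∩ Ball 0 (c - 1)) (h t1) (h k)
  · -- the path leaves the component after `k`
    have hexit : ∃ q, k ≤ q ∧ q ≤ t3 ∧ c ≤ nrm (h q) := by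
      by_contra hc
      push Not at hc
      exact s2 (hkA.trans (hin k t3 (by omega) (by omega) le_rfl fun q q1 q2 => hc q q1 q2))
    obtain ⟨q0, q01, q02, q03⟩ := hexit
    obtain ⟨e, ee1, ee2, ee3, ee4⟩ := first_time (Q := fun k => c ≤ nrm (h k)) q01 q03
    have ee3' : c ≤ nrm (h e) := ee3
    obtain ⟨q, p1, p2, p3⟩ := hpass k e (by omega) ee1 (by omega) (Or.inl ⟨hk', ee3'⟩)
    rcases p3 with p3 | p3
    · have := hinj q kb (by omega) (by omega) (by omega) (by omega) (p3.trans b5.symm)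
      omega
    · have p4 : q < e := by
        rcases Nat.eq_or_lt_of_le p2 with h6 | h6
        · rw [← h6, p3] at ee3'
          omega
        · exact h6
      refine s1 (hkA.trans ?_)
      rw [← p3]
      exact hin k q (by omega) p1 (by omega) fun q' q1 q2 => not_le.1 (ee4 q' q1 (by omega))
  · -- the path enters the component of `h k` after `kb`
    have hexit : ∃ q, kb ≤ q ∧ q ≤ k ∧ c ≤ nrm (h q) := by
      by_contra hc
      push Not at hc
      exact hkA ((hA1 kb b1 b4).trans (hin kb k (by omega) (by omega) (by omega)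
        fun q q1 q2 => hc q q1 q2))
    obtain ⟨q0, q01, q02, q03⟩ := hexit
    obtain ⟨e, ee1, ee2, ee3, ee4⟩ := last_time (Q := fun k => c ≤ nrm (h k)) q02 q03
    have ee3' : c ≤ nrm (h e) := ee3
    obtain ⟨q, p1, p2, p3⟩ := hpass e k (by omega) ee2 (by omega) (Or.inr ⟨hk', ee3'⟩)
    have p4 : q ≠ e := by
      intro h6
      rw [h6] at p3
      rcases p3 with p3 | p3
      · rw [p3] at ee3'
        omega
      · rw [p3] at ee3'
        omega
    rcases p3 with p3 | p3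
    · have := hinj q kb (by omega) (by omega) (by omega) (by omega) (p3.trans b5.symm)
      omega
    · have := hinj q kb' (by omega) (by omega) (by omega) (by omega) (p3.trans b5'.symm)
      omega

/-- (6d): the last visit of `Ball 0 ρ` before `vb`. -/
theorem last_ball (ha : ∀ i, t1 ≤ i → i < kb → Adj (h i) (h (i + 1))) (ht : t1 ≤ kb)
    (hS : ∀ i, t1 ≤ i → i ≤ kb → h i ∈ S) (hSO : ∀ v ∈ S, v ∉ O' → v ∈ U ∨ nrm v < ρ)
    (h1 : h t1 ∉ O') (h2 : h kb ∈ O') (n1 : ρ < nrm (h t1)) (n2 : ρ < nrm (h kb))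
    (key : ∀ s, t1 ≤ s → s < kb → h s ∈ U →
      (∀ i, s < i → i ≤ kb → ρ < nrm (h i) ∧ h i ∈ O') → False) :
    ∃ w1, t1 < w1 ∧ w1 < kb ∧ nrm (h w1) = ρ ∧ (∀ k, w1 < k → k ≤ kb → ρ < nrm (h k)) ∧
      ∀ k, w1 ≤ k → k ≤ kb → h k ∈ O' := by
  -- a time `p` after which the path is outside the ball, and `h p` is not inside
  have hkey : ∀ p, t1 ≤ p → p ≤ kb → ρ ≤ nrm (h p) → (∀ k, p < k → k ≤ kb → ρ < nrm (h k)) →
      ∀ k, p ≤ k → k ≤ kb → h k ∈ O' := by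
    intro p hp hpk hpn hpp k k1 k2
    by_contra hk
    obtain ⟨s, s1, s2, s3, s4⟩ := last_time (Q := fun k => h k ∉ O') k2 hk
    have s5 : s < kb := by
      rcases Nat.eq_or_lt_of_le s2 with h6 | h6
      · rw [h6] at s3
        exact absurd h2 s3
      · exact h6
    refine key s (by omega) s5 ?_ fun i i1 i2 => ⟨hpp i (by omega) i2, not_not.1 (s4 i i1 i2)⟩
    rcases hSO _ (hS s (by omega) s2) s3 with h6 | h6
    · exact h6
    · rcases Nat.eq_or_lt_of_le (show p ≤ s by omega) with h7 | h7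
      · rw [← h7] at h6
        omega
      · have := hpp s h7 s2
        omega
  have hex : ∃ k, t1 ≤ k ∧ k ≤ kb ∧ nrm (h k) ≤ ρ := by
    by_contra hc
    push Not at hc
    exact h1 (hkey t1 le_rfl ht n1.le (fun k k1 k2 => hc k (by omega) k2) t1 le_rfl ht)
  obtain ⟨k0, k1, k2, k3⟩ := hex
  obtain ⟨w, w1, w2, w3, w4⟩ := last_in (p := k0) (q := kb) (ρ := ρ)
    (fun i i1 i2 => ha i (by omega) i2) k2 k3 n2
  have w5 : t1 < w := by
    rcases Nat.eq_or_lt_of_le (show t1 ≤ w by omega) with h6 | h6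
    · rw [← h6] at w3
      omega
    · exact h6
  exact ⟨w, w5, w2, w3, w4, hkey w (by omega) w2.le w3.ge w4⟩

/-- (6d) and (6e) at one end. -/
theorem side (ha : ∀ i < kb, Adj (h i) (h (i + 1))) (ht : t1 ≤ kb) (n0 : nrm (h 0) ≤ ρ)
    (hρ : ρ < rm) (hrm : rm < nrm (h t1)) (n2 : ρ < nrm (h kb))
    (hS : ∀ i, t1 ≤ i → i ≤ kb → h i ∈ S) (hSO : ∀ v ∈ S, v ∉ O' → v ∈ U ∨ nrm v < ρ)
    (h1 : h t1 ∉ O') (h2 : h kb ∈ O')
    (key : ∀ s, t1 ≤ s → s < kb → h s ∈ U →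
      (∀ i, s < i → i ≤ kb → ρ < nrm (h i) ∧ h i ∈ O') → False) :
    ∃ w0 al w1, w0 < al ∧ al < t1 ∧ t1 < w1 ∧ w1 < kb ∧ nrm (h w0) = ρ ∧ nrm (h al) = rm ∧
      nrm (h w1) = ρ ∧ (∀ k, w0 < k → k ≤ t1 → ρ < nrm (h k)) ∧
      (∀ k, al < k → k ≤ t1 → rm < nrm (h k)) ∧ (∀ k, w1 < k → k ≤ kb → ρ < nrm (h k)) ∧
      ∀ k, w1 ≤ k → k ≤ kb → h k ∈ O' := by
  obtain ⟨w1, a1, a2, a3, a4, a5⟩ := last_ball (ρ := ρ) (fun i _ hi => ha i hi) ht hS hSO h1 h2
    (by omega) n2 key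
  obtain ⟨al, b1, b2, b3, b4⟩ := last_in (p := 0) (q := t1) (ρ := rm)
    (fun i _ hi => ha i (by omega)) (Nat.zero_le _) (by omega) hrm
  obtain ⟨w0, c1, c2, c3, c4⟩ := last_in (p := 0) (q := al) (ρ := ρ)
    (fun i _ hi => ha i (by omega)) (Nat.zero_le _) n0 (by omega)
  refine ⟨w0, al, w1, c2, b2, a1, a2, c3, b3, a3, fun k k1 k2 => ?_, b4, a4, a5⟩
  rcases Nat.lt_or_ge al k with h6 | h6
  · have := b4 k h6 k2
    omega
  · exact c4 k k1 h6

end Pool.Agent.MST
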