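import Pool.Agent.MSTG.Tree
import Pool.Agent.MSTS.PathS

/-!
# Part (S), step (6a): the tree path from `x` to `x3`

(text: `/team-store/MST_S_helper95.md`, (6a))

`six_a`: the tree path starts in `x`, goes through the gates of the chain (inside `G0`), leaves `G0` for
ever through `u`, and enters `G3` for ever through `u'`; it is open from `u` on.
-/

namespace Pool.Agent.MSTS

open Pool.Agent.TriPerc Pool.Agent.MST Pool.Agent.MSTG

variable {F : Lab} {G0 G3 : Set V} {u u' x3 x t : V} {rho lo : ℤ} {m : ℕ → ℤ} {om : ℕ → ℝ}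
  {k : ℕ} {v p z : ℕ → V}

/-- A connection in an open set which starts in `G` and does not meet the only exit stays in `G`. -/
theorem conn_exit {S G : Set V} {a b u : V} (hG : ∀ v ∈ G, ∀ w, Adj v w → w ∈ S → w ∈ G ∨ w = u)
    (ha : a ∈ G) (h : Conn S a b) (hu : ¬ Conn S a u) : b ∈ G := by
  by_contra hb
  obtain ⟨x, y, hx, hy, hxy, hax, -⟩ := h.exit (A := G) ha hb
  have hax' : Conn S a x := hax.mono Set.inter_subset_left
  -- `y` need not be in `S`?  It is, since it is on the connection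
  obtain ⟨x', y', hx', hy', hxy', hax2, hyb⟩ := h.exit (A := G) ha hb
  have hyS : y' ∈ S := hyb.left
  rcases hG x' hx' y' hxy' hyS with h1 | h1
  · exact hy' h1
  · refine hu ?_
    rw [← h1]
    exact (hax2.mono Set.inter_subset_left).trans
      (Conn.of_adj hax2.right.1 hyS hxy')

theorem six_a (hF : Function.Injective F) (hc : Chain F rho lo x t m om k v p z) (hk : 0 < k)
    (hm : ∀ l < k, 64 ≤ m l) (hmm : ∀ l, l + 1 < k → 64 * m (l + 1) ≤ m l)
    (hom : ∀ l < k, 0 < om l) (hun : ∀ l < k, 3 * m l ≤ nrm u)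
    (hG0 : ∀ v ∈ G0, ∀ w, Adj v w → w ∈ Op 0 F → w ∈ G0 ∨ w = u) (hvG : ∀ l < k, v l ∈ G0)
    (htu : Adj t u) (hFu : F u ≤ 0) (hx3 : x3 ∉ G0)
    (hG3 : ∀ v ∈ G3, ∀ w, Adj v w → w ∈ Op 0 F → w ∈ G3 ∨ w = u') (hx33 : x3 ∈ G3)
    (hd : Disjoint G0 G3) (hu3 : u ∉ G3) (huu : u ≠ u') (hux : Conn (Op 0 F) u x3)
    (hfin : (comp (Op 0 F) u).Finite) :
    ∃ (h : ℕ → V) (N t1 t3 : ℕ), IsPa (MT Set.univ ∅ F) h N ∧ h 0 = x ∧ h N = x3 ∧ t1 < t3 ∧
      t3 < N ∧ h t1 = u ∧ h t3 = u' ∧ (∀ i < t1, h i ∈ G0) ∧ (∀ i, t1 < i → i ≤ N → h i ∉ G0) ∧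
      (∀ i, t3 < i → i ≤ N → h i ∈ G3) ∧ (∀ i < t3, h i ∉ G3) ∧
      ∀ i, t1 ≤ i → i ≤ N → F (h i) ≤ 0 := by
  obtain ⟨g, n, g0, gn, n0, hg, -, hgi⟩ := chain_path hF hc hk hm hmm hom
  have hfv : ∀ l < k, 0 < F (v l) := fun l hl => by
    have h1 := (hc.gl l hl).1
    have h2 := hom l hl
    linarith
  have hzt : Conn (Op 0 F) t (z 0) := (hc.tz hk).mono Set.inter_subset_left
  have huz : Conn (Op 0 F) u (z 0) := (Conn.of_adj hFu hzt.left htu.symm).trans hzt
  obtain ⟨f', n', f0, fn, hf', hfc⟩ := tpath hfin (x := z 0) (y := x3) huz hux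
  have hpu : ∀ l < k, ¬ Conn (Op 0 F) (p l) u := fun l hl h1 => by
    have h2 := (hc.bd l hl u h1).2
    have h3 := hun l hl
    omega
  -- the whole path
  obtain ⟨H, hH, hHA, hHB⟩ := pa_app hg hf' (gn.trans f0.symm) (fun i hi j hj heq => by
    obtain ⟨l, hl, hor⟩ := hgi i hi
    have h1 : Conn (Op 0 F) u (f' j) := hfc j hj
    rcases hor with h2 | h2
    · rw [← heq, h2] at h1
      have h3 : F (v l) ≤ 0 := h1.right
      exact absurd h3 (not_le.2 (hfv l hl))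
    · rw [heq] at h2
      exact hpu l hl (h2.trans h1.symm))
  -- the first part is in `G0`
  have hpG : ∀ l < k, p l ∈ G0 := fun l hl => by
    rcases hG0 _ (hvG l hl) _ (hc.vp l hl) (hc.p0 l hl) with h1 | h1
    · exact h1
    · have h2 : Conn (Op 0 F) (p l) (p l) := Conn.refl (hc.p0 l hl)
      exact absurd (by rwa [h1] at h2 ⊢) (hpu l hl)
  have hzG : z 0 ∈ G0 := by
    rcases hG0 _ (hvG 0 hk) _ (hc.vz 0 hk) (hc.z0 0 hk) with h1 | h1
    · exact h1
    · exfalso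
      have h2 := (hc.nv 0 hk).2
      have h3 := nrm_step' (hc.vz 0 hk)
      rw [abs_le, h1] at h3
      have h4 := hun 0 hk
      have h5 := hm 0 hk
      omega
  have hgG : ∀ i ≤ n, H i ∈ G0 := by
    intro i hi
    rw [hHA i hi]
    rcases Nat.eq_or_lt_of_le hi with h1 | h1
    · rw [h1, gn]
      exact hzG
    · obtain ⟨l, hl, hor⟩ := hgi i h1
      rcases hor with h2 | h2
      · rw [h2]
        exact hvG l hl
      · exact conn_exit hG0 (hpG l hl) h2 (hpu l hl)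
  have hHo : ∀ i, n ≤ i → i ≤ n + n' → F (H i) ≤ 0 := by
    intro i h1 h2
    obtain ⟨j, rfl⟩ := Nat.exists_eq_add_of_le h1
    rw [hHB j (by omega)]
    have h3 : Conn (Op 0 F) u (f' j) := hfc j (by omega)
    exact h3.right
  have hHN : H (n + n') = x3 := by
    rw [hHB n' le_rfl, fn]
  have hadj : ∀ i < n + n', Adj (H i) (H (i + 1)) := fun i hi => (hH.step i hi).1
  -- an exit from `G0`
  have hex0 : ∀ i j, i ≤ j → n ≤ i → j ≤ n + n' → H i ∈ G0 → H j ∉ G0 →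
      ∃ q, i ≤ q ∧ q < j ∧ H q ∈ G0 ∧ H (q + 1) = u := by
    intro i j h1 h2 h3 h4 h5
    obtain ⟨q, q1, q2, q3, q4⟩ := last_time (Q := fun k => H k ∈ G0) h1 h4
    have q5 : q < j := by
      rcases Nat.eq_or_lt_of_le q2 with h6 | h6
      · rw [h6] at q3
        exact absurd q3 h5
      · exact h6
    refine ⟨q, q1, q5, q3, ?_⟩
    have q6 : H (q + 1) ∉ G0 := q4 (q + 1) (by omega) q5
    exact (hG0 _ q3 _ (hadj q (by omega)) (hHo (q + 1) (by omega) (by omega))).resolve_left q6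
  have hN0 : H (n + n') ∉ G0 := by
    rw [hHN]
    exact hx3
  obtain ⟨t1, a1, a2, a3, a4⟩ := first_time (Q := fun k => H k ∉ G0) (Nat.le_add_right n n') hN0
  have a3' : H t1 ∉ G0 := a3
  have a5 : n < t1 := by
    rcases Nat.eq_or_lt_of_le a1 with h6 | h6
    · rw [← h6] at a3'
      exact absurd (hgG n le_rfl) a3'
    · exact h6
  have a6 : H t1 = u := by
    have h1 : H (t1 - 1) ∈ G0 := not_not.1 (a4 (t1 - 1) (by omega) (by omega))
    have h2 := hadj (t1 - 1) (by omega)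
    rw [show t1 - 1 + 1 = t1 by omega] at h2
    exact (hG0 _ h1 _ h2 (hHo t1 (by omega) a2)).resolve_left a3'
  have a7 : ∀ i < t1, H i ∈ G0 := by
    intro i hi
    rcases Nat.lt_or_ge i n with h1 | h1
    · exact hgG i h1.le
    · exact not_not.1 (a4 i h1 hi)
  have a8 : ∀ i, t1 < i → i ≤ n + n' → H i ∉ G0 := by
    intro i h1 h2 h3
    obtain ⟨q, q1, q2, -, q4⟩ := hex0 i (n + n') h2 (by omega) le_rfl h3 hN0
    have := hH.inj (q + 1) t1 (by omega) a2 (q4.trans a6.symm)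
    omega
  -- the entrance into `G3`
  have hen3 : ∀ i j, i ≤ j → n ≤ i → j ≤ n + n' → H i ∉ G3 → H j ∈ G3 →
      ∃ q, i ≤ q ∧ q < j ∧ H q = u' ∧ ∀ k, q < k → k ≤ j → H k ∈ G3 := by
    intro i j h1 h2 h3 h4 h5
    obtain ⟨q, q1, q2, q3, q4⟩ := last_time (Q := fun k => H k ∉ G3) h1 h4
    have q5 : q < j := by
      rcases Nat.eq_or_lt_of_le q2 with h6 | h6
      · rw [h6] at q3
        exact absurd h5 q3
      · exact h6
    refine ⟨q, q1, q5, ?_, fun k k1 k2 => not_not.1 (q4 k k1 k2)⟩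
    have q6 : H (q + 1) ∈ G3 := not_not.1 (q4 (q + 1) (by omega) q5)
    exact (hG3 _ q6 _ (hadj q (by omega)).symm (hHo q (by omega) (by omega))).resolve_left q3
  have hut : H t1 ∉ G3 := by
    rw [a6]
    exact hu3
  obtain ⟨t3, b1, b2, b3, b4⟩ := hen3 t1 (n + n') a2 a5.le le_rfl hut (hHN ▸ hx33)
  have b5 : t1 < t3 := by
    rcases Nat.eq_or_lt_of_le b1 with h6 | h6
    · exact absurd (a6.symm.trans (h6 ▸ b3)) huu
    · exact h6
  refine ⟨H, n + n', t1, t3, hH, ?_, hHN, b5, b2, a6, b3, a7, a8, b4, ?_, fun i h1 h2 =>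
    hHo i (by omega) h2⟩
  · rw [hHA 0 (Nat.zero_le _), g0]
  · intro i hi h1
    rcases Nat.lt_or_ge i t1 with h2 | h2
    · exact Set.disjoint_left.1 hd (a7 i h2) h1
    · obtain ⟨q, q1, q2, q3, -⟩ := hen3 t1 i h2 a5.le (by omega) hut h1
      have := hH.inj q t3 (by omega) (by omega) (q3.trans b3.symm)
      omega

end Pool.Agent.MSTS
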