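import Pool.Agent.MSTS.KeyE
import Pool.Agent.MSTS.PathF
import Pool.Agent.MSTS.SFin
import Pool.Agent.MSTS.Shift
import Pool.Agent.MSTS.SixA

/-!
# Part (S), section 6: from the final configuration to the strong pattern

`ps_of_fin : FinS`: `six_a` gives the tree path `h`, `end_of` the facts `EndIn` at both ends (the
key lemma is `key_end`), `path_psG` the strong pattern.
-/

set_option autoImplicit false

namespace Pool.Agent.MSTS

open Pool.Agent.TriPerc Pool.Agent.MST Pool.Agent.MSTG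

/-- A component of the tree configuration is inside a closed set of the original one. -/
theorem comp_gt {f gt : Lab} {Y : Set V} {r R : ℤ} {v : V} (gf : ∀ w, f w ≤ gt w)
    (hcl : ∀ z ∈ Y, ∀ z' ∈ Op 0 f, r ≤ nrm z' → nrm z' ≤ R → Adj z z' → z' ∈ Y) (hv : v ∈ Y) :
    ∀ z, Conn (Op 0 gt ∩ Ann 0 r R) v z → z ∈ Y := fun z hz =>
  closed_conn (T := Op 0 f ∩ Ann 0 r R) (fun a ha b hb hab => by
    have h1 := mem_ann0.1 hb.2
    exact hcl a ha b hb.1 h1.1 h1.2 hab) hv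
    (hz.mono fun w hw => ⟨(gf w).trans hw.1, hw.2⟩)

/-- One end of the tree path. -/
theorem end_of {g : Geo} {f gt F : Lab} {omJ : ℝ} {Pp X Y U K G : Set V} {j1 j2 b2 : ℤ}
    {u v v' ρ : V} {ms : ℕ → ℤ} {k : ℕ} {h : ℕ → V} {N t1 t3 : ℕ} (hG : GeoOK g ms k) (hm0 : 64 ≤ g.m0)
    (E : EndS g f gt F omJ Pp X Y U K G j1 j2 b2 u v v' ρ) (gi : Function.Injective gt)
    (gf : ∀ w, f w ≤ gt w) (Pf : Pp ⊆ Op 0 f) (Pg : Pp ⊆ Op 0 gt)
    (hX : ∀ z ∈ X, ∀ z' ∈ Op 0 f, g.r ≤ nrm z' → nrm z' ≤ g.R → Adj z z' → z' ∈ X)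
    (hY : ∀ z ∈ Y, ∀ z' ∈ Op 0 f, g.r ≤ nrm z' → nrm z' ≤ g.R → Adj z z' → z' ∈ Y)
    (nn : ¬ Arm {v | f v < -omJ / 2} 0 g.mn (2 * g.mn)) (hrj : g.r ≤ j1) (hj : j1 < j2)
    (hj2 : j2 ≤ g.rho) (hb2 : b2 ≤ g.mn) (hh : IsPa (MT Set.univ ∅ F) h N) (h13 : t1 ≤ t3)
    (h3N : t3 ≤ N) (hop : ∀ i, t1 ≤ i → i ≤ t3 → F (h i) ≤ 0) (hg : ∀ i < t1, h i ∈ G)
    (n0 : nrm (h 0) ≤ 2 * g.m0 + 1) (hu : h t1 = u) :
    EndIn (Op 0 F) Pp (Op 0 f) X Y U g.r g.rho g.rm g.n2 (g.mM / 2) g.c g.R h N t1 t3 v v' := by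
  have q15 := hG.mn
  have q16 := hG.rho
  have q19 := hG.mb
  have q20 := hG.mM
  have q21 := hG.cM
  have q22 := hG.c
  have q23 := hG.mL
  have q24 := hG.R
  have q17 := hG.n1
  have q18 := hG.n2
  have e1 := E.nU u E.uU
  have e2 := E.nv
  have hvU : v ∉ U := fun hv => by
    have := E.nU v hv
    omega
  refine ⟨fun i hi => (hh.step i hi).1, hh.inj, h13, h3N, hop, fun i hi =>
    ⟨E.GX (hg i hi), E.GO (hg i hi)⟩, by omega, hu ▸ E.uU, by rw [hu]; omega, by rw [hu]; omega,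
    by omega, by omega, by rw [hu]; exact E.cv, by rw [hu]; exact E.cv', ?_, E.vY,
    fun z hz => by have := E.nU z hz; omega, Pf, hX, hY, ?_⟩
  · intro z hz
    rw [hu] at hz
    exact E.sa z hz
  · intro s kb k1 k2 k3 k4 k5 k6
    refine key_end (g := gt) (a := g.mn) (b := 2 * g.mn) (t := -omJ / 2) (rho := g.rho)
      (R := g.R) (c := g.c) gi hh k2 (by omega) k4 k5 hvU (fun i i1 i2 => ?_) (by omega)
      (fun z hz _ _ => Pg hz) (comp_gt gf hY E.vY) E.vW E.FY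
      (fun z z1 z2 z3 _ => E.Fg z z1 z2 z3.le) hrj hj hj2 (by omega) (by omega) E.KC E.Kt
      (fun z hz => (E.Ka z hz).trans hb2) E.Km ?_ E.rt
      (fun a ha y hy hay _ hyw => E.c2 y hy a ha hay hyw)
    · have h1 := k6 i (by omega) i2
      have h2 := mem_ball0.1 h1.right.2
      rw [hu] at h1
      exact ⟨by omega, E.sa _ h1⟩
    · exact fun ha => nn (arm_mono (fun w (hw : gt w < -omJ / 2) => (gf w).trans_lt hw) ha)

/-- **Section 6**: the final configuration has the strong pattern. -/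
theorem ps_of_fin : FinS := by
  intro g lam f gt F omJ m om k a b e z Pp U U' K K' G0 G3 u u' v v' x x3 t ρ ρ' vv pp zz hG hP hS
    S
  have hf : Function.Injective f := by
    intro x y hxy
    by_contra hne
    have h1 := hS.inj x y hne (0, 0, 0) (0, 0, 0)
    have h2 : ∀ l q : ℝ, cmap (0, 0, 0) l q = q := by
      intro l q
      unfold cmap tmap rmap smap
      simp
    rw [h2, h2] at h1
    exact h1 hxy
  have q0 := hG.mi
  have q0' := hS.gst.mi0
  have q1 := hG.r1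
  have q2 := hG.md
  have q3 := hG.p1
  have q4 := hG.a5
  have q5 := hG.m5
  have q6 := hG.b5
  have q7 := hG.p2
  have q8 := hG.m1
  have q9 := hG.j1
  have q10 := hG.a2
  have q11 := hG.m2
  have q12 := hG.b2
  have q13 := hG.j2
  have q14 := hG.m0
  have q15 := hG.mn
  have q16 := hG.rho
  have q17 := hG.n1
  have q18 := hG.n2
  have q19 := hG.mb
  have q20 := hG.mM
  have q21 := hG.cM
  have q22 := hG.c
  have q23 := hG.mL
  have q24 := hG.R
  have q30 := hG.md0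
  have qmb := hG.mmb
  have e0 := S.e0.nU u S.e0.uU
  have hm64 : ∀ l < k, 64 ≤ m l := fun l hl => by
    have := hG.mrho l hl
    omega
  have hml : ∀ l < k, m l ≤ m 0 := by
    intro l
    induction l with
    | zero => exact fun _ => le_rfl
    | succ l ih =>
      intro hl
      have h1 := ih (by omega)
      have h2 := hG.mm l hl
      have h3 := hm64 (l + 1) hl
      omega
  have hd := Set.disjoint_left.1 S.dG
  obtain ⟨h, N, t1, t3, hh, h0, hN, h13, h3N, ht1, ht3, hg0, -, hg3, -, hop⟩ := six_a S.Fi S.ch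
    hG.k0 hm64 hG.mm hS.gst.om0 (fun l hl => by
      have h1 := hml l hl
      omega) S.e0.ex S.vG S.tu (S.e0.UF S.e0.uU) (fun h => hd h S.x3G) S.e3.ex S.x3G S.dG S.uG3
    S.uu S.ux S.fin
  have hω : MSTLim.TreePath F h N := tp_of_mt hh
  have hX : ∀ k, ∀ a ∈ Cl f g.r g.R z k, ∀ b ∈ Op 0 f, g.r ≤ nrm b → nrm b ≤ g.R → Adj a b →
      b ∈ Cl f g.r g.R z k := fun k => cl_closed
  have Pf : Pp ⊆ Op 0 f := fun w hw => (S.Pf hw).1
  -- the reversed path
  have hrev : IsPa (MT Set.univ ∅ F) (fun i => h (N - i)) N :=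
    hh.rev fun _ _ h => h.symm
  have H : EndIn (Op 0 F) Pp (Op 0 f) (Cl f g.r g.R z 0) (Cl f g.r g.R z 1 ∪ Cl f g.r g.R z 2) U
      g.r g.rho g.rm g.n2 (g.mM / 2) g.c g.R h N t1 t3 v v' :=
    end_of hG (by omega) S.e0 S.gi S.gf Pf S.Pg (hX 0) cl_closed2 hS.nn (by omega) (by omega) (by omega)
      (by omega) hh h13.le h3N.le (fun i i1 i2 => hop i i1 (by omega)) hg0 (by rw [h0]; exact S.nx)
      ht1
  have H' : EndIn (Op 0 F) Pp (Op 0 f) (Cl f g.r g.R z 3) (Cl f g.r g.R z 4 ∪ Cl f g.r g.R z 5) U'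
      g.r g.rho g.rm g.n2 (g.mM / 2) g.c g.R (fun i => h (N - i)) N (N - t3) (N - t1) v' v :=
    end_of hG (by omega) S.e3 S.gi S.gf Pf S.Pg (hX 3) cl_closed2 hS.nn (by omega) (by omega) (by omega)
      (by omega) hrev (by omega) (by omega) (fun i i1 i2 => hop (N - i) (by omega) (by omega))
      (fun i hi => hg3 (N - i) (by omega) (by omega)) (by
        rw [Nat.sub_zero, hN]
        exact S.nx3) (by
        rw [show N - (N - t3) = t3 by omega, ht3])
  exact path_psG hG hP hS hf S.efz hω H H' (fun x y hx hy => S.cut x y (by omega) hy) (by omega)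
    (by rw [h0]; exact S.nx) (by rw [hN]; exact S.nx3)

end Pool.Agent.MSTS
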