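import Pool.Agent.MSTS.Obj

/-! # Part (S): from the objects to the final labels

(problem MP_e1ab72_pr; text: /team-store/MST_S_helper95.md, section 5)

`obj_sts`: the sets of the relabelling; `obj_comp`: the component of the start of the chain; `obj_gain`: `gain_comp` for the objects. -/

set_option autoImplicit false

namespace Pool.Agent.MSTS

open Pool.Agent.TriPerc Pool.Agent.MST Pool.Agent.MSTG Set

variable {g : Geo} {lam : V → ℝ} {f : Lab} {omJ : ℝ} {o : ObjD} {m : ℕ → ℤ} {om : ℕ → ℝ} {k : ℕ}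

/-- Radii of the gates. -/
theorem GeoOK.ml (h : GeoOK g m k) (l : ℕ) (hl : l < k) : m l ≤ m 0 := by
  induction l with
  | zero => exact le_rfl
  | succ l ih =>
    have h1 := ih (by omega)
    have h2 := h.mm l hl
    have h3 := h.mm0 (l + 1) hl
    have h4 := h.r1
    have h5 := h.md
    have h6 := h.p1
    have h7 := h.a5
    have h8 := h.m5
    have h9 := h.b5
    have h10 := h.p2
    have h11 := h.m1
    have h12 := h.j1
    have h13 := h.a2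
    have h14 := h.m2
    have h15 := h.b2
    have h16 := h.j2
    have h17 := h.m0
    omega

/-- The inner radii in order. -/
theorem GeoOK.inner (h : GeoOK g m k) : 64 ≤ g.md ∧ 3 * g.md < g.p1 ∧ g.p1 < g.j1 ∧ 8 * g.md < g.m1 ∧
    g.m1 < g.m0 ∧ 2 * g.m1 < g.j1 ∧ 2 * g.p2 < g.m0 ∧ g.md < g.m0 ∧ 512 ≤ g.m0 := by
  have h5 := h.md0
  have h6 := h.p1
  have h7 := h.a5
  have h8 := h.m5
  have h9 := h.b5
  have h10 := h.p2
  have h11 := h.m1
  have h12 := h.j1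
  have h13 := h.a2
  have h14 := h.m2
  have h15 := h.b2
  have h16 := h.j2
  have h17 := h.m0
  refine ⟨h5, ?_, ?_, ?_, ?_, ?_, ?_, ?_, ?_⟩ <;> omega

/-- The outer radii in order. -/
theorem GeoOK.outer (h : GeoOK g m k) : 16 * g.rho ≤ m 0 ∧ 8 * g.m0 ≤ g.rho ∧ 64 * g.m0 ≤ m 0 ∧
    40 * m 0 ≤ g.mb ∧ 10 * g.mb ≤ g.mM ∧ 2 * g.mM < g.c ∧ 2 * g.c ≤ g.mL ∧ g.r < g.m0 ∧
    4 * g.mL ≤ g.R := by
  have h1 := h.k0
  have h2 := h.mrho 0 h1
  have h3 := h.mm0 0 h1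
  have h4 := h.mmb
  have h5 := h.mM
  have h6 := h.cM
  have h7 := h.c
  have h8 := h.mL
  have h9 := h.rho
  have h10 := h.mn
  have h11 := h.inner
  have h12 := h.md
  have h13 := h.r1
  have h14 := h.R
  refine ⟨h2, ?_, h3, h4, h5, ?_, h8, ?_, h14⟩ <;> omega

theorem cl_sub (z : Fin 6 → V) (i : Fin 6) : Cl f g.r g.R z i ⊆ Op 0 f ∩ Ann 0 g.r g.R :=
  comp_subset

/-- The raised vertices are open. -/
theorem Com.rs_op (h : Com g lam f omJ o) {u : V} (hu : u ∈ o.Rs) : f u ≤ 0 := by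
  rcases hu with ((hu | hu) | hu) | hu
  · exact (h.sc hu.1).1.1.1
  · rcases (h.s0 hu).1.1 with h1 | h1
    · exact (cl_sub o.z _ h1).1
    · exact (cl_sub o.z _ h1).1
  · rcases (h.s1 hu).1.1 with h1 | h1
    · exact (cl_sub o.z _ h1).1
    · exact (cl_sub o.z _ h1).1
  · exact (h.sd hu).1.1

/-- The norms of the raised vertices. -/
theorem Com.rs_nrm (hg : GeoOK g m k) (h : Com g lam f omJ o) {u : V} (hu : u ∈ o.Rs) :
    nrm u ≤ 2 * g.m0 ∨ (g.mM ≤ nrm u ∧ nrm u ≤ 2 * g.mM) := by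
  obtain ⟨i1, i2, i3, i4, i5, i6, i7, i8, i9⟩ := hg.inner
  rcases hu with ((hu | hu) | hu) | hu
  · exact Or.inr (mem_ann0.1 (h.sc hu.1).2)
  · exact Or.inl (mem_ann0.1 (h.s0 hu).2).2
  · have := (mem_ann0.1 (h.s1 hu).2).2
    left
    omega
  · have := (mem_ann0.1 (h.sd hu).2).2
    left
    omega

theorem Half.u_nrm (h : Half g lam f omJ o) {u : V} (hu : u ∈ o.e.U1) :
    g.mb ≤ nrm u ∧ nrm u ≤ 2 * g.mb := mem_ann0.1 (h.kS (h.Uk hu)).1.2

theorem Half.j_nrm (h : Half g lam f omJ o) {u : V} (hu : u ∈ o.e.KJ) :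
    o.e.a ≤ nrm u ∧ nrm u ≤ o.e.bb := mem_ann0.1 (h.KA hu)

/-- The sets of the relabelling. -/
theorem obj_sts (hg : GeoOK g m k) (h : Obj g lam f omJ o) :
    Sts lam f m k o.Rs (o.e.UJ ∪ o.e'.UJ) o.W (o.e.U1 ∪ o.e'.U1) := by
  obtain ⟨i1, i2, i3, i4, i5, i6, i7, i8, i9⟩ := hg.inner
  obtain ⟨e1, e2, e3, e4, e5, e6, e7, e8, e9⟩ := hg.outer
  have hU : ∀ u ∈ o.e.U1 ∪ o.e'.U1, g.mb ≤ nrm u ∧ nrm u ≤ 2 * g.mb := fun u hu =>
    hu.elim (fun h1 => h.h.u_nrm h1) fun h1 => h.h'.u_nrm h1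
  have hJ : ∀ u ∈ o.e.KJ ∪ o.e'.KJ, 2 * nrm u < g.m0 := by
    intro u hu
    rcases hu with hu | hu
    · have h1 := h.h.j_nrm hu
      have h2 := h.h.bj
      have h3 := h.h.j2
      omega
    · have h1 := h.h'.j_nrm hu
      have h2 : o.e'.bb < o.e'.j2 := h.h'.bj
      have h3 : 2 * o.e'.j2 ≤ g.m0 := h.h'.j2
      have h4 : nrm u ≤ o.e'.bb := h1.2
      omega
  have hJJ : o.e.UJ ∪ o.e'.UJ ⊆ o.e.KJ ∪ o.e'.KJ := Set.union_subset_union h.h.JK h.h'.JK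
  have hW : ∀ u ∈ o.W, g.mL ≤ nrm u := fun u hu => (mem_ann0.1 (h.com.WS hu).2).1
  have hm0 : 1 ≤ m 0 := by omega
  have hin : ∀ u : V, nrm u ≤ 2 * g.m0 → ∀ l < k, nrm u < m l - 1 ∨ 2 * m l + 1 < nrm u := by
    intro u hu l hl
    have := hg.mm0 l hl
    left
    omega
  have hout : ∀ u : V, g.mb ≤ nrm u → ∀ l < k, nrm u < m l - 1 ∨ 2 * m l + 1 < nrm u := by
    intro u hu l hl
    have := hg.ml l hl
    right
    omega
  refine ⟨fun u hu => ⟨h.com.asc hu, h.com.rs_op hu⟩, fun u hu => hu.elim (fun h1 => h.h.Jas h1)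
    fun h1 => h.h'.Jas h1, fun u hu => ⟨h.com.Was hu, h.com.Wf u hu⟩, fun u hu =>
    hu.elim (fun h1 => ⟨h.h.Uas h1, h.h.Uf u h1⟩) fun h1 => ⟨h.h'.Uas h1, h.h'.Uf u h1⟩,
    fun u hu hu' => ?_, fun u hu hu' => ?_, fun u hu hu' => ?_, fun u hu hu' => ?_,
    fun u hu => ?_, fun u hu => ?_, fun u hu => ?_, fun u hu => ?_, fun u hu => ?_⟩
  · rcases hu' with h1 | h1
    · exact Set.disjoint_left.1 h.h.KP (h.h.JK h1) hu
    · have h2 := h.h'.KP
      rw [flip_rs] at h2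
      exact Set.disjoint_left.1 h2 (h.h'.JK h1) hu
  · have h1 := hJ u (hJJ hu)
    have h2 := hW u hu'
    omega
  · have h1 := hJ u (hJJ hu)
    have h2 := hU u hu'
    omega
  · have h1 := hW u hu
    have h2 := hU u hu'
    omega
  · rcases h.com.rs_nrm hg hu with h1 | h1
    · exact hin u h1
    · exact hout u (by omega)
  · exact hin u (by have := hJ u (hJJ hu); omega)
  · exact hout u (by have := hW u hu; omega)
  · exact hout u (hU u hu).1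
  · have := (hU u hu).1
    omega

/-- The component of the start of the chain after the first step. -/
theorem obj_comp (hg : GeoOK g m k) (h : Obj g lam f omJ o) {y : V}
    (hy : Conn (Op1 f o.Rs (o.e.UJ ∪ o.e'.UJ) o.W ∩ Ball 0 (g.c - 1)) o.e.x0 y) :
    Conn (o.P1 g f) o.e.p y := by
  obtain ⟨i1, i2, i3, i4, i5, i6, i7, i8, i9⟩ := hg.inner
  obtain ⟨e1, e2, e3, e4, e5, e6, e7, e8, e9⟩ := hg.outer
  obtain ⟨-, hr⟩ := hy
  induction hr with
  | refl => exact h.h.px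
  | @tail a b _ hab ih =>
    have h1 := h.h.low a ih
    have h2 := nrm_adj0 hab.1
    have h3 : nrm b ≤ g.c - 1 := mem_ball0.1 hab.2.2
    refine ih.trans (Conn.of_adj ih.right ⟨?_, hab.2.2⟩ hab.1)
    rcases hab.2.1 with h4 | h4 | h4
    · exact ⟨h4.1, h4.2⟩
    · exfalso
      rcases h4 with h5 | h5
      · have h6 := h.h.j_nrm (h.h.JK h5)
        have h7 := h.h.bj
        have h8 := h.h.j2
        omega
      · have h6 := h.h'.j_nrm (h.h'.JK h5)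
        have h7 : o.e'.bb < o.e'.j2 := h.h'.bj
        have h8 : 2 * o.e'.j2 ≤ g.m0 := h.h'.j2
        have h9 : nrm b ≤ o.e'.bb := h6.2
        omega
    · exfalso
      have h5 := (mem_ann0.1 (h.com.WS h4).2).1
      omega

/-- `P1` is open after the first step. -/
theorem p1_op1 : o.P1 g f ⊆ Op1 f o.Rs (o.e.UJ ∪ o.e'.UJ) o.W ∩ Ball 0 (g.c - 1) :=
  fun _ hv => ⟨Or.inl ⟨hv.1.1, hv.1.2⟩, hv.2⟩

theorem obj_gain (hg : GeoOK g m k) (hS : SGood g lam f omJ m om k) (h : Obj g lam f omJ o) :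
    ∃ κ : V → Fin 4 × Fin 6 × Fin 2,
      (∀ u, κ u ≠ (0, 0, 0) → u ∈ FN lam f) ∧
      FN lam (fun u => cmap (κ u) (lam u) (f u)) = FN lam f ∧
      GOut lam f (fun u => cmap (κ u) (lam u) (f u)) (g.c - 1) (g.mi / 2) o.e.x0 o.e.t m om k
        o.Rs (o.e.UJ ∪ o.e'.UJ) o.W (o.e.U1 ∪ o.e'.U1) := by
  obtain ⟨i1, i2, i3, i4, i5, i6, i7, i8, i9⟩ := hg.inner
  obtain ⟨e1, e2, e3, e4, e5, e6, e7, e8, e9⟩ := hg.outer
  have hmi := hg.mi
  refine gain_comp hS.gst (obj_sts hg h) (fun u => ⟨hS.f0 u, hS.f1 u⟩) (by omega) (fun _ => ?_)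
    (fun l hl => ?_) (fun _ => ?_) ((h.h.px.symm.trans h.h.pt).mono p1_op1) fun y hy => ?_
  · omega
  · have h1 := h.h.nx0
    have h2 := hg.mm0 l hl
    omega
  · have h1 := (h.h.u_nrm (Set.mem_insert _ _)).1
    have h2 := nrm_adj0 h.h.ut
    omega
  · have h1 := h.h.low y (obj_comp hg h hy)
    omega

end Pool.Agent.MSTS
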