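import Pool.Agent.MSTS.ObjSd
import Pool.Agent.MSTS.SFin
import Pool.Agent.MSTS.ToFinA

/-! # Part (S): the facts about one end of the final configuration

(problem MP_e1ab72_pr; text: /team-store/MST_S_helper95.md, section 5)

`LF`: the facts about the labels `F`, in a form which is symmetric in the two ends; `obj_endS`: the structure `EndS`. -/

set_option autoImplicit false

namespace Pool.Agent.MSTS

open Pool.Agent.TriPerc Pool.Agent.MST Pool.Agent.MSTG Set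

variable {g : Geo} {lam : V → ℝ} {f F : Lab} {omJ : ℝ} {o : ObjD} {m : ℕ → ℤ} {om : ℕ → ℝ} {k : ℕ}

/-- The facts about the labels. -/
structure LF (g : Geo) (lam : V → ℝ) (f F : Lab) (o : ObjD) (m : ℕ → ℤ) (k : ℕ) : Prop where
  same : ∀ u ∈ Op 0 f, u ∉ o.Rs → u ∉ o.e.UJ ∪ o.e'.UJ → F u ≠ f u →
    (Conn (o.P1 g f) o.e.p u ∨ Conn (o.P1 g f) o.e'.p u) ∧
      ∃ l < k, m l - 1 ≤ nrm u ∧ nrm u ≤ 2 * m l + 1
  l6 : ∀ u ∈ o.e.UJ ∪ o.e'.UJ, F u < - lam u / 2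
  le6 : ∀ u ∈ o.e.UJ ∪ o.e'.UJ, F u ≤ f u

theorem LF.flip (h : LF g lam f F o m k) : LF g lam f F o.flip m k where
  same u hu h1 h2 h3 := by
    rw [flip_rs] at h1
    rw [flip_p1]
    obtain ⟨h4, h5⟩ := h.same u hu h1 (fun h6 => h2 (Or.symm h6)) h3
    exact ⟨h4.symm, h5⟩
  l6 u hu := h.l6 u (Or.symm hu)
  le6 u hu := h.le6 u (Or.symm hu)

/-- The labels of the tree configuration. -/
theorem Com.gl_eq (h : Com g lam f omJ o) {w : V} (hw : w ∉ o.Rs) : o.gl w = f w := by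
  refine h.gl.eq w ?_
  by_contra hcon
  push Not at hcon
  exact hw (Or.inl (Or.inl (Or.inl ⟨hcon.1, fun h1 => h1.elim hcon.2.1 hcon.2.2⟩)))

theorem Com.gl_le (h : Com g lam f omJ o) (w : V) : f w ≤ o.gl w := by
  by_cases h1 : w ∉ o.Tc ∨ w = o.vb ∨ w = o.vd
  · rw [h.gl.eq w h1]
  · push Not at h1
    have h2 := h.gl.pos w h1.1 h1.2.1 h1.2.2
    have h3 : f w ≤ 0 := (h.sc h1.1).1.1.1
    linarith

/-- A vertex of `Y` which is open in the tree configuration is not raised. -/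
theorem Obj.y_rs (hG : GeoOK g m k) (h : Obj g lam f omJ o) {w : V} (hw : w ∈ o.Y g f)
    (h0 : o.gl w ≤ 0) (hj : o.e.j1 ≤ nrm w) : w ∉ o.Rs := by
  have hmd := hG.md0
  have hYX : w ∉ o.X g f ∪ o.X' g f := by
    rintro (h1 | h1)
    · rcases hw with h2 | h2
      · exact h.cl_ne h.h.g0a h1 h2
      · exact h.cl_ne (fun e => h.h.g0a (e.trans h.h.gab.symm)) h1 h2
    · rcases hw with h2 | h2
      · exact h.cl_ne h.com.ga3 h2 h1
      · exact h.cl_ne (fun e => h.com.ga3 (h.h.gab.trans e)) h2 h1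
  rintro (((h1 | h1) | h1) | h1)
  · have h2 := h.com.gl.pos w h1.1 (fun e => h1.2 (Or.inl e)) (fun e => h1.2 (Or.inr e))
    linarith
  · exact hYX (h.com.s0 h1).1.1
  · exact hYX (h.com.s1 h1).1.1
  · have h2 := (mem_ann0.1 (h.com.sd h1).2).2
    have h3 := h.h.j1
    omega

/-- A vertex of `Y` is in no component of the joints. -/
theorem Obj.y_g (h : Obj g lam f omJ o) {w : V} (hw : w ∈ o.Y g f) :
    ¬ (Conn (o.P1 g f) o.e.p w ∨ Conn (o.P1 g f) o.e'.p w) := by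
  rintro (h1 | h1)
  · have h2 := h.h.G0X w h1
    rcases hw with h3 | h3
    · exact h.cl_ne h.h.g0a h2 h3
    · exact h.cl_ne (fun e => h.h.g0a (e.trans h.h.gab.symm)) h2 h3
  · have h2 : w ∈ o.X' g f := h.h'.G0X w (by rw [flip_p1]; exact h1)
    rcases hw with h3 | h3
    · exact h.cl_ne h.com.ga3 h3 h2
    · exact h.cl_ne (fun e => h.com.ga3 (h.h.gab.trans e)) h3 h2

theorem Obj.uj_nrm (h : Obj g lam f omJ o) {u : V} (hu : u ∈ o.e.UJ ∪ o.e'.UJ) :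
    2 * nrm u < g.m0 := by
  rcases hu with hu | hu
  · have h1 := h.h.j_nrm (h.h.JK hu)
    have h2 := h.h.bj
    have h3 := h.h.j2
    omega
  · have h1 := h.h'.j_nrm (h.h'.JK hu)
    have h2 : o.e'.bb < o.e'.j2 := h.h'.bj
    have h3 : 2 * o.e'.j2 ≤ g.m0 := h.h'.j2
    have h4 : nrm u ≤ o.e'.bb := h1.2
    omega

/-- `F` is at most the labels of the tree configuration. -/
theorem obj_fy (hG : GeoOK g m k) (h : Obj g lam f omJ o) (hL : LF g lam f F o m k) {w : V}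
    (hw : w ∈ o.Y g f) (h0 : o.gl w ≤ 0) (hj : o.e.j1 ≤ nrm w) : F w ≤ o.gl w := by
  have h1 := h.y_rs hG hw h0 hj
  have h2 := h.com.gl_eq h1
  rw [h2]
  by_cases h3 : w ∈ o.e.UJ ∪ o.e'.UJ
  · exact hL.le6 w h3
  · by_contra h4
    rw [h2] at h0
    exact h.y_g hw (hL.same w h0 h1 h3 (fun e => h4 e.le)).1

theorem obj_fg (hG : GeoOK g m k) (h : Obj g lam f omJ o) (hL : LF g lam f F o m k) {w : V}
    (hw : w ∈ o.Y g f) (hP : w ∈ o.P f) (hr : g.rho ≤ nrm w) : F w = o.gl w := by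
  obtain ⟨e1, e2, e3, e4, e5, e6, e7, e8, e9⟩ := hG.outer
  obtain ⟨i1, i2, i3, i4, i5, i6, i7, i8, i9⟩ := hG.inner
  rw [h.com.gl_eq hP.2]
  by_contra h4
  refine h.y_g hw (hL.same w hP.1 hP.2 (fun h5 => ?_) h4).1
  have := h.uj_nrm h5
  omega

/-- The labels on the turn. -/
theorem obj_kt (hG : GeoOK g m k) (h : Obj g lam f omJ o) (hL : LF g lam f F o m k)
    (h0 : 0 < omJ) {w : V} (hw : w ∈ o.e.KJ) : F w < -omJ / 2 := by
  have h1 := h.h.Jom w hw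
  by_cases h2 : w ∈ o.e.UJ ∪ o.e'.UJ
  · have h3 := hL.l6 w h2
    linarith
  · have h3 : w ∈ Low lam f := (h.h.KL hw).resolve_right fun h4 => h2 (Or.inl h4)
    have h4 : f w ≤ - lam w := h3
    have h5 : w ∉ o.Rs := fun h6 => Set.disjoint_left.1 h.h.KP hw h6
    have h6 : F w = f w := by
      by_contra h7
      obtain ⟨-, l, hl, h8, h9⟩ := hL.same w (show f w ≤ 0 by linarith) h5 h2 h7
      have h10 := h.h.j_nrm hw
      have h11 := h.h.bj
      have h12 := h.h.j2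
      have h13 := hG.mm0 l hl
      obtain ⟨i1, i2, i3, i4, i5, i6, i7, i8, i9⟩ := hG.inner
      omega
    rw [h6]
    linarith

/-- **One end of the final configuration.** -/
theorem obj_endS (hG : GeoOK g m k) (h : Obj g lam f omJ o) (hF : FH g f F o)
    (hL : LF g lam f F o m k) (hl : ∀ u, 0 ≤ lam u) (h0 : 0 < omJ) :
    EndS g f o.gl F omJ (o.P f ∩ Ann 0 g.r g.R) (o.X g f) (o.Y g f) o.e.U1 o.e.KJ
      (comp (o.P1 g f) o.e.p) o.e.j1 o.e.j2 o.e.bb o.e.u o.vb o.vd (o.rh o.e.ib) where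
  GX y hy := h.h.G0X y hy
  GO y hy := (comp_subset hy).1.1
  ex y hy w hyw hw := obj_ex hG h hF hy hyw hw
  uU := Set.mem_insert _ _
  uG := obj_ug h (Set.mem_insert _ _)
  nU z hz := h.u1_ann hz
  UF z hz := hF.u (Or.inl hz)
  nv := ⟨h.h.nvb, h.h.nvb'⟩
  vY := Or.inr h.h.vbY
  vP := ⟨h.h.vbP, (cl_sub o.z _ h.h.vbY).2⟩
  cv := (obj_cv hG h hF hl).2
  cv' := obj_cv' hG h hF
  sa z hz := obj_sa hG h hF hz
  KC := h.h.Kc
  Kt w hw := obj_kt hG h hL h0 hw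
  Ka w hw := (h.h.j_nrm hw).2
  Km := h.h.KY
  vW := h.h.vbW
  FY w hw h1 h2 := obj_fy hG h hL hw h1 h2
  Fg w hw h1 h2 := obj_fg hG h hL hw h1.1 h2
  rt := h.h.vbR
  c2 y _ z hz hzy hy := by
    obtain ⟨w, hw, hyw⟩ := hy
    exact h.h.c2 z hz y hzy hyw.left.1 ⟨w, hw, hyw⟩

end Pool.Agent.MSTS
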