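import Pool.Agent.MSTS.FinAdd
import Pool.Agent.MSTS.ToFinB

/-! # Part (S): the deterministic theorem from the objects and section 6

(problem MP_e1ab72_pr; text: /team-store/MST_S_helper95.md)

`obj_fin`: the final configuration `SFin` of the objects; `master_of`: `ObjS` and `FinS` give `MasterS`. -/

set_option autoImplicit false

namespace Pool.Agent.MSTS

open Pool.Agent.TriPerc Pool.Agent.MST Pool.Agent.MSTG Set

variable {g : Geo} {lam : V → ℝ} {f F : Lab} {omJ : ℝ} {o : ObjD} {m : ℕ → ℤ} {om : ℕ → ℝ} {k : ℕ}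

/-- The label facts from the gain. -/
theorem lf_of (hG : GeoOK g m k) (h : Obj g lam f omJ o)
    (hO : GOut lam f F (g.c - 1) (g.mi / 2) o.e.x0 o.e.t m om k
        o.Rs (o.e.UJ ∪ o.e'.UJ) o.W (o.e.U1 ∪ o.e'.U1)) : LF g lam f F o m k where
  same u hu h1 h2 h3 := by
    obtain ⟨h4, h5⟩ := hO.same u hu h1 h2 h3
    exact ⟨Or.inl (obj_comp hG h h4), h5⟩
  l6 u hu := hO.l6 u hu
  le6 u hu := hO.le6 u hu

/-- **The final configuration.** -/
theorem obj_fin (hG : GeoOK g m k) (hS : SGood g lam f omJ m om k) (h : Obj g lam f omJ o)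
    (hs : Std g o) (hFi : Function.Injective F)
    (hO : GOut lam f F (g.c - 1) (g.mi / 2) o.e.x0 o.e.t m om k
        o.Rs (o.e.UJ ∪ o.e'.UJ) o.W (o.e.U1 ∪ o.e'.U1)) :
    ∃ vv pp zz : ℕ → V, SFin g f o.gl F omJ m om k o.z (o.P f ∩ Ann 0 g.r g.R) o.e.U1 o.e'.U1
      o.e.KJ o.e'.KJ (comp (o.P1 g f) o.e.p) (comp (o.P1 g f) o.e'.p) o.e.u o.e'.u o.vb o.vd
      o.e.x0 o.e'.x0 o.e.t (o.rh o.e.ib) (o.rh o.e'.ib) vv pp zz := by
  obtain ⟨vv, pp, zz, hch, hvv⟩ := hO.chain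
  obtain ⟨hF, h3⟩ := fh_of hG h hO
  have hL := lf_of hG h hO
  have hl := hS.gst.lam0
  have e1 := obj_endS hG h hF hL hl hS.J0
  have e2 := obj_endS hG h.flip hF.flip hL.flip hl hS.J0
  rw [flip_p, flip_p1] at e2
  have hX : o.X g f = Cl f g.r g.R o.z 0 := by
    unfold ObjD.X
    rw [hs.i0]
  have hX' : o.flip.X g f = Cl f g.r g.R o.z 3 := by
    change Cl f g.r g.R o.z o.e'.i0 = _
    rw [hs.i3]
  have hY : o.Y g f = Cl f g.r g.R o.z 1 ∪ Cl f g.r g.R o.z 2 := by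
    unfold ObjD.Y
    rcases hs.iab with ⟨h1, h2⟩ | ⟨h1, h2⟩
    · rw [h1, h2]
    · rw [h1, h2, Set.union_comm]
  have hY' : o.flip.Y g f = Cl f g.r g.R o.z 4 ∪ Cl f g.r g.R o.z 5 := by
    change Cl f g.r g.R o.z o.e'.ia ∪ Cl f g.r g.R o.z o.e'.ib = _
    rcases hs.icd with ⟨h1, h2⟩ | ⟨h1, h2⟩
    · rw [h1, h2]
    · rw [h1, h2, Set.union_comm]
  rw [hX, hY, hs.j1, hs.j2, hs.bb] at e1
  rw [hX', hY'] at e2
  have j1' : o.flip.e.j1 = g.p1 := hs.p1
  have j2' : o.flip.e.j2 = g.p2 := hs.p2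
  have bb' : o.flip.e.bb = g.b5 := hs.bb'
  rw [j1', j2', bb'] at e2
  refine ⟨vv, pp, zz, ⟨h.com.wit.efz, hFi, h.com.gl.inj, h.com.gl_le, fun v hv => ⟨hv.1.1, hv.2⟩,
    fun v hv => ?_, e1, e2, obj_dg h, obj_ug h (Set.mem_insert _ _),
    obj_ug' h (Set.mem_insert _ _), obj_uu h, fun x y hx hy => obj_cut hG h hF hx hy, hch,
    fun l hl => obj_comp hG h (hvv l hl), h.h.ut.symm, h.h.pt, h.h.px, ?_, h.h.nx0, h.h'.nx0,
    obj_ux hG h hF hl h3, ?_⟩⟩
  · change o.gl v ≤ 0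
    rw [h.com.gl_eq hv.1.2]
    exact hv.1.1
  · have h4 := h.h'.px
    rw [flip_p1] at h4
    exact h4
  · refine comp_fin_add hS.fin (S := o.e.UJ ∪ o.e'.UJ ∪ o.W ∪ (o.e.U1 ∪ o.e'.U1)) ?_ ?_ _
    · refine ((((finite_ann 0 g.r g.R).union (finite_ann 0 g.r g.R)).union
        (finite_ann 0 g.mL (2 * g.mL))).union
        ((finite_ann 0 g.mb (2 * g.mb)).union (finite_ann 0 g.mb (2 * g.mb)))).subset ?_
      refine Set.union_subset_union (Set.union_subset_union ?_ fun v hv => (h.com.WS hv).2)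
        (Set.union_subset_union (fun v hv => mem_ann0.2 (h.h.u_nrm hv))
          fun v hv => mem_ann0.2 (h.h'.u_nrm hv))
      have hn : ∀ v ∈ o.e.UJ ∪ o.e'.UJ, v ∈ Ann 0 g.r g.R := by
        intro v hv
        obtain ⟨a1, a2, a3, a4, a5, a6, a7, a8, a9⟩ := hG.outer
        obtain ⟨i1, i2, i3, i4, i5, i6, i7, i8, i9⟩ := hG.inner
        have h5 := h.uj_nrm hv
        have h6 : 3 * g.md ≤ nrm v := by
          rcases hv with hv | hv
          · have h6 := h.h.j_nrm (h.h.JK hv)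
            have h7 := h.h.ja
            have h8 := h.h.j1
            omega
          · have h6 : o.e'.a ≤ nrm v := (h.h'.j_nrm (h.h'.JK hv)).1
            have h7 : o.e'.j1 < o.e'.a := h.h'.ja
            have h8 : 3 * g.md ≤ o.e'.j1 := h.h'.j1
            omega
        have h7 := hG.md
        have h8 := hG.r1
        exact mem_ann0.2 ⟨by omega, by omega⟩
      exact Set.union_subset_union (fun v hv => hn v (Or.inl hv)) fun v hv => hn v (Or.inr hv)
    · intro v hv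
      rcases hF.sub v hv with h1 | h1 | h1 | h1
      · exact Or.inl h1.1
      · exact Or.inr (Or.inl (Or.inl h1))
      · exact Or.inr (Or.inl (Or.inr h1))
      · exact Or.inr (Or.inr h1)

/-- **The deterministic theorem of part (S)** from the objects and section 6. -/
theorem master_of (hO : ObjS) (hF : FinS) : MasterS := by
  intro g lam f omJ m om k a b e hG hP hS
  obtain ⟨o, h, hs⟩ := hO g lam f omJ m om k hG hS
  obtain ⟨κ, hκ, hfn, hgo⟩ := obj_gain hG hS h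
  have hFi : Function.Injective fun u => cmap (κ u) (lam u) (f u) := fun u v huv => by
    by_contra hne
    exact hS.inj u v hne _ _ huv
  obtain ⟨F, hFd⟩ : ∃ F : Lab, F = fun u => cmap (κ u) (lam u) (f u) := ⟨_, rfl⟩
  rw [← hFd] at hfn hgo hFi
  obtain ⟨vv, pp, zz, hfin⟩ := obj_fin hG hS h hs hFi hgo
  obtain ⟨a1, a2, a3, a4, a5, a6, a7, a8, a9⟩ := hG.outer
  obtain ⟨i1, i2, i3, i4, i5, i6, i7, i8, i9⟩ := hG.inner
  refine ⟨F, ⟨⟨κ, hFd, hκ⟩, hfn, hgo.low, hgo.upp, fun u => (hgo.rng u).1,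
    fun u => (hgo.rng u).2, fun u hu1 hu2 => ⟨fun h1 => ?_, fun h1 => ?_⟩,
    ⟨o.e.x0, o.e.t, vv, pp, zz, hfin.ch, h.h.nx0, ?_⟩,
    hF g lam f o.gl F omJ m om k a b e _ _ _ _ _ _ _ _ _ _ _ _ _ _ _ _ _ _ _ _ hG hP hS hfin⟩⟩
  · have hk := hG.k0
    have hml := hG.ml (k - 1) (by omega)
    rcases hgo.op u h1 with (h2 | h2 | h2) | h2
    · exact h2.1
    · have := h.uj_nrm h2
      omega
    · have := (mem_ann0.1 (h.com.WS h2).2).1
      omega
    · exfalso
      rcases h2 with h3 | h3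
      · have := (h.h.u_nrm h3).1
        omega
      · have : g.mb ≤ nrm u := (h.h'.u_nrm h3).1
        omega
  · by_contra h2
    have hk := hG.k0
    have hml := hG.ml (k - 1) (by omega)
    have h3 : u ∉ o.Rs := by
      intro h3
      rcases h.com.rs_nrm hG h3 with h4 | h4 <;> omega
    obtain ⟨-, l, hl, h4, h5⟩ := hgo.po u (Or.inl ⟨h1, h3⟩) h2
    -- `m (k - 1) ≤ m l`
    have hdec : ∀ j, l ≤ j → j < k → m j ≤ m l := by
      intro j hj
      induction j, hj using Nat.le_induction with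
      | base => exact fun _ => le_rfl
      | succ j hj ih =>
        intro hjk
        have h6 := ih (by omega)
        have h7 := hG.mm j hjk
        have h8 := hG.mm0 (j + 1) hjk
        omega
    have := hdec (k - 1) (by omega) (by omega)
    omega
  · have h1 := (h.h.u_nrm (Set.mem_insert _ _)).1
    have h2 := nrm_adj0 h.h.ut
    omega

end Pool.Agent.MSTS
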