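import Pool.Agent.MSTS.ObjP
import Pool.Agent.MSTS.OfFin
import Pool.Agent.MSTS.ToFin

/-! # Part (S): the deterministic theorem -/

set_option autoImplicit false

namespace Pool.Agent.MSTS

/-- **The deterministic theorem of part (S)**. -/
theorem master : MasterS := master_of exists_obj ps_of_fin

end Pool.Agent.MSTS
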