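import Pool.Agent.MST.Mst

/-!
# Elementary lemmas on wired trees

`mt_raise`: tree edges below the level `t` stay tree edges if the other labels are raised or are
above `t` afterwards.  `iface_disj`: an edge between two disjoint root paths is larger than both.
`root_unique`, `root_tail`, `root_merge`: root paths are unique and merge.
`comp_conv`: a tree path with both ends in a component of `Op t w` stays in it.
-/

set_option autoImplicit false

namespace Pool.Agent.MST

open Pool.Agent.TriPerc

variable {A W : Set V} {w g : Lab} {x y z a b : V} {f f' : ℕ → V} {n n' : ℕ} {t : ℝ}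

/-- The label of an edge is monotone in the labels of the ends. -/
theorem EL_mono (hx : w x ≤ g x) (hy : w y ≤ g y) : EL w x y ≤ EL g x y := by
  unfold EL
  rw [Prod.Lex.toLex_le_toLex]
  rcases (max_le_max hx hy).lt_or_eq with h | h
  · exact Or.inl h
  · exact Or.inr ⟨h, min_le_min hx hy⟩

/-- Tree edges below `t` stay tree edges. -/
theorem mt_raise (h : MT A W w x y) (hx : w x ≤ t) (hy : w y ≤ t) (ex : g x = w x)
    (ey : g y = w y) (hg : ∀ v ∈ A, w v ≤ g v ∨ t < g v) : MT A W g x y := by
  refine ⟨h.1, h.2.1, h.2.2.1, fun hJ => h.2.2.2 ?_⟩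
  have e1 : EL g x y = EL w x y := by unfold EL; rw [ex, ey]
  rw [e1] at hJ
  refine rtg_mono (fun c d hcd => ?_) hJ
  rcases hcd with ⟨k1, k2, k3, k4⟩ | h1
  · have k5 : max (g c) (g d) ≤ max (w x) (w y) := by
      rw [← e1] at k4
      have := max_le_of_EL_lt k4
      rwa [ex, ey] at this
    have k6 : max (w x) (w y) ≤ t := max_le hx hy
    have k7 : g c ≤ t := (le_max_left _ _).trans (k5.trans k6)
    have k8 : g d ≤ t := (le_max_right _ _).trans (k5.trans k6)
    have k9 : w c ≤ g c := (hg c k2).resolve_right (not_lt.2 k7)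
    have k10 : w d ≤ g d := (hg d k3).resolve_right (not_lt.2 k8)
    exact Or.inl ⟨k1, k2, k3, (EL_mono k9 k10).trans_lt k4⟩
  · exact Or.inr h1

/-- Two root paths, joined by the jump between their ends. -/
theorem root_join (hf : IsRoot A W w a f n) (hf' : IsRoot A W w b f' n')
    (hd : ∀ i ≤ n, ∀ j ≤ n', f i ≠ f' j) :
    ∃ (h : ℕ → V), IsPa (MJ A W w) h (n + 1 + n') ∧ h 0 = a ∧ h (n + 1 + n') = b ∧
      (∀ i ≤ n, h i = f i) ∧ ∀ i ≤ n', h (n + 1 + i) = f' (n' - i) := by
  refine ⟨fun k => if k ≤ n then f k else f' (n' - (k - (n + 1))), ⟨?_, ?_⟩, ?_, ?_, ?_, ?_⟩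
  · intro k hk
    rcases lt_trichotomy k n with h1 | h1 | h1
    · rw [if_pos (by omega), if_pos (by omega)]
      exact Or.inl (hf.path.step k h1)
    · subst h1
      rw [if_pos le_rfl, if_neg (by omega), show n' - (k + 1 - (k + 1)) = n' by omega]
      exact Or.inr ⟨hf.last, hf'.last⟩
    · rw [if_neg (by omega), if_neg (by omega)]
      have h2 := hf'.path.step (n' - (k + 1 - (n + 1))) (by omega)
      rw [show n' - (k + 1 - (n + 1)) + 1 = n' - (k - (n + 1)) by omega] at h2
      exact Or.inl h2.symm
  · intro i j hi hj hij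
    beta_reduce at hij
    split_ifs at hij with h1 h2 h2
    · exact hf.path.inj i j h1 h2 hij
    · exact absurd hij (hd i h1 _ (by omega))
    · exact absurd hij.symm (hd j h2 _ (by omega))
    · have := hf'.path.inj _ _ (by omega) (by omega) hij
      omega
  · beta_reduce
    rw [if_pos (Nat.zero_le n), hf.start]
  · beta_reduce
    rw [if_neg (by omega), show n' - (n + 1 + n' - (n + 1)) = 0 by omega, hf'.start]
  · intro i hi
    beta_reduce
    rw [if_pos hi]
  · intro i hi
    beta_reduce
    rw [if_neg (by omega), show n + 1 + i - (n + 1) = i by omega]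

/-- An edge between two disjoint root paths is larger than the edges of both. -/
theorem iface_disj (hw : Function.Injective w) (hf : IsRoot A W w a f n)
    (hf' : IsRoot A W w b f' n')
    (hd : ∀ i ≤ n, ∀ j ≤ n', f i ≠ f' j) (hab : Adj a b) (ha : a ∈ A) (hb : b ∈ A) {i : ℕ}
    (hi : i < n) : EL w (f i) (f (i + 1)) < EL w a b := by
  obtain ⟨h, hh, h0, h1, h2, -⟩ := root_join hf hf' hd
  have h3 : MT A W w (f i) (f (i + 1)) := hf.path.step i hi
  have h4 : ∀ l, EL w a b < l → EL w (f i) (f (i + 1)) < l := by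
    intro l hl
    have h5 := minimax (l := l) (i := i) hw hh (by
      rw [h0, h1]
      exact Relation.ReflTransGen.single (Or.inl ⟨hab, ha, hb, hl⟩)) (by omega) (by
      rw [h2 i hi.le, h2 (i + 1) hi]
      exact h3)
    rwa [h2 i hi.le, h2 (i + 1) hi] at h5
  have h5 : EL w (f i) (f (i + 1)) ≤ EL w a b := by
    by_contra hc
    exact lt_irrefl _ (h4 _ (not_le.1 hc))
  refine lt_of_le_of_ne h5 fun h6 => ?_
  rcases EL_inj hw h6 with ⟨-, h8⟩ | ⟨h7, -⟩
  · exact hd (i + 1) hi 0 (Nat.zero_le _) (h8.trans hf'.start.symm)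
  · exact hd i hi.le 0 (Nat.zero_le _) (h7.trans hf'.start.symm)

/-- The tail of a root path. -/
theorem root_tail (hf : IsRoot A W w z f n) {i : ℕ} (hi : i ≤ n) :
    IsRoot A W w (f i) (fun k => f (i + k)) (n - i) where
  path := hf.path.sub hi le_rfl
  start := rfl
  last := by
    rw [show i + (n - i) = n by omega]
    exact hf.last
  before := fun k hk => hf.before (i + k) (by omega)

/-- The root path is unique. -/
theorem root_unique (hw : Function.Injective w) (hf : IsRoot A W w z f n)
    (hf' : IsRoot A W w z f' n') : n = n' ∧ ∀ k ≤ n, f k = f' k := by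
  classical
  by_contra hne
  -- the last common time
  obtain ⟨k, hk, hkn, hkn', hc⟩ : ∃ k, (∀ i ≤ k, f i = f' i) ∧ k < n ∧ k < n' ∧
      f (k + 1) ≠ f' (k + 1) := by
    by_contra hno
    push Not at hno
    have key : ∀ k, k ≤ n → k ≤ n' → ∀ i ≤ k, f i = f' i := by
      intro k
      induction k with
      | zero =>
        intro _ _ i hi
        rw [Nat.le_zero.1 hi, hf.start, hf'.start]
      | succ k ih =>
        intro h1 h2 i hi
        have h3 := ih (by omega) (by omega)
        rcases Nat.eq_or_lt_of_le hi with rfl | h4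
        · exact hno k h3 (by omega) (by omega)
        · exact h3 i (by omega)
    rcases le_total n n' with h | h
    · have h1 := key n le_rfl h
      have h2 : n = n' := by
        by_contra h3
        exact hf'.before n (lt_of_le_of_ne h h3) (h1 n le_rfl ▸ hf.last)
      exact hne ⟨h2, h1⟩
    · have h1 := key n' h le_rfl
      have h2 : n' = n := by
        by_contra h3
        exact hf.before n' (lt_of_le_of_ne h h3) ((h1 n' le_rfl).symm ▸ hf'.last)
      exact hne ⟨h2.symm, fun i hi => h1 i (h2 ▸ hi)⟩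
  by_cases hm : ∃ i, k < i ∧ i ≤ n ∧ ∃ j, k < j ∧ j ≤ n' ∧ f i = f' j
  · obtain ⟨i1, i2, j, j1, j2, hij⟩ := Nat.find_spec hm
    obtain ⟨i, hi⟩ : ∃ i, i = Nat.find hm := ⟨_, rfl⟩
    rw [← hi] at i1 i2 hij
    have hmin : ∀ p, k < p → p < i → ∀ q, k < q → q ≤ n' → f p ≠ f' q := fun p p1 p2 q q1 q2 h =>
      Nat.find_min hm (hi ▸ p2) ⟨p1, by omega, q, q1, q2, h⟩
    refine no_two hw hf.path hf'.path i1 i2 j1 j2 (hk k le_rfl) hij fun p q p1 p2 q1 q2 h => ?_
    rcases EL_inj hw h with ⟨h1, h2⟩ | ⟨h1, h2⟩
    · rcases Nat.eq_or_lt_of_le p1 with rfl | h3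
      · rw [hk k le_rfl] at h1
        have h4 := hf'.path.inj k q (by omega) (by omega) h1
        subst h4
        exact hc h2
      · rcases Nat.eq_or_lt_of_le q1 with rfl | h4
        · rw [← hk k le_rfl] at h1
          have := hf.path.inj p k (by omega) (by omega) h1
          omega
        · exact hmin p h3 p2 q h4 (by omega) h1
    · rcases Nat.eq_or_lt_of_le p1 with rfl | h3
      · rw [hk k le_rfl] at h1
        have := hf'.path.inj k (q + 1) (by omega) (by omega) h1
        omega
      · exact hmin p h3 p2 (q + 1) (by omega) (by omega) h1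
  · push Not at hm
    have t1 := root_tail hf (i := k + 1) hkn
    have t2 := root_tail hf' (i := k) hkn'.le
    have hd : ∀ i ≤ n - (k + 1), ∀ j ≤ n' - k, f (k + 1 + i) ≠ f' (k + j) := by
      intro i hi j hj h
      rcases Nat.eq_zero_or_pos j with rfl | h1
      · change f (k + 1 + i) = f' k at h
        rw [← hk k le_rfl] at h
        have := hf.path.inj (k + 1 + i) k (by omega) (by omega) h
        omega
      · exact hm (k + 1 + i) (by omega) (by omega) (k + j) (by omega) (by omega) h
    have e1 : MT A W w (f (k + 1)) (f' k) := by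
      rw [← hk k le_rfl]
      exact (hf.path.step k hkn).symm
    have t3 := root_tail hf' (i := k + 1) hkn'
    have t4 := root_tail hf (i := k) hkn.le
    have hd' : ∀ i ≤ n' - (k + 1), ∀ j ≤ n - k, f' (k + 1 + i) ≠ f (k + j) := by
      intro i hi j hj h
      rcases Nat.eq_zero_or_pos j with rfl | h1
      · change f' (k + 1 + i) = f k at h
        rw [hk k le_rfl] at h
        have := hf'.path.inj (k + 1 + i) k (by omega) (by omega) h
        omega
      · exact hm (k + j) (by omega) (by omega) (k + 1 + i) (by omega) (by omega) h.symm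
    have e2 : MT A W w (f' (k + 1)) (f k) := by
      rw [hk k le_rfl]
      exact (hf'.path.step k hkn').symm
    have m1 := iface_disj hw t2 t1 (fun i hi j hj h => hd j hj i hi h.symm) e1.symm.1 e1.symm.2.1
      e1.symm.2.2.1 (i := 0) (by omega)
    have m2 := iface_disj hw t4 t3 (fun i hi j hj h => hd' j hj i hi h.symm) e2.symm.1 e2.symm.2.1
      e2.symm.2.2.1 (i := 0) (by omega)
    simp only [Nat.add_zero] at m1 m2
    rw [hk k le_rfl] at m2
    exact lt_asymm m1 (by rw [hk k le_rfl] at *; exact m2)

/-- Root paths which meet merge. -/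
theorem root_merge (hw : Function.Injective w) (hf : IsRoot A W w a f n)
    (hf' : IsRoot A W w b f' n') {i j : ℕ} (hi : i ≤ n) (hj : j ≤ n') (h : f i = f' j) :
    n - i = n' - j ∧ ∀ k, i + k ≤ n → f (i + k) = f' (j + k) := by
  have t1 := root_tail hf hi
  have t2 := root_tail hf' hj
  rw [← h] at t2
  obtain ⟨h1, h2⟩ := root_unique hw t1 t2
  exact ⟨h1, fun k hk => h2 k (by omega)⟩

/-- Root paths of the vertices of a component which does not meet `W` leave it at most once:
a tree path with both ends in a component of `Op t w ∩ A` stays in it. -/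
theorem comp_conv (hw : Function.Injective w) (hf : IsPa (MT A W w) f n) {s e i : ℕ}
    (h : Conn (Op t w ∩ A) (f s) (f e)) (hsi : s ≤ i) (hie : i ≤ e) (he : e ≤ n) :
    Conn (Op t w ∩ A) (f s) (f i) := by
  refine conn_seg hsi (fun k h1 h2 => (hf.step k (by omega)).1) fun k h1 h2 => ?_
  refine ⟨minimax_seg hw hf h h1 (h2.trans hie) he, ?_⟩
  rcases Nat.eq_or_lt_of_le (show k ≤ e by omega) with rfl | h3
  · exact h.right.2
  · exact (hf.step k (by omega)).2.1

/-- Cut vertices of a tree path. -/
theorem cut_vertex {R : V → V → Prop} {S : Set V} {v : V} (hR : ∀ x y, R x y → Adj x y)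
    (hf : IsPa R f n) {s e : ℕ} (hse : s ≤ e) (he : e ≤ n)
    (hS : ∀ i, s ≤ i → i ≤ e → f i ∈ S) (h : ¬ Conn (S \ {v}) (f s) (f e)) :
    ∃ i, s ≤ i ∧ i ≤ e ∧ f i = v := by
  by_contra hc
  push Not at hc
  exact h (conn_seg hse (fun k _ h2 => hR _ _ (hf.step k (by omega)))
    fun k h1 h2 => ⟨hS k h1 h2, hc k h1 h2⟩)

end Pool.Agent.MST
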