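import Pool.Agent.MSTG.Prof

/-! # Part (S): finite components

`comp_fin_add`: if all components of `O` are finite and `S` is finite, all components of `O ∪ S` are finite. -/

set_option autoImplicit false

namespace Pool.Agent.MSTS

open Pool.Agent.TriPerc Pool.Agent.MST Pool.Agent.MSTG Set

theorem comp_fin_add {O S Q : Set V} (hO : ∀ u, (comp O u).Finite) (hS : S.Finite)
    (hQ : Q ⊆ O ∪ S) (u : V) : (comp Q u).Finite := by
  obtain ⟨R, hR⟩ : ∃ R : Set V, R = S ∪ comp O u ∪ ⋃ s ∈ S, ⋃ y ∈ (nb7 s : Set V), comp O y :=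
    ⟨_, rfl⟩
  have hRf : R.Finite := by
    rw [hR]
    refine (hS.union (hO u)).union (hS.biUnion fun s _ => ?_)
    exact (Finset.finite_toSet _).biUnion fun y _ => hO y
  refine hRf.subset fun v hv => ?_
  obtain ⟨huQ, hr⟩ := hv
  have hstep : ∀ a b, a ∈ R → b ∈ Q → Adj a b → b ∈ R := by
    intro a b ha hb hab
    by_cases hbS : b ∈ S
    · rw [hR]
      exact Or.inl (Or.inl hbS)
    have hbO : b ∈ O := (hQ hb).resolve_right hbS
    have key : ∀ y, a ∈ comp O y → b ∈ comp O y := fun y hy =>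
      Conn.trans hy (Conn.of_adj (Conn.right hy) hbO hab)
    rw [hR] at ha ⊢
    rcases ha with (ha | ha) | ha
    · refine Or.inr (mem_biUnion ha (mem_biUnion (Finset.mem_coe.2 (mem_nb7 hab)) ?_))
      exact Conn.refl hbO
    · exact Or.inl (Or.inr (key u ha))
    · rw [mem_iUnion₂] at ha
      obtain ⟨s, hs, ha⟩ := ha
      rw [mem_iUnion₂] at ha
      obtain ⟨y, hy, ha⟩ := ha
      exact Or.inr (mem_iUnion₂.2 ⟨s, hs, mem_iUnion₂.2 ⟨y, hy, key y ha⟩⟩)
  have hu : u ∈ R := by
    rw [hR]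
    rcases hQ huQ with h | h
    · exact Or.inl (Or.inr (Conn.refl h))
    · exact Or.inl (Or.inl h)
  induction hr with
  | refl => exact hu
  | tail _ hbc ih => exact hstep _ _ ih hbc.2 hbc.1

end Pool.Agent.MSTS
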