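import Pool.Agent.MST.BrM
import Pool.Agent.MST.Corr
import Pool.Agent.MST.CorrK
import Pool.Agent.MST.OrdG
import Pool.Agent.MSTS.Mx

/-!
# (S), section 2: the joint

`B0, Ba, B3, Bc` are disjoint connected sets which cross the annulus `A = Ann 0 r R`, in this cyclic
order (`SepC R b0 b3 ba bc`).  `P` is the open set of the final configuration without the new
vertices.  The zone `Ann 0 m (2 m)` is blocked by `Up`.

* `joint`: there is a corridor `Θ = comp (A \ (B0 ∪ Ba)) x` and there are vertices `p ∈ B0`,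
  `q ∈ Ba`, `u1` and a set `U` in `Up ∩ Ann 0 m (2 m) ∩ Θ` off `P` such that `p` and `q` are joined
  in `P ∪ insert u1 U`, minimal; `u1` is the only one of these vertices which is adjacent to the
  component of `p` in `P`; all of them are in `As Lo Up`.
* `corr_nb`: neighbours of the corridor; `corr_sub`: connected sets which meet the corridor.
* `joint_2c`: no vertex of the corridor is joined off `B0 ∪ Ba` to a vertex `ρb` of `Cir r` on the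
  other side.
* `joint_2f`: the two corridors are disjoint.
-/

namespace Pool.Agent.MSTS

open Pool.Agent.TriPerc Pool.Agent.MST Pool.Agent.MSTG

variable {Lo Up P B0 Ba B3 Bc E : Set V} {r R m a b : ℤ}
  {b0 ba b3 bc x x' y u v ρ0 ρa ρb ρ3 ρc z : V}

/-- The corridor. -/
def Crd (r R : ℤ) (B0 Ba : Set V) (x : V) : Set V := comp (Ann 0 r R \ (B0 ∪ Ba)) x

/-- The neighbours of the corridor. -/
theorem corr_nb (hu : u ∈ Crd r R B0 Ba x) (hy : y ∈ Ann 0 r R) (h : Adj u y) :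
    y ∈ Crd r R B0 Ba x ∨ y ∈ B0 ∪ Ba := by
  by_cases h1 : y ∈ B0 ∪ Ba
  · exact Or.inr h1
  · exact Or.inl (comp_adj hu ⟨hy, h1⟩ h)

/-- A connected set off `B0 ∪ Ba` which meets the corridor is contained in it. -/
theorem corr_sub (hE : IsConn E) (hEA : E ⊆ Ann 0 r R) (hd : Disjoint E (B0 ∪ Ba)) (hz : z ∈ E)
    (hz' : z ∈ Crd r R B0 Ba x) : E ⊆ Crd r R B0 Ba x := fun v hv =>
  Conn.trans hz' ((hE z hz v hv).mono fun _ hw =>
    ⟨hEA hw, Set.disjoint_left.1 hd hw⟩)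

/-- Four disjoint crossings in the order `0, a, 3, c`. -/
structure Four4 (r R : ℤ) (B0 Ba B3 Bc : Set V) (b0 ba b3 bc ρ0 ρa ρ3 ρc : V) : Prop where
  r1 : 1 ≤ r
  rR : r < R
  cr : Cr4 r R B0 Ba B3 Bc
  out : Ft4 R B0 Ba B3 Bc b0 ba b3 bc
  inn : Ft4 r B0 Ba B3 Bc ρ0 ρa ρ3 ρc
  sep : SepC R b0 b3 ba bc

theorem Four4.sep' (h : Four4 r R B0 Ba B3 Bc b0 ba b3 bc ρ0 ρa ρ3 ρc) :
    SepC r ρ0 ρ3 ρa ρc := (ord_iff h.r1 h.rR h.cr h.out h.inn).1 h.sep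

/-- If `b0, b3` separate `ba` from `bc`, then a point on the side of `b0, ba` opposite to `b3` is
also opposite to `bc`. -/
theorem sep_three (hR : 1 ≤ R) (n0 : nrm b0 = R) (na : nrm ba = R) (n3 : nrm b3 = R)
    (nc : nrm bc = R) (nx : nrm x = R) (e0a : b0 ≠ ba) (e03 : b0 ≠ b3) (e0c : b0 ≠ bc)
    (ea3 : ba ≠ b3) (eac : ba ≠ bc) (e3c : b3 ≠ bc) (ex0 : x ≠ b0) (exa : x ≠ ba)
    (h : SepC R b0 b3 ba bc) (hx : SepC R b0 ba x b3) : SepC R b0 ba x bc := by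
  have p0a : pos R b0 ≠ pos R ba := fun h => e0a (pos_inj hR n0 na h)
  have p03 : pos R b0 ≠ pos R b3 := fun h => e03 (pos_inj hR n0 n3 h)
  have p0c : pos R b0 ≠ pos R bc := fun h => e0c (pos_inj hR n0 nc h)
  have pa3 : pos R ba ≠ pos R b3 := fun h => ea3 (pos_inj hR na n3 h)
  have pac : pos R ba ≠ pos R bc := fun h => eac (pos_inj hR na nc h)
  have p3c : pos R b3 ≠ pos R bc := fun h => e3c (pos_inj hR n3 nc h)
  rw [sep_iff hR n0 n3 na nc e0a.symm ea3 e0c.symm e3c.symm] at h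
  rw [sep_iff hR n0 na nx n3 ex0 exa e03.symm ea3.symm] at hx
  rw [sep_iff hR n0 na nx nc ex0 exa e0c.symm eac.symm]
  unfold Bt at *
  omega

/-- The corridor of `B0, Ba`. -/
theorem Four4.crd (h : Four4 r R B0 Ba B3 Bc b0 ba b3 bc ρ0 ρa ρ3 ρc)
    (hno : ¬ Conn (B0 ∪ Ba) b0 ba) : ∃ x x' : V, nrm x = R ∧ nrm x' = r ∧
      Conn (Ann 0 r R \ (B0 ∪ Ba)) x x' ∧ SepC R b0 ba x b3 ∧ SepC R b0 ba x bc := by
  have hR : 1 ≤ R := by
    have := h.r1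
    have := h.rR
    omega
  have ho := h.out
  have hi := h.inn
  have hd := h.cr.dj
  obtain ⟨x, x', nx, nx', cx, hx⟩ := exists_corr h.r1 h.rR.le h.cr.s0 h.cr.s1
    (h.cr.c0 b0 ho.m0 ρ0 hi.m0) ho.n0 hi.n0 (h.cr.c1 ba ho.m1 ρa hi.m1) ho.n1 hi.n1 hno ho.n2
    (dj_ne hd.d02 ho.m0 ho.m2).symm (dj_ne hd.d12 ho.m1 ho.m2).symm
  refine ⟨x, x', nx, nx', cx, hx, ?_⟩
  refine sep_three hR ho.n0 ho.n1 ho.n2 ho.n3 nx (dj_ne hd.d01 ho.m0 ho.m1)
    (dj_ne hd.d02 ho.m0 ho.m2) (dj_ne hd.d03 ho.m0 ho.m3) (dj_ne hd.d12 ho.m1 ho.m2)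
    (dj_ne hd.d13 ho.m1 ho.m3) (dj_ne hd.d23 ho.m2 ho.m3) ?_ ?_ h.sep hx
  · rintro rfl
    exact cx.left.2 (Or.inl ho.m0)
  · rintro rfl
    exact cx.left.2 (Or.inr ho.m1)

/-- The other crossings keep away from the corridor. -/
theorem Four4.away (h : Four4 r R B0 Ba B3 Bc b0 ba b3 bc ρ0 ρa ρ3 ρc) (nx : nrm x = R)
    (hx : SepC R b0 ba x b3) (hx' : SepC R b0 ba x bc) (hu : u ∈ Crd r R B0 Ba x)
    (hv : v ∈ B3 ∪ Bc) : u ≠ v ∧ ¬ Adj u v := by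
  have ho := h.out
  have hi := h.inn
  have hB : ∀ {G : Set V}, G ⊆ Ann 0 r R → G ⊆ Ball 0 R := by
    intro G hG v hv
    exact mem_ball0.2 (mem_ann0.1 (hG hv)).2
  rcases hv with hv | hv
  · exact corr_out h.r1 h.rR.le (hB h.cr.s0) (hB h.cr.s1) (h.cr.c0 b0 ho.m0 ρ0 hi.m0) ho.n0 hi.n0
      (h.cr.c1 ba ho.m1 ρa hi.m1) ho.n1 hi.n1 nx h.cr.s2 h.cr.c2
      (Set.disjoint_union_right.2 ⟨h.cr.dj.d02.symm, h.cr.dj.d12.symm⟩) ho.m2 ho.n2 hx hu hv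
  · exact corr_out h.r1 h.rR.le (hB h.cr.s0) (hB h.cr.s1) (h.cr.c0 b0 ho.m0 ρ0 hi.m0) ho.n0 hi.n0
      (h.cr.c1 ba ho.m1 ρa hi.m1) ho.n1 hi.n1 nx h.cr.s3 h.cr.c3
      (Set.disjoint_union_right.2 ⟨h.cr.dj.d03.symm, h.cr.dj.d13.symm⟩) ho.m3 ho.n3 hx' hu hv

/-- (2c): no vertex of the corridor is joined to `ρb` off `B0 ∪ Ba`. -/
theorem Four4.c2 (h : Four4 r R B0 Ba B3 Bc b0 ba b3 bc ρ0 ρa ρ3 ρc) (nx : nrm x = R)
    (hx : SepC R b0 ba x b3) (h0 : ∀ v ∈ B0, nrm v = r → v = ρ0)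
    (ha : ∀ v ∈ Ba, nrm v = r → v = ρa) (nb : nrm ρb = r) (hb0 : ρb ≠ ρ0) (hba : ρb ≠ ρa)
    (hsep : SepC r ρ0 ρb ρa ρ3) (hy : y ∈ Crd r R B0 Ba x)
    (hyb : Conn (Ann 0 r R \ (B0 ∪ Ba)) y ρb) : False := by
  have ho := h.out
  have hi := h.inn
  have hd := h.cr.dj
  have e03 : ρ3 ≠ ρ0 := (dj_ne hd.d02 hi.m0 hi.m2).symm
  have ea3 : ρ3 ≠ ρa := (dj_ne hd.d12 hi.m1 hi.m2).symm
  have e0a : ρ0 ≠ ρa := dj_ne hd.d01 hi.m0 hi.m1
  -- `ρb` and `ρ3` are joined on the circle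
  have h1 : Conn (Cir r \ {ρ0, ρa}) ρb ρ3 := by
    rw [conn_iff h.r1 hi.n0 hi.n1 nb hi.n2 hb0 hba e03 ea3]
    by_cases hb3 : ρb = ρ3
    · rw [hb3]
    · rw [sep_iff h.r1 hi.n0 nb hi.n1 hi.n2 e0a.symm hba.symm e03 (Ne.symm hb3)] at hsep
      have p0b : pos r ρb ≠ pos r ρ0 := fun h' => hb0 (pos_inj h.r1 nb hi.n0 h')
      have pab : pos r ρb ≠ pos r ρa := fun h' => hba (pos_inj h.r1 nb hi.n1 h')
      have p3b : pos r ρb ≠ pos r ρ3 := fun h' => hb3 (pos_inj h.r1 nb hi.n2 h')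
      have p03 : pos r ρ3 ≠ pos r ρ0 := fun h' => e03 (pos_inj h.r1 hi.n2 hi.n0 h')
      have pa3 : pos r ρ3 ≠ pos r ρa := fun h' => ea3 (pos_inj h.r1 hi.n2 hi.n1 h')
      have p0a : pos r ρ0 ≠ pos r ρa := fun h' => e0a (pos_inj h.r1 hi.n0 hi.n1 h')
      unfold Bt at *
      omega
  have h2 : Conn (Ann 0 r R \ (B0 ∪ Ba)) ρb ρ3 := h1.mono (by
    rintro v ⟨hv1, hv2⟩
    have hv1' : nrm v = r := hv1
    refine ⟨mem_ann0.2 ⟨hv1'.ge, hv1'.le.trans h.rR.le⟩, ?_⟩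
    rintro (hv | hv)
    · exact hv2 (Or.inl (h0 v hv hv1'))
    · exact hv2 (Or.inr (ha v hv hv1')))
  have h3 : Conn (Ann 0 r R \ (B0 ∪ Ba)) ρ3 b3 := (h.cr.c2 ρ3 hi.m2 b3 ho.m2).mono fun v hv =>
    ⟨h.cr.s2 hv, fun hv' => hv'.elim (fun h' => Set.disjoint_left.1 hd.d02 h' hv)
      fun h' => Set.disjoint_left.1 hd.d12 h' hv⟩
  have hB : ∀ {G : Set V}, G ⊆ Ann 0 r R → G ⊆ Ball 0 R := by
    intro G hG v hv
    exact mem_ball0.2 (mem_ann0.1 (hG hv)).2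
  exact not_sep_conn h.r1 h.rR.le ho.n0 ho.n1 nx ho.n2
    (Set.union_subset (hB h.cr.s0) (hB h.cr.s1))
    ((h.cr.c0 b0 ho.m0 ρ0 hi.m0).mono Set.subset_union_left) hi.n0.le
    ((h.cr.c1 ba ho.m1 ρa hi.m1).mono Set.subset_union_right) hi.n1.le Set.sdiff_subset
    (Conn.trans hy (hyb.trans (h2.trans h3))) Set.disjoint_sdiff_right hx

/-- Rotation by two places. -/
theorem Four4.rot2 (h : Four4 r R B0 Ba B3 Bc b0 ba b3 bc ρ0 ρa ρ3 ρc) :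
    Four4 r R B3 Bc B0 Ba b3 bc b0 ba ρ3 ρc ρ0 ρa :=
  ⟨h.r1, h.rR, h.cr.rot.rot, h.out.rot.rot, h.inn.rot.rot, sep_symm (sep_comm h.sep)⟩

/-- Reflection. -/
theorem Four4.flip (h : Four4 r R B0 Ba B3 Bc b0 ba b3 bc ρ0 ρa ρ3 ρc) :
    Four4 r R B0 Bc B3 Ba b0 bc b3 ba ρ0 ρc ρ3 ρa :=
  ⟨h.r1, h.rR, h.cr.flip, h.out.flip, h.inn.flip, sep_symm h.sep⟩

/-- (2f): the corridors of `B0, Ba` and of `B3, Bc` are disjoint. -/
theorem Four4.f2 (h : Four4 r R B0 Ba B3 Bc b0 ba b3 bc ρ0 ρa ρ3 ρc) (nx : nrm x = R)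
    (nx' : nrm x' = R) (hxB : x ∉ B0 ∪ Ba) (hx : SepC R b0 ba x b3) (hxc : SepC R b0 ba x bc)
    (hx' : SepC R b3 bc x' b0) (hx'a : SepC R b3 bc x' ba) :
    Disjoint (Crd r R B0 Ba x ∪ (B0 ∪ Ba)) (Crd r R B3 Bc x' ∪ (B3 ∪ Bc)) := by
  have hR : 1 ≤ R := by
    have := h.r1
    have := h.rR
    omega
  have ho := h.out
  have hi := h.inn
  have hd := h.cr.dj
  have hB : ∀ {G : Set V}, G ⊆ Ann 0 r R → G ⊆ Ball 0 R := by
    intro G hG v hv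
    exact mem_ball0.2 (mem_ann0.1 (hG hv)).2
  rw [Set.disjoint_left]
  rintro v (hv | hv) (hv' | hv')
  · -- the corridors
    have hvx : Conn (Ann 0 r R \ (B0 ∪ Ba)) x v := hv
    have hvx' : Conn (Ann 0 r R \ (B3 ∪ Bc)) x' v := hv'
    -- the first corridor avoids `B3 ∪ Bc`
    have h1 : Conn (Ann 0 r R \ (B3 ∪ Bc)) x v := hvx.in_comp.mono fun w hw =>
      ⟨(comp_subset hw).1, fun hw' => (h.away nx hx hxc hw hw').1 rfl⟩
    have hx3 : x ≠ b3 := fun e => h1.left.2 (Or.inl (e ▸ ho.m2))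
    have hxcc : x ≠ bc := fun e => h1.left.2 (Or.inr (e ▸ ho.m3))
    have hx'3 : x' ≠ b3 := fun e => hvx'.left.2 (Or.inl (e ▸ ho.m2))
    have hx'c : x' ≠ bc := fun e => hvx'.left.2 (Or.inr (e ▸ ho.m3))
    have hx0 : x ≠ b0 := fun e => hxB (Or.inl (e ▸ ho.m0))
    have hxa : x ≠ ba := fun e => hxB (Or.inr (e ▸ ho.m1))
    have h2 : SepC R b3 bc x' x := by
      have e0a := dj_ne hd.d01 ho.m0 ho.m1
      have e03 := dj_ne hd.d02 ho.m0 ho.m2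
      have e0c := dj_ne hd.d03 ho.m0 ho.m3
      have ea3 := dj_ne hd.d12 ho.m1 ho.m2
      have eac := dj_ne hd.d13 ho.m1 ho.m3
      have e3c := dj_ne hd.d23 ho.m2 ho.m3
      have hs := h.sep
      rw [sep_iff hR ho.n0 ho.n2 ho.n1 ho.n3 e0a.symm ea3 e0c.symm e3c.symm] at hs
      rw [sep_iff hR ho.n0 ho.n1 nx ho.n2 hx0 hxa e03.symm ea3.symm] at hx
      rw [sep_iff hR ho.n0 ho.n1 nx ho.n3 hx0 hxa e0c.symm eac.symm] at hxc
      rw [sep_iff hR ho.n2 ho.n3 nx' ho.n0 hx'3 hx'c e03 e0c] at hx'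
      rw [sep_iff hR ho.n2 ho.n3 nx' nx hx'3 hx'c hx3 hxcc]
      have p0a : pos R b0 ≠ pos R ba := fun h => e0a (pos_inj hR ho.n0 ho.n1 h)
      have p03 : pos R b0 ≠ pos R b3 := fun h => e03 (pos_inj hR ho.n0 ho.n2 h)
      have p0c : pos R b0 ≠ pos R bc := fun h => e0c (pos_inj hR ho.n0 ho.n3 h)
      have pa3 : pos R ba ≠ pos R b3 := fun h => ea3 (pos_inj hR ho.n1 ho.n2 h)
      have pac : pos R ba ≠ pos R bc := fun h => eac (pos_inj hR ho.n1 ho.n3 h)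
      have p3c : pos R b3 ≠ pos R bc := fun h => e3c (pos_inj hR ho.n2 ho.n3 h)
      have px0 : pos R x ≠ pos R b0 := fun h => hx0 (pos_inj hR nx ho.n0 h)
      have pxa : pos R x ≠ pos R ba := fun h => hxa (pos_inj hR nx ho.n1 h)
      have px3 : pos R x ≠ pos R b3 := fun h => hx3 (pos_inj hR nx ho.n2 h)
      have pxc : pos R x ≠ pos R bc := fun h => hxcc (pos_inj hR nx ho.n3 h)
      have px'3 : pos R x' ≠ pos R b3 := fun h => hx'3 (pos_inj hR nx' ho.n2 h)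
      have px'c : pos R x' ≠ pos R bc := fun h => hx'c (pos_inj hR nx' ho.n3 h)
      unfold Bt at *
      generalize pos R b0 = p0 at *
      generalize pos R ba = pa at *
      generalize pos R b3 = p3 at *
      generalize pos R bc = pc at *
      generalize pos R x = px at *
      generalize pos R x' = px' at *
      clear * - hs hx hxc hx' p0a p03 p0c pa3 pac p3c px0 pxa px3 pxc px'3 px'c
      omega
    exact not_sep_conn h.r1 h.rR.le ho.n2 ho.n3 nx' nx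
      (Set.union_subset (hB h.cr.s2) (hB h.cr.s3))
      ((h.cr.c2 b3 ho.m2 ρ3 hi.m2).mono Set.subset_union_left) hi.n2.le
      ((h.cr.c3 bc ho.m3 ρc hi.m3).mono Set.subset_union_right) hi.n3.le Set.sdiff_subset
      (hvx'.trans h1.symm) Set.disjoint_sdiff_right h2
  · exact (h.away nx hx hxc hv hv').1 rfl
  · exact (h.rot2.away nx' hx' hx'a hv' hv).1 rfl
  · rcases hv with hv | hv <;> rcases hv' with hv' | hv'
    · exact Set.disjoint_left.1 hd.d02 hv hv'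
    · exact Set.disjoint_left.1 hd.d03 hv hv'
    · exact Set.disjoint_left.1 hd.d12 hv hv'
    · exact Set.disjoint_left.1 hd.d13 hv hv'

/-- Input of the joint. -/
structure JointIn (Lo Up P : Set V) (r R a m b : ℤ) (B0 Ba : Set V) : Prop where
  lu : Lo ⊆ Up
  pu : P ⊆ Up
  m48 : 48 ≤ m
  rm : r ≤ m
  mR : 2 * m ≤ R
  am : 16 * a ≤ 15 * m
  mb : 17 * m ≤ 8 * b
  lp : Lo ∩ Ann 0 a b ⊆ P
  block : ¬ Arm Upᶜ 0 m (2 * m)
  arm0 : ∀ p ∈ B0, m - 1 ≤ nrm p → nrm p ≤ 2 * m + 1 → ∃ x, 2 * nrm x ≤ m ∧ Conn P p x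
  arma : ∀ p ∈ Ba, m - 1 ≤ nrm p → nrm p ≤ 2 * m + 1 → ∃ x, 2 * nrm x ≤ m ∧ Conn P p x
  no : ∀ p ∈ B0, ∀ q ∈ Ba, m - 1 ≤ nrm p → ¬ Conn P p q

theorem JointIn.mx (h : JointIn Lo Up P r R a m b B0 Ba) {Z : Set V} {u p q s t : V}
    (hPZ : P ⊆ Z) (hZU : Z ⊆ Up) (hu : u ∈ Ann 0 m (2 * m)) (huU : u ∈ Up) (huP : u ∉ P)
    (hp : Adj u p) (hq : Adj u q) (hcp : Conn Z p s) (hs : 2 * nrm s ≤ m) (hcq : Conn Z q t)
    (ht : 2 * nrm t ≤ m) (hno : ¬ Conn Z p q) : u ∈ As Lo Up := by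
  have h48 := h.m48
  have ham := h.am
  have hmb := h.mb
  have hua := mem_ann0.1 hu
  have hdist : ∀ x : V, 2 * nrm x ≤ m → dd u ≤ nrm (x - u) := by
    intro x nx
    have h1 := nrm_add (-(x - u)) x
    rw [nrm_neg, neg_sub, sub_add_cancel] at h1
    have h2 : nrm (u - x) = nrm (x - u) := by rw [← nrm_neg, neg_sub]
    unfold dd
    omega
  refine ⟨huU, fun hL => huP (h.lp ⟨hL, mem_ann0.2 ⟨by omega, by omega⟩⟩), ?_⟩
  refine mx_of' (D := Ann 0 a b) (by omega) hZU h.lu ?_ hp hq hcp hcq (hdist s hs) (hdist t ht)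
    hno (h.lp.trans hPZ)
  intro v hv
  have hv' : nrm (v - u) ≤ dd u := hv
  unfold dd at hv'
  have h1 := nrm_add (v - u) u
  have h2 := nrm_add (-(v - u)) v
  rw [sub_add_cancel] at h1
  rw [nrm_neg, neg_sub, sub_add_cancel] at h2
  exact mem_ann0.2 ⟨by omega, by omega⟩

/-- **The joint**. -/
theorem joint (h4 : Four4 r R B0 Ba B3 Bc b0 ba b3 bc ρ0 ρa ρ3 ρc)
    (h : JointIn Lo Up P r R a m b B0 Ba) (hno : ¬ Conn (B0 ∪ Ba) b0 ba) (nx : nrm x = R)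
    (nx' : nrm x' = r) (cx : Conn (Ann 0 r R \ (B0 ∪ Ba)) x x') :
    ∃ (k U : Set V) (p q u : V), IsConn k ∧ k ⊆ Up ∩ Ann 0 m (2 * m) ∩ Crd r R B0 Ba x ∧
      (∃ z ∈ k, Adj q z) ∧ insert u U ⊆ k ∧ u ∉ U ∧ Disjoint (insert u U) P ∧
      insert u U ⊆ As Lo Up ∧ p ∈ B0 ∧ q ∈ Ba ∧ m - 1 ≤ nrm p ∧ nrm p ≤ 2 * m + 1 ∧
      m - 1 ≤ nrm q ∧ nrm q ≤ 2 * m + 1 ∧ ¬ Conn (P ∪ U) p q ∧
      (∀ y, Conn (P ∪ U) p y → Conn P p y) ∧ (∃ t, Adj u t ∧ Conn P p t) ∧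
      (∀ v ∈ U, ∀ t, Adj v t → ¬ Conn P p t) ∧
      Conn ((P ∪ insert u U) \ comp P p) u q ∧
      ∀ v ∈ U, Conn ((P ∪ insert u U) \ comp P p) u v := by
  have ho := h4.out
  have hi := h4.inn
  have h48 := h.m48
  have hrm := h.rm
  have hmR := h.mR
  -- the bridge
  have hbr : Conn (B0 ∪ Ba ∪ ((Up ∩ Ann 0 m (2 * m)) ∩ Crd r R B0 Ba x)) b0 ba := by
    refine bridge h4.r1 h4.rR.le h4.cr.s0 h4.cr.s1 h4.cr.c0 h4.cr.c1 ho.m0 ho.n0 ho.m1 ho.n1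
      hi.m0 hi.n0 hi.m1 hi.n1 nx nx' cx fun y y' ny ny' hyy => h.block ?_
    have h1 : Conn ((Up ∩ Ann 0 m (2 * m))ᶜ) y' y := (hyy.mono fun v hv => hv.2).symm
    obtain ⟨z, hz, z', hz', hc⟩ := arm_of_conn (z := 0) (n := m) (m := 2 * m) h1
      (by rw [sub_zero]; omega) (by rw [sub_zero]; omega) (by omega)
    exact ⟨z, hz, z', hz', hc.mono fun v hv => ⟨fun hv' => hv.1 ⟨hv', hv.2⟩, hv.2⟩⟩
  obtain ⟨k, hkS, hkc, hkd, ⟨p, hp, k0, hk0, hpk⟩, ⟨q, hq, k1, hk1, hqk⟩, -⟩ :=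
    bridge_core h4.cr.c0 h4.cr.c1 ho.m0 ho.m1 hbr hno
  have hkA : ∀ v ∈ k, m ≤ nrm v ∧ nrm v ≤ 2 * m := fun v hv => mem_ann0.1 (hkS hv).1.2
  have hnear : ∀ {s t : V}, t ∈ k → Adj s t → m - 1 ≤ nrm s ∧ nrm s ≤ 2 * m + 1 := by
    intro s t ht hst
    have h1 := nrm_adj hst 0
    rw [sub_zero, sub_zero, abs_le] at h1
    have h2 := hkA t ht
    omega
  obtain ⟨np1, np2⟩ := hnear hk0 hpk
  obtain ⟨nq1, nq2⟩ := hnear hk1 hqk
  obtain ⟨s, ns, cs⟩ := h.arm0 p hp np1 np2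
  obtain ⟨t, nt, ct⟩ := h.arma q hq nq1 nq2
  have hPk : P ∪ k ⊆ P ∪ (k \ P) := by
    rintro v (hv | hv)
    · exact Or.inl hv
    · by_cases hvP : v ∈ P
      · exact Or.inl hvP
      · exact Or.inr ⟨hv, hvP⟩
  have hqp : Conn (P ∪ (k \ P)) q p := by
    refine Conn.mono hPk ?_
    exact (Conn.of_adj (Or.inl ct.left) (Or.inr hk1) hqk).trans
      (((hkc k1 hk1 k0 hk0).mono Set.subset_union_right).trans
      (Conn.of_adj (Or.inr hk0) (Or.inl cs.left) hpk.symm))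
  obtain ⟨U, hUC, u, huC, huU, huP, hUP, hn1, hj, hmin, hcomp, ⟨p', hup', cp'⟩, q', huq', cq'⟩ :=
    bridge_gate (O := P) (C := k \ P) (a := q) (b := p)
      ((finite_ann 0 m (2 * m)).subset fun v hv => mem_ann0.2 (hkA v hv.1)) ct.left cs.left
      (fun h' => h.no p hp q hq np1 h'.symm) hqp
  have hUk : U ⊆ k := fun v hv => (hUC hv).1
  have hUup : U ⊆ Up := fun v hv => (hkS (hUk hv)).1.1
  have hadj : ∀ v ∈ U, ∀ t, Adj v t → ¬ Conn P p t := by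
    intro v hv t hvt hc
    have h1 : Conn (P ∪ U) p v := (hc.mono Set.subset_union_left).trans
      (Conn.of_adj (Or.inl hc.right) (Or.inr hv) hvt.symm)
    exact Set.disjoint_left.1 hUP hv (hcomp v h1).right
  have huq : Conn ((P ∪ insert u U) \ comp P p) u q := by
    obtain ⟨x1, y1, hx1, hy1, hxy, -, hc⟩ := hj.symm.last (A := comp P p) (Conn.refl cs.left)
      (fun h' => h.no p hp q hq np1 h')
    have hy2 := hc.left.1
    rcases hy2 with hy2 | hy2 | hy2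
    · exact absurd (comp_adj hx1 hy2 hxy) hy1
    · exact hy2 ▸ hc
    · exact absurd hx1 (hadj y1 hy2 x1 hxy.symm)
  refine ⟨k, U, p, q, u, hkc, hkS, ⟨k1, hk1, hqk⟩, ?_, huU, ?_, ?_, hp, hq, np1, np2, nq1, nq2,
    fun h' => hn1 h'.symm, hcomp, ⟨q', huq', cq'⟩, hadj, huq, ?_⟩
  · rintro v (hv | hv)
    · exact hv ▸ huC.1
    · exact hUk hv
  · rw [Set.disjoint_left]
    rintro v (hv | hv)
    · exact hv ▸ huP
    · exact Set.disjoint_left.1 hUP hv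
  · rintro v (hv | hv)
    · rw [hv]
      exact h.mx (Z := P ∪ U) Set.subset_union_left (Set.union_subset h.pu hUup)
        (mem_ann0.2 (hkA u huC.1)) (hkS huC.1).1.1 huP hup' huq'
        (cp'.symm.trans (ct.mono Set.subset_union_left)) nt
        ((cq'.symm.trans cs).mono Set.subset_union_left) ns
        fun h' => hn1 (cp'.trans (h'.trans (cq'.symm.mono Set.subset_union_left)))
    · have huv : v ≠ u := fun e => huU (e ▸ hv)
      obtain ⟨⟨p2, hp2, cp2⟩, q2, hq2, cq2⟩ := MSTG.hit (S := P ∪ insert u (U \ {v})) (u := v)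
        (x := q) (y := p) (Or.inl ct.left) (Or.inl cs.left) (hmin v hv) (hj.mono (by
          rintro w (hw | hw | hw)
          · exact Or.inr (Or.inl hw)
          · exact Or.inr (Or.inr (Or.inl hw))
          · by_cases e : w = v
            · exact Or.inl e
            · exact Or.inr (Or.inr (Or.inr ⟨hw, e⟩))))
      refine h.mx (Z := P ∪ insert u (U \ {v})) Set.subset_union_left ?_
        (mem_ann0.2 (hkA v (hUk hv))) (hUup hv) (Set.disjoint_left.1 hUP hv) hp2 hq2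
        (cp2.symm.trans (ct.mono Set.subset_union_left)) nt
        (cq2.symm.trans (cs.mono Set.subset_union_left)) ns
        fun h' => hmin v hv (cp2.trans (h'.trans cq2.symm))
      rintro w (hw | hw | hw)
      · exact h.pu hw
      · exact hw ▸ (hkS huC.1).1.1
      · exact hUup hw.1
  · intro v hv
    by_contra hc
    refine hmin v hv ?_
    have h1 : Conn (P ∪ insert u (U \ {v})) u q := huq.in_comp.mono (by
      intro w hw
      rcases (comp_subset hw).1 with hw' | hw' | hw'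
      · exact Or.inl hw'
      · exact Or.inr (Or.inl hw')
      · refine Or.inr (Or.inr ⟨hw', fun e => hc ?_⟩)
        have e' : w = v := e
        exact e' ▸ hw)
    have h2 : Conn (P ∪ insert u (U \ {v})) q' p := cq'.symm.mono Set.subset_union_left
    exact h1.symm.trans ((Conn.of_adj h1.left h2.left huq').trans h2)

end Pool.Agent.MSTS
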