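import Pool.Agent.MST.Cls
import Pool.Agent.MST.JBall

/-!
# Part (S), step (6c): the key lemma of the inner end

(text: `/team-store/MST_S_helper95.md`, section 6)

* `turn2`: let `h` be a path of the minimal spanning tree for the labels `F`, and let `g` be other
  labels which agree with `F` on `h s, ..., h e`.  If every root path (for `g`) of a vertex `h i`
  meets a connected set `K` on which `F < t`, such that before `K` the labels `F` are at most `g`
  and some label `g` is at least `t`, then `h s` and `h e` have the same root.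
* `key`: the form which is used: the vertices `h i`, `s < i ≤ kb`, are outside `Ball ρ`, all of them are
  joined to `h kb` in `{g ≤ 0} ∩ A`, whose component is in `Y`; `K` meets every crossing of
  `Ann 0 j1 j2` in `Y`, and `{g < t}` has no crossing of `Ann 0 a b` (`K` in `Ball a`, `b ≤ ρ`).
-/

namespace Pool.Agent.MST

open Pool.Agent.TriPerc

variable {A A' W W' K Y : Set V} {w g F : Lab} {h f f' : ℕ → V} {n n' N s e kb : ℕ}
  {x y ρ ρ' : V} {t : ℝ}

/-- The label of an edge is monotone in the labels of its ends. -/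
theorem EL_mono2 (hx : F x ≤ g x) (hy : F y ≤ g y) : EL F x y ≤ EL g x y := by
  unfold EL
  rw [Prod.Lex.toLex_le_toLex]
  rcases (max_le_max hx hy).lt_or_eq with h | h
  · exact Or.inl h
  · exact Or.inr ⟨h, min_le_min hx hy⟩

/-- One edge. -/
theorem turn_edge2 (hg : Function.Injective g) (hx : x ∈ A) (hy : y ∈ A) (hxy : Adj x y)
    (hf : IsRoot A W g x f n) (hf' : IsRoot A W g y f' n') (hne : f n ≠ f' n')
    (Fx : F x = g x) (Fy : F y = g y) (hK : IsConn K) (hKt : ∀ v ∈ K, F v < t) {i j : ℕ}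
    (hi : i ≤ n) (hj : j ≤ n') (hiK : f i ∈ K) (hjK : f' j ∈ K)
    (hFf : ∀ k ≤ i, F (f k) ≤ g (f k)) (hFf' : ∀ k ≤ j, F (f' k) ≤ g (f' k))
    (ht : ∃ k ≤ i, t ≤ g (f k)) : ¬ MT Set.univ ∅ F x y := by
  intro h
  refine h.2.2.2 ?_
  have e1 : EL F x y = EL g x y := by unfold EL; rw [Fx, Fy]
  have h1 : Jd Set.univ ∅ F (EL F x y) (f 0) (f i) := by
    refine rtg_seg (Nat.zero_le i) fun k _ hk => ?_
    have h2 := hf.path.step k (by omega)
    refine Or.inl ⟨h2.1, trivial, trivial, ?_⟩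
    rw [e1]
    exact (EL_mono2 (hFf k (by omega)) (hFf (k + 1) (by omega))).trans_lt
      (iface hg hx hy hxy hf hf' hne (by omega))
  have h2 : Jd Set.univ ∅ F (EL F x y) (f' 0) (f' j) := by
    refine rtg_seg (Nat.zero_le j) fun k _ hk => ?_
    have h2 := hf'.path.step k (by omega)
    have h3 := iface hg hy hx hxy.symm hf' hf hne.symm (i := k) (by omega)
    rw [EL_comm g y x] at h3
    refine Or.inl ⟨h2.1, trivial, trivial, ?_⟩
    rw [e1]
    exact (EL_mono2 (hFf' k (by omega)) (hFf' (k + 1) (by omega))).trans_lt h3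
  have h3 : Jd Set.univ ∅ F (EL F x y) (f i) (f' j) :=
    jd_of_lt (hK _ hiK _ hjK) (Set.subset_univ _) fun v hv => by
      obtain ⟨k, hk, hkt⟩ := ht
      rw [e1, EL_fst]
      exact ((hKt v hv).trans_le hkt).trans_le
        (iface_vertex hg hx hy hxy hf hf' hne (by omega))
  rw [hf.start] at h1
  rw [hf'.start] at h2
  exact h1.trans (h3.trans h2.symm)

/-- A path of the minimal spanning tree for `F` whose vertices have root paths for `g` through the
low connected set `K` stays in one class. -/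
theorem turn2 (hg : Function.Injective g) (hh : IsPa (MT Set.univ ∅ F) h N) (hse : s ≤ e)
    (he : e ≤ N) (hA : ∀ i, s ≤ i → i ≤ e → h i ∈ A) (hFg : ∀ i, s ≤ i → i ≤ e → F (h i) = g (h i))
    (hK : IsConn K) (hKt : ∀ v ∈ K, F v < t)
    (hex : ∀ i, s ≤ i → i ≤ e → ∃ ρ, Rt A W g (h i) ρ)
    (hmeet : ∀ i, s ≤ i → i ≤ e → ∀ f n, IsRoot A W g (h i) f n → ∃ j ≤ n, f j ∈ K ∧
      (∀ k ≤ j, F (f k) ≤ g (f k)) ∧ ∃ k ≤ j, t ≤ g (f k))
    (hp : Rt A W g (h s) ρ) (hq : Rt A W g (h e) ρ') : ρ = ρ' := by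
  have key : ∀ i, s ≤ i → i ≤ e → Rt A W g (h i) ρ := by
    intro i hsi
    induction i, hsi using Nat.le_induction with
    | base => exact fun _ => hp
    | succ i hsi ih =>
      intro hi
      obtain ⟨ρ1, f', n', hf', hn'⟩ := hex (i + 1) (by omega) hi
      obtain ⟨f, n, hf, hn⟩ := ih (by omega)
      by_cases hne : ρ = ρ1
      · exact ⟨f', n', hf', hn'.trans hne.symm⟩
      · exfalso
        have hne' : f n ≠ f' n' := by
          rw [hn, hn']
          exact hne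
        obtain ⟨j, hj, hjK, hjF, hjt⟩ := hmeet i hsi (by omega) f n hf
        obtain ⟨j', hj', hjK', hjF', -⟩ := hmeet (i + 1) (by omega) hi f' n' hf'
        have hst := hh.step i (by omega)
        exact turn_edge2 hg (hA i hsi (by omega)) (hA (i + 1) (by omega) hi) hst.1 hf hf' hne'
          (hFg i hsi (by omega)) (hFg (i + 1) (by omega) hi) hK hKt hj hj' hjK hjK' hjF hjF' hjt
          hst
  exact rt_unique hg (key e hse le_rfl) hq

/-- The first visit of `Cir j1` by a walk which starts beyond `j2`, the last visit of `Cir j2`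
before it: the part between them is a crossing of the annulus. -/
theorem walk_cross {j1 j2 : ℤ} (ha : ∀ i < n, Adj (f i) (f (i + 1))) (hj : j1 < j2)
    (h0 : j2 ≤ nrm (f 0)) (hn : nrm (f n) ≤ j1) :
    ∃ i j, i ≤ j ∧ j ≤ n ∧ (∀ k ≤ j, j1 ≤ nrm (f k)) ∧
      (∀ k, i ≤ k → k ≤ j → f k ∈ Ann 0 j1 j2) ∧ nrm (f i) = j2 ∧ nrm (f j) = j1 := by
  classical
  have hst : ∀ i < n, |nrm (f (i + 1)) - nrm (f i)| ≤ 1 := fun i hi => by
    have h1 := nrm_adj (ha i hi) 0
    rwa [sub_zero, sub_zero] at h1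
  have hex : ∃ j, nrm (f j) ≤ j1 := ⟨n, hn⟩
  obtain ⟨j, hj1, hjn, hjm⟩ : ∃ j, nrm (f j) ≤ j1 ∧ j ≤ n ∧ ∀ k < j, j1 < nrm (f k) :=
    ⟨Nat.find hex, Nat.find_spec hex, Nat.find_min' hex hn, fun k hk =>
      not_le.1 (Nat.find_min hex hk)⟩
  have hj0 : 0 < j := by
    rcases Nat.eq_zero_or_pos j with h | h
    · rw [h] at hj1
      omega
    · exact h
  have hje : nrm (f j) = j1 := by
    have h1 := abs_le.1 (hst (j - 1) (by omega))
    rw [show j - 1 + 1 = j by omega] at h1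
    have h2 := hjm (j - 1) (by omega)
    omega
  -- the last visit of the outside before `j`
  have hex2 : ∃ d, d ≤ j ∧ j2 ≤ nrm (f (j - d)) := ⟨j, le_rfl, by rwa [Nat.sub_self]⟩
  obtain ⟨d, hd1, hd2, hdm⟩ : ∃ d, d ≤ j ∧ j2 ≤ nrm (f (j - d)) ∧
      ∀ d' < d, ¬ (d' ≤ j ∧ j2 ≤ nrm (f (j - d'))) :=
    ⟨Nat.find hex2, (Nat.find_spec hex2).1, (Nat.find_spec hex2).2, fun k hk =>
      Nat.find_min hex2 hk⟩
  have hlt : ∀ k, j - d < k → k ≤ j → nrm (f k) < j2 := by
    intro k h1 h2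
    have h3 := hdm (j - k) (by omega)
    rw [show j - (j - k) = k by omega] at h3
    by_contra hc
    exact h3 ⟨by omega, not_lt.1 hc⟩
  have hd0 : 0 < d := by
    rcases Nat.eq_zero_or_pos d with h | h
    · rw [h, Nat.sub_zero, hje] at hd2
      omega
    · exact h
  have hie : nrm (f (j - d)) = j2 := by
    have h1 := abs_le.1 (hst (j - d) (by omega))
    have h2 := hlt (j - d + 1) (by omega) (by omega)
    omega
  have hall : ∀ k ≤ j, j1 ≤ nrm (f k) := fun k hk => by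
    rcases Nat.eq_or_lt_of_le hk with h | h
    · rw [h, hje]
    · exact (hjm k h).le
  refine ⟨j - d, j, by omega, hjn, hall, fun k h1 h2 => ?_, hie, hje⟩
  rw [mem_ann0]
  refine ⟨hall k h2, ?_⟩
  rcases Nat.eq_or_lt_of_le h1 with h3 | h3
  · rw [← h3, hie]
  · exact (hlt k h3 h2).le

/-- **The key lemma (6c)**: no interface edge outside `Ball ρ`. -/
theorem key {ρb : V} {r j1 j2 a b : ℤ} (hg : Function.Injective g)
    (hh : IsPa (MT Set.univ ∅ F) h N) (hsk : s < kb) (hkN : kb ≤ N) (hA : A.Finite)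
    (hW : ∀ v ∈ W, nrm v ≤ j1) (hj : j1 < j2) (hj2 : j2 ≤ r) (hab : a < b) (hbr : b ≤ r)
    (hnrm : ∀ i, s < i → i ≤ kb → r ≤ nrm (h i))
    (hY : ∀ i, s < i → i ≤ kb → Conn (Op 0 g ∩ A) (h kb) (h i))
    (hYW : ∃ v ∈ W, Conn (Op 0 g ∩ A) (h kb) v)
    (hYY : ∀ v, Conn (Op 0 g ∩ A) (h kb) v → v ∈ Y)
    (hFY : ∀ v ∈ Y, g v ≤ 0 → j1 ≤ nrm v → F v ≤ g v)
    (hFg : ∀ i, s < i → i ≤ kb → F (h i) = g (h i))
    (hK : IsConn K) (hKt : ∀ v ∈ K, F v < t) (hKa : ∀ v ∈ K, nrm v ≤ a)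
    (hKm : ¬ Arm (Y \ K) 0 j1 j2) (hN : ¬ Arm {v | g v < t} 0 a b)
    (hkb : Rt A W g (h kb) ρb) (hp : Rt A W g (h (s + 1)) ρ) : ρ = ρb := by
  obtain ⟨v0, hv0, cv0⟩ := hYW
  have hin : ∀ i, s + 1 ≤ i → i ≤ kb → Conn (Op 0 g ∩ A) (h i) v0 := fun i h1 h2 =>
    (hY i h1 h2).symm.trans cv0
  refine turn2 hg hh (s := s + 1) (e := kb) hsk hkN (fun i h1 h2 => (hin i h1 h2).left.2)
    (fun i h1 h2 => hFg i h1 h2) hK hKt (fun i h1 h2 =>
      rt_exists hA hv0 ((hin i h1 h2).mono Set.inter_subset_right)) ?_ hp hkb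
  intro i h1 h2 f n hf
  -- the root path is in `Y`
  have hadj : ∀ k < n, Adj (f k) (f (k + 1)) := fun k hk => (hf.path.step k hk).1
  have hfo : ∀ k ≤ n, g (f k) ≤ 0 := fun k hk => root_open hg hf hv0 (hin i h1 h2) hk
  have hfA : ∀ k ≤ n, f k ∈ A := fun k hk => hf.mem (hin i h1 h2).left.2 hk
  have hfc : ∀ k ≤ n, Conn (Op 0 g ∩ A) (h kb) (f k) := by
    intro k hk
    have h3 : Conn (Op 0 g ∩ A) (f 0) (f k) := conn_seg (Nat.zero_le k)
      (fun q _ hq => hadj q (by omega)) fun q _ hq => ⟨hfo q (by omega), hfA q (by omega)⟩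
    rw [hf.start] at h3
    exact (hY i h1 h2).trans h3
  have hfY : ∀ k ≤ n, f k ∈ Y := fun k hk => hYY _ (hfc k hk)
  -- the crossing of `Ann 0 j1 j2`
  obtain ⟨p, q, hpq, hqn, hq1, hpqA, hp2, hq2⟩ := walk_cross hadj hj (by
    rw [hf.start]
    exact hj2.trans (hnrm i h1 h2)) (hW _ hf.last)
  obtain ⟨j, hpj, hjq, hjK⟩ : ∃ j, p ≤ j ∧ j ≤ q ∧ f j ∈ K := by
    by_contra hc
    push Not at hc
    have hcs : Conn ((Y \ K) ∩ Ann 0 j1 j2) (f p) (f q) := conn_seg hpq
      (fun k _ hk => hadj k (by omega))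
      fun k k1 k2 => ⟨⟨hfY k (by omega), hc k k1 k2⟩, hpqA k k1 k2⟩
    refine hKm ⟨f q, ?_, f p, ?_, hcs.symm⟩
    · change nrm (f q - 0) ≤ j1
      rw [sub_zero, hq2]
    · change j2 ≤ nrm (f p - 0)
      rw [sub_zero, hp2]
  refine ⟨j, by omega, hjK, fun k hk => hFY _ (hfY k (by omega)) (hfo k (by omega))
    (hq1 k (by omega)), ?_⟩
  by_contra hc
  push Not at hc
  refine hN ?_
  have h3 : Conn {v | g v < t} (f 0) (f j) := conn_seg (Nat.zero_le j)
    (fun k _ hk => hadj k (by omega)) fun k _ hk => hc k hk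
  refine arm_of_conn h3.symm ?_ ?_ hab.le
  · rw [sub_zero]
    exact hKa _ hjK
  · rw [sub_zero, hf.start]
    exact hbr.trans (hnrm i h1 h2)

end Pool.Agent.MST
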