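import Pool.Agent.MSTS.Key
import Pool.Agent.MSTS.PathS

/-!
# Part (S), (6c) in the form of the field `key` of `EndIn`

(text: `/team-store/MST_S_helper95.md`, (6c))

`key_end`: the tree path `h` between a visit of the joint `U` and the vertex `v = v_b` of the cut visits
`Ball rho`.  `g` are the labels of the tree configuration, `F` the final labels, `Y` the component
of `v` for `g`, `K` the low connected set of the turn.
-/

namespace Pool.Agent.MSTS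

open Pool.Agent.TriPerc Pool.Agent.MST

theorem key_end {F g : Lab} {h : ℕ → V} {N s0 kb : ℕ} {v ρb : V} {U O' Y K : Set V}
    {r R c rho j1 j2 a b : ℤ} {t : ℝ} (hg : Function.Injective g)
    (hh : IsPa (MT Set.univ ∅ F) h N) (hsk : s0 ≤ kb) (hkN : kb ≤ N) (hv : h kb = v)
    (hU : h s0 ∈ U) (hvU : v ∉ U)
    (hS : ∀ k, s0 ≤ k → k ≤ kb → nrm (h k) < c ∧ (h k ∈ O' ∨ h k ∈ U ∨ nrm (h k) < rho))
    (hcR : c ≤ R) (hO' : ∀ z ∈ O', r ≤ nrm z → nrm z < c → g z ≤ 0)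
    (hYc : ∀ z, Conn (Op 0 g ∩ Ann 0 r R) v z → z ∈ Y)
    (hvW : ∃ w ∈ Cir r, Conn (Op 0 g ∩ Ann 0 r R) v w)
    (hFY : ∀ z ∈ Y, g z ≤ 0 → j1 ≤ nrm z → F z ≤ g z)
    (hFg : ∀ z ∈ Y, z ∈ O' → rho < nrm z → nrm z < c → F z = g z)
    (hrj : r ≤ j1) (hj : j1 < j2) (hj2 : j2 ≤ rho) (hab : a < b) (hb : b ≤ rho)
    (hK : IsConn K) (hKt : ∀ v ∈ K, F v < t) (hKa : ∀ v ∈ K, nrm v ≤ a)
    (hKm : ¬ Arm (Y \ K) 0 j1 j2) (hN : ¬ Arm {v | g v < t} 0 a b)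
    (hroot : Rt (Ann 0 r R) (Cir r) g v ρb)
    (h2c : ∀ u ∈ U, ∀ y ∈ Y, Adj u y → g y ≤ 0 →
      (∃ w ∈ Cir r, Conn (Op 0 g ∩ Ann 0 r R) y w) → ¬ Rt (Ann 0 r R) (Cir r) g y ρb) :
    ∃ i, s0 ≤ i ∧ i ≤ kb ∧ nrm (h i) ≤ rho := by
  by_contra hno
  push Not at hno
  -- the last visit of `U`
  obtain ⟨s, s1, s2, s3, s4⟩ := last_time (Q := fun k => h k ∈ U) hsk hU
  have s3' : h s ∈ U := s3
  have hskb : s < kb := by
    rcases Nat.eq_or_lt_of_le s2 with e | e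
    · rw [e, hv] at s3'
      exact absurd s3' hvU
    · exact e
  have hiO : ∀ i, s < i → i ≤ kb → h i ∈ O' := by
    intro i i1 i2
    have h1 := hno i (by omega) i2
    obtain ⟨-, h3⟩ := hS i (by omega) i2
    rcases h3 with h3 | h3 | h3
    · exact h3
    · exact absurd h3 (s4 i i1 i2)
    · omega
  have hin : ∀ i, s < i → i ≤ kb → h i ∈ Op 0 g ∩ Ann 0 r R := by
    intro i i1 i2
    have h1 := hno i (by omega) i2
    obtain ⟨h2, -⟩ := hS i (by omega) i2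
    refine ⟨hO' _ (hiO i i1 i2) (by omega) h2, ?_⟩
    rw [mem_ann0]
    omega
  have hadj : ∀ i < N, Adj (h i) (h (i + 1)) := fun i hi => (hh.step i hi).1
  have hcon : ∀ i, s < i → i ≤ kb → Conn (Op 0 g ∩ Ann 0 r R) (h kb) (h i) := fun i i1 i2 =>
    (conn_seg i2 (fun k _ k2 => hadj k (by omega)) fun k k1 k2 => hin k (by omega) k2).symm
  obtain ⟨w, hw, cw⟩ := hvW
  have hY : ∀ i, s < i → i ≤ kb → h i ∈ Y := fun i i1 i2 => hYc _ (hv ▸ hcon i i1 i2)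
  have hyW : Conn (Op 0 g ∩ Ann 0 r R) (h (s + 1)) w :=
    (hcon (s + 1) (by omega) hskb).symm.trans (hv ▸ cw)
  have hWr : ∀ v ∈ Cir r, nrm v ≤ j1 := fun v hv => by
    have h1 : nrm v = r := hv
    omega
  obtain ⟨ρ, hρ⟩ := rt_exists (w := g) (finite_ann 0 r R) hw (hyW.mono Set.inter_subset_right)
  have hk : ρ = ρb := key (r := rho) (s := s) hg hh hskb hkN (finite_ann 0 r R) hWr hj hj2 hab hb
    (fun i i1 i2 => (hno i (by omega) i2).le) hcon ⟨w, hw, hv ▸ cw⟩ (fun z hz => hYc z (hv ▸ hz))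
    hFY (fun i i1 i2 => hFg _ (hY i i1 i2) (hiO i i1 i2) (hno i (by omega) i2)
      (hS i (by omega) i2).1) hK hKt hKa
    hKm hN (hv ▸ hroot) hρ
  exact h2c (h s) s3' (h (s + 1)) (hY (s + 1) (by omega) hskb) (hadj s (by omega))
    (hin (s + 1) (by omega) hskb).1 ⟨w, hw, hyW⟩ (hk ▸ hρ)

end Pool.Agent.MSTS
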