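import Pool.Agent.MST.BrM
import Pool.Agent.MST.TwoArm
import Pool.Agent.MSTS.Mx

/-!
# (S), section 3: the link

`link`: let `D, D' ⊆ P` be connected sets which cross the zone `Ann 0 m (2 m)`, which is blocked by
`Up`.  Two vertices `d ∈ D`, `d' ∈ D'` far inside, which are not joined in `P`, are joined in
`P ∪ W` for a minimal set `W ⊆ Up ∩ Ann 0 m (2 m)` off `P`, and `W ⊆ As Lo Up`.

`mx_zone`: the lemma for all bridges in a zone.
-/

namespace Pool.Agent.MSTS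

open Pool.Agent.TriPerc Pool.Agent.MST Pool.Agent.MSTG

variable {Lo Up P Z D D' : Set V} {m a b : ℤ} {u p q s t d d' : V}

/-- A vertex `u` of the zone `Ann 0 m (2 m)` with two neighbours `p, q` which are joined in `Z` to
vertices far inside (`2 nrm s ≤ m`), but not to each other. -/
theorem mx_zone (h48 : 48 ≤ m) (ham : 16 * a ≤ 15 * m) (hmb : 17 * m ≤ 8 * b) (hlu : Lo ⊆ Up)
    (hlp : Lo ∩ Ann 0 a b ⊆ Z) (hZU : Z ⊆ Up) (hu : u ∈ Ann 0 m (2 * m)) (huU : u ∈ Up)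
    (huZ : u ∉ Lo) (hp : Adj u p) (hq : Adj u q) (hcp : Conn Z p s) (hs : 2 * nrm s ≤ m)
    (hcq : Conn Z q t) (ht : 2 * nrm t ≤ m) (hno : ¬ Conn Z p q) : u ∈ As Lo Up := by
  have hua := mem_ann0.1 hu
  have hdist : ∀ x : V, 2 * nrm x ≤ m → dd u ≤ nrm (x - u) := by
    intro x nx
    have h1 := nrm_add (-(x - u)) x
    rw [nrm_neg, neg_sub, sub_add_cancel] at h1
    have h2 : nrm (u - x) = nrm (x - u) := by rw [← nrm_neg, neg_sub]
    unfold dd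
    omega
  refine ⟨huU, huZ, ?_⟩
  refine mx_of' (D := Ann 0 a b) (by omega) hZU hlu ?_ hp hq hcp hcq (hdist s hs) (hdist t ht)
    hno hlp
  intro v hv
  have hv' : nrm (v - u) ≤ dd u := hv
  unfold dd at hv'
  have h1 := nrm_add (v - u) u
  have h2 := nrm_add (-(v - u)) v
  rw [sub_add_cancel] at h1
  rw [nrm_neg, neg_sub, sub_add_cancel] at h2
  exact mem_ann0.2 ⟨by omega, by omega⟩

/-- Input of the link. -/
structure LinkIn (Lo Up P : Set V) (m a b : ℤ) (D D' : Set V) (d d' : V) : Prop where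
  lu : Lo ⊆ Up
  pu : P ⊆ Up
  m48 : 48 ≤ m
  am : 16 * a ≤ 15 * m
  mb : 17 * m ≤ 8 * b
  lp : Lo ∩ Ann 0 a b ⊆ P
  block : ¬ Arm Upᶜ 0 m (2 * m)
  dP : D ⊆ P
  dP' : D' ⊆ P
  dc : IsConn D
  dc' : IsConn D'
  dm : d ∈ D
  dm' : d' ∈ D'
  dn : 2 * nrm d ≤ m
  dn' : 2 * nrm d' ≤ m
  far : ∃ e ∈ D, 2 * m ≤ nrm e
  far' : ∃ e ∈ D', 2 * m ≤ nrm e
  no : ¬ Conn P d d'

/-- **The link**. -/
theorem link (h : LinkIn Lo Up P m a b D D' d d') :
    ∃ W : Set V, W ⊆ Up ∩ Ann 0 m (2 * m) ∧ Disjoint W P ∧ Conn (P ∪ W) d d' ∧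
      (∀ v ∈ W, ¬ Conn (P ∪ (W \ {v})) d d') ∧ W ⊆ As Lo Up := by
  have h48 := h.m48
  have ham := h.am
  have hmb := h.mb
  have hdn := h.dn
  have hdn' := h.dn'
  -- the crossings
  have hcr : ∀ (E : Set V) (x : V), IsConn E → x ∈ E → 2 * nrm x ≤ m →
      (∃ e ∈ E, 2 * m ≤ nrm e) → ∃ y y', nrm y = 2 * m ∧ nrm y' = m ∧
        Conn (E ∩ Ann 0 m (2 * m)) y y' := by
    rintro E x hE hx nx ⟨e, he, ne⟩
    obtain ⟨y', hy', y, hy, hc⟩ := arm_of_conn (z := 0) (n := m) (m := 2 * m) (hE x hx e he)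
      (by rw [sub_zero]; omega) (by rw [sub_zero]; omega) (by omega)
    have h1 := mem_ann0.1 hc.left.2
    have h2 := mem_ann0.1 hc.right.2
    have hy1 : nrm (y' - 0) ≤ m := hy'
    have hy2 : 2 * m ≤ nrm (y - 0) := hy
    rw [sub_zero] at hy1 hy2
    exact ⟨y, y', by omega, by omega, hc.symm⟩
  obtain ⟨y, y', ny, ny', cy⟩ := hcr D d h.dc h.dm h.dn h.far
  obtain ⟨z, z', nz, nz', cz⟩ := hcr D' d' h.dc' h.dm' h.dn' h.far'
  have hPC : P ∪ (Up ∩ Ann 0 m (2 * m)) ⊆ P ∪ ((Up ∩ Ann 0 m (2 * m)) \ P) := by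
    rintro v (hv | hv)
    · exact Or.inl hv
    · by_cases hvP : v ∈ P
      · exact Or.inl hvP
      · exact Or.inr ⟨hv, hvP⟩
  have hj : Conn (P ∪ (Up ∩ Ann 0 m (2 * m))) d d' := by
    have h1 : Conn ((D ∪ D' ∪ Up) ∩ Ann 0 m (2 * m)) y z := by
      by_contra hno
      obtain ⟨x1, -, x2, -, n1, -, n2, -, -, c1, -⟩ := two_arm (m := m) (n := 2 * m)
        (by omega) (by omega) Set.inter_subset_right ny nz
        (cy.mono fun v hv => ⟨Or.inl (Or.inl hv.1), hv.2⟩) ny'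
        (cz.mono fun v hv => ⟨Or.inl (Or.inr hv.1), hv.2⟩) nz' hno
      refine h.block ⟨x2, ?_, x1, ?_, c1.symm.mono ?_⟩
      · change nrm (x2 - 0) ≤ m
        rw [sub_zero]
        omega
      · change 2 * m ≤ nrm (x1 - 0)
        rw [sub_zero]
        omega
      · rintro v ⟨hv1, hv2⟩
        exact ⟨fun hv3 => hv2 ⟨Or.inr hv3, hv1⟩, hv1⟩
    have h2 : Conn (P ∪ (Up ∩ Ann 0 m (2 * m))) y z := h1.mono (by
      rintro v ⟨(hv | hv) | hv, hv'⟩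
      · exact Or.inl (h.dP hv)
      · exact Or.inl (h.dP' hv)
      · exact Or.inr ⟨hv, hv'⟩)
    exact ((h.dc d h.dm y cy.left.1).mono fun v hv => Or.inl (h.dP hv)).trans
      (h2.trans ((h.dc' z cz.left.1 d' h.dm').mono fun v hv => Or.inl (h.dP' hv)))
  obtain ⟨W, hWC, hW, hmin⟩ := exists_min_bridge (O := P) (C := (Up ∩ Ann 0 m (2 * m)) \ P)
    ((finite_ann 0 m (2 * m)).subset fun v hv => hv.1.2) (hj.mono hPC)
  refine ⟨W, fun v hv => (hWC hv).1, Set.disjoint_left.2 fun v hv => (hWC hv).2, hW, hmin,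
    fun v hv => ?_⟩
  have hdP := h.dP h.dm
  have hdP' := h.dP' h.dm'
  obtain ⟨⟨p, hp, cp⟩, q, hq, cq⟩ := MSTG.hit (S := P ∪ (W \ {v})) (u := v)
    (x := d) (y := d') (Or.inl hdP) (Or.inl hdP') (hmin v hv) (hW.mono (by
      rintro w (hw | hw)
      · exact Or.inr (Or.inl hw)
      · by_cases e : w = v
        · exact Or.inl e
        · exact Or.inr (Or.inr ⟨hw, e⟩)))
  have hvA := mem_ann0.1 (hWC hv).1.2
  refine mx_zone h48 ham hmb h.lu (h.lp.trans Set.subset_union_left) ?_ (hWC hv).1.2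
    (hWC hv).1.1 (fun hL => (hWC hv).2 (h.lp ⟨hL, mem_ann0.2 ⟨by omega, by omega⟩⟩)) hp hq
    cp.symm h.dn cq.symm h.dn' fun h' => hmin v hv (cp.trans (h'.trans cq.symm))
  rintro w (hw | hw)
  · exact h.pu hw
  · exact (hWC hw.1).1.1

end Pool.Agent.MSTS
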