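import Mathlib
import Pool.Agent.MST.Marg
import Pool.Agent.MST.Exc

/-!
# (6g): the margin

`exit_up`, `exit_dn`: a piece of the path `h` which starts near `z` and leaves the ball of radius
`m` round `z` joins its start to distance `m` inside the ball.
`margin6`: if there are no four arms at `z = h x` between the distances `t` and `m`, then a vertex
`h k` at distance at most `t` from `z` is joined to `z` inside the ball, as soon as both are joined
to distance `m`.
`margin_path`: the version for two pieces of the path.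
-/

set_option autoImplicit false

namespace Pool.Agent.MST

open Pool.Agent.TriPerc

variable {S : Set V} {h : ℕ → V} {z : V} {t m : ℤ} {a b x k : ℕ}

private theorem steps (hadj : ∀ i, a ≤ i → i < b → Adj (h i) (h (i + 1))) (z : V) :
    ∀ i, a ≤ i → i < b → nrm (h (i + 1) - z) ≤ nrm (h i - z) + 1 ∧
      nrm (h i - z) - 1 ≤ nrm (h (i + 1) - z) := by
  intro i h1 h2
  have := abs_le.1 (nrm_adj (hadj i h1 h2) z)
  omega

theorem exit_up (hab : a ≤ b) (hadj : ∀ i, a ≤ i → i < b → Adj (h i) (h (i + 1)))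
    (hS : ∀ i, a ≤ i → i ≤ b → nrm (h i - z) ≤ m → h i ∈ S) (ha : nrm (h a - z) ≤ m)
    (hb : m ≤ nrm (h b - z)) : ∃ y, m ≤ nrm (y - z) ∧ Conn (S ∩ Ball z m) (h a) y := by
  obtain ⟨q, q1, q2, q3, q4⟩ := hit_up_first (fun i => nrm (h i - z)) (n := m) hab
    (fun i i1 i2 => (steps hadj z i i1 i2).1) ha hb
  refine ⟨h q, q3.ge, conn_seg q1 (fun i i1 i2 => hadj i i1 (by omega)) fun i i1 i2 => ?_⟩
  have h1 : nrm (h i - z) ≤ m := by
    rcases Nat.eq_or_lt_of_le i2 with h3 | h3
    · rw [h3]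
      exact q3.le
    · exact (q4 i i1 h3).le
  exact ⟨hS i i1 (by omega) h1, h1⟩

theorem exit_dn (hab : a ≤ b) (hadj : ∀ i, a ≤ i → i < b → Adj (h i) (h (i + 1)))
    (hS : ∀ i, a ≤ i → i ≤ b → nrm (h i - z) ≤ m → h i ∈ S) (hb : nrm (h b - z) ≤ m)
    (ha : m ≤ nrm (h a - z)) : ∃ y, m ≤ nrm (y - z) ∧ Conn (S ∩ Ball z m) (h b) y := by
  obtain ⟨q, q1, q2, q3, q4⟩ := hit_down_last (fun i => nrm (h i - z)) (n := m) hab
    (fun i i1 i2 => (steps hadj z i i1 i2).2) ha hb
  refine ⟨h q, q3.ge, (conn_seg q2 (fun i i1 i2 => hadj i (by omega) i2) fun i i1 i2 => ?_).symm⟩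
  have h1 : nrm (h i - z) ≤ m := by
    rcases Nat.eq_or_lt_of_le i1 with h3 | h3
    · rw [← h3]
      exact q3.le
    · exact (q4 i h3 i2).le
  exact ⟨hS i (by omega) i2 h1, h1⟩

/-- **(6g)**. -/
theorem margin6 (ht : 0 ≤ t) (htm : t < m) (hF : ¬ Four S (h x) t m)
    (hk : nrm (h k - h x) ≤ t) (ex : ∃ y, m ≤ nrm (y - h x) ∧ Conn (S ∩ Ball (h x) m) (h x) y)
    (ek : ∃ y, m ≤ nrm (y - h x) ∧ Conn (S ∩ Ball (h x) m) (h k) y) :
    Conn (S ∩ Ball (h x) m) (h x) (h k) := by
  obtain ⟨y, hy, hy'⟩ := ex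
  obtain ⟨y', hz, hz'⟩ := ek
  refine near_conn htm hF ?_ hk hy hz hy' hz'
  rw [sub_self]
  have h0 : nrm (0 : V) = 0 := by decide
  rw [h0]
  exact ht

/-- **(6g) for two pieces of the path**: the piece between the times `x` and `x'` and the piece
between the times `k` and `k'` (in any order) leave the ball. -/
theorem margin_path {x' k' : ℕ} (ht : 0 ≤ t) (htm : t < m) (hF : ¬ Four S (h x) t m)
    (hadj : ∀ i, min x x' ≤ i → i < max x x' → Adj (h i) (h (i + 1)))
    (hadj' : ∀ i, min k k' ≤ i → i < max k k' → Adj (h i) (h (i + 1)))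
    (hS : ∀ i, min x x' ≤ i → i ≤ max x x' → nrm (h i - h x) ≤ m → h i ∈ S)
    (hS' : ∀ i, min k k' ≤ i → i ≤ max k k' → nrm (h i - h x) ≤ m → h i ∈ S)
    (hx : m ≤ nrm (h x' - h x)) (hk' : m ≤ nrm (h k' - h x)) (hk : nrm (h k - h x) ≤ t) :
    Conn (S ∩ Ball (h x) m) (h x) (h k) := by
  have h0 : nrm (h x - h x) ≤ m := by
    rw [sub_self]
    have h0 : nrm (0 : V) = 0 := by decide
    omega
  refine margin6 ht htm hF hk ?_ ?_
  · rcases le_total x x' with h1 | h1
    · rw [min_eq_left h1, max_eq_right h1] at hadj hS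
      exact exit_up h1 hadj hS h0 hx
    · rw [min_eq_right h1, max_eq_left h1] at hadj hS
      exact exit_dn h1 hadj hS h0 hx
  · rcases le_total k k' with h1 | h1
    · rw [min_eq_left h1, max_eq_right h1] at hadj' hS'
      exact exit_up h1 hadj' hS' (by omega) hk'
    · rw [min_eq_right h1, max_eq_left h1] at hadj' hS'
      exact exit_dn h1 hadj' hS' (by omega) hk'

end Pool.Agent.MST
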