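import Pool.Agent.MST.Cls
import Pool.Agent.MST.EFw
import Pool.Agent.MSTS.Base
import Pool.Agent.MSTS.Joint

/-!
# (S), section 1: the four crossings `B k` and the roots in the tree configuration

`P = Op 0 f ∩ Ann 0 r R`; `z k` are the witnesses of `E_F`, `T k` their root paths in
`MT (Ann 0 r R) (Cir r) f`, `Tc` is a minimal cut of `P` in the zone `Ann 0 mM (2 mM)`.

* `Inn`: the vertices joined in `P \ Tc` to `2 nrm ≤ mM` (1a).
* `Arm1`: the last vertex `T (l)` of the root path in the cut, and a connected set `D` off the cut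
  from a neighbour of it to the circle `Cir R`, disjoint from `Inn` (1b).
* `Bs`: the root path after the cut together with `D`; `four4`: four of them are a `Four4`.
* `root_tail_g` (1c), `root_in` (1d), `c2_root` (2c).
-/

namespace Pool.Agent.MSTS

open Pool.Agent.TriPerc Pool.Agent.MST Pool.Agent.MSTG

variable {f g : Lab} {r R mM ms c : ℤ} {z b : Fin 6 → V} {T : Fin 6 → ℕ → V}
  {n l : Fin 6 → ℕ} {D : Fin 6 → Set V} {Tc Lo : Set V}

/-- The witnesses and their root paths. -/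
structure Wit (f : Lab) (r R : ℤ) (z : Fin 6 → V) (T : Fin 6 → ℕ → V) (n : Fin 6 → ℕ) :
    Prop where
  inj : Function.Injective f
  r1 : 1 ≤ r
  rR : r < R
  efz : EFz 0 r R f z
  root : ∀ k, IsRoot (Ann 0 r R) (Cir r) f (z k) (T k) (n k)
  op : ∀ k, ∀ i ≤ n k, T k i ∈ Op 0 f ∩ Ann 0 r R
  dis : ∀ k k', k ≠ k' → ∀ i ≤ n k, ∀ j ≤ n k', T k i ≠ T k' j

/-- Existence of the root paths. -/
theorem exists_wit (hf : Function.Injective f) (h1 : 1 ≤ r) (h2 : r < R) (h : EFz 0 r R f z) :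
    ∃ T n, Wit f r R z T n := by
  have hAf : (Ann 0 r R).Finite := finite_ann 0 r R
  have hex : ∀ k, ∃ (F : ℕ → V) (N : ℕ), IsRoot (Ann 0 r R) (Cir r) f (z k) F N := by
    intro k
    obtain ⟨y, hy, hc⟩ := h.2.1 k
    exact root_exists hAf hy (hc.mono Set.inter_subset_right)
  choose T n hT using hex
  have hop : ∀ k, ∀ i ≤ n k, T k i ∈ Op 0 f ∩ Ann 0 r R := by
    intro k i hi
    obtain ⟨y, hy, hc⟩ := h.2.1 k
    exact ⟨root_open hf (hT k) hy hc hi, (hT k).mem hc.left.2 hi⟩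
  have hdbl : ∀ k k', Dbl (Ann 0 r R) (Cir r) f (z k) (z k') →
      ∀ i ≤ n k, ∀ j ≤ n k', T k i ≠ T k' j := by
    rintro k k' ⟨F, N, F', N', h3, h4, h5⟩ i hi j hj
    obtain ⟨e1, e2⟩ := root_unique hf h3 (hT k)
    obtain ⟨e3, e4⟩ := root_unique hf h4 (hT k')
    rw [← e2 i (by omega), ← e4 j (by omega)]
    exact h5 i (by omega) j (by omega)
  have hgrp : ∀ k k', grp k ≠ grp k' → ∀ i ≤ n k, ∀ j ≤ n k', T k i ≠ T k' j := by
    intro k k' hkk i hi j hj hij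
    refine h.2.2.2.2.1 k k' hkk ?_
    have h3 : Conn (Op 0 f ∩ Ann 0 r R) (T k 0) (T k i) :=
      conn_seg (Nat.zero_le i) (fun m _ hm => ((hT k).path.step m (by omega)).1)
        fun m _ hm => hop k m (by omega)
    have h4 : Conn (Op 0 f ∩ Ann 0 r R) (T k' 0) (T k' j) :=
      conn_seg (Nat.zero_le j) (fun m _ hm => ((hT k').path.step m (by omega)).1)
        fun m _ hm => hop k' m (by omega)
    rw [(hT k).start, hij] at h3
    rw [(hT k').start] at h4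
    exact h3.trans h4.symm
  refine ⟨T, n, hf, h1, h2, h, hT, hop, ?_⟩
  have h12 := hdbl 1 2 h.2.2.1
  have h45 := hdbl 4 5 h.2.2.2.1
  intro k k' hkk
  by_cases hg : grp k = grp k'
  · fin_cases k <;> fin_cases k' <;> first
      | exact absurd rfl hkk
      | exact absurd hg (by decide)
      | exact h12
      | exact h45
      | exact fun i hi j hj h => h12 j hj i hi h.symm
      | exact fun i hi j hj h => h45 j hj i hi h.symm
  · exact hgrp k k' hg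

/-- The order of the feet on the inner circle. -/
theorem Wit.sepr (h : Wit f r R z T n) {i j : Fin 6} (hi : i = 1 ∨ i = 2) (hj : j = 4 ∨ j = 5) :
    SepC r (T 0 (n 0)) (T 3 (n 3)) (T i (n i)) (T j (n j)) := by
  have hnr : ∀ k, nrm (T k (n k)) = r := fun k => (h.root k).last
  have hcon : ∀ k, Conn (seg (T k) 0 (n k)) (z k) (T k (n k)) := by
    intro k
    have h1 := conn_seg (f := T k) (S := seg (T k) 0 (n k)) (Nat.zero_le (n k))
      (fun m _ hm => ((h.root k).path.step m (by omega)).1) fun m h1 h2 => ⟨m, h1, h2, rfl⟩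
    rwa [(h.root k).start] at h1
  have hball : ∀ k, seg (T k) 0 (n k) ⊆ Ball 0 R := by
    rintro k v ⟨i, -, hi, rfl⟩
    exact mem_ball0.2 (mem_ann0.1 (h.op k i hi).2).2
  have hone : ∀ k, ∀ v ∈ seg (T k) 0 (n k), nrm v ≤ r → v = T k (n k) := by
    rintro k v ⟨i, -, hi, rfl⟩ hv
    rcases Nat.eq_or_lt_of_le hi with h1 | h1
    · rw [h1]
    · exact absurd (le_antisymm hv (mem_ann0.1 (h.op k i hi).2).1) ((h.root k).before i h1)
  have hdis : ∀ k k', k ≠ k' → Disjoint (seg (T k) 0 (n k)) (seg (T k') 0 (n k')) := by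
    intro k k' hkk
    rw [Set.disjoint_left]
    rintro v ⟨i, -, hi, rfl⟩ ⟨j, -, hj, hij⟩
    exact h.dis k k' hkk i hi j hj hij.symm
  have hsep : SepC R (z 0) (z 3) (z i) (z j) := by
    obtain ⟨-, -, -, -, -, s1, s2, s3, s4⟩ := h.efz
    rcases hi with rfl | rfl <;> rcases hj with rfl | rfl <;> assumption
  have i0 : (0 : Fin 6) ≠ i := by rcases hi with rfl | rfl <;> decide
  have i3 : i ≠ (3 : Fin 6) := by rcases hi with rfl | rfl <;> decide
  have j0 : (0 : Fin 6) ≠ j := by rcases hj with rfl | rfl <;> decide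
  have j3 : (3 : Fin 6) ≠ j := by rcases hj with rfl | rfl <;> decide
  exact ord h.r1 h.rR.le (h.efz.1 0) (h.efz.1 i) (h.efz.1 3) (h.efz.1 j) (hnr 0) (hnr i) (hnr 3)
    (hnr j) (hball 0) (hball i) (hball 3) (hball j) (hone 0) (hone i) (hone 3) (hone j)
    (hcon 0) (hcon i) (hcon 3) (hcon j) (hdis 0 i i0) (hdis 0 j j0) (hdis i 3 i3)
    (hdis 3 j j3) hsep

theorem bt_comm (x y t : ℤ) : Bt x y t ↔ Bt y x t := by
  unfold Bt
  tauto

/-- Four different points on a line. -/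
theorem bt4 {a0 a1 a2 a3 : ℤ} (p01 : a0 ≠ a1) (p02 : a0 ≠ a2) (p03 : a0 ≠ a3) (p12 : a1 ≠ a2)
    (p13 : a1 ≠ a3) (p23 : a2 ≠ a3) (h : Bt a0 a3 a1 ↔ Bt a0 a3 a2) :
    ¬ (Bt a0 a2 a1 ↔ Bt a0 a2 a3) ∨ ¬ (Bt a0 a1 a2 ↔ Bt a0 a1 a3) := by
  have key : ∀ {x y : ℤ}, x ≠ y → (x < y ∧ ¬ y < x) ∨ (y < x ∧ ¬ x < y) := by
    intro x y h
    omega
  unfold Bt at *
  rcases key p01 with ⟨a, b⟩ | ⟨a, b⟩ <;> rcases key p02 with ⟨c, d⟩ | ⟨c, d⟩ <;>
    rcases key p03 with ⟨e, f⟩ | ⟨e, f⟩ <;> rcases key p12 with ⟨g, h⟩ | ⟨g, h⟩ <;>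
    rcases key p13 with ⟨i, j⟩ | ⟨i, j⟩ <;> rcases key p23 with ⟨k, l⟩ | ⟨k, l⟩ <;>
    first
      | (exfalso; omega)
      | (simp_all)

/-- The order inside the groups. -/
theorem Wit.choice (h : Wit f r R z T n) :
    (SepC r (T 0 (n 0)) (T 2 (n 2)) (T 1 (n 1)) (T 3 (n 3)) ∨
      SepC r (T 0 (n 0)) (T 1 (n 1)) (T 2 (n 2)) (T 3 (n 3))) ∧
    (SepC r (T 3 (n 3)) (T 5 (n 5)) (T 4 (n 4)) (T 0 (n 0)) ∨
      SepC r (T 3 (n 3)) (T 4 (n 4)) (T 5 (n 5)) (T 0 (n 0))) := by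
  have hnr : ∀ k, nrm (T k (n k)) = r := fun k => (h.root k).last
  have hne : ∀ k k', k ≠ k' → T k (n k) ≠ T k' (n k') := fun k k' hk =>
    h.dis k k' hk _ le_rfl _ le_rfl
  have r1 := h.r1
  have h14 := h.sepr (i := 1) (j := 4) (Or.inl rfl) (Or.inl rfl)
  have h15 := h.sepr (i := 1) (j := 5) (Or.inl rfl) (Or.inr rfl)
  have h24 := h.sepr (i := 2) (j := 4) (Or.inr rfl) (Or.inl rfl)
  have iff : ∀ a c b d : Fin 6, b ≠ a → b ≠ c → d ≠ a → d ≠ c →
      (SepC r (T a (n a)) (T c (n c)) (T b (n b)) (T d (n d)) ↔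
        ¬ (Bt (pos r (T a (n a))) (pos r (T c (n c))) (pos r (T b (n b))) ↔
          Bt (pos r (T a (n a))) (pos r (T c (n c))) (pos r (T d (n d))))) :=
    fun a c b d h1 h2 h3 h4 => sep_iff r1 (hnr a) (hnr c) (hnr b) (hnr d) (hne b a h1)
      (hne b c h2) (hne d a h3) (hne d c h4)
  have pne : ∀ k k', k ≠ k' → pos r (T k (n k)) ≠ pos r (T k' (n k')) := fun k k' hk h' =>
    hne k k' hk (pos_inj r1 (hnr k) (hnr k') h')
  rw [iff 0 3 1 4 (by decide) (by decide) (by decide) (by decide)] at h14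
  rw [iff 0 3 1 5 (by decide) (by decide) (by decide) (by decide)] at h15
  rw [iff 0 3 2 4 (by decide) (by decide) (by decide) (by decide)] at h24
  rw [iff 0 2 1 3 (by decide) (by decide) (by decide) (by decide),
    iff 0 1 2 3 (by decide) (by decide) (by decide) (by decide),
    iff 3 5 4 0 (by decide) (by decide) (by decide) (by decide),
    iff 3 4 5 0 (by decide) (by decide) (by decide) (by decide)]
  have e12 : Bt (pos r (T 0 (n 0))) (pos r (T 3 (n 3))) (pos r (T 1 (n 1))) ↔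
      Bt (pos r (T 0 (n 0))) (pos r (T 3 (n 3))) (pos r (T 2 (n 2))) :=
    not_iff_not.1 ((not_iff.1 h14).trans (not_iff.1 h24).symm)
  have e45 : Bt (pos r (T 3 (n 3))) (pos r (T 0 (n 0))) (pos r (T 4 (n 4))) ↔
      Bt (pos r (T 3 (n 3))) (pos r (T 0 (n 0))) (pos r (T 5 (n 5))) := by
    rw [bt_comm (pos r (T 3 (n 3))), bt_comm (pos r (T 3 (n 3)))]
    exact (not_iff.1 h14).symm.trans (not_iff.1 h15)
  exact ⟨bt4 (pne 0 1 (by decide)) (pne 0 2 (by decide)) (pne 0 3 (by decide))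
    (pne 1 2 (by decide)) (pne 1 3 (by decide)) (pne 2 3 (by decide)) e12,
    bt4 (pne 3 4 (by decide)) (pne 3 5 (by decide)) (pne 3 0 (by decide))
      (pne 4 5 (by decide)) (pne 4 0 (by decide)) (pne 5 0 (by decide)) e45⟩

/-- The cut. -/
structure CutH (f : Lab) (Lo : Set V) (r R mM ms c : ℤ) (Tc : Set V) : Prop where
  rm : 2 * r ≤ mM
  ms1 : 2 * mM < ms
  ms2 : ms < c
  cR : c ≤ R
  sub : Tc ⊆ ((Op 0 f ∩ Ann 0 r R) \ Lo) ∩ Ann 0 mM (2 * mM)
  cut : ∀ x y, 2 * nrm x ≤ mM → c ≤ nrm y → ¬ Conn ((Op 0 f ∩ Ann 0 r R) \ Tc) x y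
  arms : ∀ v ∈ Tc, ∃ q, Adj v q ∧ ∃ y, c ≤ nrm y ∧ Conn ((Op 0 f ∩ Ann 0 r R) \ Tc) q y
  clean : Clean 0 ms c f

/-- The inner side of the cut. -/
def Inn (f : Lab) (r R mM : ℤ) (Tc : Set V) : Set V :=
  {v | ∃ x, 2 * nrm x ≤ mM ∧ Conn ((Op 0 f ∩ Ann 0 r R) \ Tc) x v}

theorem CutH.inn_lt (h : CutH f Lo r R mM ms c Tc) {v : V} (hv : v ∈ Inn f r R mM Tc) :
    nrm v < c := by
  obtain ⟨x, hx, hxv⟩ := hv
  exact not_le.1 fun h1 => h.cut x v hx h1 hxv

theorem inn_sub {v : V} (hv : v ∈ Inn f r R mM Tc) : v ∈ (Op 0 f ∩ Ann 0 r R) \ Tc := by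
  obtain ⟨x, -, hxv⟩ := hv
  exact hxv.right

/-- The inner vertices off the cut. -/
theorem inn_start {v : V} (hv : v ∈ (Op 0 f ∩ Ann 0 r R) \ Tc) (hn : 2 * nrm v ≤ mM) :
    v ∈ Inn f r R mM Tc := ⟨v, hn, Conn.refl hv⟩

/-- A vertex joined to `Inn` off the cut is in `Inn`. -/
theorem inn_conn {u v : V} (hu : u ∈ Inn f r R mM Tc)
    (h : Conn ((Op 0 f ∩ Ann 0 r R) \ Tc) u v) : v ∈ Inn f r R mM Tc := by
  obtain ⟨x, hx, hxu⟩ := hu
  exact ⟨x, hx, hxu.trans h⟩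

/-- A neighbour of a vertex of `Inn` off the cut is in `Inn`. -/
theorem inn_adj {u v : V} (hu : u ∈ Inn f r R mM Tc) (hv : v ∈ (Op 0 f ∩ Ann 0 r R) \ Tc)
    (h : Adj u v) : v ∈ Inn f r R mM Tc := by
  obtain ⟨x, hx, hxu⟩ := hu
  exact ⟨x, hx, hxu.trans (Conn.of_adj hxu.right hv h)⟩

/-- The last vertex of a root path in the cut, and its continuation to the outer circle. -/
structure Arm1 (f : Lab) (r R mM : ℤ) (Tc : Set V) (zk : V) (Tk : ℕ → V) (nk lk : ℕ)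
    (D : Set V) (b : V) : Prop where
  ln : lk < nk
  mem : Tk lk ∈ Tc
  after : ∀ i, lk < i → i ≤ nk → Tk i ∉ Tc
  inn : ∀ i, lk < i → i ≤ nk → Tk i ∈ Inn f r R mM Tc
  dc : IsConn D
  db : b ∈ D
  dq : ∃ q ∈ D, Adj (Tk lk) q
  dP : D ⊆ (Op 0 f ∩ Ann 0 r R) \ Tc
  dm : ∀ w ∈ D, mM < 2 * nrm w
  nb : nrm b = R
  dR : ∀ w ∈ D, nrm w = R → w = b
  dz : ∀ w ∈ D, Conn (Op 0 f ∩ Ann 0 r R) zk w
  di : Disjoint D (Inn f r R mM Tc)

private theorem step1 {u v : V} (h : Adj u v) : nrm u ≤ nrm v + 1 ∧ nrm v ≤ nrm u + 1 := by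
  have h1 := abs_le.1 (nrm_adj h 0)
  rw [sub_zero, sub_zero] at h1
  omega

private theorem last1 {Q : ℕ → Prop} {q : ℕ} (h : ∃ i ≤ q, Q i) :
    ∃ s ≤ q, Q s ∧ ∀ k, s < k → k ≤ q → ¬ Q k := by
  classical
  obtain ⟨i, hi, hQ⟩ := h
  refine ⟨Nat.findGreatest Q q, Nat.findGreatest_le q, Nat.findGreatest_spec hi hQ,
    fun k h1 h2 => Nat.findGreatest_is_greatest h1 h2⟩

/-- The continuation of a vertex of the cut to the outer circle. -/
theorem exists_D (h : Wit f r R z T n) (hc : CutH f Lo r R mM ms c Tc) {v : V} (hv : v ∈ Tc)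
    {k : Fin 6} (hk : Conn (Op 0 f ∩ Ann 0 r R) (z k) v) :
    ∃ (D : Set V) (b : V), IsConn D ∧ b ∈ D ∧ (∃ q ∈ D, Adj v q) ∧
      D ⊆ (Op 0 f ∩ Ann 0 r R) \ Tc ∧ (∀ w ∈ D, mM < 2 * nrm w) ∧ nrm b = R ∧
      (∀ w ∈ D, nrm w = R → w = b) ∧ (∀ w ∈ D, Conn (Op 0 f ∩ Ann 0 r R) (z k) w) ∧
      Disjoint D (Inn f r R mM Tc) := by
  obtain ⟨q, hvq, y, hy, cy⟩ := hc.arms v hv
  have r1 := h.r1
  have rm := hc.rm
  have ms1 := hc.ms1
  have ms2 := hc.ms2
  have cR := hc.cR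
  have hvn := (mem_ann0.1 (hc.sub hv).2).2
  have hqn : nrm q ≤ ms := by
    have := (step1 hvq).2
    omega
  -- the first visit of the circle `c`
  obtain ⟨x1, y1, hx1, hy1, hxy1, c1, c1'⟩ := cy.exit (A := {w : V | nrm w < c})
    (show nrm q < c by omega) (fun h' => by
      have : nrm y < c := h'
      omega)
  have hx1' : nrm x1 < c := hx1
  have hy1' : ¬ nrm y1 < c := hy1
  have ny1 : nrm y1 = c := by
    have := (step1 hxy1).2
    omega
  have c2 : Conn (((Op 0 f ∩ Ann 0 r R) \ Tc) ∩ {w : V | nrm w ≤ c}) q y1 := by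
    have h1 : Conn (((Op 0 f ∩ Ann 0 r R) \ Tc) ∩ {w : V | nrm w ≤ c}) q x1 :=
      c1.mono fun w hw => ⟨hw.1, le_of_lt (show nrm w < c from hw.2)⟩
    exact h1.trans (Conn.of_adj h1.right ⟨c1'.left, ny1.le⟩ hxy1)
  -- the last visit of the circle `ms` before
  obtain ⟨x2, y2, hx2, hy2, hxy2, c3, c4⟩ := c2.last (A := {w : V | nrm w ≤ ms}) hqn
    (fun h' => by
      have : nrm y1 ≤ ms := h'
      omega)
  have hx2' : nrm x2 ≤ ms := hx2
  have hy2' : ¬ nrm y2 ≤ ms := hy2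
  have nx2 : nrm x2 = ms := by
    have := (step1 hxy2).2
    omega
  have hcrs : Crs 0 ms c f y1 := by
    refine ⟨ny1, x2, nx2, ?_⟩
    have h1 : Conn (Op 0 f ∩ Ann 0 ms c) y2 y1 := c4.mono fun w hw =>
      ⟨hw.1.1.1.1, mem_ann0.2 ⟨le_of_lt (not_le.1 hw.2), hw.1.2⟩⟩
    exact h1.symm.trans (Conn.of_adj h1.left
      ⟨c3.right.1.1.1, mem_ann0.2 ⟨nx2.ge, nx2.le.trans ms2.le⟩⟩ hxy2.symm)
  have hPq : q ∈ (Op 0 f ∩ Ann 0 r R) \ Tc := cy.left
  have hzq : Conn (Op 0 f ∩ Ann 0 r R) (z k) q := hk.trans (Conn.of_adj hk.right hPq.1 hvq)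
  have hzy1 : Conn (Op 0 f ∩ Ann 0 r R) (z k) y1 :=
    hzq.trans (c2.mono fun w hw => hw.1.1)
  obtain ⟨z', hz', hzz⟩ := efz_restr h.inj (by omega) (by omega) ms2 cR h.efz
  obtain ⟨k', -, hk'⟩ := hc.clean.cl (by omega) cR h.efz hz'
    (fun j => (hzz j).mono fun w hw => ⟨hw.1, mem_ann0.2
      ⟨by have := (mem_ann0.1 hw.2).1; omega, (mem_ann0.1 hw.2).2⟩⟩) hcrs hzy1
  have hout : Op 0 f ∩ Ann 0 ms R ⊆ (Op 0 f ∩ Ann 0 r R) \ Tc := by
    rintro w ⟨hw1, hw2⟩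
    have hw3 := mem_ann0.1 hw2
    refine ⟨⟨hw1, mem_ann0.2 ⟨by omega, hw3.2⟩⟩, fun hwT => ?_⟩
    have := (mem_ann0.1 (hc.sub hwT).2).2
    omega
  have c5 : Conn ((Op 0 f ∩ Ann 0 r R) \ Tc) y1 (z k') := by
    have h1 : Conn (Op 0 f ∩ Ann 0 ms R) y1 (z' k') := hk'.symm.mono fun w hw =>
      ⟨hw.1, mem_ann0.2 ⟨(mem_ann0.1 hw.2).1, (mem_ann0.1 hw.2).2.trans cR⟩⟩
    have h2 : Conn (Op 0 f ∩ Ann 0 ms R) (z' k') (z k') := (hzz k').symm.mono fun w hw =>
      ⟨hw.1, mem_ann0.2 ⟨by have := (mem_ann0.1 hw.2).1; omega, (mem_ann0.1 hw.2).2⟩⟩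
    exact (h1.trans h2).mono hout
  have c6 : Conn ((Op 0 f ∩ Ann 0 r R) \ Tc) q (z k') :=
    (c2.mono Set.inter_subset_left).trans c5
  have nzk : nrm (z k') = R := h.efz.1 k'
  have hfar : ∀ w, Conn ((Op 0 f ∩ Ann 0 r R) \ Tc) q w → mM < 2 * nrm w := by
    intro w hw
    refine not_le.1 fun h1 => hc.cut w (z k') h1 (by omega) (hw.symm.trans c6)
  -- the first visit of the outer circle
  obtain ⟨x3, b, hx3, hb, hxb, c7, c8⟩ := c6.exit (A := {w : V | nrm w < R})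
    (show nrm q < R by omega) (fun h' => by
      have : nrm (z k') < R := h'
      omega)
  have hb' : ¬ nrm b < R := hb
  have nb : nrm b = R := le_antisymm (mem_ann0.1 c8.left.1.2).2 (not_lt.1 hb')
  have c9 : Conn ((Op 0 f ∩ Ann 0 r R) \ Tc) q b :=
    (c7.mono Set.inter_subset_left).trans (Conn.of_adj c7.right.1 c8.left hxb)
  have hD : ∀ w ∈ comp (((Op 0 f ∩ Ann 0 r R) \ Tc) ∩ {w : V | nrm w < R}) q ∪ {b},
      Conn ((Op 0 f ∩ Ann 0 r R) \ Tc) q w := by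
    rintro w (hw | rfl)
    · exact Conn.mono Set.inter_subset_left hw
    · exact c9
  refine ⟨comp (((Op 0 f ∩ Ann 0 r R) \ Tc) ∩ {w : V | nrm w < R}) q ∪ {b}, b, ?_,
    Or.inr rfl, ⟨q, Or.inl (Conn.refl c7.left), hvq⟩, fun w hw => (hD w hw).right,
    fun w hw => hfar w (hD w hw), nb, ?_, fun w hw => hzq.trans ((hD w hw).mono fun u hu => hu.1),
    ?_⟩
  · refine isConn_comp.union ?_ ⟨x3, c7, b, rfl, Or.inr hxb⟩
    intro u hu v hv
    have hu' : u = b := hu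
    have hv' : v = b := hv
    rw [hu', hv']
    exact Conn.refl rfl
  · rintro w (hw | hw) nw
    · have : nrm w < R := (Conn.right hw).2
      omega
    · exact hw
  · rw [Set.disjoint_left]
    rintro w hw ⟨x, hx, hxw⟩
    exact hc.cut x (z k') hx (by omega) (hxw.trans ((hD w hw).symm.trans c6))

theorem sec1 (h : Wit f r R z T n) (hc : CutH f Lo r R mM ms c Tc) :
    ∃ (l : Fin 6 → ℕ) (D : Fin 6 → Set V) (b : Fin 6 → V),
      ∀ k, Arm1 f r R mM Tc (z k) (T k) (n k) (l k) (D k) (b k) := by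
  have hex : ∀ k, ∃ (l : ℕ) (D : Set V) (b : V), Arm1 f r R mM Tc (z k) (T k) (n k) l D b := by
    intro k
    have r1 := h.r1
    have hroot := h.root k
    have hnr : nrm (T k (n k)) = r := hroot.last
    have hcn : ∀ i j, i ≤ j → j ≤ n k → (∀ m, i ≤ m → m ≤ j → T k m ∉ Tc) →
        Conn ((Op 0 f ∩ Ann 0 r R) \ Tc) (T k i) (T k j) := fun i j hij hj hno =>
      conn_seg hij (fun m _ hm => (hroot.path.step m (by omega)).1)
        fun m h1 h2 => ⟨h.op k m (by omega), hno m h1 h2⟩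
    obtain ⟨l, hl, hlT, hla⟩ := last1 (Q := fun i => T k i ∈ Tc) (q := n k) (by
      by_contra hno
      push Not at hno
      refine hc.cut (T k (n k)) (T k 0) (by rw [hnr]; exact hc.rm) ?_
        (hcn 0 (n k) (Nat.zero_le _) le_rfl fun m _ hm => hno m hm).symm
      rw [hroot.start, h.efz.1 k]
      exact hc.cR)
    have hln : l < n k := by
      rcases Nat.eq_or_lt_of_le hl with h1 | h1
      · have h2 := (mem_ann0.1 (hc.sub hlT).2).1
        rw [h1, hnr] at h2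
        have := hc.rm
        omega
      · exact h1
    have hkl : Conn (Op 0 f ∩ Ann 0 r R) (z k) (T k l) := by
      have h1 := conn_seg (f := T k) (S := Op 0 f ∩ Ann 0 r R) (Nat.zero_le l)
        (fun m _ hm => (hroot.path.step m (by omega)).1) fun m _ h2 => h.op k m (by omega)
      rwa [hroot.start] at h1
    obtain ⟨D, b, d1, d2, d3, d4, d5, d6, d7, d8, d9⟩ := exists_D h hc hlT hkl
    exact ⟨l, D, b, hln, hlT, hla, fun i h1 h2 => ⟨T k (n k), by rw [hnr]; exact hc.rm,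
      (hcn i (n k) h2 le_rfl fun m h3 h4 => hla m (by omega) h4).symm⟩, d1, d2, d3, d4, d5, d6,
      d7, d8, d9⟩
  choose l D b hA using hex
  exact ⟨l, D, b, hA⟩

/-- The crossing `B k`. -/
def Bs (Tk : ℕ → V) (nk lk : ℕ) (D : Set V) : Set V := seg Tk lk nk ∪ D

/-- `B k` is in the cluster of `z k`. -/
theorem bs_sub (h : Wit f r R z T n)
    (hA : ∀ k, Arm1 f r R mM Tc (z k) (T k) (n k) (l k) (D k) (b k)) {k : Fin 6} {v : V}
    (hv : v ∈ Bs (T k) (n k) (l k) (D k)) : Conn (Op 0 f ∩ Ann 0 r R) (z k) v := by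
  rcases hv with ⟨i, -, hi, rfl⟩ | hv
  · have h1 := conn_seg (f := T k) (S := Op 0 f ∩ Ann 0 r R) (Nat.zero_le i)
      (fun m _ hm => ((h.root k).path.step m (by omega)).1) fun m _ h2 => h.op k m (by omega)
    rwa [(h.root k).start] at h1
  · exact (hA k).dz v hv

/-- `B k` and `B k'` are not joined if the groups are different. -/
theorem bs_no (h : Wit f r R z T n)
    (hA : ∀ k, Arm1 f r R mM Tc (z k) (T k) (n k) (l k) (D k) (b k)) {k k' : Fin 6}
    (hk : grp k ≠ grp k') {u v : V} (hu : u ∈ Bs (T k) (n k) (l k) (D k))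
    (hv : v ∈ Bs (T k') (n k') (l k') (D k')) : ¬ Conn (Op 0 f ∩ Ann 0 r R) u v := fun huv =>
  h.efz.2.2.2.2.1 k k' hk ((bs_sub h hA hu).trans (huv.trans (bs_sub h hA hv).symm))

/-- `B k` meets the inner circle only in the foot. -/
theorem bs_foot (h : Wit f r R z T n) (hc : CutH f Lo r R mM ms c Tc)
    (hA : ∀ k, Arm1 f r R mM Tc (z k) (T k) (n k) (l k) (D k) (b k)) {k : Fin 6} {v : V}
    (hv : v ∈ Bs (T k) (n k) (l k) (D k)) (nv : nrm v = r) : v = T k (n k) := by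
  rcases hv with ⟨i, -, hi, rfl⟩ | hv
  · rcases Nat.eq_or_lt_of_le hi with h1 | h1
    · rw [h1]
    · exact absurd nv ((h.root k).before i h1)
  · have h1 := (hA k).dm v hv
    have := hc.rm
    omega

/-- `B k` meets the outer circle only in `b k`. -/
theorem bs_out (h : Wit f r R z T n) (hc : CutH f Lo r R mM ms c Tc)
    (hA : ∀ k, Arm1 f r R mM Tc (z k) (T k) (n k) (l k) (D k) (b k)) {k : Fin 6} {v : V}
    (hv : v ∈ Bs (T k) (n k) (l k) (D k)) (nv : nrm v = R) : v = b k := by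
  have m1 := hc.ms1
  have m2 := hc.ms2
  have m3 := hc.cR
  rcases hv with ⟨i, hl, hi, rfl⟩ | hv
  · rcases Nat.eq_or_lt_of_le hl with h1 | h1
    · have h2 := (mem_ann0.1 (hc.sub (hA k).mem).2).2
      rw [h1] at h2
      omega
    · have h2 := hc.inn_lt ((hA k).inn i h1 hi)
      omega
  · exact (hA k).dR v hv nv

theorem four4 (h : Wit f r R z T n) (hc : CutH f Lo r R mM ms c Tc)
    (hA : ∀ k, Arm1 f r R mM Tc (z k) (T k) (n k) (l k) (D k) (b k)) {i j : Fin 6}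
    (hi : i = 1 ∨ i = 2) (hj : j = 4 ∨ j = 5) :
    Four4 r R (Bs (T 0) (n 0) (l 0) (D 0)) (Bs (T i) (n i) (l i) (D i))
      (Bs (T 3) (n 3) (l 3) (D 3)) (Bs (T j) (n j) (l j) (D j)) (b 0) (b i) (b 3) (b j)
      (T 0 (n 0)) (T i (n i)) (T 3 (n 3)) (T j (n j)) := by
  have hin : ∀ k, Bs (T k) (n k) (l k) (D k) ⊆ Ann 0 r R := fun k v hv =>
    (bs_sub h hA hv).right.2
  have hcn : ∀ k, IsConn (Bs (T k) (n k) (l k) (D k)) := by
    intro k
    obtain ⟨q, hq, hadj⟩ := (hA k).dq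
    exact (isConn_seg fun m _ hm => ((h.root k).path.step m (by omega)).1).union (hA k).dc
      ⟨T k (l k), ⟨l k, le_rfl, (hA k).ln.le, rfl⟩, q, hq, Or.inr hadj⟩
  have hb : ∀ k, b k ∈ Bs (T k) (n k) (l k) (D k) := fun k => Or.inr (hA k).db
  have hρ : ∀ k, T k (n k) ∈ Bs (T k) (n k) (l k) (D k) := fun k =>
    Or.inl ⟨n k, (hA k).ln.le, le_rfl, rfl⟩
  have hdj : ∀ k k', grp k ≠ grp k' →
      Disjoint (Bs (T k) (n k) (l k) (D k)) (Bs (T k') (n k') (l k') (D k')) := by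
    intro k k' hk
    rw [Set.disjoint_left]
    intro v hv hv'
    exact bs_no h hA hk hv hv' (Conn.refl (bs_sub h hA hv).right)
  have hnr : ∀ k, nrm (T k (n k)) = r := fun k => (h.root k).last
  have g0i : grp 0 ≠ grp i := by rcases hi with rfl | rfl <;> decide
  have gi3 : grp i ≠ grp 3 := by rcases hi with rfl | rfl <;> decide
  have g0j : grp 0 ≠ grp j := by rcases hj with rfl | rfl <;> decide
  have g3j : grp 3 ≠ grp j := by rcases hj with rfl | rfl <;> decide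
  have gij : grp i ≠ grp j := by
    rcases hi with rfl | rfl <;> rcases hj with rfl | rfl <;> decide
  have hcr : Cr4 r R (Bs (T 0) (n 0) (l 0) (D 0)) (Bs (T i) (n i) (l i) (D i))
      (Bs (T 3) (n 3) (l 3) (D 3)) (Bs (T j) (n j) (l j) (D j)) :=
    ⟨⟨hdj 0 i g0i, hdj 0 3 (by decide), hdj 0 j g0j, hdj i 3 gi3, hdj i j gij, hdj 3 j g3j⟩,
      hin 0, hin i, hin 3, hin j, hcn 0, hcn i, hcn 3, hcn j⟩
  have hout : Ft4 R (Bs (T 0) (n 0) (l 0) (D 0)) (Bs (T i) (n i) (l i) (D i))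
      (Bs (T 3) (n 3) (l 3) (D 3)) (Bs (T j) (n j) (l j) (D j)) (b 0) (b i) (b 3) (b j) :=
    ⟨hb 0, hb i, hb 3, hb j, (hA 0).nb, (hA i).nb, (hA 3).nb, (hA j).nb⟩
  have hinn : Ft4 r (Bs (T 0) (n 0) (l 0) (D 0)) (Bs (T i) (n i) (l i) (D i))
      (Bs (T 3) (n 3) (l 3) (D 3)) (Bs (T j) (n j) (l j) (D j)) (T 0 (n 0)) (T i (n i))
      (T 3 (n 3)) (T j (n j)) :=
    ⟨hρ 0, hρ i, hρ 3, hρ j, hnr 0, hnr i, hnr 3, hnr j⟩
  exact ⟨h.r1, h.rR, hcr, hout, hinn, (ord_iff h.r1 h.rR hcr hout hinn).2 (h.sepr hi hj)⟩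

/-- (1c) Tails of root paths are root paths after the raising of other labels. -/
theorem root_tail_g {A W : Set V} {zk : V} {Tk : ℕ → V} {nk i : ℕ}
    (hT : IsRoot A W f zk Tk nk) (hi : i ≤ nk) (h0 : ∀ j, i ≤ j → j ≤ nk → f (Tk j) ≤ 0)
    (he : ∀ j, i ≤ j → j ≤ nk → g (Tk j) = f (Tk j)) (hup : ∀ v ∈ A, f v ≤ g v ∨ 0 < g v) :
    IsRoot A W g (Tk i) (fun k => Tk (i + k)) (nk - i) := by
  refine ⟨⟨fun k hk => ?_, fun a b ha hb hab => ?_⟩, rfl, ?_, fun k hk => ?_⟩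
  · have h1 := hT.path.step (i + k) (by omega)
    exact mt_raise (t := 0) h1 (h0 _ (by omega) (by omega)) (h0 _ (by omega) (by omega))
      (he _ (by omega) (by omega)) (he _ (by omega) (by omega)) hup
  · have := hT.path.inj _ _ (by omega) (by omega) hab
    omega
  · change Tk (i + (nk - i)) ∈ W
    rw [show i + (nk - i) = nk by omega]
    exact hT.last
  · exact hT.before (i + k) (by omega)

/-- The tree configuration: the vertices of the cut are raised, except `vb` and `vb'`. -/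
structure Raise (f g : Lab) (Tc : Set V) (vb vb' : V) : Prop where
  inj : Function.Injective g
  eq : ∀ v, v ∉ Tc ∨ v = vb ∨ v = vb' → g v = f v
  pos : ∀ v ∈ Tc, v ≠ vb → v ≠ vb' → 0 < g v

/-- (1c) The root of `v_b` and of the vertices after it is the foot. -/
theorem rt_tail (h : Wit f r R z T n)
    (hA : ∀ k, Arm1 f r R mM Tc (z k) (T k) (n k) (l k) (D k) (b k)) {k k' : Fin 6}
    (hg : Raise f g Tc (T k (l k)) (T k' (l k'))) {j : Fin 6} {i : ℕ}
    (hi : l j < i ∨ (i = l j ∧ (j = k ∨ j = k'))) (hin : i ≤ n j) :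
    IsRoot (Ann 0 r R) (Cir r) g (T j i) (fun m => T j (i + m)) (n j - i) ∧
      Rt (Ann 0 r R) (Cir r) g (T j i) (T j (n j)) := by
  have h1 : IsRoot (Ann 0 r R) (Cir r) g (T j i) (fun m => T j (i + m)) (n j - i) := by
    refine root_tail_g (h.root j) hin (fun m _ hm => (h.op j m hm).1) (fun m hm1 hm2 => ?_)
      fun v _ => ?_
    · apply hg.eq
      rcases hi with h2 | ⟨h2, h3⟩
      · exact Or.inl ((hA j).after m (by omega) hm2)
      · rcases Nat.eq_or_lt_of_le hm1 with h4 | h4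
        · rw [← h4, h2]
          rcases h3 with rfl | rfl
          · exact Or.inr (Or.inl rfl)
          · exact Or.inr (Or.inr rfl)
        · exact Or.inl ((hA j).after m (by omega) hm2)
    · by_cases h2 : v ∉ Tc ∨ v = T k (l k) ∨ v = T k' (l k')
      · exact Or.inl (hg.eq v h2).ge
      · push Not at h2
        exact Or.inr (hg.pos v h2.1 h2.2.1 h2.2.2)
  exact ⟨h1, _, _, h1, by
    change T j (i + (n j - i)) = T j (n j)
    rw [show i + (n j - i) = n j by omega]⟩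

/-- (1d) The root paths of the vertices of `Inn`. -/
theorem root_in (h : Wit f r R z T n)
    (hA : ∀ k, Arm1 f r R mM Tc (z k) (T k) (n k) (l k) (D k) (b k)) {k k' : Fin 6}
    (hg : Raise f g Tc (T k (l k)) (T k' (l k'))) {y w : V} (hy : y ∈ Inn f r R mM Tc)
    (hw : w ∈ Cir r) (hyw : Conn (Op 0 g ∩ Ann 0 r R) y w) {F : ℕ → V} {N : ℕ}
    (hF : IsRoot (Ann 0 r R) (Cir r) g y F N) {i : ℕ} (hi : i ≤ N) :
    (F i ∈ Inn f r R mM Tc ∨ F i = T k (l k) ∨ F i = T k' (l k')) ∧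
      F i ∈ Op 0 g ∩ Ann 0 r R := by
  have hopen : ∀ i ≤ N, F i ∈ Op 0 g ∩ Ann 0 r R := fun i hi =>
    ⟨root_open hg.inj hF hw hyw hi, hF.mem hyw.left.2 hi⟩
  refine ⟨?_, hopen i hi⟩
  induction i with
  | zero =>
    rw [hF.start]
    exact Or.inl hy
  | succ i ih =>
    have hadj : Adj (F i) (F (i + 1)) := (hF.path.step i (by omega)).1
    have hop := hopen (i + 1) hi
    have htail : ∀ j, (j = k ∨ j = k') → F i = T j (l j) →
        F (i + 1) ∈ Inn f r R mM Tc := by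
      intro j hj hij
      have h1 := root_tail hF (i := i) (by omega)
      have h2 := (rt_tail h hA hg (j := j) (i := l j) (Or.inr ⟨rfl, hj⟩) (hA j).ln.le).1
      rw [← hij] at h2
      obtain ⟨e1, e2⟩ := root_unique hg.inj h1 h2
      have hln := (hA j).ln
      have h3 := e2 1 (by omega)
      beta_reduce at h3
      rw [h3]
      exact (hA j).inn (l j + 1) (by omega) (by omega)
    rcases ih (by omega) with h1 | h1 | h1
    · by_cases hT : F (i + 1) ∈ Tc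
      · by_cases e1 : F (i + 1) = T k (l k)
        · exact Or.inr (Or.inl e1)
        · by_cases e2 : F (i + 1) = T k' (l k')
          · exact Or.inr (Or.inr e2)
          · exact absurd hop.1 (not_le.2 (hg.pos _ hT e1 e2))
      · refine Or.inl (inn_adj h1 ⟨⟨?_, hop.2⟩, hT⟩ hadj)
        have h2 : g (F (i + 1)) ≤ 0 := hop.1
        rw [hg.eq _ (Or.inl hT)] at h2
        exact h2
    · exact Or.inl (htail k (Or.inl rfl) h1)
    · exact Or.inl (htail k' (Or.inr rfl) h1)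

/-- (2c) A vertex of `Inn` in the corridor of `B 0`, `B a` or on `B 0`, `B a` does not have the
root of `B b`. -/
theorem c2_root (h : Wit f r R z T n) (hc : CutH f Lo r R mM ms c Tc)
    (hA : ∀ k, Arm1 f r R mM Tc (z k) (T k) (n k) (l k) (D k) (b k)) {i0 ia ib i3 ic id : Fin 6}
    (h4 : Four4 r R (Bs (T i0) (n i0) (l i0) (D i0)) (Bs (T ia) (n ia) (l ia) (D ia))
      (Bs (T i3) (n i3) (l i3) (D i3)) (Bs (T ic) (n ic) (l ic) (D ic)) (b i0) (b ia) (b i3)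
      (b ic) (T i0 (n i0)) (T ia (n ia)) (T i3 (n i3)) (T ic (n ic)))
    (g0b : grp i0 ≠ grp ib) (g0d : grp i0 ≠ grp id) (gad : grp ia ≠ grp id) (nab : ia ≠ ib)
    (gbd : grp ib ≠ grp id) {x : V} (nx : nrm x = R) (hx : SepC R (b i0) (b ia) x (b i3))
    (hsep : SepC r (T i0 (n i0)) (T ib (n ib)) (T ia (n ia)) (T i3 (n i3)))
    (hg : Raise f g Tc (T ib (l ib)) (T id (l id))) {y w : V} (hy : y ∈ Inn f r R mM Tc)
    (hyx : y ∈ Crd r R (Bs (T i0) (n i0) (l i0) (D i0)) (Bs (T ia) (n ia) (l ia) (D ia)) x ∨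
      y ∈ Bs (T i0) (n i0) (l i0) (D i0) ∪ Bs (T ia) (n ia) (l ia) (D ia))
    (hw : w ∈ Cir r) (hyw : Conn (Op 0 g ∩ Ann 0 r R) y w) :
    ¬ Rt (Ann 0 r R) (Cir r) g y (T ib (n ib)) := by
  rintro ⟨F, N, hF, hFN⟩
  have hin := fun i (hi : i ≤ N) => root_in h hA hg hy hw hyw hF hi
  have hP : ∀ i ≤ N, F i ∈ Op 0 f ∩ Ann 0 r R := by
    intro i hi
    rcases (hin i hi).1 with h1 | h1 | h1
    · exact (inn_sub h1).1
    · rw [h1]
      exact h.op ib _ (hA ib).ln.le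
    · rw [h1]
      exact h.op id _ (hA id).ln.le
  have hbs : ∀ k m, l k ≤ m → m ≤ n k → T k m ∈ Bs (T k) (n k) (l k) (D k) :=
    fun k m h1 h2 => Or.inl ⟨m, h1, h2, rfl⟩
  have hcl : ∀ i ≤ N, Conn (Op 0 f ∩ Ann 0 r R) (F i) (T ib (n ib)) := by
    intro i hi
    rw [← hFN]
    exact conn_seg hi (fun m _ hm => (hF.path.step m (by omega)).1) fun m _ hm => hP m hm
  have hoff : ∀ i ≤ N, F i ∉ Bs (T i0) (n i0) (l i0) (D i0) ∪ Bs (T ia) (n ia) (l ia) (D ia) := by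
    rintro i hi (h1 | h1)
    · exact bs_no h hA g0b h1 (hbs ib (n ib) (hA ib).ln.le le_rfl) (hcl i hi)
    · rcases h1 with ⟨m, hm1, hm2, hm⟩ | h1
      · rcases Nat.eq_or_lt_of_le hm1 with h2 | h2
        · have hmem : F i ∈ Tc := by
            rw [← hm, ← h2]
            exact (hA ia).mem
          rcases (hin i hi).1 with h3 | h3 | h3
          · exact (inn_sub h3).2 hmem
          · exact h.dis ia ib nab m hm2 (l ib) (hA ib).ln.le (hm.trans h3)
          · refine h.dis ia id (fun e => gad (e ▸ rfl)) m hm2 (l id) (hA id).ln.le (hm.trans h3)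
        · have h3 := (rt_tail h hA hg (j := ia) (Or.inl h2) hm2).2
          rw [hm] at h3
          have h4 := hF.rt hg.inj hi
          rw [hFN] at h4
          exact h.dis ia ib nab (n ia) le_rfl (n ib) le_rfl (rt_unique hg.inj h3 h4)
      · rcases (hin i hi).1 with h3 | h3 | h3
        · exact Set.disjoint_left.1 (hA ia).di h1 h3
        · exact ((hA ia).dP h1).2 (h3 ▸ (hA ib).mem)
        · exact ((hA ia).dP h1).2 (h3 ▸ (hA id).mem)
  have hy0 := hoff 0 (Nat.zero_le _)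
  rw [hF.start] at hy0
  have hyc : y ∈ Crd r R (Bs (T i0) (n i0) (l i0) (D i0)) (Bs (T ia) (n ia) (l ia) (D ia)) x :=
    hyx.resolve_right hy0
  have hconn : Conn (Ann 0 r R \ (Bs (T i0) (n i0) (l i0) (D i0) ∪
      Bs (T ia) (n ia) (l ia) (D ia))) y (T ib (n ib)) := by
    have h1 := conn_seg (f := F) (S := Ann 0 r R \ (Bs (T i0) (n i0) (l i0) (D i0) ∪
      Bs (T ia) (n ia) (l ia) (D ia))) (Nat.zero_le N)
      (fun m _ hm => (hF.path.step m (by omega)).1) fun m _ hm => ⟨(hP m hm).2, hoff m hm⟩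
    rwa [hF.start, hFN] at h1
  exact h4.c2 nx hx (fun v hv nv => bs_foot h hc hA hv nv) (fun v hv nv => bs_foot h hc hA hv nv)
    (h.root ib).last
    (fun e => h.dis ib i0 (fun e' => g0b (e' ▸ rfl)) _ le_rfl _ le_rfl e)
    (fun e => h.dis ib ia (fun e' => nab e'.symm) _ le_rfl _ le_rfl e) hsep hyc hconn

end Pool.Agent.MSTS
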