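import Pool.Agent.MSTS.Joint

/-!
# (S), section 5: the sides

(text: `/team-store/MST_S_helper95.md`, section 5)

`P` is the open set of the final configuration without the new vertices (the set `O'` of the text),
`Q` is the open set of the final configuration (`OF`), `Ball 0 n1` is the ball of radius `c - 1`.
`U` is the joint, `K` the turn (with all its vertices), `Uc`, `Kc` the same on the other side.

* `cut5b`: every path of `Q` from `nrm ≤ mh` to `c ≤ nrm` contains one of the two vertices which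
  are kept open.
* `Sig`: the side, `Four4.sig_disj`: the two sides are disjoint; `sig_of_touch`, `sig_of_meet`.
* `SideIn`: the hypotheses of (5c); `SideIn.main`: every vertex which is joined to `U ∪ K` in
  `Q ∩ Ball 0 n1` is on the side of `U, K`.
* `SideIn.not_far`, `SideIn.not_comp`, `SideIn.not_side`: what is not joined to `U ∪ K`.
* `reach_K`, `join_K`: the positive part of (5c).
* `link_off`, `link_conn`: the link (for (5d)).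
-/

set_option autoImplicit false

namespace Pool.Agent.MSTS

open Pool.Agent.TriPerc Pool.Agent.MST Pool.Agent.MSTG

variable {P Q X0 X3 B0 Ba B3 Bc U K Uc Kc E E' S S' T Y Z L G : Set V} {r R n1 sd td s t mh c : ℤ}
  {b0 ba b3 bc ρ0 ρa ρ3 ρc ρd x xc u v w y z p q vb vd : V}

/-! ## Touching sets and cuts -/

/-- `E` is adjacent to `S`. -/
def Touch (E S : Set V) : Prop := ∃ y ∈ E, ∃ u ∈ S, Adj u y

theorem Touch.mono (h : Touch E S) (hE : E ⊆ E') (hS : S ⊆ S') : Touch E' S' := by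
  obtain ⟨y, hy, u, hu, hyu⟩ := h
  exact ⟨y, hE hy, u, hS hu, hyu⟩

theorem touch_union (h : Touch E (S ∪ S')) : Touch E S ∨ Touch E S' := by
  obtain ⟨y, hy, u, hu | hu, hyu⟩ := h
  · exact Or.inl ⟨y, hy, u, hu, hyu⟩
  · exact Or.inr ⟨y, hy, u, hu, hyu⟩

theorem nrm_adj0 (h : Adj u v) : nrm u ≤ nrm v + 1 ∧ nrm v ≤ nrm u + 1 := by
  have h1 := nrm_adj h 0
  rw [sub_zero, sub_zero, abs_le] at h1
  constructor <;> omega

/-- A connected set off a cut is not adjacent to both sides. -/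
theorem no_touch (hst : s ≤ t) (hcut : ¬ Arm Z 0 s t) (hEZ : E ⊆ Z) (hE : IsConn E)
    (hS : ∀ u ∈ S, t < nrm u) (hS' : ∀ u ∈ S', nrm u < s) (h : Touch E S) (h' : Touch E S') :
    False := by
  obtain ⟨y, hy, u, hu, huy⟩ := h
  obtain ⟨y', hy', u', hu', huy'⟩ := h'
  have h1 := hS u hu
  have h2 := hS' u' hu'
  have h3 := nrm_adj0 huy
  have h4 := nrm_adj0 huy'
  exact hcut (arm_of_conn ((hE y' hy' y hy).mono hEZ) (by rw [sub_zero]; omega)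
    (by rw [sub_zero]; omega) hst)

/-- (5b): the two vertices `vb, vd` which are kept open are a cut of `Q`. -/
theorem cut5b (hmc : mh ≤ c) (hcut : ¬ Arm (P \ {vb, vd}) 0 mh c)
    (hQ : ∀ v ∈ Q, mh ≤ nrm v → nrm v ≤ c → v ∈ P) (hu : nrm u ≤ mh) (hv : c ≤ nrm v) :
    ¬ Conn (Q \ {vb, vd}) u v := by
  intro h
  obtain ⟨a, ha, b, hb, hab⟩ := arm_of_conn (z := 0) (n := mh) (m := c) h
    (by rw [sub_zero]; omega) (by rw [sub_zero]; omega) hmc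
  refine hcut ⟨a, ha, b, hb, hab.mono ?_⟩
  rintro w ⟨⟨h1, h2⟩, h3⟩
  have h4 := mem_ann0.1 h3
  exact ⟨⟨hQ w h1 h4.1 h4.2, h2⟩, h3⟩

/-! ## The sides -/

/-- The side of `v`. -/
def Sig (r R : ℤ) (B0 B3 : Set V) (v : V) : Set V := comp (Ann 0 r R \ (B0 ∪ B3)) v

/-- The sides of `ba` and of `bc` are disjoint. -/
theorem Four4.sig_disj (h : Four4 r R B0 Ba B3 Bc b0 ba b3 bc ρ0 ρa ρ3 ρc) :
    Disjoint (Sig r R B0 B3 ba) (Sig r R B0 B3 bc) := by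
  have ho := h.out
  have hi := h.inn
  have hB : ∀ {G : Set V}, G ⊆ Ann 0 r R → G ⊆ Ball 0 R := by
    intro G hG v hv
    exact mem_ball0.2 (mem_ann0.1 (hG hv)).2
  rw [Set.disjoint_left]
  intro v hv hv'
  refine not_sep_conn h.r1 h.rR.le ho.n0 ho.n2 ho.n1 ho.n3
    (Set.union_subset (hB h.cr.s0) (hB h.cr.s2))
    ((h.cr.c0 b0 ho.m0 ρ0 hi.m0).mono Set.subset_union_left) hi.n0.le
    ((h.cr.c2 b3 ho.m2 ρ3 hi.m2).mono Set.subset_union_right) hi.n2.le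
    (T := Ann 0 r R \ (B0 ∪ B3)) Set.sdiff_subset (Conn.trans hv (Conn.symm hv'))
    Set.disjoint_sdiff_right h.sep

/-- `Ba` is in its side. -/
theorem Four4.ba_sig (h : Four4 r R B0 Ba B3 Bc b0 ba b3 bc ρ0 ρa ρ3 ρc) :
    Ba ⊆ Sig r R B0 B3 ba := fun v hv =>
  (h.cr.c1 ba h.out.m1 v hv).mono fun _ hw => ⟨h.cr.s1 hw, fun hw' => hw'.elim
    (fun h' => Set.disjoint_left.1 h.cr.dj.d01 h' hw)
    fun h' => Set.disjoint_left.1 h.cr.dj.d12 hw h'⟩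

/-- A connected set off `B0 ∪ B3` which touches `Ba` is in the side of `Ba`. -/
theorem Four4.sig_of_touch (h : Four4 r R B0 Ba B3 Bc b0 ba b3 bc ρ0 ρa ρ3 ρc) (hE : IsConn E)
    (hEA : E ⊆ Ann 0 r R) (hd : Disjoint E (B0 ∪ B3)) (ht : Touch E Ba) :
    E ⊆ Sig r R B0 B3 ba := by
  obtain ⟨y, hy, u, hu, huy⟩ := ht
  have hy' : y ∈ Sig r R B0 B3 ba :=
    comp_adj (h.ba_sig hu) ⟨hEA hy, Set.disjoint_left.1 hd hy⟩ huy
  intro v hv
  exact Conn.trans hy' ((hE y hy v hv).mono fun _ hw => ⟨hEA hw, Set.disjoint_left.1 hd hw⟩)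

/-- A connected set off `B0 ∪ B3` which meets `Ba` is in the side of `Ba`. -/
theorem Four4.sig_of_meet (h : Four4 r R B0 Ba B3 Bc b0 ba b3 bc ρ0 ρa ρ3 ρc) (hE : IsConn E)
    (hEA : E ⊆ Ann 0 r R) (hd : Disjoint E (B0 ∪ B3)) (hz : z ∈ E) (hz' : z ∈ Ba) :
    E ⊆ Sig r R B0 B3 ba := fun v hv =>
  Conn.trans (h.ba_sig hz') ((hE z hz v hv).mono fun _ hw =>
    ⟨hEA hw, Set.disjoint_left.1 hd hw⟩)

/-- The joint is in the side of `Ba`. -/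
theorem Four4.sig_joint (h : Four4 r R B0 Ba B3 Bc b0 ba b3 bc ρ0 ρa ρ3 ρc) (nx : nrm x = R)
    (hx : SepC R b0 ba x b3) (hx' : SepC R b0 ba x bc) (hE : IsConn E)
    (hEC : E ⊆ Crd r R B0 Ba x) (hq : q ∈ Ba) (ht : ∃ z ∈ E, Adj q z) :
    E ⊆ Sig r R B0 B3 ba := by
  obtain ⟨z, hz, hqz⟩ := ht
  refine h.sig_of_touch hE (fun v hv => (comp_subset (hEC hv)).1) ?_ ⟨z, hz, q, hq, hqz⟩
  rw [Set.disjoint_left]
  rintro v hv (hv' | hv')
  · exact (comp_subset (hEC hv)).2 (Or.inl hv')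
  · exact (h.away nx hx hx' (hEC hv) (Or.inl hv')).1 rfl

/-- A set which is joined to `ρd` off `B0 ∪ B3` is in the side of `Bc`. -/
theorem Four4.sig_root (h : Four4 r R B0 Ba B3 Bc b0 ba b3 bc ρ0 ρa ρ3 ρc)
    (h0 : ∀ v ∈ B0, nrm v = r → v = ρ0) (h3 : ∀ v ∈ B3, nrm v = r → v = ρ3) (nd : nrm ρd = r)
    (hsep : SepC r ρ0 ρ3 ρa ρd) (hv : Conn (Ann 0 r R \ (B0 ∪ B3)) v ρd) :
    v ∈ Sig r R B0 B3 bc := by
  have ho := h.out
  have hi := h.inn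
  have hd := h.cr.dj
  have hs := h.sep'
  have e0a : ρ0 ≠ ρa := dj_ne hd.d01 hi.m0 hi.m1
  have e0c : ρ0 ≠ ρc := dj_ne hd.d03 hi.m0 hi.m3
  have ea3 : ρa ≠ ρ3 := dj_ne hd.d12 hi.m1 hi.m2
  have e3c : ρ3 ≠ ρc := dj_ne hd.d23 hi.m2 hi.m3
  have ed0 : ρd ≠ ρ0 := fun e => hv.right.2 (Or.inl (e ▸ hi.m0))
  have ed3 : ρd ≠ ρ3 := fun e => hv.right.2 (Or.inr (e ▸ hi.m2))
  have h1 : Conn (Cir r \ {ρ0, ρ3}) ρd ρc := by
    rw [conn_iff h.r1 hi.n0 hi.n2 nd hi.n3 ed0 ed3 e0c.symm e3c.symm]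
    rw [sep_iff h.r1 hi.n0 hi.n2 hi.n1 nd e0a.symm ea3 ed0 ed3] at hsep
    rw [sep_iff h.r1 hi.n0 hi.n2 hi.n1 hi.n3 e0a.symm ea3 e0c.symm e3c.symm] at hs
    rw [not_iff] at hsep hs
    exact hsep.symm.trans hs
  have h2 : Conn (Ann 0 r R \ (B0 ∪ B3)) ρd ρc := h1.mono (by
    rintro w ⟨hw1, hw2⟩
    have hw1' : nrm w = r := hw1
    refine ⟨mem_ann0.2 ⟨hw1'.ge, hw1'.le.trans h.rR.le⟩, ?_⟩
    rintro (hw | hw)
    · exact hw2 (Or.inl (h0 w hw hw1'))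
    · exact hw2 (Or.inr (h3 w hw hw1')))
  have h4 : Conn (Ann 0 r R \ (B0 ∪ B3)) ρc bc := (h.cr.c3 ρc hi.m3 bc ho.m3).mono
    fun w hw => ⟨h.cr.s3 hw, fun hw' => hw'.elim (fun h' => Set.disjoint_left.1 hd.d03 h' hw)
      fun h' => Set.disjoint_left.1 hd.d23 h' hw⟩
  exact (hv.trans (h2.trans h4)).symm

/-! ## (5c), the negative part -/

/-- The hypotheses of (5c). -/
structure SideIn (r R n1 sd td : ℤ) (P Q X0 X3 B0 Ba B3 Bc U K Uc Kc : Set V)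
    (b0 ba b3 bc ρ0 ρa ρ3 ρc x xc : V) : Prop where
  h4 : Four4 r R B0 Ba B3 Bc b0 ba b3 bc ρ0 ρa ρ3 ρc
  nR : n1 ≤ R
  nx : nrm x = R
  hxB : x ∉ B0 ∪ Ba
  hx : SepC R b0 ba x b3
  hx' : SepC R b0 ba x bc
  nxc : nrm xc = R
  hxcB : xc ∉ B3 ∪ Bc
  hxc : SepC R b3 bc xc b0
  hxc' : SepC R b3 bc xc ba
  X0P : ∀ v ∈ X0, ∀ y ∈ P ∩ Ann 0 r R, Adj v y → y ∈ X0
  X3P : ∀ v ∈ X3, ∀ y ∈ P ∩ Ann 0 r R, Adj v y → y ∈ X3
  d03 : Disjoint X0 X3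
  B0X : B0 ⊆ X0
  B3X : B3 ⊆ X3
  BaX : Disjoint Ba (X0 ∪ X3)
  BcX : Disjoint Bc (X0 ∪ X3)
  hQ : ∀ v ∈ Q, nrm v ≤ n1 → v ∈ P ∨ v ∈ U ∪ K ∨ v ∈ Uc ∪ Kc
  UX : Disjoint (U ∪ K) (X0 ∪ X3)
  UcX : Disjoint (Uc ∪ Kc) (X0 ∪ X3)
  UC : U ⊆ Crd r R B0 Ba x
  US : U ∪ K ⊆ Sig r R B0 B3 ba
  UcC : Uc ⊆ Crd r R B3 Bc xc
  UcS : Uc ∪ Kc ⊆ Sig r R B0 B3 bc
  rs : r ≤ sd
  st : sd ≤ td
  cutd : ¬ Arm P 0 sd td
  Ud : ∀ v ∈ U ∪ K, td < nrm v
  Ucd : ∀ v ∈ Uc ∪ Kc, td < nrm v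
  sUK : ∀ E, IsConn E → E ⊆ (X0 ∪ X3) ∩ P → Touch E (U ∪ Uc) → Touch E (K ∪ Kc) → False
  sKK : ∀ E, IsConn E → E ⊆ (X0 ∪ X3) ∩ P → Touch E K → Touch E Kc → False

/-- The other side. -/
theorem SideIn.rot (h : SideIn r R n1 sd td P Q X0 X3 B0 Ba B3 Bc U K Uc Kc b0 ba b3 bc ρ0 ρa ρ3 ρc
    x xc) : SideIn r R n1 sd td P Q X3 X0 B3 Bc B0 Ba Uc Kc U K b3 bc b0 ba ρ3 ρc ρ0 ρa xc x where
  h4 := h.h4.rot2
  nR := h.nR
  nx := h.nxc
  hxB := h.hxcB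
  hx := h.hxc
  hx' := h.hxc'
  nxc := h.nx
  hxcB := h.hxB
  hxc := h.hx
  hxc' := h.hx'
  X0P := h.X3P
  X3P := h.X0P
  d03 := h.d03.symm
  B0X := h.B3X
  B3X := h.B0X
  BaX := by
    rw [Set.union_comm]
    exact h.BcX
  BcX := by
    rw [Set.union_comm]
    exact h.BaX
  hQ := fun v hv hn => (h.hQ v hv hn).imp_right Or.symm
  UX := by
    rw [Set.union_comm X3 X0]
    exact h.UcX
  UcX := by
    rw [Set.union_comm X3 X0]
    exact h.UX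
  UC := h.UcC
  US := by
    unfold Sig
    rw [Set.union_comm B3 B0]
    exact h.UcS
  UcC := h.UC
  UcS := by
    unfold Sig
    rw [Set.union_comm B3 B0]
    exact h.US
  rs := h.rs
  st := h.st
  cutd := h.cutd
  Ud := h.Ucd
  Ucd := h.Ud
  sUK := fun E h1 h2 h3 h5 => h.sUK E h1 (by rwa [Set.union_comm X0 X3])
    (by rwa [Set.union_comm U Uc]) (by rwa [Set.union_comm K Kc])
  sKK := fun E h1 h2 h3 h5 => h.sKK E h1 (by rwa [Set.union_comm X0 X3]) h5 h3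

section

variable (h : SideIn r R n1 sd td P Q X0 X3 B0 Ba B3 Bc U K Uc Kc b0 ba b3 bc ρ0 ρa ρ3 ρc x xc)

include h

/-- A connected subset of `P ∩ Ball 0 n1` which reaches `td` is outside `sd`. -/
theorem SideIn.out (hE : IsConn E) (hEP : E ⊆ P) (hy : y ∈ E) (ny : td ≤ nrm y) (hv : v ∈ E) :
    sd < nrm v := by
  by_contra hc
  push Not at hc
  exact h.cutd (arm_of_conn ((hE v hv y hy).mono hEP) (by rw [sub_zero]; exact hc)
    (by rw [sub_zero]; exact ny) h.st)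

/-- A connected subset of `P ∩ Ann 0 r R` which meets `X0` is in `X0`. -/
theorem SideIn.inX0 (hE : IsConn E) (hEP : E ⊆ P ∩ Ann 0 r R) (hy : y ∈ E) (hyX : y ∈ X0) :
    E ⊆ X0 := by
  intro v hv
  obtain ⟨-, hr⟩ := hE y hy v hv
  induction hr with
  | refl => exact hyX
  | @tail a b _ hab ih =>
    have ha : a ∈ E := by
      rename_i h1
      exact (show Conn E y a from ⟨hy, h1⟩).right
    exact h.X0P a (ih ha) b (hEP hab.2) hab.1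

/-- A vertex of `X0 ∪ X3` in `Q ∩ Ball 0 n1` is in `P`. -/
theorem SideIn.xP (hv : v ∈ X0 ∪ X3) (hvQ : v ∈ Q) (hn : nrm v ≤ n1) : v ∈ P := by
  rcases h.hQ v hvQ hn with h1 | h1 | h1
  · exact h1
  · exact absurd hv (Set.disjoint_left.1 h.UX h1)
  · exact absurd hv (Set.disjoint_left.1 h.UcX h1)

/-- `X0 ∪ X3` is closed. -/
theorem SideIn.xcl (hv : v ∈ X0 ∪ X3) (hy : y ∈ P ∩ Ann 0 r R) (hvy : Adj v y) :
    y ∈ X0 ∪ X3 :=
  hv.imp (fun h' => h.X0P v h' y hy hvy) fun h' => h.X3P v h' y hy hvy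

/-- A component of `X0` does not touch both sides. -/
theorem SideIn.two0 (hE : IsConn E) (hEP : E ⊆ P) (hEn : ∀ v ∈ E, nrm v ≤ n1) (hz : z ∈ E)
    (hzX : z ∈ X0) (h1 : Touch E (U ∪ K)) (h2 : Touch E (Uc ∪ Kc)) : False := by
  have hEA : E ⊆ P ∩ Ann 0 r R := by
    intro v hv
    obtain ⟨y, hy, u, hu, huy⟩ := h1
    have h3 := h.Ud u hu
    have h4 := nrm_adj0 huy
    have h5 := h.out hE hEP hy (by omega) hv
    have h6 := h.rs
    have h7 := hEn v hv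
    have h8 := h.nR
    exact ⟨hEP hv, mem_ann0.2 ⟨by omega, by omega⟩⟩
  have hEX : E ⊆ X0 := h.inX0 hE hEA hz hzX
  have hEX' : E ⊆ (X0 ∪ X3) ∩ P := fun v hv => ⟨Or.inl (hEX hv), hEP hv⟩
  rcases touch_union h1 with h1 | h1 <;> rcases touch_union h2 with h2 | h2
  · obtain ⟨y, hy, u, hu, huy⟩ := h1
    obtain ⟨y', hy', u', hu', huy'⟩ := h2
    have hd : Disjoint E (B3 ∪ Bc) := by
      rw [Set.disjoint_left]
      rintro v hv (hv' | hv')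
      · exact Set.disjoint_left.1 h.d03 (hEX hv) (h.B3X hv')
      · exact Set.disjoint_left.1 h.BcX hv' (Or.inl (hEX hv))
    have h3 : y' ∈ Crd r R B3 Bc xc := by
      rcases corr_nb (h.UcC hu') (hEA hy').2 huy' with h4 | h4
      · exact h4
      · exact absurd h4 (Set.disjoint_left.1 hd hy')
    have h4 : y ∈ Crd r R B3 Bc xc :=
      corr_sub hE (fun v hv => (hEA hv).2) hd hy' h3 hy
    have h5 : y ∈ Crd r R B0 Ba x ∪ (B0 ∪ Ba) := corr_nb (h.UC hu) (hEA hy).2 huy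
    exact Set.disjoint_left.1 (h.h4.f2 h.nx h.nxc h.hxB h.hx h.hx' h.hxc h.hxc') h5 (Or.inl h4)
  · exact h.sUK E hE hEX' (h1.mono subset_rfl Set.subset_union_left)
      (h2.mono subset_rfl Set.subset_union_right)
  · exact h.sUK E hE hEX' (h2.mono subset_rfl Set.subset_union_right)
      (h1.mono subset_rfl Set.subset_union_left)
  · exact h.sKK E hE hEX' h1 h2

/-- A component of `X0 ∪ X3` does not touch both sides. -/
theorem SideIn.two (hE : IsConn E) (hEP : E ⊆ P) (hEn : ∀ v ∈ E, nrm v ≤ n1) (hz : z ∈ E)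
    (hzX : z ∈ X0 ∪ X3) (h1 : Touch E (U ∪ K)) (h2 : Touch E (Uc ∪ Kc)) : False := by
  rcases hzX with hzX | hzX
  · exact h.two0 hE hEP hEn hz hzX h1 h2
  · exact h.rot.two0 hE hEP hEn hz hzX h2 h1

/-- Everything which is joined to `U ∪ K` in `Q ∩ Ball 0 n1` is outside `sd`. -/
theorem SideIn.norm (hu : u ∈ U ∪ K) (hv : Conn (Q ∩ Ball 0 n1) u v) : sd < nrm v := by
  by_contra hc
  push Not at hc
  have h1 := h.Ud u hu
  have h2 := mem_ball0.1 hv.left.2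
  obtain ⟨a, ha, b, hb, hab⟩ := arm_of_conn (z := 0) (n := sd) (m := td) hv.symm
    (by rw [sub_zero]; exact hc) (by rw [sub_zero]; exact h1.le) h.st
  refine h.cutd ⟨a, ha, b, hb, hab.mono ?_⟩
  rintro w ⟨⟨h3, h4⟩, h5⟩
  have h6 := mem_ann0.1 h5
  refine ⟨?_, h5⟩
  rcases h.hQ w h3 (mem_ball0.1 h4) with h7 | h7 | h7
  · exact h7
  · have := h.Ud w h7
    omega
  · have := h.Ucd w h7
    omega

/-- **(5c)**: everything which is joined to `U ∪ K` in `Q ∩ Ball 0 n1` is on the side of `U ∪ K`. -/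
theorem SideIn.main (hu : u ∈ U ∪ K) (hv : Conn (Q ∩ Ball 0 n1) u v) :
    (v ∈ Sig r R B0 B3 ba ∧ v ∉ X0 ∪ X3) ∨
      (v ∈ X0 ∪ X3 ∧ Touch (comp (P ∩ Ball 0 n1) v) (U ∪ K)) := by
  have hnorm := fun w (hw : Conn (Q ∩ Ball 0 n1) u w) => h.norm hu hw
  obtain ⟨hu0, hr⟩ := hv
  induction hr with
  | refl => exact Or.inl ⟨h.US hu, Set.disjoint_left.1 h.UX hu⟩
  | @tail a b hra hab ih =>
    have ca : Conn (Q ∩ Ball 0 n1) u a := ⟨hu0, hra⟩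
    have cb : Conn (Q ∩ Ball 0 n1) u b := ca.trans (Conn.of_adj ca.right hab.2 hab.1)
    have hann : ∀ w, Conn (Q ∩ Ball 0 n1) u w → w ∈ Ann 0 r R := by
      intro w hw
      have h1 := hnorm w hw
      have h2 := mem_ball0.1 hw.right.2
      have h3 := h.rs
      have h4 := h.nR
      exact mem_ann0.2 ⟨by omega, by omega⟩
    have ha := ca.right
    have hb := cb.right
    have na := mem_ball0.1 ha.2
    have nb := mem_ball0.1 hb.2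
    rcases ih with ⟨i1, i2⟩ | ⟨i1, i2⟩
    · by_cases hbX : b ∈ X0 ∪ X3
      · right
        refine ⟨hbX, b, Conn.refl ⟨h.xP hbX hb.1 nb, hb.2⟩, a, ?_, hab.1⟩
        rcases h.hQ a ha.1 na with h1 | h1 | h1
        · exact absurd (h.xcl hbX ⟨h1, hann a ca⟩ hab.1.symm) i2
        · exact h1
        · exact absurd (h.UcS h1) (Set.disjoint_left.1 h.h4.sig_disj i1)
      · left
        refine ⟨comp_adj i1 ⟨hann b cb, ?_⟩ hab.1, hbX⟩
        rintro (h1 | h1)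
        · exact hbX (Or.inl (h.B0X h1))
        · exact hbX (Or.inr (h.B3X h1))
    · have haP : a ∈ P := h.xP i1 ha.1 na
      have haE : a ∈ comp (P ∩ Ball 0 n1) a := Conn.refl ⟨haP, ha.2⟩
      rcases h.hQ b hb.1 nb with h1 | h1 | h1
      · right
        refine ⟨h.xcl i1 ⟨h1, hann b cb⟩ hab.1, i2.mono (fun w hw => ?_) subset_rfl⟩
        have h2 : Conn (P ∩ Ball 0 n1) b a :=
          Conn.of_adj ⟨h1, hb.2⟩ ⟨haP, ha.2⟩ hab.1.symm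
        exact h2.trans hw
      · exact Or.inl ⟨h.US h1, Set.disjoint_left.1 h.UX h1⟩
      · exfalso
        exact h.two isConn_comp (fun w hw => (comp_subset hw).1)
          (fun w hw => mem_ball0.1 (comp_subset hw).2) haE i1 i2 ⟨a, haE, b, h1, hab.1.symm⟩

/-- What is on the other side is not joined to `U ∪ K` in `Q ∩ Ball 0 n1`. -/
theorem SideIn.not_side (hu : u ∈ U ∪ K) (hv : v ∈ Sig r R B0 B3 bc) (hvX : v ∉ X0 ∪ X3) :
    ¬ Conn (Q ∩ Ball 0 n1) u v := by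
  intro hc
  rcases h.main hu hc with ⟨h1, -⟩ | ⟨h1, -⟩
  · exact Set.disjoint_left.1 h.h4.sig_disj h1 hv
  · exact hvX h1

theorem SideIn.not_new (hu : u ∈ U ∪ K) (hv : v ∈ Uc ∪ Kc) : ¬ Conn (Q ∩ Ball 0 n1) u v :=
  h.not_side hu (h.UcS hv) (Set.disjoint_left.1 h.UcX hv)

/-- Components of `X0 ∪ X3` which touch the other side are not joined to `U ∪ K`. -/
theorem SideIn.not_comp (hu : u ∈ U ∪ K) (hv : v ∈ X0 ∪ X3)
    (ht : Touch (comp (P ∩ Ball 0 n1) v) (Uc ∪ Kc)) : ¬ Conn (Q ∩ Ball 0 n1) u v := by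
  intro hc
  rcases h.main hu hc with ⟨-, h1⟩ | ⟨-, h1⟩
  · exact h1 hv
  · obtain ⟨y, hy, -⟩ := id ht
    exact h.two isConn_comp (fun w hw => (comp_subset hw).1)
      (fun w hw => mem_ball0.1 (comp_subset hw).2) (Conn.refl (Conn.left hy)) hv h1 ht

end

/-! ## (5c), the positive part -/

/-- A path which crosses `Ann 0 j1 j2` in `Y` meets `K` before it enters `Ball 0 (j1 - 1)`. -/
theorem reach_K {j1 j2 : ℤ} (hj : j1 ≤ j2) (hK : ¬ Arm (Y \ K) 0 j1 j2) (hc : Conn T v w)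
    (hT : ∀ z ∈ T, j1 ≤ nrm z → z ∈ Y) (nv : j2 ≤ nrm v) (nw : nrm w ≤ j1) :
    ∃ k ∈ K, Conn (T ∩ {z | j1 ≤ nrm z}) v k := by
  by_contra hno
  push Not at hno
  obtain ⟨b, nb, cb⟩ : ∃ b, nrm b ≤ j1 ∧ Conn (T ∩ {z | j1 ≤ nrm z}) v b := by
    by_cases h1 : nrm v ≤ j1
    · exact ⟨v, h1, Conn.refl ⟨hc.left, hj.trans nv⟩⟩
    · obtain ⟨a, b, ha, hb, hab, h2, h3⟩ := hc.exit (A := {z : V | j1 < nrm z})
        (show j1 < nrm v by omega) (show ¬ j1 < nrm w by omega)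
      have ha' : j1 < nrm a := ha
      have hb' : ¬ j1 < nrm b := hb
      have h4 := nrm_adj0 hab
      have h5 : Conn (T ∩ {z | j1 ≤ nrm z}) v a := h2.mono fun z hz =>
        ⟨hz.1, le_of_lt (show j1 < nrm z from hz.2)⟩
      exact ⟨b, by omega, h5.trans (Conn.of_adj h5.right ⟨h3.left, by
        change j1 ≤ nrm b
        omega⟩ hab)⟩
  refine hK (arm_of_conn (z := 0) (cb.in_comp.mono ?_).symm (by rw [sub_zero]; exact nb)
    (by rw [sub_zero]; exact nv) hj)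
  intro z hz
  have hz' := (comp_subset hz)
  exact ⟨hT z hz'.1 hz'.2, fun hk => hno z hk hz⟩

/-- The joint and the turn are joined to `vb`. -/
theorem join_K {j1 j2 : ℤ} {Ta Tb : Set V} {ρ ρ' : V} (hj : j1 ≤ j2)
    (hK : ¬ Arm (Y \ K) 0 j1 j2) (hKc : IsConn K) (hKQ : K ⊆ Q ∩ Ball 0 n1)
    (huq : Conn ((P ∩ Ball 0 n1 ∪ insert u U) \ comp (P ∩ Ball 0 n1) p) u q)
    (hQ : (P ∩ Ball 0 n1 ∪ insert u U) \ comp (P ∩ Ball 0 n1) p ⊆ Q ∩ Ball 0 n1)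
    (ca : Conn Ta q ρ) (hTa : ∀ z ∈ Ta, j1 ≤ nrm z → z ∈ Y ∧ z ∈ Q ∧ nrm z ≤ n1)
    (nq : j2 ≤ nrm q) (na : nrm ρ ≤ j1) (cb : Conn Tb vb ρ')
    (hTb : ∀ z ∈ Tb, j1 ≤ nrm z → z ∈ Y ∧ z ∈ Q ∧ nrm z ≤ n1) (nb : j2 ≤ nrm vb)
    (nb' : nrm ρ' ≤ j1) :
    Conn (Q ∩ Ball 0 n1) u q ∧ (∀ k ∈ K, Conn (Q ∩ Ball 0 n1) u k) ∧
      Conn (Q ∩ Ball 0 n1) u vb := by
  obtain ⟨k, hk, ck⟩ := reach_K hj hK ca (fun z hz hz' => (hTa z hz hz').1) nq na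
  obtain ⟨l, hl, cl⟩ := reach_K hj hK cb (fun z hz hz' => (hTb z hz hz').1) nb nb'
  have h1 : Conn (Q ∩ Ball 0 n1) u q := huq.mono hQ
  have h2 : Conn (Q ∩ Ball 0 n1) q k := ck.mono fun z hz =>
    ⟨(hTa z hz.1 hz.2).2.1, mem_ball0.2 (hTa z hz.1 hz.2).2.2⟩
  have h3 : Conn (Q ∩ Ball 0 n1) vb l := cl.mono fun z hz =>
    ⟨(hTb z hz.1 hz.2).2.1, mem_ball0.2 (hTb z hz.1 hz.2).2.2⟩
  refine ⟨h1, fun k' hk' => h1.trans (h2.trans ((hKc k hk k' hk').mono hKQ)), ?_⟩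
  exact h1.trans (h2.trans (((hKc k hk l hl).mono hKQ).trans h3.symm))

/-! ## (5d), the link -/

/-- The link avoids every connected set off `{vb, vd}` which reaches the inside. -/
theorem link_off (hmc : mh ≤ c) (hb : vb ∈ Z) (hd : vd ∈ Z) (hno : ¬ Conn Z vb vd)
    (hc : Conn (Z ∪ L) vb vd) (hL : ∀ v ∈ L, c < nrm v) (hcut : ¬ Arm (Z \ {vb, vd}) 0 mh c) :
    ∃ C : Set V, IsConn C ∧ C ⊆ (Z ∪ L) \ {vb, vd} ∧ (∃ x ∈ C, Adj vb x) ∧
      (∃ y ∈ C, Adj vd y) ∧ (∀ v ∈ C, mh < nrm v) ∧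
      ∀ G : Set V, IsConn G → G ⊆ Z \ {vb, vd} → (∃ g ∈ G, nrm g ≤ mh) → Disjoint C G := by
  have hne : vb ≠ vd := fun e => hno (e ▸ Conn.refl hb)
  obtain ⟨x, hx, y, hy, -, -, hxy⟩ := hc.between (A := {vb}) (B := {vd}) rfl rfl
    (Set.disjoint_singleton.2 hne)
  obtain rfl : x = vb := hx
  obtain rfl : y = vd := hy
  rcases hxy with hxy | ⟨x', y', hx', hy', hc'⟩
  · exact absurd (Conn.of_adj hb hd hxy) hno
  have hS : (Z ∪ L) \ ({x} ∪ {y}) = (Z ∪ L) \ {x, y} := by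
    rw [Set.singleton_union]
  rw [hS] at hc'
  have hx1 : x' ∈ comp ((Z ∪ L) \ {x, y}) x' := Conn.refl hc'.left
  -- the component reaches `L`
  obtain ⟨l, hl, hlL⟩ : ∃ l ∈ comp ((Z ∪ L) \ {x, y}) x', c < nrm l := by
    by_contra hcon
    push Not at hcon
    have h1 : comp ((Z ∪ L) \ {x, y}) x' ⊆ Z := by
      intro v hv
      rcases (comp_subset hv).1 with h2 | h2
      · exact h2
      · have h3 := hcon v hv
        have h4 := hL v h2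
        omega
    have h2 : Conn Z x' y' := hc'.in_comp.mono h1
    exact hno ((Conn.of_adj hb h2.left hx').trans (h2.trans (Conn.of_adj h2.right hd hy')))
  have hin : ∀ v ∈ comp ((Z ∪ L) \ {x, y}) x', mh < nrm v := by
    intro v hv
    by_contra hcon
    push Not at hcon
    obtain ⟨a, ha, b, hb', hab⟩ := arm_of_conn (z := 0) (n := mh) (m := c)
      ((Conn.symm hv).trans hl) (by rw [sub_zero]; exact hcon) (by rw [sub_zero]; omega) hmc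
    refine hcut ⟨a, ha, b, hb', hab.mono ?_⟩
    rintro w ⟨⟨h1, h2⟩, h3⟩
    refine ⟨⟨?_, h2⟩, h3⟩
    rcases h1 with h1 | h1
    · exact h1
    · have h4 := hL w h1
      have h5 := (mem_ann0.1 h3).2
      omega
  refine ⟨comp ((Z ∪ L) \ {x, y}) x', isConn_comp, comp_subset, ⟨x', hx1, hx'⟩,
    ⟨y', hc', hy'.symm⟩, hin, ?_⟩
  rintro G hG hGZ ⟨g, hg, ng⟩
  rw [Set.disjoint_left]
  intro v hv hvG
  have h1 : g ∈ comp ((Z ∪ L) \ {x, y}) x' := Conn.trans hv ((hG v hvG g hg).mono fun w hw =>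
    ⟨Or.inl (hGZ hw).1, (hGZ hw).2⟩)
  have h2 := hin g h1
  omega

/-- The link joins `vb` to `vd` in every set which contains `Z ∪ L` off two such sets. -/
theorem link_conn (hmc : mh ≤ c) (hb : vb ∈ Z) (hd : vd ∈ Z) (hno : ¬ Conn Z vb vd)
    (hc : Conn (Z ∪ L) vb vd) (hL : ∀ v ∈ L, c < nrm v) (hcut : ¬ Arm (Z \ {vb, vd}) 0 mh c)
    (hG : IsConn G) (hGZ : G ⊆ Z \ {vb, vd}) (hGi : ∃ g ∈ G, nrm g ≤ mh)
    (hQ : (Z ∪ L) \ G ⊆ Q) : Conn Q vb vd := by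
  obtain ⟨C, h1, h2, ⟨x, hx, hx'⟩, ⟨y, hy, hy'⟩, -, h6⟩ := link_off hmc hb hd hno hc hL hcut
  have h7 := h6 G hG hGZ hGi
  have hCQ : C ⊆ Q := fun v hv => hQ ⟨(h2 hv).1, Set.disjoint_left.1 h7 hv⟩
  have hbQ : vb ∈ Q := hQ ⟨Or.inl hb, fun h' => (hGZ h').2 (by simp)⟩
  have hdQ : vd ∈ Q := hQ ⟨Or.inl hd, fun h' => (hGZ h').2 (by simp)⟩
  exact (Conn.of_adj hbQ (hCQ hx) hx').trans (((h1 x hx y hy).mono hCQ).trans
    (Conn.of_adj (hCQ hy) hdQ hy'.symm))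

end Pool.Agent.MSTS
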