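import Pool.Agent.MSTS.Geo
import Pool.Agent.MSTS.Path
import Pool.Agent.MSTS.Sec1
import Pool.Agent.MSTS.Sides
import Pool.Agent.MSTS.TurnE

/-!
# (S): the objects of sections 1-4

(text: `/team-store/MST_S_helper95.md`; proof of `exists_obj` in `MSTS/ObjE.lean`)

`EndD`: the data of one end of the configuration: indices `i0, ia, ib` of the witnesses, the joint
`insert u U` with the bridge `k`, feet `p ∈ B i0`, `q ∈ B ia`, the vertex `t` (neighbour of `u` in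
`G0 = comp P1 p`), the start `x0` of the chain, the turn `UJ ⊆ KJ` in the zone `Ann 0 a bb` of the
clean annulus `Ann 0 j1 j2`.

`ObjD`: all data (witnesses `z`, root paths `T k 0 .. T k (n k)`, last cut times `l k`, outer parts
`D k`, feet `b k`, cuts `Tc, T0, T1, Td`, link `W`, labels `gl` of the tree configuration, two ends
`e, e'`).  `ObjD.flip` exchanges the two ends.

Notation: `o.B k` crossing, `o.X`, `o.Y` the clusters of the end `e`, `o.X'`, `o.Y'` those of `e'`,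
`o.P` = open set of the final configuration without the new vertices, `o.P1 = o.P ∩ Ball 0 (c-1)`.

`Half`: the facts of one end; `Obj`: all facts; `Obj.flip`.
-/

set_option autoImplicit false

namespace Pool.Agent.MSTS

open Pool.Agent.TriPerc Pool.Agent.MST Pool.Agent.MSTG

/-- The data of one end. -/
structure EndD where
  (i0 ia ib : Fin 6)
  (x p q u x0 t : V)
  (k U UJ KJ : Set V)
  (j1 a bb j2 : ℤ)

/-- The joint with its first vertex. -/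
def EndD.U1 (e : EndD) : Set V := insert e.u e.U

/-- All data. -/
structure ObjD where
  z : Fin 6 → V
  T : Fin 6 → ℕ → V
  n : Fin 6 → ℕ
  l : Fin 6 → ℕ
  D : Fin 6 → Set V
  b : Fin 6 → V
  (Tc T0 T1 Td W : Set V)
  gl : Lab
  (e e' : EndD)

namespace ObjD

/-- The other end. -/
def flip (o : ObjD) : ObjD := { o with e := o.e', e' := o.e }

/-- The crossing `B k`. -/
def B (o : ObjD) (k : Fin 6) : Set V := Bs (o.T k) (o.n k) (o.l k) (o.D k)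

/-- The foot on the inner circle. -/
def rh (o : ObjD) (k : Fin 6) : V := o.T k (o.n k)

/-- The vertex of the cut which is kept open. -/
def vb (o : ObjD) : V := o.T o.e.ib (o.l o.e.ib)

/-- The vertex of the cut which is kept open, at the other end. -/
def vd (o : ObjD) : V := o.T o.e'.ib (o.l o.e'.ib)

/-- The raised vertices. -/
def Rs (o : ObjD) : Set V := (o.Tc \ {o.vb, o.vd}) ∪ o.T0 ∪ o.T1 ∪ o.Td

/-- The open vertices without the raised ones (`O'` in the text). -/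
def P (o : ObjD) (f : Lab) : Set V := Op 0 f \ o.Rs

/-- The open vertices inside the circle `c`. -/
def P1 (o : ObjD) (g : Geo) (f : Lab) : Set V := o.P f ∩ Ball 0 (g.c - 1)

/-- The cluster of the first witness. -/
def X (o : ObjD) (g : Geo) (f : Lab) : Set V := Cl f g.r g.R o.z o.e.i0

/-- The clusters of the group `a, b`. -/
def Y (o : ObjD) (g : Geo) (f : Lab) : Set V :=
  Cl f g.r g.R o.z o.e.ia ∪ Cl f g.r g.R o.z o.e.ib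

/-- The cluster of the first witness, other end. -/
def X' (o : ObjD) (g : Geo) (f : Lab) : Set V := Cl f g.r g.R o.z o.e'.i0

/-- The clusters of the group `a, b`, other end. -/
def Y' (o : ObjD) (g : Geo) (f : Lab) : Set V :=
  Cl f g.r g.R o.z o.e'.ia ∪ Cl f g.r g.R o.z o.e'.ib

end ObjD

variable {g : Geo} {lam : V → ℝ} {f : Lab} {omJ : ℝ} {o : ObjD}

/-- The facts of one end. -/
structure Half (g : Geo) (lam : V → ℝ) (f : Lab) (omJ : ℝ) (o : ObjD) : Prop where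
  -- groups
  gab : grp o.e.ia = grp o.e.ib
  nab : o.e.ia ≠ o.e.ib
  g0a : grp o.e.i0 ≠ grp o.e.ia
  -- the corridor
  nx : nrm o.e.x = g.R
  xB : o.e.x ∉ o.B o.e.i0 ∪ o.B o.e.ia
  hx : SepC g.R (o.b o.e.i0) (o.b o.e.ia) o.e.x (o.b o.e'.i0)
  hx' : SepC g.R (o.b o.e.i0) (o.b o.e.ia) o.e.x (o.b o.e'.ia)
  sepb : SepC g.r (o.rh o.e.i0) (o.rh o.e.ib) (o.rh o.e.ia) (o.rh o.e'.i0)
  -- the joint
  kc : IsConn o.e.k
  kS : o.e.k ⊆ Upp lam f ∩ Ann 0 g.mb (2 * g.mb) ∩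
    Crd g.r g.R (o.B o.e.i0) (o.B o.e.ia) o.e.x
  kq : ∃ w ∈ o.e.k, Adj o.e.q w
  Uk : o.e.U1 ⊆ o.e.k
  uU : o.e.u ∉ o.e.U
  Uf : ∀ v ∈ o.e.U1, 0 < f v
  Uas : o.e.U1 ⊆ As (Low lam f) (Upp lam f)
  UC : o.e.U1 ⊆ Crd g.r g.R (o.B o.e.i0) (o.B o.e.ia) o.e.x
  US : o.e.U1 ⊆ Sig g.r g.R (o.B o.e.i0) (o.B o.e'.i0) (o.b o.e.ia)
  UX : ∀ k, Disjoint o.e.U1 (Cl f g.r g.R o.z k)
  pT : ∃ i, o.l o.e.i0 < i ∧ i ≤ o.n o.e.i0 ∧ o.T o.e.i0 i = o.e.p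
  qT : ∃ i, o.l o.e.ia < i ∧ i ≤ o.n o.e.ia ∧ o.T o.e.ia i = o.e.q
  np : g.mb - 1 ≤ nrm o.e.p
  np' : nrm o.e.p ≤ 2 * g.mb + 1
  nq : g.mb - 1 ≤ nrm o.e.q
  nq' : nrm o.e.q ≤ 2 * g.mb + 1
  pq : ¬ Conn (o.P1 g f ∪ o.e.U) o.e.p o.e.q
  pU : ∀ y, Conn (o.P1 g f ∪ o.e.U) o.e.p y → Conn (o.P1 g f) o.e.p y
  ut : Adj o.e.u o.e.t
  pt : Conn (o.P1 g f) o.e.p o.e.t
  Uno : ∀ v ∈ o.e.U, ∀ t, Adj v t → ¬ Conn (o.P1 g f) o.e.p t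
  uq : Conn ((o.P1 g f ∪ o.e.U1) \ comp (o.P1 g f) o.e.p) o.e.u o.e.q
  uv : ∀ v ∈ o.e.U, Conn ((o.P1 g f ∪ o.e.U1) \ comp (o.P1 g f) o.e.p) o.e.u v
  px : Conn (o.P1 g f) o.e.p o.e.x0
  nx0 : nrm o.e.x0 ≤ 2 * g.m0 + 1
  low : ∀ y, Conn (o.P1 g f) o.e.p y → g.m0 < 2 * nrm y
  G0X : ∀ y, Conn (o.P1 g f) o.e.p y → y ∈ o.X g f
  G0I : ∀ y, Conn (o.P1 g f) o.e.p y → y ∈ Inn f g.r g.R g.mM o.Tc
  -- (2c)
  c2 : ∀ v ∈ o.e.U1, ∀ y, Adj v y → o.gl y ≤ 0 →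
    (∃ w ∈ Cir g.r, Conn (Op 0 o.gl ∩ Ann 0 g.r g.R) y w) →
    ¬ Rt (Ann 0 g.r g.R) (Cir g.r) o.gl y (o.rh o.e.ib)
  -- the turn
  j1 : 3 * g.md ≤ o.e.j1
  ja : o.e.j1 < o.e.a
  ab : o.e.a ≤ o.e.bb
  bj : o.e.bb < o.e.j2
  j2 : 2 * o.e.j2 ≤ g.m0
  Jom : ∀ u ∈ o.e.KJ, omJ ≤ lam u
  JU : o.e.UJ ⊆ (Upp lam f \ Low lam f) ∩ Ann 0 o.e.a o.e.bb
  Jas : o.e.UJ ⊆ As (Low lam f) (Upp lam f)
  Kc : IsConn o.e.KJ
  JK : o.e.UJ ⊆ o.e.KJ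
  KL : o.e.KJ ⊆ Low lam f ∪ o.e.UJ
  KA : o.e.KJ ⊆ Ann 0 o.e.a o.e.bb
  KX : ∀ k, grp k ≠ grp o.e.ia → Disjoint o.e.KJ (Cl f g.r g.R o.z k)
  K0 : ∃ y ∈ o.X g f, ∃ k ∈ o.e.KJ, Adj y k
  K3 : ∃ y ∈ o.X' g f, ∃ k ∈ o.e.KJ, Adj y k
  KY : ¬ Arm (o.Y g f \ o.e.KJ) 0 o.e.j1 o.e.j2
  KS : o.e.KJ ⊆ Sig g.r g.R (o.B o.e.i0) (o.B o.e'.i0) (o.b o.e.ia)
  KP : Disjoint o.e.KJ o.Rs
  -- the vertex of the cut
  nvb : g.mM ≤ nrm o.vb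
  nvb' : nrm o.vb ≤ 2 * g.mM
  vbP : o.vb ∈ o.P f
  vbY : o.vb ∈ Cl f g.r g.R o.z o.e.ib
  vbS : o.vb ∈ Sig g.r g.R (o.B o.e.i0) (o.B o.e'.i0) (o.b o.e.ia)
  vbR : Rt (Ann 0 g.r g.R) (Cir g.r) o.gl o.vb (o.rh o.e.ib)
  vbW : ∃ w ∈ Cir g.r, Conn (Op 0 o.gl ∩ Ann 0 g.r g.R) o.vb w
  -- the tails of the root paths
  ta : ∀ i, o.l o.e.ia < i → i ≤ o.n o.e.ia → o.e.j1 ≤ nrm (o.T o.e.ia i) →
    o.T o.e.ia i ∈ o.P1 g f
  tb : ∀ i, o.l o.e.ib ≤ i → i ≤ o.n o.e.ib → o.e.j1 ≤ nrm (o.T o.e.ib i) →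
    o.T o.e.ib i ∈ o.P1 g f

/-- All facts which are symmetric in the two ends. -/
structure Com (g : Geo) (lam : V → ℝ) (f : Lab) (omJ : ℝ) (o : ObjD) : Prop where
  wit : Wit f g.r g.R o.z o.T o.n
  cut : CutH f (Low lam f) g.r g.R g.mM g.cM g.c o.Tc
  arm : ∀ k, Arm1 f g.r g.R g.mM o.Tc (o.z k) (o.T k) (o.n k) (o.l k) (o.D k) (o.b k)
  four : Four4 g.r g.R (o.B o.e.i0) (o.B o.e.ia) (o.B o.e'.i0) (o.B o.e'.ia) (o.b o.e.i0)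
    (o.b o.e.ia) (o.b o.e'.i0) (o.b o.e'.ia) (o.rh o.e.i0) (o.rh o.e.ia) (o.rh o.e'.i0)
    (o.rh o.e'.ia)
  g03 : grp o.e.i0 ≠ grp o.e'.i0
  g0d : grp o.e.i0 ≠ grp o.e'.ia
  ga3 : grp o.e.ia ≠ grp o.e'.i0
  gad : grp o.e.ia ≠ grp o.e'.ia
  -- the cuts
  sc : o.Tc ⊆ ((Op 0 f ∩ Ann 0 g.r g.R) \ Low lam f) ∩ Ann 0 g.mM (2 * g.mM)
  s0 : o.T0 ⊆ ((o.X g f ∪ o.X' g f) \ Low lam f) ∩ Ann 0 g.m0 (2 * g.m0)
  s1 : o.T1 ⊆ ((o.X g f ∪ o.X' g f) \ Low lam f) ∩ Ann 0 g.m1 (2 * g.m1)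
  sd : o.Td ⊆ (Op 0 f \ Low lam f) ∩ Ann 0 g.md (2 * g.md)
  asc : o.Rs ⊆ As (Low lam f) (Upp lam f)
  c0 : ¬ Arm ((o.X g f ∪ o.X' g f) \ o.T0) 0 (g.m0 / 2) (3 * g.m0)
  c1 : ¬ Arm ((o.X g f ∪ o.X' g f) \ o.T1) 0 (g.m1 / 2) (3 * g.m1)
  cd : ¬ Arm (o.P f) 0 (g.md / 2) (3 * g.md)
  cM : ¬ Arm (o.P f \ {o.vb, o.vd}) 0 (g.mM / 2) g.c
  -- the link
  WS : o.W ⊆ Upp lam f ∩ Ann 0 g.mL (2 * g.mL)
  Wf : ∀ v ∈ o.W, 0 < f v
  Was : o.W ⊆ As (Low lam f) (Upp lam f)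
  Wc : Conn ((o.P f ∩ Ann 0 g.r g.R) ∪ o.W) o.vb o.vd
  -- no connections
  noc : ∀ k k' x y, grp k ≠ grp k' → x ∈ Cl f g.r g.R o.z k → y ∈ Cl f g.r g.R o.z k' →
    ¬ Conn (Op 0 f ∩ Ann 0 g.r g.R) x y
  -- components of `X ∪ X'` do not touch two zones
  sUK : ∀ E, IsConn E → E ⊆ (o.X g f ∪ o.X' g f) ∩ o.P f → Touch E (o.e.U1 ∪ o.e'.U1) →
    Touch E (o.e.KJ ∪ o.e'.KJ) → False
  sKK : ∀ E, IsConn E → E ⊆ (o.X g f ∪ o.X' g f) ∩ o.P f → Touch E o.e.KJ →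
    Touch E o.e'.KJ → False
  -- the tree configuration
  gl : Raise f o.gl o.Tc o.vb o.vd
  nn : ¬ Arm {v | o.gl v < -omJ / 2} 0 g.mn (2 * g.mn)
  -- (6f)
  ord : ∀ x0 x3 y y' : V, Cr (o.X g f ∩ Op 0 f) g.rho g.n2 x0 →
    Cr (o.X' g f ∩ Op 0 f) g.rho g.n2 x3 → Cr (o.Y g f ∩ Op 0 f) g.rho g.n2 y →
    Cr (o.Y' g f ∩ Op 0 f) g.rho g.n2 y' → SepC g.rho y y' x0 x3

/-- All facts. -/
structure Obj (g : Geo) (lam : V → ℝ) (f : Lab) (omJ : ℝ) (o : ObjD) : Prop where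
  com : Com g lam f omJ o
  h : Half g lam f omJ o
  h' : Half g lam f omJ o.flip

theorem flip_rs (o : ObjD) : o.flip.Rs = o.Rs := by
  change (o.Tc \ {o.vd, o.vb}) ∪ o.T0 ∪ o.T1 ∪ o.Td = _
  rw [Set.pair_comm]
  rfl

theorem flip_p (o : ObjD) (f : Lab) : o.flip.P f = o.P f := by
  unfold ObjD.P
  rw [flip_rs]

theorem flip_p1 (o : ObjD) (g : Geo) (f : Lab) : o.flip.P1 g f = o.P1 g f := by
  unfold ObjD.P1
  rw [flip_p]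

theorem flip_flip (o : ObjD) : o.flip.flip = o := rfl

theorem Com.flip (h : Com g lam f omJ o) : Com g lam f omJ o.flip where
  wit := h.wit
  cut := h.cut
  arm := h.arm
  four := h.four.rot2
  g03 := h.g03.symm
  g0d := h.ga3.symm
  ga3 := h.g0d.symm
  gad := h.gad.symm
  sc := h.sc
  s0 := by
    have := h.s0
    rwa [Set.union_comm] at this
  s1 := by
    have := h.s1
    rwa [Set.union_comm] at this
  sd := h.sd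
  asc := by
    rw [flip_rs]
    exact h.asc
  c0 := by
    have := h.c0
    rwa [Set.union_comm] at this
  c1 := by
    have := h.c1
    rwa [Set.union_comm] at this
  cd := by
    rw [flip_p]
    exact h.cd
  cM := by
    rw [flip_p]
    have := h.cM
    rwa [Set.pair_comm] at this
  WS := h.WS
  Wf := h.Wf
  Was := h.Was
  Wc := by
    rw [flip_p]
    exact h.Wc.symm
  noc := h.noc
  sUK := fun E h1 h2 h3 h5 => h.sUK E h1 (by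
      rw [flip_p] at h2
      rwa [Set.union_comm (o.X g f)]) (by rwa [Set.union_comm o.e.U1])
      (by rwa [Set.union_comm o.e.KJ])
  sKK := fun E h1 h2 h3 h5 => h.sKK E h1 (by
      rw [flip_p] at h2
      rwa [Set.union_comm (o.X g f)]) h5 h3
  gl := ⟨h.gl.inj, fun v hv => h.gl.eq v (hv.imp_right Or.symm), fun v hv h1 h2 =>
    h.gl.pos v hv h2 h1⟩
  nn := h.nn
  ord := fun x0 x3 y y' h1 h2 h3 h5 => sep_symm (sep_comm (h.ord x3 x0 y' y h2 h1 h5 h3))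

theorem Obj.flip (h : Obj g lam f omJ o) : Obj g lam f omJ o.flip :=
  ⟨h.com.flip, h.h', h.h⟩

/-- The first end is `0, {1, 2}` with the turn in `Ann 0 a2 b2`, the second end is `3, {4, 5}` with
the turn in `Ann 0 a5 b5`. -/
structure Std (g : Geo) (o : ObjD) : Prop where
  i0 : o.e.i0 = 0
  iab : (o.e.ia = 1 ∧ o.e.ib = 2) ∨ (o.e.ia = 2 ∧ o.e.ib = 1)
  i3 : o.e'.i0 = 3
  icd : (o.e'.ia = 4 ∧ o.e'.ib = 5) ∨ (o.e'.ia = 5 ∧ o.e'.ib = 4)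
  j1 : o.e.j1 = g.j1
  a : o.e.a = g.a2
  bb : o.e.bb = g.b2
  j2 : o.e.j2 = g.j2
  p1 : o.e'.j1 = g.p1
  a' : o.e'.a = g.a5
  bb' : o.e'.bb = g.b5
  p2 : o.e'.j2 = g.p2

/-- The statement of sections 1-4 (to be proved: `exists_obj : ObjS`). -/
def ObjS : Prop :=
  ∀ (g : Geo) (lam : V → ℝ) (f : Lab) (omJ : ℝ) (m : ℕ → ℤ) (om : ℕ → ℝ) (k : ℕ),
    GeoOK g m k → SGood g lam f omJ m om k → ∃ o : ObjD, Obj g lam f omJ o ∧ Std g o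

end Pool.Agent.MSTS
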