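import Pool.Agent.MSTS.Link
import Pool.Agent.MSTS.Obj
import Pool.Agent.MSTS.PathS

/-!
# (S): existence of the objects, part A: the joint and the link

`Pre`: the facts about the witnesses, the cuts and the tree configuration (independent of the joints,
turns and of the link).  `joint_ex`: the joint of the first end.  `link_ex`: the link.
-/

set_option autoImplicit false

namespace Pool.Agent.MSTS

open Pool.Agent.TriPerc Pool.Agent.MST Pool.Agent.MSTG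

variable {g : Geo} {lam : V → ℝ} {f : Lab} {omJ : ℝ} {o : ObjD} {m : ℕ → ℤ} {om : ℕ → ℝ} {k : ℕ}
  {x y p q : V} {kk : Fin 6}

theorem low_op (h : ∀ u, 0 ≤ lam u) : Low lam f ⊆ Op 0 f := by
  intro u hu
  have h1 : f u ≤ - lam u := hu
  have h2 := h u
  change f u ≤ 0
  linarith

theorem op_upp (h : ∀ u, 0 ≤ lam u) : Op 0 f ⊆ Upp lam f := by
  intro u hu
  have h1 : f u ≤ 0 := hu
  have h2 := h u
  change f u ≤ - lam u ∨ f u < 2 * lam u
  by_cases h3 : f u ≤ - lam u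
  · exact Or.inl h3
  · right
    push Not at h3
    linarith

/-- All relations between the radii. -/
theorem GeoOK.all (G : GeoOK g m k) : 1 ≤ g.r ∧ 2 * g.r ≤ g.md ∧ 64 ≤ g.md ∧ 4 * g.md ≤ g.p1 ∧
    g.p1 < g.a5 ∧ 16 * (g.a5 + 1) ≤ 15 * g.m5 ∧ 17 * g.m5 ≤ 8 * (g.b5 - 1) ∧ g.b5 < g.p2 ∧
    2 * g.p2 ≤ g.m1 ∧ 4 * g.m1 ≤ g.j1 ∧ g.j1 < g.a2 ∧ 16 * (g.a2 + 1) ≤ 15 * g.m2 ∧
    17 * g.m2 ≤ 8 * (g.b2 - 1) ∧ g.b2 < g.j2 ∧ 2 * g.j2 ≤ g.m0 ∧ 4 * g.m0 ≤ g.mn ∧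
    2 * g.mn ≤ g.rho ∧ g.rho ≤ g.n1 ∧ g.n1 < g.n2 ∧ 4 * g.n2 ≤ g.mb ∧ 10 * g.mb ≤ g.mM ∧
    2 * g.mM + 1 ≤ g.cM ∧ 2 * g.cM ≤ g.c ∧ 2 * g.c ≤ g.mL ∧ 4 * g.mL ≤ g.R :=
  ⟨G.r1, G.md, G.md0, G.p1, G.a5, G.m5, G.b5, G.p2, G.m1, G.j1, G.a2, G.m2, G.b2, G.j2, G.m0, G.mn,
    G.rho, G.n1, G.n2, G.mb, G.mM, G.cM, G.c, G.mL, G.R⟩

/-- The facts about the witnesses, the cuts and the tree configuration. -/
structure Pre (g : Geo) (lam : V → ℝ) (f : Lab) (omJ : ℝ) (o : ObjD) : Prop where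
  lo : Low lam f ⊆ Op 0 f
  up : Op 0 f ⊆ Upp lam f
  wit : Wit f g.r g.R o.z o.T o.n
  cut : CutH f (Low lam f) g.r g.R g.mM g.cM g.c o.Tc
  arm : ∀ k, Arm1 f g.r g.R g.mM o.Tc (o.z k) (o.T k) (o.n k) (o.l k) (o.D k) (o.b k)
  four : Four4 g.r g.R (o.B o.e.i0) (o.B o.e.ia) (o.B o.e'.i0) (o.B o.e'.ia) (o.b o.e.i0)
    (o.b o.e.ia) (o.b o.e'.i0) (o.b o.e'.ia) (o.rh o.e.i0) (o.rh o.e.ia) (o.rh o.e'.i0)
    (o.rh o.e'.ia)
  gab : grp o.e.ia = grp o.e.ib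
  gab' : grp o.e'.ia = grp o.e'.ib
  nab : o.e.ia ≠ o.e.ib
  nab' : o.e'.ia ≠ o.e'.ib
  g0a : grp o.e.i0 ≠ grp o.e.ia
  g0a' : grp o.e'.i0 ≠ grp o.e'.ia
  g03 : grp o.e.i0 ≠ grp o.e'.i0
  g0d : grp o.e.i0 ≠ grp o.e'.ia
  ga3 : grp o.e.ia ≠ grp o.e'.i0
  gad : grp o.e.ia ≠ grp o.e'.ia
  sepb : SepC g.r (o.rh o.e.i0) (o.rh o.e.ib) (o.rh o.e.ia) (o.rh o.e'.i0)
  sepb' : SepC g.r (o.rh o.e'.i0) (o.rh o.e'.ib) (o.rh o.e'.ia) (o.rh o.e.i0)
  sep4 : SepC g.r (o.rh o.e.i0) (o.rh o.e'.i0) (o.rh o.e.ib) (o.rh o.e'.ia)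
  sep4' : SepC g.r (o.rh o.e'.i0) (o.rh o.e.i0) (o.rh o.e'.ib) (o.rh o.e.ia)
  sc : o.Tc ⊆ ((Op 0 f ∩ Ann 0 g.r g.R) \ Low lam f) ∩ Ann 0 g.mM (2 * g.mM)
  s0 : o.T0 ⊆ ((o.X g f ∪ o.X' g f) \ Low lam f) ∩ Ann 0 g.m0 (2 * g.m0)
  s1 : o.T1 ⊆ ((o.X g f ∪ o.X' g f) \ Low lam f) ∩ Ann 0 g.m1 (2 * g.m1)
  sd : o.Td ⊆ (Op 0 f \ Low lam f) ∩ Ann 0 g.md (2 * g.md)
  asc : o.Rs ⊆ As (Low lam f) (Upp lam f)
  c0 : ¬ Arm ((o.X g f ∪ o.X' g f) \ o.T0) 0 (g.m0 / 2) (3 * g.m0)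
  c1 : ¬ Arm ((o.X g f ∪ o.X' g f) \ o.T1) 0 (g.m1 / 2) (3 * g.m1)
  cd : ¬ Arm (o.P f) 0 (g.md / 2) (3 * g.md)
  noc : ∀ k k' x y, grp k ≠ grp k' → x ∈ Cl f g.r g.R o.z k → y ∈ Cl f g.r g.R o.z k' →
    ¬ Conn (Op 0 f ∩ Ann 0 g.r g.R) x y
  gl : Raise f o.gl o.Tc o.vb o.vd

theorem Pre.flip (h : Pre g lam f omJ o) : Pre g lam f omJ o.flip where
  lo := h.lo
  up := h.up
  wit := h.wit
  cut := h.cut
  arm := h.arm
  four := h.four.rot2
  gab := h.gab'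
  gab' := h.gab
  nab := h.nab'
  nab' := h.nab
  g0a := h.g0a'
  g0a' := h.g0a
  g03 := h.g03.symm
  g0d := h.ga3.symm
  ga3 := h.g0d.symm
  gad := h.gad.symm
  sepb := h.sepb'
  sepb' := h.sepb
  sep4 := h.sep4'
  sep4' := h.sep4
  sc := h.sc
  s0 := by
    have := h.s0
    rwa [Set.union_comm] at this
  s1 := by
    have := h.s1
    rwa [Set.union_comm] at this
  sd := h.sd
  asc := by
    rw [flip_rs]
    exact h.asc
  c0 := by
    have := h.c0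
    rwa [Set.union_comm] at this
  c1 := by
    have := h.c1
    rwa [Set.union_comm] at this
  cd := by
    rw [flip_p]
    exact h.cd
  noc := h.noc
  gl := ⟨h.gl.inj, fun v hv => h.gl.eq v (hv.imp_right Or.symm), fun v hv h1 h2 =>
    h.gl.pos v hv h2 h1⟩

section

variable (G : GeoOK g m k) (h : Pre g lam f omJ o)

include h

theorem Pre.bcl : o.B kk ⊆ Cl f g.r g.R o.z kk := fun _ hv => bs_sub h.wit h.arm hv

theorem Pre.bA : o.B kk ⊆ Op 0 f ∩ Ann 0 g.r g.R := fun _ hv => (bs_sub h.wit h.arm hv).right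

theorem Pre.rs_low {v : V} (hv : v ∈ Low lam f) : v ∉ o.Rs := fun h' => (h.asc h').2.1 hv

/-- Two clusters of different groups are disjoint. -/
theorem Pre.cl_dj {k1 k2 : Fin 6} (hk : grp k1 ≠ grp k2) :
    Disjoint (Cl f g.r g.R o.z k1) (Cl f g.r g.R o.z k2) := by
  rw [Set.disjoint_left]
  intro v hv hv'
  exact h.noc k1 k2 v v hk hv hv' (Conn.refl (comp_subset hv))

theorem Pre.tA {i : ℕ} (hi : i ≤ o.n kk) : o.T kk i ∈ Op 0 f ∩ Ann 0 g.r g.R := h.wit.op kk i hi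

theorem Pre.tadj {i : ℕ} (hi : i < o.n kk) : Adj (o.T kk i) (o.T kk (i + 1)) :=
  ((h.wit.root kk).path.step i hi).1

theorem Pre.tcl {i : ℕ} (hi : i ≤ o.n kk) : o.T kk i ∈ Cl f g.r g.R o.z kk := by
  have h1 : Conn (Op 0 f ∩ Ann 0 g.r g.R) (o.T kk 0) (o.T kk i) :=
    conn_seg (Nat.zero_le i) (fun q _ hq => h.tadj (by omega)) fun q _ hq => h.tA (by omega)
  rw [(h.wit.root kk).start] at h1
  exact h1

theorem Pre.tlt {i : ℕ} (h1 : o.l kk < i) (h2 : i ≤ o.n kk) : nrm (o.T kk i) < g.c :=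
  h.cut.inn_lt ((h.arm kk).inn i h1 h2)

include G

/-- A vertex off all zones of the cuts is not raised. -/
theorem Pre.off {v : V} (h1 : 2 * g.m0 < nrm v) (h2 : nrm v < g.mM) : v ∉ o.Rs := by
  have hG := G.all
  rintro (((hv | hv) | hv) | hv)
  · have := mem_ann0.1 (h.sc hv.1).2
    omega
  · have := mem_ann0.1 (h.s0 hv).2
    omega
  · have := mem_ann0.1 (h.s1 hv).2
    omega
  · have := mem_ann0.1 (h.sd hv).2
    omega

theorem Pre.off' {v : V} (h1 : 2 * g.mM < nrm v) : v ∉ o.Rs := by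
  have hG := G.all
  rintro (((hv | hv) | hv) | hv)
  · have := mem_ann0.1 (h.sc hv.1).2
    omega
  · have := mem_ann0.1 (h.s0 hv).2
    omega
  · have := mem_ann0.1 (h.s1 hv).2
    omega
  · have := mem_ann0.1 (h.sd hv).2
    omega

/-- A vertex of the root paths after the cut, off the inner zones. -/
theorem Pre.tP1 {i : ℕ} (h1 : o.l kk < i) (h2 : i ≤ o.n kk) (h0 : o.T kk i ∉ o.T0)
    (h1' : o.T kk i ∉ o.T1) (hd : 2 * g.md < nrm (o.T kk i)) : o.T kk i ∈ o.P1 g f := by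
  refine ⟨⟨(h.tA h2).1, ?_⟩, mem_ball0.2 (by have := h.tlt h1 h2; omega)⟩
  rintro (((hv | hv) | hv) | hv)
  · exact (h.arm kk).after i h1 h2 hv.1
  · exact h0 hv
  · exact h1' hv
  · have := mem_ann0.1 (h.sd hv).2
    omega

/-- The component of a vertex beyond the zone `md` is beyond `md / 2`. -/
theorem Pre.p1_far (hc : Conn (o.P1 g f) p y) (hp : 3 * g.md ≤ nrm p) : g.md < 2 * nrm y := by
  have hG := G.all
  by_contra hy
  push Not at hy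
  exact h.cd (arm_of_conn (z := 0) (hc.symm.mono fun v hv => hv.1) (by rw [sub_zero]; omega)
    (by rwa [sub_zero]) (by omega))

theorem Pre.p1_in (hc : Conn (o.P1 g f) p y) (hp : 3 * g.md ≤ nrm p) :
    Conn (Op 0 f ∩ Ann 0 g.r g.R) p y := by
  have hG := G.all
  refine hc.in_comp.mono fun w hw => ?_
  have h1 := h.p1_far G (Conn.trans (Conn.refl hc.left) hw) hp
  have h2 := mem_ball0.1 (comp_subset hw).2
  exact ⟨(comp_subset hw).1.1, mem_ann0.2 ⟨by omega, by omega⟩⟩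

/-- A foot of the joint is on the root path after the cut, and it is joined to the inside. -/
theorem Pre.foot (hp : p ∈ o.B kk) (np : g.mb - 1 ≤ nrm p) (np' : nrm p ≤ 2 * g.mb + 1) :
    ∃ i, o.l kk < i ∧ i ≤ o.n kk ∧ o.T kk i = p ∧ ∃ x, 2 * nrm x ≤ g.mb ∧
      Conn (o.P1 g f) p x := by
  have hG := G.all
  rcases hp with ⟨i, hi, hi', rfl⟩ | hp
  · have hl : o.l kk < i := by
      rcases Nat.eq_or_lt_of_le hi with e | e
      · have h1 := mem_ann0.1 (h.sc (h.arm kk).mem).2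
        rw [e] at h1
        omega
      · exact e
    have hlast : nrm (o.T kk (o.n kk)) = g.r := (h.wit.root kk).last
    have hst : ∀ j, i ≤ j → j < o.n kk → nrm (o.T kk j) - 1 ≤ nrm (o.T kk (j + 1)) := by
      intro j _ j2
      have := abs_le.1 (nrm_adj (h.tadj (kk := kk) j2) 0)
      rw [sub_zero, sub_zero] at this
      omega
    obtain ⟨j, j1, j2, j3, j4⟩ := hit_down_first (fun j => nrm (o.T kk j)) (n := g.mb / 2) hi' hst
      (by change g.mb / 2 ≤ nrm (o.T kk i); omega)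
      (by change nrm (o.T kk (o.n kk)) ≤ g.mb / 2; omega)
    have j3' : nrm (o.T kk j) = g.mb / 2 := j3
    refine ⟨i, hl, hi', rfl, o.T kk j, by omega, ?_⟩
    refine conn_seg j1 (fun q _ hq => h.tadj (by omega)) fun q q1 q2 => ?_
    have hq : g.mb / 2 ≤ nrm (o.T kk q) := by
      rcases Nat.eq_or_lt_of_le q2 with e | e
      · rw [e, j3']
      · exact (j4 q q1 e).le
    refine h.tP1 G (by omega) (by omega) (fun hv => ?_) (fun hv => ?_) (by omega)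
    · have := mem_ann0.1 (h.s0 hv).2
      omega
    · have := mem_ann0.1 (h.s1 hv).2
      omega
  · have := (h.arm kk).dm p hp
    omega

theorem Pre.jin (S : SGood g lam f omJ m om k) {k1 k2 : Fin 6} (hk : grp k1 ≠ grp k2) :
    JointIn (Low lam f) (Upp lam f) (o.P1 g f) g.r g.R (g.mb / 2) g.mb (3 * g.mb) (o.B k1)
      (o.B k2) := by
  have hG := G.all
  refine ⟨h.lo.trans h.up, fun v hv => h.up hv.1.1, by omega, by omega, by omega, by omega,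
    by omega, ?_, S.ub, ?_, ?_, ?_⟩
  · rintro v ⟨hv, hv'⟩
    have := mem_ann0.1 hv'
    exact ⟨⟨h.lo hv, h.rs_low hv⟩, mem_ball0.2 (by omega)⟩
  · intro p hp n1 n2
    obtain ⟨-, -, -, -, hx⟩ := h.foot G hp n1 n2
    exact hx
  · intro p hp n1 n2
    obtain ⟨-, -, -, -, hx⟩ := h.foot G hp n1 n2
    exact hx
  · intro p hp q hq np hc
    exact h.noc k1 k2 p q hk (h.bcl hp) (h.bcl hq) (h.p1_in G hc (by omega))

end

/-- The joint. -/
structure JF (g : Geo) (lam : V → ℝ) (f : Lab) (o : ObjD) (x p q u x0 t : V)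
    (kb U : Set V) : Prop where
  nx : nrm x = g.R
  xB : x ∉ o.B o.e.i0 ∪ o.B o.e.ia
  hx : SepC g.R (o.b o.e.i0) (o.b o.e.ia) x (o.b o.e'.i0)
  hx' : SepC g.R (o.b o.e.i0) (o.b o.e.ia) x (o.b o.e'.ia)
  kc : IsConn kb
  kS : kb ⊆ Upp lam f ∩ Ann 0 g.mb (2 * g.mb) ∩
    Crd g.r g.R (o.B o.e.i0) (o.B o.e.ia) x
  kq : ∃ w ∈ kb, Adj q w
  Uk : insert u U ⊆ kb
  uU : u ∉ U
  Uf : ∀ v ∈ insert u U, 0 < f v
  Uas : insert u U ⊆ As (Low lam f) (Upp lam f)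
  US : insert u U ⊆ Sig g.r g.R (o.B o.e.i0) (o.B o.e'.i0) (o.b o.e.ia)
  pT : ∃ i, o.l o.e.i0 < i ∧ i ≤ o.n o.e.i0 ∧ o.T o.e.i0 i = p
  qT : ∃ i, o.l o.e.ia < i ∧ i ≤ o.n o.e.ia ∧ o.T o.e.ia i = q
  np : g.mb - 1 ≤ nrm p
  np' : nrm p ≤ 2 * g.mb + 1
  nq : g.mb - 1 ≤ nrm q
  nq' : nrm q ≤ 2 * g.mb + 1
  pq : ¬ Conn (o.P1 g f ∪ U) p q
  pU : ∀ y, Conn (o.P1 g f ∪ U) p y → Conn (o.P1 g f) p y
  ut : Adj u t
  pt : Conn (o.P1 g f) p t
  Uno : ∀ v ∈ U, ∀ t, Adj v t → ¬ Conn (o.P1 g f) p t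
  uq : Conn ((o.P1 g f ∪ insert u U) \ comp (o.P1 g f) p) u q
  uv : ∀ v ∈ U, Conn ((o.P1 g f ∪ insert u U) \ comp (o.P1 g f) p) u v
  px : Conn (o.P1 g f) p x0
  nx0 : nrm x0 ≤ 2 * g.m0 + 1
  low : ∀ y, Conn (o.P1 g f) p y → g.m0 < 2 * nrm y
  G0X : ∀ y, Conn (o.P1 g f) p y → y ∈ o.X g f
  G0I : ∀ y, Conn (o.P1 g f) p y → y ∈ Inn f g.r g.R g.mM o.Tc
  c2 : ∀ v ∈ insert u U, ∀ y, Adj v y → o.gl y ≤ 0 →
    (∃ w ∈ Cir g.r, Conn (Op 0 o.gl ∩ Ann 0 g.r g.R) y w) →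
    ¬ Rt (Ann 0 g.r g.R) (Cir g.r) o.gl y (o.rh o.e.ib)

/-- **Section 2** for the first end. -/
theorem joint_ex (G : GeoOK g m k) (S : SGood g lam f omJ m om k) (h : Pre g lam f omJ o) :
    ∃ (x p q u x0 t : V) (kb U : Set V), JF g lam f o x p q u x0 t kb U := by
  have hG := G.all
  have h4 := h.four
  have hno : ¬ Conn (o.B o.e.i0 ∪ o.B o.e.ia) (o.b o.e.i0) (o.b o.e.ia) := fun hc =>
    h.noc _ _ _ _ h.g0a (h.bcl h4.out.m0) (h.bcl h4.out.m1)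
      (hc.mono (Set.union_subset h.bA h.bA))
  obtain ⟨x, x', nx, nx', cx, hx, hx'⟩ := h4.crd hno
  obtain ⟨kb, U, p, q, u, kc, kS, kq, Uk, uU, UP, Uas, hp, hq, np, np', nq, nq', pq, pU,
    ⟨t, ut, pt⟩, Uno, uq, uv⟩ := joint h4 (h.jin G S h.g0a) hno nx nx' cx
  obtain ⟨i, hli, hin, rfl, -⟩ := h.foot G hp np np'
  obtain ⟨i', hli', hin', hq', -⟩ := h.foot G hq nq nq'
  have hzone : ∀ v ∈ insert u U, g.mb ≤ nrm v ∧ nrm v ≤ 2 * g.mb := fun v hv =>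
    mem_ann0.1 (kS (Uk hv)).1.2
  -- the labels of the joint
  have hUf : ∀ v ∈ insert u U, 0 < f v := by
    intro v hv
    by_contra hfv
    have hfv' : v ∈ Op 0 f := not_lt.1 hfv
    have h1 := hzone v hv
    exact Set.disjoint_left.1 UP hv
      ⟨⟨hfv', h.off G (by omega) (by omega)⟩, mem_ball0.2 (by omega)⟩
  -- the component of the foot
  have hX : ∀ y, Conn (o.P1 g f) (o.T o.e.i0 i) y → y ∈ o.X g f := fun y hy =>
    Conn.trans (h.tcl hin) (h.p1_in G hy (by omega))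
  have hlow : ∀ y, Conn (o.P1 g f) (o.T o.e.i0 i) y → g.m0 < 2 * nrm y := by
    intro y hy
    by_contra hc
    push Not at hc
    refine h.c0 (arm_of_conn (z := 0) (hy.in_comp.symm.mono fun w hw => ⟨Or.inl (hX w hw), ?_⟩)
      (by rw [sub_zero]; omega) (by rw [sub_zero]; omega) (by omega))
    exact fun hw' => (comp_subset hw).1.2 (Or.inl (Or.inl (Or.inr hw')))
  -- the start of the chain
  have hlast : nrm (o.T o.e.i0 (o.n o.e.i0)) = g.r := (h.wit.root o.e.i0).last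
  obtain ⟨j, j1, j2, j3, j4⟩ : ∃ j, i ≤ j ∧ j ≤ o.n o.e.i0 ∧ o.T o.e.i0 j ∈ o.T0 ∧
      ∀ q, i ≤ q → q < j → o.T o.e.i0 q ∉ o.T0 := by
    by_contra hc
    have hc' : ∀ q, i ≤ q → q ≤ o.n o.e.i0 → o.T o.e.i0 q ∉ o.T0 := by
      intro q q1 q2 q3
      obtain ⟨s, s1, s2, s3, s4⟩ := first_time (Q := fun q => o.T o.e.i0 q ∈ o.T0) q1 q3
      exact hc ⟨s, s1, by omega, s3, s4⟩
    have h1 : Conn ((o.X g f ∪ o.X' g f) \ o.T0) (o.T o.e.i0 i) (o.T o.e.i0 (o.n o.e.i0)) :=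
      conn_seg hin (fun q _ q2 => h.tadj (by omega)) fun q q1 q2 =>
        ⟨Or.inl (h.tcl q2), hc' q q1 q2⟩
    exact h.c0 (arm_of_conn (z := 0) h1.symm (by rw [sub_zero]; omega)
      (by rw [sub_zero]; omega) (by omega))
  have hji : i < j := by
    rcases Nat.eq_or_lt_of_le j1 with e | e
    · rw [← e] at j3
      have := mem_ann0.1 (h.s0 j3).2
      omega
    · exact e
  have hpath : ∀ q, i ≤ q → q < j → o.T o.e.i0 q ∈ o.P1 g f := by
    intro q q1 q2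
    have hn : g.m0 < 2 * nrm (o.T o.e.i0 q) := by
      by_contra hc
      push Not at hc
      have h1 : Conn ((o.X g f ∪ o.X' g f) \ o.T0) (o.T o.e.i0 i) (o.T o.e.i0 q) :=
        conn_seg q1 (fun s _ s2 => h.tadj (by omega)) fun s s1 s2 =>
          ⟨Or.inl (h.tcl (by omega)), j4 s s1 (by omega)⟩
      exact h.c0 (arm_of_conn (z := 0) h1.symm (by rw [sub_zero]; omega)
        (by rw [sub_zero]; omega) (by omega))
    refine h.tP1 G (by omega) (by omega) (j4 q q1 q2) (fun hv => ?_) (by omega)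
    have := mem_ann0.1 (h.s1 hv).2
    omega
  have hnx0 : nrm (o.T o.e.i0 (j - 1)) ≤ 2 * g.m0 + 1 := by
    have h1 := mem_ann0.1 (h.s0 j3).2
    have h2 := abs_le.1 (nrm_adj (h.tadj (kk := o.e.i0) (i := j - 1) (by omega)) 0)
    rw [sub_zero, sub_zero, show j - 1 + 1 = j by omega] at h2
    omega
  refine ⟨x, o.T o.e.i0 i, q, u, o.T o.e.i0 (j - 1), t, kb, U, ?_⟩
  refine
    { nx := nx
      xB := cx.left.2
      hx := hx
      hx' := hx'
      kc := kc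
      kS := kS
      kq := kq
      Uk := Uk
      uU := uU
      Uf := hUf
      Uas := Uas
      US := Uk.trans (h4.sig_joint nx hx hx' kc (fun v hv => (kS hv).2) hq kq)
      pT := ⟨i, hli, hin, rfl⟩
      qT := ⟨i', hli', hin', hq'⟩
      np := np
      np' := np'
      nq := nq
      nq' := nq'
      pq := pq
      pU := pU
      ut := ut
      pt := pt
      Uno := Uno
      uq := uq
      uv := uv
      px := conn_seg (by omega) (fun q _ q2 => h.tadj (by omega)) fun q q1 q2 =>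
        hpath q q1 (by omega)
      nx0 := hnx0
      low := hlow
      G0X := hX
      G0I := ?_
      c2 := ?_ }
  · intro y hy
    refine closed_conn (S := Inn f g.r g.R g.mM o.Tc)
      (T := comp (o.P1 g f) (o.T o.e.i0 i)) (fun w hw w' hw' hww => inn_adj hw ?_ hww)
      ((h.arm o.e.i0).inn i hli hin) hy.in_comp
    have h1 : w' ∈ Op 0 f ∩ Ann 0 g.r g.R := comp_subset (hX w' hw')
    refine ⟨h1, fun hT => (comp_subset hw').1.2 (Or.inl (Or.inl (Or.inl ⟨hT, ?_⟩)))⟩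
    rintro (e | e)
    · refine Set.disjoint_left.1 (h.cl_dj (k1 := o.e.i0) (k2 := o.e.ib) ?_) (hX w' hw') ?_
      · rw [← h.gab]
        exact h.g0a
      · rw [e]
        exact h.tcl (h.arm o.e.ib).ln.le
    · have e' : w' = o.vd := e
      refine Set.disjoint_left.1 (h.cl_dj (k1 := o.e.i0) (k2 := o.e'.ib) ?_) (hX w' hw') ?_
      · rw [← h.gab']
        exact h.g0d
      · rw [e']
        exact h.tcl (h.arm o.e'.ib).ln.le
  · rintro v hv y hvy hgy ⟨w, hw, cw⟩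
    have h1 := hzone v hv
    have h2 := nrm_adj0 hvy
    have hyA := cw.left.2
    have hyT : y ∉ o.Tc := fun hT => by
      have := mem_ann0.1 (h.sc hT).2
      omega
    have hyf : y ∈ Op 0 f := by
      change f y ≤ 0
      rw [← h.gl.eq y (Or.inl hyT)]
      exact hgy
    have hyI : y ∈ Inn f g.r g.R g.mM o.Tc :=
      ⟨y, by omega, Conn.refl ⟨⟨hyf, hyA⟩, hyT⟩⟩
    refine c2_root h.wit h.cut h.arm (i0 := o.e.i0) (ia := o.e.ia) (ib := o.e.ib)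
      (i3 := o.e'.i0) (ic := o.e'.ia) (id := o.e'.ib) h4 ?_ ?_ ?_ h.nab ?_ nx hx h.sepb h.gl hyI
      (corr_nb (kS (Uk hv)).2 hyA hvy) hw cw
    · rw [← h.gab]
      exact h.g0a
    · rw [← h.gab']
      exact h.g0d
    · rw [← h.gab']
      exact h.gad
    · rw [← h.gab, ← h.gab']
      exact h.gad

/-- **Section 3**. -/
theorem link_ex (G : GeoOK g m k) (S : SGood g lam f omJ m om k) (h : Pre g lam f omJ o) :
    ∃ W : Set V, W ⊆ Upp lam f ∩ Ann 0 g.mL (2 * g.mL) ∧ (∀ v ∈ W, 0 < f v) ∧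
      W ⊆ As (Low lam f) (Upp lam f) ∧ Conn ((o.P f ∩ Ann 0 g.r g.R) ∪ W) o.vb o.vd := by
  have hG := G.all
  have hvn : ∀ kk, g.mM ≤ nrm (o.T kk (o.l kk)) ∧ nrm (o.T kk (o.l kk)) ≤ 2 * g.mM := fun kk =>
    mem_ann0.1 (h.sc (h.arm kk).mem).2
  have hvP : ∀ kk, o.T kk (o.l kk) ∈ ({o.vb, o.vd} : Set V) →
      o.T kk (o.l kk) ∈ o.P f ∩ Ann 0 g.r g.R := by
    intro kk hv
    refine ⟨⟨(h.tA (h.arm kk).ln.le).1, ?_⟩, (h.tA (h.arm kk).ln.le).2⟩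
    have h1 := hvn kk
    rintro (((h' | h') | h') | h')
    · exact h'.2 hv
    · have := mem_ann0.1 (h.s0 h').2
      omega
    · have := mem_ann0.1 (h.s1 h').2
      omega
    · have := mem_ann0.1 (h.sd h').2
      omega
  have hDP : ∀ kk, o.D kk ⊆ o.P f ∩ Ann 0 g.r g.R := by
    intro kk v hv
    have h1 := (h.arm kk).dP hv
    have h2 := (h.arm kk).dm v hv
    refine ⟨⟨h1.1.1, ?_⟩, h1.1.2⟩
    rintro (((h' | h') | h') | h')
    · exact h1.2 h'.1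
    · have := mem_ann0.1 (h.s0 h').2
      omega
    · have := mem_ann0.1 (h.s1 h').2
      omega
    · have := mem_ann0.1 (h.sd h').2
      omega
  have hDc : ∀ kk, IsConn (insert (o.T kk (o.l kk)) (o.D kk)) := by
    intro kk
    obtain ⟨q, hq, hqa⟩ := (h.arm kk).dq
    have h1 : ∀ y ∈ insert (o.T kk (o.l kk)) (o.D kk),
        Conn (insert (o.T kk (o.l kk)) (o.D kk)) q y := by
      rintro y (rfl | hy)
      · exact Conn.of_adj (Or.inr hq) (Or.inl rfl) hqa.symm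
      · exact ((h.arm kk).dc q hq y hy).mono fun v hv => Or.inr hv
    exact fun a ha b hb => (h1 a ha).symm.trans (h1 b hb)
  have hLI : LinkIn (Low lam f) (Upp lam f) (o.P f ∩ Ann 0 g.r g.R) g.mL (g.mL / 2) (3 * g.mL)
      (insert o.vb (o.D o.e.ib)) (insert o.vd (o.D o.e'.ib)) o.vb o.vd :=
    { lu := h.lo.trans h.up
      pu := fun v hv => h.up hv.1.1
      m48 := by omega
      am := by omega
      mb := by omega
      lp := by
        rintro v ⟨hv, hv'⟩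
        have := mem_ann0.1 hv'
        exact ⟨⟨h.lo hv, h.rs_low hv⟩, mem_ann0.2 ⟨by omega, by omega⟩⟩
      block := S.uL
      dP := by
        rintro v (rfl | hv)
        · exact hvP o.e.ib (Or.inl rfl)
        · exact hDP _ hv
      dP' := by
        rintro v (rfl | hv)
        · exact hvP o.e'.ib (Or.inr rfl)
        · exact hDP _ hv
      dc := hDc o.e.ib
      dc' := hDc o.e'.ib
      dm := Or.inl rfl
      dm' := Or.inl rfl
      dn := by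
        have := (hvn o.e.ib).2
        change 2 * nrm (o.T o.e.ib (o.l o.e.ib)) ≤ g.mL
        omega
      dn' := by
        have := (hvn o.e'.ib).2
        change 2 * nrm (o.T o.e'.ib (o.l o.e'.ib)) ≤ g.mL
        omega
      far := ⟨o.b o.e.ib, Or.inr (h.arm o.e.ib).db, by rw [(h.arm o.e.ib).nb]; omega⟩
      far' := ⟨o.b o.e'.ib, Or.inr (h.arm o.e'.ib).db, by rw [(h.arm o.e'.ib).nb]; omega⟩
      no := fun hc => h.noc o.e.ib o.e'.ib _ _ (by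
          rw [← h.gab, ← h.gab']
          exact h.gad) (h.tcl (h.arm o.e.ib).ln.le) (h.tcl (h.arm o.e'.ib).ln.le)
          (hc.mono fun v hv => ⟨hv.1.1, hv.2⟩) }
  obtain ⟨W, hW1, hW2, hW3, -, hW5⟩ := link hLI
  refine ⟨W, hW1, fun v hv => ?_, hW5, hW3⟩
  by_contra hfv
  have hfv' : v ∈ Op 0 f := not_lt.1 hfv
  have h1 := mem_ann0.1 (hW1 hv).2
  exact Set.disjoint_left.1 hW2 hv
    ⟨⟨hfv', h.off' G (by omega)⟩, mem_ann0.2 ⟨by omega, by omega⟩⟩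

end Pool.Agent.MSTS
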