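import Pool.Agent.MSTS.ObjT

/-!
# (S): existence of the objects, part C: the symmetric facts

`com_of`: the facts `Com` from `Pre`, the joints, the turns and the link.
-/

set_option autoImplicit false

namespace Pool.Agent.MSTS

open Pool.Agent.TriPerc Pool.Agent.MST Pool.Agent.MSTG

variable {g : Geo} {lam : V → ℝ} {f : Lab} {omJ : ℝ} {o : ObjD} {m : ℕ → ℤ} {om : ℕ → ℝ} {k : ℕ}

/-- The components of `X ∪ X'` do not touch the joints and the turns. -/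
theorem suk_of {UJ KJ UJ' KJ' U1 U1' E : Set V} (G : GeoOK g m k) (h : Pre g lam f omJ o)
    (hT : TF g lam f omJ o UJ KJ) (hT' : TF g lam f omJ o.flip UJ' KJ')
    (hU : ∀ v ∈ U1, g.mb ≤ nrm v) (hU' : ∀ v ∈ U1', g.mb ≤ nrm v) (hE : IsConn E)
    (hEX : E ⊆ (o.X g f ∪ o.X' g f) ∩ o.P f) (h1 : Touch E (U1 ∪ U1'))
    (h2 : Touch E (KJ ∪ KJ')) : False := by
  have hG := G.all
  have a1 := hT.ja
  have a2 := hT.bj
  have a3 := hT.j2
  have b2 := hT'.bj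
  have b3 := hT'.j2
  refine no_touch (s := g.m0 / 2) (t := 3 * g.m0) (by omega) h.c0 (fun v hv => ⟨(hEX hv).1, ?_⟩)
    hE ?_ ?_ h1 h2
  · exact fun hv' => (hEX hv).2.2 (Or.inl (Or.inl (Or.inr hv')))
  · rintro v (hv | hv)
    · have := hU v hv
      omega
    · have := hU' v hv
      omega
  · rintro v (hv | hv)
    · have := mem_ann0.1 (hT.KA hv)
      omega
    · have := mem_ann0.1 (hT'.KA hv)
      omega

/-- The components of `X ∪ X'` do not touch both turns. -/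
theorem skk_of {UJ KJ UJ' KJ' E : Set V} (G : GeoOK g m k) (h : Pre g lam f omJ o)
    (hs : Std g o) (hT : TF g lam f omJ o UJ KJ) (hT' : TF g lam f omJ o.flip UJ' KJ')
    (hE : IsConn E) (hEX : E ⊆ (o.X g f ∪ o.X' g f) ∩ o.P f) (h1 : Touch E KJ)
    (h2 : Touch E KJ') : False := by
  have hG := G.all
  have e2 := hs.a
  have e3 : o.flip.e.bb = g.b5 := hs.bb'
  refine no_touch (s := g.m1 / 2) (t := 3 * g.m1) (by omega) h.c1 (fun v hv => ⟨(hEX hv).1, ?_⟩)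
    hE ?_ ?_ h1 h2
  · exact fun hv' => (hEX hv).2.2 (Or.inl (Or.inr hv'))
  · intro v hv
    have := mem_ann0.1 (hT.KA hv)
    omega
  · intro v hv
    have := mem_ann0.1 (hT'.KA hv)
    omega

/-- The symmetric facts. -/
theorem com_of {x p q u x0 t x' p' q' u' x0' t' : V} {kb U kb' U' UJ KJ UJ' KJ' W : Set V}
    (G : GeoOK g m k) (h : Pre g lam f omJ o) (hs : Std g o)
    (hJ : JF g lam f o x p q u x0 t kb U) (hJ' : JF g lam f o.flip x' p' q' u' x0' t' kb' U')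
    (hT : TF g lam f omJ o UJ KJ) (hT' : TF g lam f omJ o.flip UJ' KJ')
    (w1 : W ⊆ Upp lam f ∩ Ann 0 g.mL (2 * g.mL)) (w2 : ∀ v ∈ W, 0 < f v)
    (w3 : W ⊆ As (Low lam f) (Upp lam f)) (w4 : Conn ((o.P f ∩ Ann 0 g.r g.R) ∪ W) o.vb o.vd)
    (hcM : ¬ Arm (o.P f \ {o.vb, o.vd}) 0 (g.mM / 2) g.c)
    (hnn : ¬ Arm {v | o.gl v < -omJ / 2} 0 g.mn (2 * g.mn))
    (hord : ∀ x0 x3 y y' : V, Cr (o.X g f ∩ Op 0 f) g.rho g.n2 x0 →
      Cr (o.X' g f ∩ Op 0 f) g.rho g.n2 x3 → Cr (o.Y g f ∩ Op 0 f) g.rho g.n2 y →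
      Cr (o.Y' g f ∩ Op 0 f) g.rho g.n2 y' → SepC g.rho y y' x0 x3) :
    Com g lam f omJ (o.upd W (o.e.upd x p q u x0 t kb U UJ KJ)
      (o.e'.upd x' p' q' u' x0' t' kb' U' UJ' KJ')) where
  wit := h.wit
  cut := h.cut
  arm := h.arm
  four := h.four
  g03 := h.g03
  g0d := h.g0d
  ga3 := h.ga3
  gad := h.gad
  sc := h.sc
  s0 := h.s0
  s1 := h.s1
  sd := h.sd
  asc := h.asc
  c0 := h.c0
  c1 := h.c1
  cd := h.cd
  cM := hcM
  WS := w1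
  Wf := w2
  Was := w3
  Wc := w4
  noc := h.noc
  sUK := fun E h1 h2 h3 h5 => suk_of G h hT hT'
    (fun v hv => (mem_ann0.1 (hJ.kS (hJ.Uk hv)).1.2).1)
    (fun v hv => (mem_ann0.1 (hJ'.kS (hJ'.Uk hv)).1.2).1) h1 h2 h3 h5
  sKK := fun E h1 h2 h3 h5 => skk_of G h hs hT hT' h1 h2 h3 h5
  gl := h.gl
  nn := hnn
  ord := hord

/-- The indices and radii do not change. -/
theorem std_upd {x p q u x0 t x' p' q' u' x0' t' : V} {kb U kb' U' UJ KJ UJ' KJ' W : Set V}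
    (hs : Std g o) : Std g (o.upd W (o.e.upd x p q u x0 t kb U UJ KJ)
      (o.e'.upd x' p' q' u' x0' t' kb' U' UJ' KJ')) where
  i0 := hs.i0
  iab := hs.iab
  i3 := hs.i3
  icd := hs.icd
  j1 := hs.j1
  a := hs.a
  bb := hs.bb
  j2 := hs.j2
  p1 := hs.p1
  a' := hs.a'
  bb' := hs.bb'
  p2 := hs.p2

/-- The objects from `Pre`. -/
theorem obj_of (G : GeoOK g m k) (S : SGood g lam f omJ m om k) (h : Pre g lam f omJ o)
    (hs : Std g o) (hcM : ¬ Arm (o.P f \ {o.vb, o.vd}) 0 (g.mM / 2) g.c)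
    (hnn : ¬ Arm {v | o.gl v < -omJ / 2} 0 g.mn (2 * g.mn))
    (hord : ∀ x0 x3 y y' : V, Cr (o.X g f ∩ Op 0 f) g.rho g.n2 x0 →
      Cr (o.X' g f ∩ Op 0 f) g.rho g.n2 x3 → Cr (o.Y g f ∩ Op 0 f) g.rho g.n2 y →
      Cr (o.Y' g f ∩ Op 0 f) g.rho g.n2 y' → SepC g.rho y y' x0 x3) :
    ∃ o : ObjD, Obj g lam f omJ o ∧ Std g o := by
  obtain ⟨x, p, q, u, x0, t, kb, U, hJ⟩ := joint_ex G S h
  obtain ⟨x', p', q', u', x0', t', kb', U', hJ'⟩ := joint_ex G S h.flip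
  obtain ⟨UJ, KJ, hT⟩ := turn_ex0 G S h hs
  obtain ⟨UJ', KJ', hT'⟩ := turn_ex3 G S h hs
  obtain ⟨W, w1, w2, w3, w4⟩ := link_ex G S h
  exact ⟨o.upd W (o.e.upd x p q u x0 t kb U UJ KJ)
    (o.e'.upd x' p' q' u' x0' t' kb' U' UJ' KJ'),
    ⟨com_of G h hs hJ hJ' hT hT' w1 w2 w3 w4 hcM hnn hord, half_of G h hJ hT,
      half_of G h.flip hJ' hT'⟩, std_upd hs⟩

end Pool.Agent.MSTS
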