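import Pool.Agent.MSTS.ObjA
import Pool.Agent.MSTS.Ord6

/-!
# (S): existence of the objects, part Q: the cut of the outer zone, the zone N2, the order (6f)
-/

set_option autoImplicit false

namespace Pool.Agent.MSTS

open Pool.Agent.TriPerc Pool.Agent.MST Pool.Agent.MSTG

variable {g : Geo} {lam : V → ℝ} {f : Lab} {omJ : ℝ} {o : ObjD} {m : ℕ → ℤ} {om : ℕ → ℝ} {k : ℕ}

theorem pre_cM (G : GeoOK g m k) (h : Pre g lam f omJ o) :
    ¬ Arm (o.P f \ {o.vb, o.vd}) 0 (g.mM / 2) g.c := by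
  have hG := G.all
  rintro ⟨x, hx, y, hy, hc⟩
  have hx' : nrm (x - 0) ≤ g.mM / 2 := hx
  have hy' : g.c ≤ nrm (y - 0) := hy
  rw [sub_zero] at hx' hy'
  refine h.cut.cut x y (by omega) hy' (hc.mono ?_)
  rintro v ⟨⟨h1, h2⟩, h3⟩
  have h4 := mem_ann0.1 h3
  exact ⟨⟨h1.1, mem_ann0.2 ⟨by omega, by omega⟩⟩, fun h5 => h1.2 (Or.inl (Or.inl (Or.inl ⟨h5, h2⟩)))⟩

theorem pre_nn (S : SGood g lam f omJ m om k) (h : Pre g lam f omJ o) :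
    ¬ Arm {v | o.gl v < -omJ / 2} 0 g.mn (2 * g.mn) := by
  have h0 := S.J0
  rintro ⟨x, hx, y, hy, hc⟩
  refine S.nn ⟨x, hx, y, hy, hc.mono ?_⟩
  rintro v ⟨h1, h2⟩
  have h1' : o.gl v < -omJ / 2 := h1
  refine ⟨?_, h2⟩
  by_cases h3 : v ∉ o.Tc ∨ v = o.vb ∨ v = o.vd
  · rw [h.gl.eq v h3] at h1'
    exact h1'
  · push Not at h3
    have h4 := h.gl.pos v h3.1 h3.2.1 h3.2.2
    linarith

theorem cr_pts {S : Set V} {rho n2 : ℤ} {x : V} (hr : rho < n2) (hc : Cr (S ∩ Op 0 f) rho n2 x) :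
    nrm x = rho ∧ ∃ q, nrm q = n2 ∧ Conn (S ∩ Ann 0 rho n2) x q := by
  obtain ⟨nx, x', nx', c⟩ := hc
  obtain ⟨x1, y1, h1, h2, h3, h4, h5⟩ := c.exit (A := {v | nrm v < n2}) (show nrm x < n2 by omega)
    (show ¬ nrm x' < n2 by omega)
  have h1' : nrm x1 < n2 := h1
  have h2' : ¬ nrm y1 < n2 := h2
  have h6 := nrm_adj0 h3
  have h7 : rho ≤ nrm y1 := h5.left.2
  refine ⟨nx, y1, by omega, ?_⟩
  have h8 : Conn (S ∩ Ann 0 rho n2) x x1 := h4.mono (by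
    rintro v ⟨⟨⟨g1, -⟩, g2⟩, g3⟩
    have g2' : rho ≤ nrm v := g2
    have g3' : nrm v < n2 := g3
    exact ⟨g1, mem_ann0.2 ⟨g2', g3'.le⟩⟩)
  exact h8.trans (Conn.of_adj h8.right ⟨h5.left.1.1, mem_ann0.2 ⟨h7, by omega⟩⟩ h3)

theorem pre_ord (G : GeoOK g m k) (S : SGood g lam f omJ m om k) (h : Pre g lam f omJ o)
    (hs : Std g o) (x0 x3 y y' : V) (c0 : Cr (o.X g f ∩ Op 0 f) g.rho g.n2 x0)
    (c3 : Cr (o.X' g f ∩ Op 0 f) g.rho g.n2 x3) (cy : Cr (o.Y g f ∩ Op 0 f) g.rho g.n2 y)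
    (cy' : Cr (o.Y' g f ∩ Op 0 f) g.rho g.n2 y') : SepC g.rho y y' x0 x3 := by
  have hG := G.all
  obtain ⟨z', hz', hzz⟩ := efz_restr (m' := g.n1) (n' := g.n2) h.wit.inj (by omega) (by omega)
    (by omega) (by omega) h.wit.efz
  have hzz' : ∀ k, Conn (Op 0 f ∩ Ann 0 g.r g.R) (o.z k) (z' k) := fun k => (hzz k).mono (by
    rintro u ⟨hu1, hu2⟩
    have := mem_ann0.1 hu2
    exact ⟨hu1, mem_ann0.2 ⟨by omega, by omega⟩⟩)
  obtain ⟨n0, q0⟩ := cr_pts (by omega) c0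
  obtain ⟨n3, q3⟩ := cr_pts (by omega) c3
  obtain ⟨ny, qy⟩ := cr_pts (by omega) cy
  obtain ⟨ny', qy'⟩ := cr_pts (by omega) cy'
  refine ord6_pts (X0 := o.X g f) (Y := o.Y g f) (Y2 := o.Y' g f) (X3 := o.X' g f) (by omega)
    (by omega) (by omega) (by omega) (by omega) h.wit.efz hz' hzz' S.cln ?_ ?_ ?_ ?_ n0 ny ny' n3
    q0 qy qy' q3
  · intro v hv
    unfold ObjD.X at hv
    rw [hs.i0] at hv
    exact hv
  · intro v hv
    unfold ObjD.Y at hv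
    rcases hs.iab with ⟨h1, h2⟩ | ⟨h1, h2⟩
    · rw [h1, h2] at hv
      exact hv
    · rw [h1, h2] at hv
      exact hv.symm
  · intro v hv
    unfold ObjD.Y' at hv
    rcases hs.icd with ⟨h1, h2⟩ | ⟨h1, h2⟩
    · rw [h1, h2] at hv
      exact hv
    · rw [h1, h2] at hv
      exact hv.symm
  · intro v hv
    unfold ObjD.X' at hv
    rw [hs.i3] at hv
    exact hv

end Pool.Agent.MSTS
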