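import Pool.Agent.MST.CutP
import Pool.Agent.MST.JBall
import Pool.Agent.MSTS.Mx

/-!
# (S), section 1: the cuts

`zone_cut`: let `Q ⊆ Up` be such that no vertex of `Lo \ Q` near the zone is adjacent to `Q`, and
let `Lo` not cross the zone `Ann 0 m (2 m)`.  There is a set `T` of vertices of `Q \ Lo` in the
zone, `T ⊆ As Lo Up`, such that `Q \ T` contains no connection from `2 nrm ≤ m` to `c ≤ nrm`, and
every vertex of `T` has a neighbour joined in `Q \ T` to `2 nrm ≤ m` and a neighbour joined in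
`Q \ T` to `c ≤ nrm`.
-/

namespace Pool.Agent.MSTS

open Pool.Agent.TriPerc Pool.Agent.MST Pool.Agent.MSTG

variable {Lo Up Q : Set V} {m a b c : ℤ}

theorem zone_cut (h48 : 48 ≤ m) (ham : 16 * a ≤ 15 * m) (hmb : 17 * m ≤ 8 * b) (hlu : Lo ⊆ Up)
    (hQU : Q ⊆ Up) (hcl : ∀ x ∈ Q, ∀ y ∈ Lo, y ∈ Ann 0 a b → Adj x y → y ∈ Q)
    (hcr : ¬ Arm Lo 0 m (2 * m)) (hc : 3 * m ≤ c) :
    ∃ T : Set V, T ⊆ (Q \ Lo) ∩ Ann 0 m (2 * m) ∧ T ⊆ As Lo Up ∧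
      (∀ x y, 2 * nrm x ≤ m → c ≤ nrm y → ¬ Conn (Q \ T) x y) ∧
      ∀ v ∈ T, (∃ p, Adj v p ∧ ∃ x, 2 * nrm x ≤ m ∧ Conn (Q \ T) p x) ∧
        ∃ q, Adj v q ∧ ∃ y, c ≤ nrm y ∧ Conn (Q \ T) q y := by
  have hcut : ¬ Join (Q \ ((Q \ Lo) ∩ Ann 0 m (2 * m))) {v | 2 * nrm v ≤ m} {v | c ≤ nrm v} := by
    rintro ⟨x, hx, y, hy, hxy⟩
    have hx' : 2 * nrm x ≤ m := hx
    have hy' : c ≤ nrm y := hy
    have h1 := arm_of_conn (z := 0) (n := m) (m := 2 * m) hxy (by rw [sub_zero]; omega)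
      (by rw [sub_zero]; omega) (by omega)
    obtain ⟨u, hu, v, hv, h2⟩ := h1
    refine hcr ⟨u, hu, v, hv, h2.mono ?_⟩
    rintro w ⟨⟨hw1, hw2⟩, hw3⟩
    refine ⟨?_, hw3⟩
    by_contra hL
    exact hw2 ⟨⟨hw1, hL⟩, hw3⟩
  obtain ⟨-, -, T, hTC, -, hT, hmin⟩ := cut_pigeon (X := Q) (C := (Q \ Lo) ∩ Ann 0 m (2 * m))
    (A := {v | 2 * nrm v ≤ m}) (B := fun _ => {v | c ≤ nrm v})
    ((finite_ann 0 m (2 * m)).subset fun v hv => hv.2) (fun _ _ _ h => h)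
    ⟨_, subset_rfl, le_rfl, hcut⟩
  have hTA : ∀ v ∈ T, m ≤ nrm v ∧ nrm v ≤ 2 * m := fun v hv => mem_ann0.1 (hTC hv).2
  have harms : ∀ v ∈ T, (∃ p, Adj v p ∧ ∃ x, 2 * nrm x ≤ m ∧ Conn (Q \ T) p x) ∧
      ∃ q, Adj v q ∧ ∃ y, c ≤ nrm y ∧ Conn (Q \ T) q y := by
    intro v hv
    have hva := hTA v hv
    obtain ⟨-, ⟨p, hp, x, hx, cx⟩, q, hq, y, hy, cy⟩ := cut_arms
      (show v ∉ {v | 2 * nrm v ≤ m} from fun h => by
        have : 2 * nrm v ≤ m := h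
        omega)
      (show v ∉ {v | c ≤ nrm v} from fun h => by
        have : c ≤ nrm v := h
        omega) hT (hmin v hv)
    exact ⟨⟨p, hp, x, hx, cx.symm⟩, q, hq, y, hy, cy.symm⟩
  refine ⟨T, hTC, fun v hv => ?_, fun x y hx hy hxy => hT ⟨x, hx, y, hy, hxy⟩, harms⟩
  have hva := hTA v hv
  obtain ⟨⟨p, hp, x, hx, cx⟩, q, hq, y, hy, cy⟩ := harms v hv
  refine ⟨hQU (hTC hv).1.1, (hTC hv).1.2, mx_of (Z := Q \ T) (D := Ann 0 a b) (by omega)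
    (Set.sdiff_subset.trans hQU) hlu ?_ hp hq cx cy ?_ ?_ ?_ ?_⟩
  · intro w hw
    have hv' : nrm (w - v) ≤ dd v := hw
    unfold dd at hv'
    have h1 := nrm_add (w - v) v
    have h2 := nrm_add (-(w - v)) w
    rw [sub_add_cancel] at h1
    rw [nrm_neg, neg_sub, sub_add_cancel] at h2
    exact mem_ann0.2 ⟨by omega, by omega⟩
  · have h1 := nrm_add (-(x - v)) x
    rw [nrm_neg, neg_sub, sub_add_cancel] at h1
    have h2 : nrm (v - x) = nrm (x - v) := by rw [← nrm_neg, neg_sub]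
    unfold dd
    omega
  · have h1 := nrm_add (y - v) v
    rw [sub_add_cancel] at h1
    unfold dd
    omega
  · intro h
    exact hT ⟨x, hx, y, hy, cx.symm.trans (h.trans cy)⟩
  · intro w w' hw _ hw' hwD hadj
    exact ⟨hcl w hw.right.1 w' hw' hwD hadj, fun h => (hTC h).1.2 hw'⟩

end Pool.Agent.MSTS
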