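import Pool.Agent.MSTS.ObjC
import Pool.Agent.MSTS.ObjQ
import Pool.Agent.MSTS.ZCut

/-!
# (S): existence of the objects, part P: witnesses, cuts and the tree configuration

`pre_ex`: the facts `Pre` (`MSTS/ObjA.lean`) hold for some data.  `exists_obj`: all objects exist.
-/

set_option autoImplicit false

namespace Pool.Agent.MSTS

open Pool.Agent.TriPerc Pool.Agent.MST Pool.Agent.MSTG

variable {g : Geo} {lam : V → ℝ} {f : Lab} {omJ : ℝ} {o : ObjD} {m : ℕ → ℤ} {om : ℕ → ℝ} {k : ℕ}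

theorem SGood.fi (S : SGood g lam f omJ m om k) : Function.Injective f := by
  intro u v huv
  by_contra hne
  have h1 := S.inj u v hne (0, 0, 0) (0, 0, 0)
  rw [cmap_zero, cmap_zero] at h1
  exact h1 huv

theorem cmap_one (l x : ℝ) : cmap (1, 0, 0) l x = 3 * l / 2 + x / 2 := by
  unfold cmap tmap rmap smap
  simp

/-- The raised labels are positive. -/
theorem raise_pos {v : V} (hv : v ∉ Low lam f) (hl : 0 ≤ lam v) :
    0 < cmap (1, 0, 0) (lam v) (f v) := by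
  rw [cmap_one]
  have h1 : ¬ f v ≤ - lam v := hv
  push Not at h1
  by_cases h2 : 0 < lam v
  · linarith
  · have h3 : lam v = 0 := le_antisymm (not_lt.1 h2) hl
    rw [h3] at h1 ⊢
    linarith

/-- A cut in the clusters of `z 0` and `z 3`. -/
theorem cut_cl (S : SGood g lam f omJ m om k) {z : Fin 6 → V} {r R m0 : ℤ} (h48 : 48 ≤ m0)
    (hr : 2 * r ≤ m0) (hR : 3 * m0 ≤ R) (hcr : ¬ Arm (Low lam f) 0 m0 (2 * m0)) :
    ∃ T : Set V, T ⊆ ((Cl f r R z 0 ∪ Cl f r R z 3) \ Low lam f) ∩ Ann 0 m0 (2 * m0) ∧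
      T ⊆ As (Low lam f) (Upp lam f) ∧
      ¬ Arm ((Cl f r R z 0 ∪ Cl f r R z 3) \ T) 0 (m0 / 2) (3 * m0) := by
  have lo : Low lam f ⊆ Op 0 f := low_op S.lam0
  have up : Op 0 f ⊆ Upp lam f := op_upp S.lam0
  have hsub : ∀ j, Cl f r R z j ⊆ Op 0 f ∩ Ann 0 r R := fun j => comp_subset
  obtain ⟨T, hT1, hT2, hT3, -⟩ := zone_cut (Lo := Low lam f) (Up := Upp lam f)
    (Q := Cl f r R z 0 ∪ Cl f r R z 3) (m := m0) (a := m0 / 2) (b := 3 * m0) (c := 3 * m0)
    h48 (by omega) (by omega) (lo.trans up)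
    (Set.union_subset (fun v hv => up (hsub 0 hv).1) fun v hv => up (hsub 3 hv).1)
    (by
      rintro x hx y hy hyA hxy
      have h1 := mem_ann0.1 hyA
      have h2 : y ∈ Op 0 f ∩ Ann 0 r R := ⟨lo hy, mem_ann0.2 ⟨by omega, by omega⟩⟩
      rcases hx with hx | hx
      · exact Or.inl (comp_adj hx h2 hxy)
      · exact Or.inr (comp_adj hx h2 hxy)) hcr le_rfl
  refine ⟨T, hT1, hT2, ?_⟩
  rintro ⟨x, hx, y, hy, hc⟩
  have hx' : nrm (x - 0) ≤ m0 / 2 := hx
  have hy' : 3 * m0 ≤ nrm (y - 0) := hy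
  rw [sub_zero] at hx' hy'
  exact hT3 x y (by omega) hy' (hc.mono Set.inter_subset_left)

/-- **The witnesses, the cuts and the tree configuration exist.** -/
theorem pre_ex (G : GeoOK g m k) (S : SGood g lam f omJ m om k) :
    ∃ o : ObjD, Pre g lam f omJ o ∧ Std g o := by
  classical
  have hG := G.all
  have lo : Low lam f ⊆ Op 0 f := low_op S.lam0
  have up : Op 0 f ⊆ Upp lam f := op_upp S.lam0
  obtain ⟨z, hz⟩ := ef_iff.1 S.ef
  obtain ⟨T, n, hW⟩ := exists_wit S.fi (by omega) (by omega) hz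
  obtain ⟨Tc, hc1, hc2, hc3, hc4⟩ := zone_cut (Lo := Low lam f) (Up := Upp lam f)
    (Q := Op 0 f ∩ Ann 0 g.r g.R) (m := g.mM) (a := g.mM / 2) (b := 3 * g.mM) (c := g.c)
    (by omega) (by omega) (by omega) (lo.trans up) (fun v hv => up hv.1)
    (fun x _ y hy hyA _ => ⟨lo hy, by
      have := mem_ann0.1 hyA
      exact mem_ann0.2 ⟨by omega, by omega⟩⟩) S.cM (by omega)
  have hcut : CutH f (Low lam f) g.r g.R g.mM g.cM g.c Tc :=
    { rm := by omega
      ms1 := by omega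
      ms2 := by omega
      cR := by omega
      sub := hc1
      cut := hc3
      arms := fun v hv => (hc4 v hv).2
      clean := S.clM }
  obtain ⟨l, D, b, hA⟩ := sec1 hW hcut
  obtain ⟨T0, t01, t02, t03⟩ := cut_cl S (z := z) (r := g.r) (R := g.R) (m0 := g.m0) (by omega)
    (by omega) (by omega) S.c0
  obtain ⟨T1, t11, t12, t13⟩ := cut_cl S (z := z) (r := g.r) (R := g.R) (m0 := g.m1) (by omega)
    (by omega) (by omega) S.c1
  obtain ⟨Td, d1, d2, d3, -⟩ := zone_cut (Lo := Low lam f) (Up := Upp lam f)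
    (Q := Op 0 f) (m := g.md) (a := g.md / 2) (b := 3 * g.md) (c := 3 * g.md)
    (by omega) (by omega) (by omega) (lo.trans up) up (fun x _ y hy _ _ => lo hy) S.cd le_rfl
  obtain ⟨ia, ib, hab, hsb⟩ : ∃ ia ib : Fin 6, ((ia = 1 ∧ ib = 2) ∨ (ia = 2 ∧ ib = 1)) ∧
      SepC g.r (T 0 (n 0)) (T ib (n ib)) (T ia (n ia)) (T 3 (n 3)) := by
    rcases hW.choice.1 with h | h
    · exact ⟨1, 2, Or.inl ⟨rfl, rfl⟩, h⟩
    · exact ⟨2, 1, Or.inr ⟨rfl, rfl⟩, h⟩
  obtain ⟨ic, id, hcd, hsd⟩ : ∃ ic id : Fin 6, ((ic = 4 ∧ id = 5) ∨ (ic = 5 ∧ id = 4)) ∧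
      SepC g.r (T 3 (n 3)) (T id (n id)) (T ic (n ic)) (T 0 (n 0)) := by
    rcases hW.choice.2 with h | h
    · exact ⟨4, 5, Or.inl ⟨rfl, rfl⟩, h⟩
    · exact ⟨5, 4, Or.inr ⟨rfl, rfl⟩, h⟩
  have ha : ia = 1 ∨ ia = 2 := hab.imp And.left And.left
  have hb : ib = 1 ∨ ib = 2 := by
    rcases hab with h | h
    · exact Or.inr h.2
    · exact Or.inl h.2
  have hc : ic = 4 ∨ ic = 5 := hcd.imp And.left And.left
  have hd : id = 4 ∨ id = 5 := by
    rcases hcd with h | h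
    · exact Or.inr h.2
    · exact Or.inl h.2
  let gl : Lab := fun u =>
    if u ∈ Tc \ {T ib (l ib), T id (l id)} then cmap (1, 0, 0) (lam u) (f u) else f u
  have hgl : Raise f gl Tc (T ib (l ib)) (T id (l id)) := by
    refine ⟨fun u v huv => ?_, fun v hv => ?_, fun v hv h1 h2 => ?_⟩
    · by_contra hne
      have h0 : ∀ w, ∃ i : Fin 4 × Fin 6 × Fin 2, gl w = cmap i (lam w) (f w) := by
        intro w
        by_cases hw : w ∈ Tc \ {T ib (l ib), T id (l id)}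
        · exact ⟨(1, 0, 0), if_pos hw⟩
        · exact ⟨(0, 0, 0), by rw [cmap_zero]; exact if_neg hw⟩
      obtain ⟨i, hi⟩ := h0 u
      obtain ⟨j, hj⟩ := h0 v
      rw [hi, hj] at huv
      exact S.inj u v hne i j huv
    · refine if_neg fun hv' => ?_
      rcases hv with h | h | h
      · exact h hv'.1
      · exact hv'.2 (Or.inl h)
      · exact hv'.2 (Or.inr h)
    · have h3 : gl v = cmap (1, 0, 0) (lam v) (f v) := if_pos ⟨hv, by
        rintro (h | h)
        · exact h1 h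
        · exact h2 h⟩
      rw [h3]
      exact raise_pos (hc1 hv).1.2 (S.lam0 v)
  have hnoc : ∀ k k' x y, grp k ≠ grp k' → x ∈ Cl f g.r g.R z k → y ∈ Cl f g.r g.R z k' →
      ¬ Conn (Op 0 f ∩ Ann 0 g.r g.R) x y := fun k k' x y hk hx hy hxy =>
    hz.2.2.2.2.1 k k' hk ((Conn.trans hx hxy).trans (Conn.symm hy))
  let e : EndD := ⟨0, ia, ib, 0, 0, 0, 0, 0, 0, ∅, ∅, ∅, ∅, g.j1, g.a2, g.b2, g.j2⟩
  let e' : EndD := ⟨3, ic, id, 0, 0, 0, 0, 0, 0, ∅, ∅, ∅, ∅, g.p1, g.a5, g.b5, g.p2⟩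
  refine ⟨⟨z, T, n, l, D, b, Tc, T0, T1, Td, ∅, gl, e, e'⟩, ?_, ⟨rfl, hab, rfl, hcd, rfl, rfl,
    rfl, rfl, rfl, rfl, rfl, rfl⟩⟩
  refine
    { lo := lo
      up := up
      wit := hW
      cut := hcut
      arm := hA
      four := four4 hW hcut hA ha hc
      gab := ?_
      gab' := ?_
      nab := ?_
      nab' := ?_
      g0a := ?_
      g0a' := ?_
      g03 := by
        change grp 0 ≠ grp 3
        decide
      g0d := ?_
      ga3 := ?_
      gad := ?_
      sepb := hsb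
      sepb' := hsd
      sep4 := hW.sepr hb hc
      sep4' := sep_symm (sep_comm (hW.sepr ha hd))
      sc := hc1
      s0 := t01
      s1 := t11
      sd := d1
      asc := ?_
      c0 := t03
      c1 := t13
      cd := ?_
      noc := hnoc
      gl := hgl }
  · change grp ia = grp ib
    rcases hab with ⟨rfl, rfl⟩ | ⟨rfl, rfl⟩ <;> decide
  · change grp ic = grp id
    rcases hcd with ⟨rfl, rfl⟩ | ⟨rfl, rfl⟩ <;> decide
  · change ia ≠ ib
    rcases hab with ⟨rfl, rfl⟩ | ⟨rfl, rfl⟩ <;> decide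
  · change ic ≠ id
    rcases hcd with ⟨rfl, rfl⟩ | ⟨rfl, rfl⟩ <;> decide
  · change grp 0 ≠ grp ia
    rcases ha with rfl | rfl <;> decide
  · change grp 3 ≠ grp ic
    rcases hc with rfl | rfl <;> decide
  · change grp 0 ≠ grp ic
    rcases hc with rfl | rfl <;> decide
  · change grp ia ≠ grp 3
    rcases ha with rfl | rfl <;> decide
  · change grp ia ≠ grp ic
    rcases ha with rfl | rfl <;> rcases hc with rfl | rfl <;> decide
  · rintro v (((hv | hv) | hv) | hv)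
    · exact hc2 hv.1
    · exact t02 hv
    · exact t12 hv
    · exact d2 hv
  · rintro ⟨x, hx, y, hy, hxy⟩
    have hx' : nrm (x - 0) ≤ g.md / 2 := hx
    have hy' : 3 * g.md ≤ nrm (y - 0) := hy
    rw [sub_zero] at hx' hy'
    exact d3 x y (by omega) hy' (hxy.mono fun v hv => ⟨hv.1.1, fun h' => hv.1.2 (Or.inr h')⟩)

/-- **Sections 1-4**: the objects exist. -/
theorem exists_obj : ObjS := by
  intro g lam f omJ m om k G S
  obtain ⟨o, h, hs⟩ := pre_ex G S
  exact obj_of G S h hs (pre_cM G h) (pre_nn S h) (pre_ord G S h hs)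

end Pool.Agent.MSTS
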