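import Pool.Agent.MSTS.Obj

/-!
# (S), section 5: the sides, for the objects `Obj`

(text: `/team-store/MST_S_helper95.md`, section 5)

`FH`: the facts about the open set of the final labels `F`, symmetric in the two ends; `fh_of`: they
follow from the result `GOut` of the relabelling (`gain_comp`).
`obj_side`: the hypotheses `SideIn` of `MSTS/Sides.lean`.
For the end `e` (the other end: the same theorems for `o.flip`), `G0 = comp (o.P1 g f) o.e.p`:
* `comp_x0`: the component of `x0` in the open set after the first step is `G0`;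
* `obj_ex`: the only exit of `G0` is `u`;
* `obj_kj`: the turn is open; `obj_cv`, `obj_cv'`, `obj_sa`;
* `obj_cut` (5b); `obj_dg`, `obj_ug`, `obj_uu`; `obj_ux` (5d).
-/

set_option autoImplicit false

namespace Pool.Agent.MSTS

open Pool.Agent.TriPerc Pool.Agent.MST Pool.Agent.MSTG

variable {g : Geo} {lam : V → ℝ} {f F : Lab} {omJ : ℝ} {o : ObjD} {m : ℕ → ℤ} {om : ℕ → ℝ}
  {k : ℕ} {lo : ℤ} {t v w y : V}

/-- The relations between the radii which are used here. -/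
theorem GeoOK.nums (hG : GeoOK g m k) : 1 ≤ g.r ∧ 2 * g.r ≤ g.md ∧ 64 ≤ g.md ∧ g.md ≤ g.m0 ∧
    8 * g.m0 ≤ g.rho ∧ 4 * g.rho ≤ g.mb ∧ 10 * g.mb ≤ g.mM ∧ 4 * g.mM + 2 ≤ g.c ∧
    2 * g.c ≤ g.mL ∧ 8 * g.c ≤ g.R := by
  have h1 := hG.r1
  have h2 := hG.md
  have h3 := hG.md0
  have h4 := hG.p1
  have h5 := hG.a5
  have h6 := hG.m5
  have h7 := hG.b5
  have h8 := hG.p2
  have h9 := hG.m1
  have h10 := hG.j1
  have h11 := hG.a2
  have h12 := hG.m2
  have h13 := hG.b2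
  have h14 := hG.j2
  have h15 := hG.m0
  have h16 := hG.mn
  have h17 := hG.rho
  have h18 := hG.n1
  have h19 := hG.n2
  have h20 := hG.mb
  have h21 := hG.mM
  have h22 := hG.cM
  have h23 := hG.c
  have h24 := hG.mL
  have h25 := hG.R
  refine ⟨h1, h2, h3, ?_, ?_, ?_, ?_, ?_, ?_, ?_⟩ <;> omega

/-- The facts about the open set of the final labels. -/
structure FH (g : Geo) (f F : Lab) (o : ObjD) : Prop where
  sub : ∀ v ∈ Op 0 F, v ∈ o.P f ∨ v ∈ o.e.UJ ∪ o.e'.UJ ∨ v ∈ o.W ∨ v ∈ o.e.U1 ∪ o.e'.U1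
  sup : ∀ v ∈ o.P f, ¬ Conn (o.P1 g f) o.e.p v → ¬ Conn (o.P1 g f) o.e'.p v → v ∈ Op 0 F
  u : o.e.U1 ∪ o.e'.U1 ⊆ Op 0 F
  j : o.e.UJ ∪ o.e'.UJ ⊆ Op 0 F
  w : o.W ⊆ Op 0 F

theorem FH.flip (h : FH g f F o) : FH g f F o.flip where
  sub v hv := by
    rw [flip_p]
    rcases h.sub v hv with h1 | h1 | h1 | h1
    · exact Or.inl h1
    · exact Or.inr (Or.inl (Or.symm h1))
    · exact Or.inr (Or.inr (Or.inl h1))
    · exact Or.inr (Or.inr (Or.inr (Or.symm h1)))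
  sup v hv h1 h2 := by
    rw [flip_p] at hv
    rw [flip_p1] at h1 h2
    exact h.sup v hv h2 h1
  u := by
    have := h.u
    rwa [Set.union_comm] at this
  j := by
    have := h.j
    rwa [Set.union_comm] at this
  w := h.w

section Static

variable (hG : GeoOK g m k) (h : Obj g lam f omJ o)

include hG h

omit hG in
/-- Numbers of one end. -/
theorem Obj.num : 3 * g.md ≤ o.e.j1 ∧ o.e.j1 < o.e.a ∧ o.e.a ≤ o.e.bb ∧ o.e.bb < o.e.j2 ∧
    2 * o.e.j2 ≤ g.m0 := ⟨h.h.j1, h.h.ja, h.h.ab, h.h.bj, h.h.j2⟩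

omit hG in
theorem Obj.u1_ann (hv : v ∈ o.e.U1) : g.mb ≤ nrm v ∧ nrm v ≤ 2 * g.mb :=
  mem_ann0.1 (h.h.kS (h.h.Uk hv)).1.2

omit hG in
theorem Obj.kj_ann (hv : v ∈ o.e.KJ) : o.e.a ≤ nrm v ∧ nrm v ≤ o.e.bb :=
  mem_ann0.1 (h.h.KA hv)

omit hG in
theorem Obj.u1_nP (hv : v ∈ o.e.U1) : v ∉ o.P f := fun h1 => by
  have h2 := h.h.Uf v hv
  have h3 : f v ≤ 0 := h1.1
  linarith

omit hG in
/-- Clusters of different groups. -/
theorem Obj.cl_ne {k k' : Fin 6} (hk : grp k ≠ grp k') (hv : v ∈ Cl f g.r g.R o.z k) :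
    v ∉ Cl f g.r g.R o.z k' := fun hv' =>
  h.com.noc k k' v v hk hv hv' (Conn.refl (comp_subset hv))

omit hG in
theorem Obj.b_cl {k : Fin 6} : o.B k ⊆ Cl f g.r g.R o.z k := fun _ hv =>
  bs_sub h.com.wit h.com.arm hv

omit hG h in
/-- Clusters are closed. -/
theorem Obj.cl_cl {k : Fin 6} (hv : v ∈ Cl f g.r g.R o.z k) (hy : y ∈ o.P f ∩ Ann 0 g.r g.R)
    (hvy : Adj v y) : y ∈ Cl f g.r g.R o.z k :=
  comp_adj hv ⟨hy.1.1, hy.2⟩ hvy

/-- `G0` is not adjacent to the turns. -/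
theorem Obj.g0_uj (hy : Conn (o.P1 g f) o.e.p y) (hw : w ∈ o.e.UJ ∪ o.e'.UJ) (hyw : Adj y w) :
    False := by
  have h1 := h.h.low y hy
  have h2 := nrm_adj0 hyw
  obtain ⟨-, -, -, n4, n5⟩ := Obj.num h
  obtain ⟨-, -, -, n4', n5'⟩ := Obj.num h.flip
  rcases hw with hw | hw
  · have h3 := Obj.kj_ann h (h.h.JK hw)
    omega
  · have h3 := Obj.kj_ann h.flip (h.flip.h.JK hw)
    change nrm w ≥ o.flip.e.a ∧ _ at h3
    omega

/-- The component of `x0` in the open set after the first step is `G0`. -/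
theorem Obj.comp_x0 (hy : Conn (Op1 f o.Rs (o.e.UJ ∪ o.e'.UJ) o.W ∩ Ball 0 (g.c - 1)) o.e.x0 y) :
    Conn (o.P1 g f) o.e.p y := by
  obtain ⟨-, hr⟩ := hy
  obtain ⟨n1, n2, n3, n4, n5, n6, n7, n8, n9, n10⟩ := hG.nums
  induction hr with
  | refl => exact h.h.px
  | @tail a b _ hab ih =>
    have h1 := ih.right
    have h2 := mem_ball0.1 hab.2.2
    rcases hab.2.1 with h3 | h3 | h3
    · exact ih.trans (Conn.of_adj h1 ⟨h3, hab.2.2⟩ hab.1)
    · exact absurd hab.1 (fun h4 => Obj.g0_uj hG h ih h3 h4)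
    · have h4 := (mem_ann0.1 (h.com.WS h3).2).1
      omega

end Static

/-- The facts about the open set of the final labels follow from the result of the relabelling. -/
theorem fh_of (hG : GeoOK g m k) (h : Obj g lam f omJ o)
    (hF : GOut lam f F (g.c - 1) lo o.e.x0 t m om k o.Rs (o.e.UJ ∪ o.e'.UJ) o.W
      (o.e.U1 ∪ o.e'.U1)) :
    FH g f F o ∧ ∀ v, Conn (o.P1 g f) o.e'.p v → v ∈ Op 0 F := by
  have key : ∀ v ∈ o.P f, ¬ Conn (o.P1 g f) o.e.p v → v ∈ Op 0 F := by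
    intro v hv h1
    by_contra h2
    exact h1 (Obj.comp_x0 hG h (hF.po v (Or.inl hv) h2).1)
  refine ⟨⟨fun v hv => ?_, fun v hv h1 _ => key v hv h1, hF.opu, hF.op6, hF.op2⟩, fun v hv => ?_⟩
  · rcases hF.op v hv with (h1 | h1 | h1) | h1
    · exact Or.inl h1
    · exact Or.inr (Or.inl h1)
    · exact Or.inr (Or.inr (Or.inl h1))
    · exact Or.inr (Or.inr (Or.inr h1))
  · refine key v hv.right.1 fun h1 => ?_
    have h2 := h.h.G0X v h1
    have hv' : Conn (o.flip.P1 g f) o.flip.e.p v := by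
      rw [flip_p1]
      exact hv
    exact Obj.cl_ne h h.com.g03 h2 (h.h'.G0X v hv')

theorem sig_comm {r R : ℤ} {B0 B3 : Set V} : Sig r R B0 B3 v = Sig r R B3 B0 v := by
  unfold Sig
  rw [Set.union_comm]

section Final

variable (hG : GeoOK g m k) (h : Obj g lam f omJ o) (hF : FH g f F o)

include hG h hF

/-- The open vertices inside the circle `c`. -/
theorem obj_q (hv : v ∈ Op 0 F) (nv : nrm v ≤ g.c) :
    v ∈ o.P f ∨ v ∈ o.e.U1 ∪ o.e'.U1 ∨ v ∈ o.e.UJ ∪ o.e'.UJ := by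
  obtain ⟨n1, n2, n3, n4, n5, n6, n7, n8, n9, n10⟩ := hG.nums
  rcases hF.sub v hv with h1 | h1 | h1 | h1
  · exact Or.inl h1
  · exact Or.inr (Or.inr h1)
  · have h4 := (mem_ann0.1 (h.com.WS h1).2).1
    omega
  · exact Or.inr (Or.inl h1)

/-- The hypotheses of the sides. -/
theorem obj_side : SideIn g.r g.R (g.c - 1) (g.md / 2) (3 * g.md) (o.P f) (Op 0 F) (o.X g f)
    (o.X' g f) (o.B o.e.i0) (o.B o.e.ia) (o.B o.e'.i0) (o.B o.e'.ia) o.e.U1 o.e.KJ o.e'.U1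
    o.e'.KJ (o.b o.e.i0) (o.b o.e.ia) (o.b o.e'.i0) (o.b o.e'.ia) (o.rh o.e.i0) (o.rh o.e.ia)
    (o.rh o.e'.i0) (o.rh o.e'.ia) o.e.x o.e'.x := by
  obtain ⟨n1, n2, n3, n4, n5, n6, n7, n8, n9, n10⟩ := hG.nums
  obtain ⟨k1, k2, k3, k4, k5⟩ := Obj.num h
  obtain ⟨k1', k2', k3', k4', k5'⟩ := Obj.num h.flip
  exact {
    h4 := h.com.four
    nR := by omega
    nx := h.h.nx
    hxB := h.h.xB
    hx := h.h.hx
    hx' := h.h.hx'
    nxc := h.h'.nx
    hxcB := h.h'.xB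
    hxc := h.h'.hx
    hxc' := h.h'.hx'
    X0P := fun v hv y hy hvy => Obj.cl_cl hv hy hvy
    X3P := fun v hv y hy hvy => Obj.cl_cl hv hy hvy
    d03 := Set.disjoint_left.2 fun v hv hv' => Obj.cl_ne h h.com.g03 hv hv'
    B0X := Obj.b_cl h
    B3X := Obj.b_cl h
    BaX := by
      rw [Set.disjoint_left]
      rintro v hv (hv' | hv')
      · exact Obj.cl_ne h h.h.g0a hv' (Obj.b_cl h hv)
      · exact Obj.cl_ne h h.com.ga3 (Obj.b_cl h hv) hv'
    BcX := by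
      rw [Set.disjoint_left]
      rintro v hv (hv' | hv')
      · exact Obj.cl_ne h h.com.g0d hv' (Obj.b_cl h hv)
      · exact Obj.cl_ne h h.h'.g0a hv' (Obj.b_cl h hv)
    hQ := fun v hv nv => by
      rcases obj_q hG h hF hv (by omega) with h1 | (h1 | h1) | (h1 | h1)
      · exact Or.inl h1
      · exact Or.inr (Or.inl (Or.inl h1))
      · exact Or.inr (Or.inr (Or.inl h1))
      · exact Or.inr (Or.inl (Or.inr (h.h.JK h1)))
      · exact Or.inr (Or.inr (Or.inr (h.h'.JK h1)))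
    UX := by
      rw [Set.disjoint_left]
      rintro v (hv | hv) (hv' | hv')
      · exact Set.disjoint_left.1 (h.h.UX _) hv hv'
      · exact Set.disjoint_left.1 (h.h.UX _) hv hv'
      · exact Set.disjoint_left.1 (h.h.KX _ h.h.g0a) hv hv'
      · exact Set.disjoint_left.1 (h.h.KX _ h.com.ga3.symm) hv hv'
    UcX := by
      rw [Set.disjoint_left]
      rintro v (hv | hv) (hv' | hv')
      · exact Set.disjoint_left.1 (h.h'.UX _) hv hv'
      · exact Set.disjoint_left.1 (h.h'.UX _) hv hv'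
      · exact Set.disjoint_left.1 (h.h'.KX _ h.com.g0d) hv hv'
      · exact Set.disjoint_left.1 (h.h'.KX _ h.h'.g0a) hv hv'
    UC := h.h.UC
    US := Set.union_subset h.h.US h.h.KS
    UcC := h.h'.UC
    UcS := by
      rw [sig_comm]
      exact Set.union_subset h.h'.US h.h'.KS
    rs := by omega
    st := by omega
    cutd := h.com.cd
    Ud := by
      rintro v (hv | hv)
      · have := Obj.u1_ann h hv
        omega
      · have := Obj.kj_ann h hv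
        omega
    Ucd := by
      rintro v (hv | hv)
      · have h1 := Obj.u1_ann h.flip hv
        omega
      · have h1 := Obj.kj_ann h.flip hv
        omega
    sUK := h.com.sUK
    sKK := h.com.sKK }

/-- The component of the other joint does not touch this side. -/
theorem obj_g3 (hy : Conn (o.P1 g f) o.e'.p y) (hv : v ∈ o.e.U1 ∪ o.e.KJ) (hvy : Adj v y) :
    False := by
  have h1 : Conn (o.P1 g f) o.e'.p o.e'.t := by
    have h2 := h.h'.pt
    rwa [flip_p1] at h2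
  have h3 : o.e'.p ∈ o.X' g f := by
    have h2 := h.h'.G0X o.e'.p
    rw [flip_p1] at h2
    exact h2 (Conn.refl hy.left)
  exact (obj_side hG h hF).two (E := comp (o.P1 g f) o.e'.p) isConn_comp
    (fun w hw => (comp_subset hw).1) (fun w hw => mem_ball0.1 (comp_subset hw).2)
    (Conn.refl hy.left) (Or.inr h3) ⟨y, hy, v, hv, hvy⟩
    ⟨o.e'.t, h1, o.e'.u, Or.inl (Set.mem_insert _ _), h.h'.ut⟩

/-- The component of the joint does not touch the other side. -/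
theorem obj_g0 (hy : Conn (o.P1 g f) o.e.p y) (hv : v ∈ o.e'.U1 ∪ o.e'.KJ) (hvy : Adj v y) :
    False := by
  refine obj_g3 (o := o.flip) hG h.flip hF.flip ?_ hv hvy
  rw [flip_p1]
  exact hy

/-- The only exit of the component of the joint is `u`. -/
theorem obj_ex (hy : Conn (o.P1 g f) o.e.p y) (hyw : Adj y w) (hw : w ∈ Op 0 F) :
    Conn (o.P1 g f) o.e.p w ∨ w = o.e.u := by
  obtain ⟨n1, n2, n3, n4, n5, n6, n7, n8, n9, n10⟩ := hG.nums
  have ny := mem_ball0.1 hy.right.2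
  have nyw := nrm_adj0 hyw
  rcases obj_q hG h hF hw (by omega) with h1 | (h1 | h1) | h1
  · left
    by_cases hn : nrm w ≤ g.c - 1
    · exact hy.trans (Conn.of_adj hy.right ⟨h1, mem_ball0.2 hn⟩ hyw)
    · exfalso
      have hy2 := h.h.G0I y hy
      have hlow := h.h.low y hy
      by_cases hT : w ∈ o.Tc
      · have := (mem_ann0.1 (h.com.sc hT).2).2
        omega
      · have h2 := h.com.cut.inn_lt (inn_adj hy2 ⟨⟨h1.1, mem_ann0.2 ⟨by omega, by omega⟩⟩, hT⟩ hyw)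
        omega
  · rcases h1 with h1 | h1
    · exact Or.inr h1
    · exact absurd hy (h.h.Uno w h1 y hyw.symm)
  · exact absurd hyw.symm (fun h2 => obj_g0 hG h hF hy (Or.inl h1) h2)
  · exact absurd hyw (fun h2 => Obj.g0_uj hG h hy h1 h2)

/-- The turn is open. -/
theorem obj_kj (h0 : ∀ u, 0 ≤ lam u) : o.e.KJ ⊆ Op 0 F ∩ Ball 0 (g.c - 1) := by
  obtain ⟨n1, n2, n3, n4, n5, n6, n7, n8, n9, n10⟩ := hG.nums
  obtain ⟨k1, k2, k3, k4, k5⟩ := Obj.num h
  intro v hv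
  have h1 := Obj.kj_ann h hv
  refine ⟨?_, mem_ball0.2 (by omega)⟩
  rcases h.h.KL hv with h2 | h2
  · have h3 : f v ≤ - lam v := h2
    have h4 := h0 v
    refine hF.sup v ⟨show f v ≤ 0 by linarith, Set.disjoint_left.1 h.h.KP hv⟩ (fun h5 => ?_)
      fun h5 => ?_
    · exact Set.disjoint_left.1 (h.h.KX _ h.h.g0a) hv (h.h.G0X v h5)
    · have h6 := h.h'.G0X v (by rwa [flip_p1])
      exact Set.disjoint_left.1 (h.h.KX _ h.com.ga3.symm) hv h6
  · exact hF.j (Or.inl h2)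

/-- Vertices of `P1` which are not in the clusters `X, X'` are open. -/
theorem obj_y {k : Fin 6} (hk : grp k = grp o.e.ia) (hv : v ∈ o.P1 g f)
    (hv' : v ∈ Cl f g.r g.R o.z k) : v ∈ Op 0 F := by
  refine hF.sup v hv.1 (fun h1 => ?_) fun h1 => ?_
  · exact Obj.cl_ne h (by rw [hk]; exact h.h.g0a) (h.h.G0X v h1) hv'
  · have h6 := h.h'.G0X v (by rwa [flip_p1])
    exact Obj.cl_ne h (by rw [hk]; exact h.com.ga3.symm) h6 hv'

/-- `u` is joined to `q`. -/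
theorem obj_uq : Conn (Op 0 F ∩ Ball 0 (g.c - 1)) o.e.u o.e.q := by
  obtain ⟨n1, n2, n3, n4, n5, n6, n7, n8, n9, n10⟩ := hG.nums
  refine h.h.uq.in_comp.mono fun v hv => ?_
  have hv' : Conn ((o.P1 g f ∪ o.e.U1) \ comp (o.P1 g f) o.e.p) o.e.u v := hv
  rcases hv'.right.1 with h1 | h1
  · refine ⟨hF.sup v h1.1 hv'.right.2 fun h2 => ?_, h1.2⟩
    -- the component of the other joint does not meet `U1`
    have h3 : Conn (o.P1 g f ∪ o.e.U1) v o.e.u := hv'.symm.mono Set.sdiff_subset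
    have h4 : o.e.u ∈ comp (o.P1 g f) o.e'.p := by
      refine closed_conn (S := comp (o.P1 g f) o.e'.p) (T := o.P1 g f ∪ o.e.U1) ?_ h2 h3
      rintro a ha b (hb | hb) hab
      · exact comp_adj ha hb hab
      · exact absurd hab.symm (fun h5 => obj_g3 hG h hF ha (Or.inl hb) h5)
    exact Obj.u1_nP h (Set.mem_insert _ _) (comp_subset h4).1
  · have h2 := Obj.u1_ann h h1
    exact ⟨hF.u (Or.inl h1), mem_ball0.2 (by omega)⟩

omit hG hF in
/-- A piece of the root path. -/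
theorem obj_seg {k : Fin 6} {i j : ℕ} (hij : i ≤ j) (hj : j ≤ o.n k) :
    Conn (seg (o.T k) i j) (o.T k i) (o.T k j) :=
  conn_seg hij (fun q _ hq => ((h.com.wit.root k).path.step q (by omega)).1)
    fun q h1 h2 => ⟨q, h1, h2, rfl⟩

omit hG hF in
theorem obj_tcl {k : Fin 6} {i : ℕ} (hi : i ≤ o.n k) : o.T k i ∈ Cl f g.r g.R o.z k := by
  have h1 : Conn (Op 0 f ∩ Ann 0 g.r g.R) (o.T k 0) (o.T k i) :=
    conn_seg (Nat.zero_le i) (fun q _ hq => ((h.com.wit.root k).path.step q (by omega)).1)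
      fun q _ h2 => h.com.wit.op k q (by omega)
  rwa [(h.com.wit.root k).start] at h1

/-- `u` is joined to the turn and to `vb`. -/
theorem obj_cv (h0 : ∀ u, 0 ≤ lam u) :
    (∀ w ∈ o.e.KJ, Conn (Op 0 F ∩ Ball 0 (g.c - 1)) o.e.u w) ∧
      Conn (Op 0 F ∩ Ball 0 (g.c - 1)) o.e.u o.vb := by
  obtain ⟨n1, n2, n3, n4, n5, n6, n7, n8, n9, n10⟩ := hG.nums
  obtain ⟨k1, k2, k3, k4, k5⟩ := Obj.num h
  obtain ⟨i, i1, i2, i3⟩ := h.h.qT
  have hK := obj_kj hG h hF h0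
  have ca := obj_seg h (k := o.e.ia) (i := i) (j := o.n o.e.ia) i2 le_rfl
  rw [i3] at ca
  have hl : o.l o.e.ib ≤ o.n o.e.ib := (h.com.arm o.e.ib).ln.le
  have cb := obj_seg h (k := o.e.ib) (i := o.l o.e.ib) (j := o.n o.e.ib) hl le_rfl
  have nq := h.h.nq
  have nb := h.h.nvb
  have hr : ∀ k, nrm (o.T k (o.n k)) = g.r := fun k => (h.com.wit.root k).last
  obtain ⟨w1, hw1, cw1⟩ := reach_K (j1 := o.e.j1) (j2 := o.e.j2) (by omega) h.h.KY ca (by
    rintro z ⟨j, j1, j2, rfl⟩ _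
    exact Or.inl (obj_tcl h j2)) (by omega) (by rw [hr]; omega)
  obtain ⟨w2, hw2, cw2⟩ := reach_K (j1 := o.e.j1) (j2 := o.e.j2) (by omega) h.h.KY cb (by
    rintro z ⟨j, j1, j2, rfl⟩ _
    exact Or.inr (obj_tcl h j2)) (by
      change o.e.j2 ≤ nrm o.vb
      omega) (by rw [hr]; omega)
  have c1 : Conn (Op 0 F ∩ Ball 0 (g.c - 1)) o.e.q w1 := cw1.mono (by
    rintro z ⟨⟨j, j1, j2, rfl⟩, hz⟩
    have h1 := h.h.ta j (by omega) j2 hz
    exact ⟨obj_y hG h hF rfl h1 (obj_tcl h j2), h1.2⟩)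
  have c2 : Conn (Op 0 F ∩ Ball 0 (g.c - 1)) o.vb w2 := cw2.mono (by
    rintro z ⟨⟨j, j1, j2, rfl⟩, hz⟩
    have h1 := h.h.tb j (by omega) j2 hz
    exact ⟨obj_y hG h hF h.h.gab.symm h1 (obj_tcl h j2), h1.2⟩)
  have c0 := obj_uq hG h hF
  exact ⟨fun w hw => c0.trans (c1.trans ((h.h.Kc w1 hw1 w hw).mono hK)),
    c0.trans (c1.trans (((h.h.Kc w1 hw1 w2 hw2).mono hK).trans c2.symm))⟩

omit hG hF in
theorem obj_vd : o.vd ∈ Sig g.r g.R (o.B o.e.i0) (o.B o.e'.i0) (o.b o.e'.ia) ∧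
    o.vd ∉ o.X g f ∪ o.X' g f := by
  refine ⟨?_, ?_⟩
  · rw [sig_comm]
    exact h.h'.vbS
  · have h1 : o.vd ∈ Cl f g.r g.R o.z o.e'.ib := h.h'.vbY
    have h2 : grp o.e'.ia = grp o.e'.ib := h.h'.gab
    rintro (h3 | h3)
    · exact Obj.cl_ne h (by rw [← h2]; exact h.com.g0d) h3 h1
    · exact Obj.cl_ne h (by rw [← h2]; exact h.h'.g0a) h3 h1

/-- `u` is not joined to the vertex of the cut of the other end. -/
theorem obj_cv' : ¬ Conn (Op 0 F ∩ Ball 0 (g.c - 1)) o.e.u o.vd :=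
  (obj_side hG h hF).not_side (Or.inl (Set.mem_insert _ _)) (obj_vd h).1 (obj_vd h).2

/-- The vertices which are joined to `u` inside the circle `c`. -/
theorem obj_sa (hv : Conn (Op 0 F ∩ Ball 0 (g.c - 1)) o.e.u v) :
    v ∈ o.P f ∩ Ann 0 g.r g.R ∨ v ∈ o.e.U1 ∨ nrm v < g.rho := by
  obtain ⟨n1, n2, n3, n4, n5, n6, n7, n8, n9, n10⟩ := hG.nums
  obtain ⟨k1, k2, k3, k4, k5⟩ := Obj.num h
  have hS := obj_side hG h hF
  have hu : o.e.u ∈ o.e.U1 ∪ o.e.KJ := Or.inl (Set.mem_insert _ _)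
  have h1 := hS.norm hu hv
  have h2 := mem_ball0.1 hv.right.2
  rcases hS.hQ v hv.right.1 h2 with h3 | (h3 | h3) | h3
  · exact Or.inl ⟨h3, mem_ann0.2 ⟨by omega, by omega⟩⟩
  · exact Or.inr (Or.inl h3)
  · have h4 := Obj.kj_ann h h3
    exact Or.inr (Or.inr (by omega))
  · exact absurd hv (hS.not_new hu h3)

/-- (5b). -/
theorem obj_cut {x y : V} (hx : 2 * nrm x ≤ g.mM) (hy : g.c ≤ nrm y) :
    ¬ Conn (Op 0 F \ {o.vb, o.vd}) x y := by
  obtain ⟨n1, n2, n3, n4, n5, n6, n7, n8, n9, n10⟩ := hG.nums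
  obtain ⟨k1, k2, k3, k4, k5⟩ := Obj.num h
  obtain ⟨k1', k2', k3', k4', k5'⟩ := Obj.num h.flip
  refine cut5b (mh := g.mM / 2) (c := g.c) (P := o.P f) (by omega) h.com.cM ?_ (by omega) hy
  intro v hv h1 h2
  rcases obj_q hG h hF hv h2 with h3 | (h3 | h3) | (h3 | h3)
  · exact h3
  · have := Obj.u1_ann h h3
    omega
  · have h4 := Obj.u1_ann h.flip h3
    omega
  · have := Obj.kj_ann h (h.h.JK h3)
    omega
  · have h4 := Obj.kj_ann h.flip (h.flip.h.JK h3)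
    omega

/-- (5d), the middle part. -/
theorem obj_vv (h3 : ∀ v, Conn (o.P1 g f) o.e'.p v → v ∈ Op 0 F) : Conn (Op 0 F) o.vb o.vd := by
  obtain ⟨n1, n2, n3, n4, n5, n6, n7, n8, n9, n10⟩ := hG.nums
  have hb := h.h.vbP
  have hd : o.vd ∈ o.P f := by
    have h1 := h.h'.vbP
    rwa [flip_p] at h1
  have nb := h.h.nvb
  have nb' := h.h.nvb'
  have nd : g.mM ≤ nrm o.vd := h.h'.nvb
  have nd' : nrm o.vd ≤ 2 * g.mM := h.h'.nvb'
  have hbY := h.h.vbY
  have hdY : o.vd ∈ Cl f g.r g.R o.z o.e'.ib := h.h'.vbY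
  have hgg : grp o.e.ib ≠ grp o.e'.ib := by
    have h1 : grp o.e'.ia = grp o.e'.ib := h.h'.gab
    rw [← h.h.gab, ← h1]
    exact h.com.gad
  have np := h.h.np'
  have hpp : o.e.p ∈ o.P1 g f := h.h.pt.left
  refine link_conn (Z := o.P f ∩ Ann 0 g.r g.R) (L := o.W) (mh := g.mM / 2) (c := g.c)
    (G := comp (o.P1 g f) o.e.p) (by omega) ⟨hb, mem_ann0.2 ⟨by omega, by omega⟩⟩
    ⟨hd, mem_ann0.2 ⟨by omega, by omega⟩⟩ ?_ h.com.Wc ?_ ?_ isConn_comp ?_ ?_ ?_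
  · intro h1
    exact h.com.noc _ _ _ _ hgg hbY hdY (h1.mono fun v hv => ⟨hv.1.1, hv.2⟩)
  · intro v hv
    have := (mem_ann0.1 (h.com.WS hv).2).1
    omega
  · rintro ⟨x, hx, y, hy, hxy⟩
    exact h.com.cM ⟨x, hx, y, hy, hxy.mono fun v hv => ⟨⟨hv.1.1.1, hv.1.2⟩, hv.2⟩⟩
  · intro v hv
    have h1 : Conn (o.P1 g f) o.e.p v := hv
    have h2 := h.h.G0X v h1
    have h4 := mem_ball0.1 h1.right.2
    have h5 := h.h.low v h1
    refine ⟨⟨h1.right.1, mem_ann0.2 ⟨by omega, by omega⟩⟩, ?_⟩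
    rintro (h6 | h6)
    · exact Obj.cl_ne h (by rw [← h.h.gab]; exact h.h.g0a) h2 (h6 ▸ hbY)
    · have h6' : v = o.vd := h6
      have h7 : grp o.e'.ia = grp o.e'.ib := h.h'.gab
      exact Obj.cl_ne h (by rw [← h7]; exact h.com.g0d) h2 (h6' ▸ hdY)
  · exact ⟨o.e.p, Conn.refl hpp, by omega⟩
  · rintro v ⟨hv | hv, hv'⟩
    · by_cases h1 : Conn (o.P1 g f) o.e'.p v
      · exact h3 v h1
      · exact hF.sup v hv.1 hv' h1
    · exact hF.w hv

end Final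

section Final2

variable (hG : GeoOK g m k) (h : Obj g lam f omJ o) (hF : FH g f F o)

include hG h hF

/-- (5d): `u` is joined to the start of the other end. -/
theorem obj_ux (h0 : ∀ u, 0 ≤ lam u) (h3 : ∀ v, Conn (o.P1 g f) o.e'.p v → v ∈ Op 0 F) :
    Conn (Op 0 F) o.e.u o.e'.x0 := by
  have c1 : Conn (Op 0 F) o.e.u o.vb := (obj_cv hG h hF h0).2.mono Set.inter_subset_left
  have c2 := obj_vv hG h hF h3
  have c3 : Conn (Op 0 F) o.e'.u o.vd :=
    (obj_cv (o := o.flip) hG h.flip hF.flip h0).2.mono Set.inter_subset_left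
  have ht : Conn (o.P1 g f) o.e'.p o.e'.t := by
    have h2 := h.h'.pt
    rwa [flip_p1] at h2
  have hx : Conn (o.P1 g f) o.e'.p o.e'.x0 := by
    have h2 := h.h'.px
    rwa [flip_p1] at h2
  have c4 : Conn (Op 0 F) o.e'.t o.e'.x0 := by
    refine ((ht.symm.trans hx).in_comp).mono fun v hv => h3 v ?_
    exact ht.trans hv
  have c5 : Adj o.e'.u o.e'.t := h.h'.ut
  exact c1.trans (c2.trans (c3.symm.trans ((Conn.of_adj c3.left c4.left c5).trans c4)))

end Final2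

/-- `G0` and `G3` are disjoint. -/
theorem obj_dg (h : Obj g lam f omJ o) :
    Disjoint (comp (o.P1 g f) o.e.p) (comp (o.P1 g f) o.e'.p) := by
  rw [Set.disjoint_left]
  intro v hv hv'
  have h1 := h.h'.G0X v (by rw [flip_p1]; exact hv')
  exact Obj.cl_ne h h.com.g03 (h.h.G0X v hv) h1

/-- The vertices of the joint are in no component of `P1`. -/
theorem obj_ug (h : Obj g lam f omJ o) {p : V} (hv : v ∈ o.e.U1) :
    v ∉ comp (o.P1 g f) p := fun h1 => Obj.u1_nP h hv (comp_subset h1).1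

theorem obj_ug' (h : Obj g lam f omJ o) {p : V} (hv : v ∈ o.e'.U1) :
    v ∉ comp (o.P1 g f) p := fun h1 => by
  have h2 := Obj.u1_nP (o := o.flip) h.flip hv
  rw [flip_p] at h2
  exact h2 (comp_subset h1).1

theorem obj_uu (h : Obj g lam f omJ o) : o.e.u ≠ o.e'.u := by
  intro e
  have h1 : o.e.u ∈ Sig g.r g.R (o.B o.e.i0) (o.B o.e'.i0) (o.b o.e.ia) :=
    h.h.US (Set.mem_insert _ _)
  have h2 : o.e'.u ∈ Sig g.r g.R (o.B o.e'.i0) (o.B o.e.i0) (o.b o.e'.ia) :=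
    h.h'.US (Set.mem_insert _ _)
  rw [sig_comm, ← e] at h2
  exact Set.disjoint_left.1 h.com.four.sig_disj h1 h2

end Pool.Agent.MSTS
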