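import Pool.Agent.MSTS.ObjA

/-!
# (S): existence of the objects, part T: the turns, the vertices of the cut, the tails

`TF`: the facts of the turn of one end; `turn_ex0`, `turn_ex3`: existence for the two ends.
`half_of`: the facts of one end from the joint (`JF`) and the turn (`TF`).
-/

set_option autoImplicit false

namespace Pool.Agent.MSTS

open Pool.Agent.TriPerc Pool.Agent.MST Pool.Agent.MSTG

variable {g : Geo} {lam : V → ℝ} {f : Lab} {omJ : ℝ} {o : ObjD} {m : ℕ → ℤ} {om : ℕ → ℝ} {k : ℕ}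
  {UJ KJ : Set V}

/-- The turn. -/
structure TF (g : Geo) (lam : V → ℝ) (f : Lab) (omJ : ℝ) (o : ObjD) (UJ KJ : Set V) :
    Prop where
  j1 : 3 * g.md ≤ o.e.j1
  ja : o.e.j1 < o.e.a
  ab : o.e.a ≤ o.e.bb
  bj : o.e.bb < o.e.j2
  j2 : 2 * o.e.j2 ≤ g.m0
  m1 : 2 * g.m1 < o.e.a ∨ o.e.bb < g.m1
  Jom : ∀ u ∈ KJ, omJ ≤ lam u
  JU : UJ ⊆ (Upp lam f \ Low lam f) ∩ Ann 0 o.e.a o.e.bb
  Jas : UJ ⊆ As (Low lam f) (Upp lam f)
  Kc : IsConn KJ
  JK : UJ ⊆ KJ
  KL : KJ ⊆ Low lam f ∪ UJ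
  KA : KJ ⊆ Ann 0 o.e.a o.e.bb
  KX : ∀ k, grp k ≠ grp o.e.ia → Disjoint KJ (Cl f g.r g.R o.z k)
  K0 : ∃ y ∈ o.X g f, ∃ k ∈ KJ, Adj y k
  K3 : ∃ y ∈ o.X' g f, ∃ k ∈ KJ, Adj y k
  KY : ¬ Arm (o.Y g f \ KJ) 0 o.e.j1 o.e.j2

/-- The turn of the first end. -/
theorem turn_ex0 (G : GeoOK g m k) (S : SGood g lam f omJ m om k) (h : Pre g lam f omJ o)
    (hs : Std g o) : ∃ UJ KJ, TF g lam f omJ o UJ KJ := by
  have hG := G.all
  obtain ⟨U, K, k1, k2, k3, k4, k5, k6, k7, k8, k9, k10⟩ := turn_half (Lo := Low lam f)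
    (Up := Upp lam f) (j1 := g.j1) (s := g.a2) (a := g.a2 + 1) (m := g.m2) (b := g.b2 - 1)
    (s' := g.b2) (j2 := g.j2) h.wit.inj h.lo h.up (by omega) (by omega) (by omega) (by omega)
    (by omega) (by omega) (by omega) (by omega) (by omega) (by omega) h.wit.efz S.cl2 S.cl2i
    S.cl2o S.u2
  have e1 := hs.j1
  have e2 := hs.a
  have e3 := hs.bb
  have e4 := hs.j2
  have hgr : grp o.e.ia = 1 := by
    rcases hs.iab with ⟨h1, -⟩ | ⟨h1, -⟩ <;> rw [h1] <;> rfl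
  have hKA : K ⊆ Ann 0 g.a2 g.b2 := fun v hv => by
    have := mem_ann0.1 (k6 hv)
    exact mem_ann0.2 ⟨by omega, by omega⟩
  refine ⟨U, K, ⟨by omega, by omega, by omega, by omega, by omega, Or.inl (by omega),
    fun v hv => ?_, ?_, k2, k3, k4, k5, ?_, ?_, ?_, ?_, ?_⟩⟩
  · have := mem_ann0.1 (k6 hv)
    exact S.J2 v (by omega) (by omega)
  · rw [e2, e3]
    exact fun v hv => ⟨(k1 hv).1, hKA (k4 hv)⟩
  · rw [e2, e3]
    exact hKA
  · intro k hk
    exact k7 k (by rwa [hgr] at hk)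
  · unfold ObjD.X
    rw [hs.i0]
    exact k8
  · unfold ObjD.X'
    rw [hs.i3]
    exact k9
  · rw [e1, e4]
    unfold ObjD.Y
    rcases hs.iab with ⟨h1, h2⟩ | ⟨h1, h2⟩
    · rw [h1, h2]
      exact k10
    · rw [h1, h2, Set.union_comm]
      exact k10

/-- The turn of the second end. -/
theorem turn_ex3 (G : GeoOK g m k) (S : SGood g lam f omJ m om k) (h : Pre g lam f omJ o)
    (hs : Std g o) : ∃ UJ KJ, TF g lam f omJ o.flip UJ KJ := by
  have hG := G.all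
  obtain ⟨U, K, k1, k2, k3, k4, k5, k6, k7, k8, k9, k10⟩ := turn_half (Lo := Low lam f)
    (Up := Upp lam f) (j1 := g.p1) (s := g.a5) (a := g.a5 + 1) (m := g.m5) (b := g.b5 - 1)
    (s' := g.b5) (j2 := g.p2) h.wit.inj h.lo h.up (by omega) (by omega) (by omega) (by omega)
    (by omega) (by omega) (by omega) (by omega) (by omega) (by omega) (efz_flip h.wit.efz) S.cl5
    S.cl5i S.cl5o S.u5
  have e1 : o.flip.e.j1 = g.p1 := hs.p1
  have e2 : o.flip.e.a = g.a5 := hs.a'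
  have e3 : o.flip.e.bb = g.b5 := hs.bb'
  have e4 : o.flip.e.j2 = g.p2 := hs.p2
  have hgr : grp o.flip.e.ia = 3 := by
    change grp o.e'.ia = 3
    rcases hs.icd with ⟨h1, -⟩ | ⟨h1, -⟩ <;> rw [h1] <;> rfl
  have hKA : K ⊆ Ann 0 g.a5 g.b5 := fun v hv => by
    have := mem_ann0.1 (k6 hv)
    exact mem_ann0.2 ⟨by omega, by omega⟩
  refine ⟨U, K, ⟨by omega, by omega, by omega, by omega, by omega, Or.inr (by omega),
    fun v hv => ?_, ?_, k2, k3, k4, k5, ?_, ?_, ?_, ?_, ?_⟩⟩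
  · have := mem_ann0.1 (k6 hv)
    exact S.J5 v (by omega) (by omega)
  · rw [e2, e3]
    exact fun v hv => ⟨(k1 hv).1, hKA (k4 hv)⟩
  · rw [e2, e3]
    exact hKA
  · intro k hk
    rw [hgr] at hk
    have h1 : grp (k + 3) ≠ 1 := by
      revert hk
      revert k
      decide
    have h2 := k7 (k + 3) h1
    have h3 : ∀ k : Fin 6, k + 3 + 3 = k := by decide
    change Disjoint K (Cl f g.r g.R o.z (k + 3 + 3)) at h2
    rw [h3 k] at h2
    exact h2
  · change ∃ y ∈ Cl f g.r g.R o.z o.e'.i0, ∃ k ∈ K, Adj y k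
    rw [hs.i3]
    exact k8
  · change ∃ y ∈ Cl f g.r g.R o.z o.e.i0, ∃ k ∈ K, Adj y k
    rw [hs.i0]
    exact k9
  · rw [e1, e4]
    change ¬ Arm ((Cl f g.r g.R o.z o.e'.ia ∪ Cl f g.r g.R o.z o.e'.ib) \ K) 0 g.p1 g.p2
    rcases hs.icd with ⟨h1, h2⟩ | ⟨h1, h2⟩
    · rw [h1, h2]
      exact k10
    · rw [h1, h2, Set.union_comm]
      exact k10

section

variable (G : GeoOK g m k) (h : Pre g lam f omJ o)

include h

/-- The vertices of the cut which are kept. -/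
theorem Pre.nT {kk : Fin 6} : g.mM ≤ nrm (o.T kk (o.l kk)) ∧ nrm (o.T kk (o.l kk)) ≤ 2 * g.mM :=
  mem_ann0.1 (h.sc (h.arm kk).mem).2

theorem Pre.vbS : o.vb ∈ Sig g.r g.R (o.B o.e.i0) (o.B o.e'.i0) (o.b o.e.ia) := by
  have h4 := h.four
  have hg0 : grp o.e.i0 ≠ grp o.e.ib := by
    rw [← h.gab]
    exact h.g0a
  have hg3 : grp o.e'.i0 ≠ grp o.e.ib := by
    rw [← h.gab]
    exact h.ga3.symm
  refine h4.flip.sig_root (fun v hv nv => bs_foot h.wit h.cut h.arm hv nv)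
    (fun v hv nv => bs_foot h.wit h.cut h.arm hv nv) (h.wit.root o.e.ib).last
    (sep_symm h.sep4) ?_
  refine conn_seg (h.arm o.e.ib).ln.le (fun q _ q2 => h.tadj (by omega)) fun q q1 q2 => ?_
  refine ⟨(h.tA q2).2, ?_⟩
  rintro (hv | hv)
  · exact Set.disjoint_left.1 (h.cl_dj hg0) (h.bcl hv) (h.tcl q2)
  · exact Set.disjoint_left.1 (h.cl_dj hg3) (h.bcl hv) (h.tcl q2)

/-- The root path of `v_b` in the tree configuration. -/
theorem Pre.vbR : Rt (Ann 0 g.r g.R) (Cir g.r) o.gl o.vb (o.rh o.e.ib) ∧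
    ∃ w ∈ Cir g.r, Conn (Op 0 o.gl ∩ Ann 0 g.r g.R) o.vb w := by
  refine ⟨(rt_tail h.wit h.arm h.gl (j := o.e.ib) (i := o.l o.e.ib) (Or.inr ⟨rfl, Or.inl rfl⟩)
    (h.arm o.e.ib).ln.le).2, o.rh o.e.ib, (h.wit.root o.e.ib).last, ?_⟩
  refine conn_seg (h.arm o.e.ib).ln.le (fun q _ q2 => h.tadj (by omega)) fun q q1 q2 => ?_
  have h1 := h.tA (kk := o.e.ib) q2
  refine ⟨?_, h1.2⟩
  change o.gl _ ≤ 0
  rw [h.gl.eq _ ?_]
  · exact h1.1
  · rcases Nat.eq_or_lt_of_le q1 with e | e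
    · rw [← e]
      exact Or.inr (Or.inl rfl)
    · exact Or.inl ((h.arm o.e.ib).after q e q2)

include G

theorem Pre.vbP : o.vb ∈ o.P f := by
  have hG := G.all
  have h1 := h.nT (kk := o.e.ib)
  have h2 := (h.tA (h.arm o.e.ib).ln.le).1
  refine ⟨h2, ?_⟩
  rintro (((h' | h') | h') | h')
  · exact h'.2 (Or.inl rfl)
  · have := mem_ann0.1 (h.s0 h').2
    have h3 : g.mM ≤ nrm o.vb := h1.1
    omega
  · have := mem_ann0.1 (h.s1 h').2
    have h3 : g.mM ≤ nrm o.vb := h1.1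
    omega
  · have := mem_ann0.1 (h.sd h').2
    have h3 : g.mM ≤ nrm o.vb := h1.1
    omega

theorem Pre.rT {kk : Fin 6} {i : ℕ} (hk0 : grp o.e.i0 ≠ grp kk) (hk3 : grp kk ≠ grp o.e'.i0)
    (h1 : o.l kk < i) (h2 : i ≤ o.n kk) (hd : 2 * g.md < nrm (o.T kk i)) :
    o.T kk i ∈ o.P1 g f := by
  have hX : o.T kk i ∉ o.X g f ∪ o.X' g f := by
    rintro (hv | hv)
    · exact Set.disjoint_left.1 (h.cl_dj hk0) hv (h.tcl h2)
    · exact Set.disjoint_left.1 (h.cl_dj hk3) (h.tcl h2) hv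
  exact h.tP1 G h1 h2 (fun hv => hX (h.s0 hv).1.1) (fun hv => hX (h.s1 hv).1.1) hd

/-- The turn is on its side. -/
theorem Pre.KS (ht : TF g lam f omJ o UJ KJ) :
    KJ ⊆ Sig g.r g.R (o.B o.e.i0) (o.B o.e'.i0) (o.b o.e.ia) := by
  have hG := G.all
  have h4 := h.four
  have t1 := ht.j1
  have t2 := ht.ja
  have t3 := ht.bj
  have t4 := ht.j2
  obtain ⟨v, hv, hvB⟩ : ∃ v ∈ KJ, v ∈ o.B o.e.ia := by
    by_contra hc
    push Not at hc
    have h1 : Conn (o.Y g f \ KJ) (o.rh o.e.ia) (o.b o.e.ia) :=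
      (h4.cr.c1 _ h4.inn.m1 _ h4.out.m1).mono fun v hv =>
        ⟨Or.inl (h.bcl hv), fun hv' => hc v hv' hv⟩
    refine ht.KY (arm_of_conn (z := 0) h1 ?_ ?_ ?_)
    · rw [sub_zero, h4.inn.n1]
      omega
    · rw [sub_zero, h4.out.n1]
      omega
    · have := ht.ab
      omega
  refine h4.sig_of_meet ht.Kc (fun w hw => ?_) ?_ hv hvB
  · have := mem_ann0.1 (ht.KA hw)
    exact mem_ann0.2 ⟨by omega, by omega⟩
  · rw [Set.disjoint_union_right]
    exact ⟨(ht.KX _ h.g0a).mono_right h.bcl, (ht.KX _ h.ga3.symm).mono_right h.bcl⟩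

/-- The turn is not raised. -/
theorem Pre.KP (ht : TF g lam f omJ o UJ KJ) : Disjoint KJ o.Rs := by
  have hG := G.all
  have t1 := ht.j1
  have t2 := ht.ja
  have t3 := ht.bj
  have t4 := ht.j2
  rw [Set.disjoint_left]
  intro v hv hv'
  have h1 := mem_ann0.1 (ht.KA hv)
  rcases hv' with ((hv' | hv') | hv') | hv'
  · have := mem_ann0.1 (h.sc hv'.1).2
    omega
  · have := mem_ann0.1 (h.s0 hv').2
    omega
  · have := mem_ann0.1 (h.s1 hv').2
    rcases ht.m1 with h2 | h2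
    · omega
    · omega
  · have := mem_ann0.1 (h.sd hv').2
    omega

end

/-- New data of one end. -/
def EndD.upd (e : EndD) (x p q u x0 t : V) (k U UJ KJ : Set V) : EndD :=
  { e with x := x, p := p, q := q, u := u, x0 := x0, t := t, k := k, U := U, UJ := UJ, KJ := KJ }

/-- New data. -/
def ObjD.upd (o : ObjD) (W : Set V) (e e' : EndD) : ObjD := { o with W := W, e := e, e' := e' }

/-- The facts of one end. -/
theorem half_of {x p q u x0 t x' p' q' u' x0' t' : V} {kb U kb' U' UJ' KJ' W : Set V}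
    (G : GeoOK g m k) (h : Pre g lam f omJ o) (hJ : JF g lam f o x p q u x0 t kb U)
    (hT : TF g lam f omJ o UJ KJ) :
    Half g lam f omJ (o.upd W (o.e.upd x p q u x0 t kb U UJ KJ)
      (o.e'.upd x' p' q' u' x0' t' kb' U' UJ' KJ')) := by
  have hG := G.all
  have t1 := hT.j1
  have hgb0 : grp o.e.i0 ≠ grp o.e.ib := by
    rw [← h.gab]
    exact h.g0a
  have hgb3 : grp o.e.ib ≠ grp o.e'.i0 := by
    rw [← h.gab]
    exact h.ga3
  have hKS := h.KS G hT
  have hKP := h.KP G hT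
  have hnT := h.nT (kk := o.e.ib)
  have hvP := h.vbP G
  have hvY : o.vb ∈ Cl f g.r g.R o.z o.e.ib := h.tcl (h.arm o.e.ib).ln.le
  have hvS := h.vbS
  have hvR := h.vbR
  exact
    { gab := h.gab
      nab := h.nab
      g0a := h.g0a
      nx := hJ.nx
      xB := hJ.xB
      hx := hJ.hx
      hx' := hJ.hx'
      sepb := h.sepb
      kc := hJ.kc
      kS := hJ.kS
      kq := hJ.kq
      Uk := hJ.Uk
      uU := hJ.uU
      Uf := hJ.Uf
      Uas := hJ.Uas
      UC := fun v hv => (hJ.kS (hJ.Uk hv)).2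
      US := hJ.US
      UX := fun k => by
        rw [Set.disjoint_left]
        intro v hv hv'
        exact absurd (hJ.Uf v hv) (not_lt.2 (comp_subset hv').1)
      pT := hJ.pT
      qT := hJ.qT
      np := hJ.np
      np' := hJ.np'
      nq := hJ.nq
      nq' := hJ.nq'
      pq := hJ.pq
      pU := hJ.pU
      ut := hJ.ut
      pt := hJ.pt
      Uno := hJ.Uno
      uq := hJ.uq
      uv := hJ.uv
      px := hJ.px
      nx0 := hJ.nx0
      low := hJ.low
      G0X := hJ.G0X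
      G0I := hJ.G0I
      c2 := hJ.c2
      j1 := hT.j1
      ja := hT.ja
      ab := hT.ab
      bj := hT.bj
      j2 := hT.j2
      Jom := hT.Jom
      JU := hT.JU
      Jas := hT.Jas
      Kc := hT.Kc
      JK := hT.JK
      KL := hT.KL
      KA := hT.KA
      KX := hT.KX
      K0 := hT.K0
      K3 := hT.K3
      KY := hT.KY
      KS := hKS
      KP := hKP
      nvb := hnT.1
      nvb' := hnT.2
      vbP := hvP
      vbY := hvY
      vbS := hvS
      vbR := hvR.1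
      vbW := hvR.2
      ta := fun i i1 i2 i3 => by
        have i3' : o.e.j1 ≤ nrm (o.T o.e.ia i) := i3
        have h5 : o.T o.e.ia i ∈ o.P1 g f := h.rT G (kk := o.e.ia) h.g0a h.ga3 i1 i2 (by omega)
        exact h5
      tb := fun i i1 i2 i3 => by
        have i3' : o.e.j1 ≤ nrm (o.T o.e.ib i) := i3
        have i1' : o.l o.e.ib ≤ i := i1
        rcases Nat.eq_or_lt_of_le i1' with e | e
        · have h1 := hvP
          have h2 := hnT.2
          refine ⟨?_, mem_ball0.2 ?_⟩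
          · change o.T o.e.ib i ∈ o.P f
            rw [← e]
            exact h1
          · change nrm (o.T o.e.ib i) ≤ g.c - 1
            rw [← e]
            omega
        · have h5 : o.T o.e.ib i ∈ o.P1 g f := h.rT G (kk := o.e.ib) hgb0 hgb3 e i2 (by omega)
          exact h5 }

end Pool.Agent.MSTS
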