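import Mathlib
import Pool.Agent.MSTG.Conf
import Pool.Agent.MST.CutP

/-!
# Crossings off the main components

`fg_gr`: four arms in a graph.  `opc`: let `Y` be a set of vertices which is closed under the
adjacency inside the open set `O` and consists of open vertices and of vertices without mixed
four arms in the annulus `2 m ≤ nrm ≤ 4 m`.  If `Y` joins `nrm ≤ m` to `8 m ≤ nrm`, then the open
vertices of `Y` cross the annulus.

PROOF.  Otherwise take a minimal set `T` of vertices of `H ∩ Y` in the annulus such that `Y \ T`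
does not join the inside to the outside, and `v ∈ T`.  Its two sides in `Y \ T` are not joined in
the graph `EG (Y \ T) ⊔ EG O` because `Y` is closed; this graph is between `EG Lo` and `EG Up`.
-/

set_option autoImplicit false

namespace Pool.Agent.MSTG

open Pool.Agent.TriPerc Pool.Agent.MST Set

private theorem adj_one' {u p : V} (h : Adj u p) : nrm (p - u) ≤ 2 := by
  have h1 := (abs_le.1 (nrm_adj h u)).2
  rw [sub_self, nrm_zero_iff.2 rfl] at h1
  omega

private theorem tri1' (a u : V) : nrm a ≤ nrm (a - u) + nrm u := by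
  have h := nrm_add (a - u) u
  rwa [sub_add_cancel] at h

private theorem tri2' (a u : V) : nrm u ≤ nrm (a - u) + nrm a := by
  have h := nrm_add (-(a - u)) a
  rwa [nrm_neg, neg_sub, sub_add_cancel] at h

private theorem cut_univ' {G : SimpleGraph V} : cut G univ = G := by
  ext a b
  change (G.Adj a b ∧ a ∈ univ ∧ b ∈ univ) ↔ G.Adj a b
  exact ⟨fun h => h.1, fun h => ⟨h, mem_univ _, mem_univ _⟩⟩

/-- Four arms in a graph. -/
theorem fg_gr {G : SimpleGraph V} {u p q a b : V} {d : ℤ} (hG : G ≤ EG univ) (hp : Adj u p)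
    (hq : Adj u q) (h : ¬ G.Reachable p q) (hpa : G.Reachable p a) (hqb : G.Reachable q b)
    (ha : d ≤ nrm (a - u)) (hb : d ≤ nrm (b - u)) (hd : 3 ≤ d) : FourG G u 2 d := by
  refine fg_of_reach (D := Set.univ) hG ?_ ?_ ?_ (adj_one' hp) ha (adj_one' hq) hb (by omega)
    (Set.subset_univ _)
  · rwa [cut_univ']
  · rwa [cut_univ']
  · rwa [cut_univ']

/-- Minimal cuts between two sets. -/
theorem mincut_set {X C A B : Set V} (hC : C.Finite) (hcut : ¬ Join (X \ C) A B) :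
    ∃ T ⊆ C, ¬ Join (X \ T) A B ∧ ∀ v ∈ T, Join (X \ (T \ {v})) A B := by
  obtain ⟨j, -, T, hT, -, h1, h2⟩ := cut_pigeon (X := X) (A := A) hC (B := fun _ => B)
    (N := C.ncard) (fun _ _ _ h => h) ⟨C, subset_rfl, le_rfl, hcut⟩
  exact ⟨T, hT, h1, h2⟩

theorem opc {Lo Up O H Y : Set V} {m : ℤ} (hm : 24 ≤ m) (hLO : Lo ⊆ O) (hOU : O ⊆ Up)
    (hYU : Y ⊆ Up) (hH : ∀ u ∈ H, ¬ Mx Lo Up u)
    (hYO : ∀ y ∈ Y, y ∈ O → ∀ z ∈ O, Adj y z → z ∈ Y)
    (hYN : ∀ v ∈ Y, 2 * m ≤ nrm v → nrm v ≤ 4 * m → v ∈ O ∨ v ∈ H)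
    (hc : Join Y {v | nrm v ≤ m} {v | 8 * m ≤ nrm v}) : Arm (Y ∩ O) 0 (2 * m) (4 * m) := by
  by_contra harm
  have e0 : ∀ v : V, v - 0 = v := fun v => sub_zero v
  have hCf : {v | v ∈ Y ∧ v ∉ O ∧ v ∈ Ann 0 (2 * m) (4 * m)}.Finite :=
    (finite_ann 0 (2 * m) (4 * m)).subset fun v hv => hv.2.2
  obtain ⟨T, hTC, hT1, hT2⟩ := mincut_set (X := Y) (A := {v | nrm v ≤ m})
    (B := {v | 8 * m ≤ nrm v}) hCf (by
    rintro ⟨a, ha, b, hb, hab⟩
    have ha' : nrm a ≤ m := ha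
    have hb' : 8 * m ≤ nrm b := hb
    have h1 := arm_of_conn (z := 0) (n := 2 * m) (m := 4 * m) hab
      (by rw [e0]; omega) (by rw [e0]; omega) (by omega)
    apply harm
    obtain ⟨a1, k1, a2, k2, k3⟩ := h1
    refine ⟨a1, k1, a2, k2, k3.mono ?_⟩
    rintro v ⟨⟨hv1, hv2⟩, hv3⟩
    refine ⟨⟨hv1, ?_⟩, hv3⟩
    by_contra hv4
    exact hv2 ⟨hv1, hv4, hv3⟩)
  have hne : T.Nonempty := by
    by_contra hne
    rw [not_nonempty_iff_eq_empty] at hne
    apply hT1
    rw [hne, sdiff_empty]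
    exact hc
  obtain ⟨v, hv⟩ := hne
  obtain ⟨hvY, hvO, hvA⟩ := hTC hv
  have v1 : 2 * m ≤ nrm v := by
    have := hvA.1
    rwa [e0] at this
  have v2 : nrm v ≤ 4 * m := by
    have := hvA.2
    rwa [e0] at this
  obtain ⟨-, ⟨p, hp, a, ha, hap⟩, q, hq, b, hb, hbq⟩ := cut_arms (v := v)
    (fun h => by have : nrm v ≤ m := h; omega) (fun h => by have : 8 * m ≤ nrm v := h; omega)
    hT1 (hT2 v hv)
  have hpq : ¬ Conn (Y \ T) p q := fun h => hT1 ⟨a, ha, b, hb, hap.trans (h.trans hbq.symm)⟩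
  have key : ∀ x y, x ∈ Y \ T → (EG (Y \ T) ⊔ EG O).Reachable x y → Conn (Y \ T) x y := by
    intro x y hx h
    rw [SimpleGraph.reachable_iff_reflTransGen] at h
    induction h with
    | refl => exact Conn.refl hx
    | tail h1 h2 ih =>
      rename_i b' c'
      have hb' : b' ∈ Y \ T := ih.right
      rcases h2 with h3 | h3
      · exact ih.trans (Conn.of_adj h3.2.1 h3.2.2 h3.1)
      · have hc' : c' ∈ Y := hYO b' hb'.1 h3.2.1 c' h3.2.2 h3.1
        exact ih.trans (Conn.of_adj hb' ⟨hc', fun h4 => (hTC h4).2.1 h3.2.2⟩ h3.1)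
  have up : ∀ x y, Conn (Y \ T) x y → (EG (Y \ T) ⊔ EG O).Reachable x y := fun x y h =>
    ((reach_eg h.left).2 h).mono le_sup_left
  have hG : EG (Y \ T) ⊔ EG O ≤ EG Up :=
    sup_le (eg_mono (sdiff_subset.trans hYU)) (eg_mono hOU)
  rcases hYN v hvY v1 v2 with h | h
  · exact hvO h
  refine hH v h ⟨EG (Y \ T) ⊔ EG O, (eg_mono hLO).trans le_sup_right, hG, ?_⟩
  have ha' : nrm a ≤ m := ha
  have hb' : 8 * m ≤ nrm b := hb
  refine fg_gr (a := a) (b := b) (hG.trans (eg_mono (subset_univ _))) hp hq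
    (fun h => hpq (key p q hap.right h)) (up p a hap.symm) (up q b hbq.symm) ?_ ?_ ?_
  · have := tri2' a v
    unfold dd
    omega
  · have := tri1' b v
    unfold dd
    omega
  · unfold dd
    omega

end Pool.Agent.MSTG
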