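import Mathlib
import Pool.Agent.MSTS.Path
import Pool.Agent.MSTS.KeyE
import Pool.Agent.MSTS.SixA
import Pool.Agent.MST.Lim

/-!
# Part (S), section 6: from the static facts to the strong pattern

(text: `/team-store/MST_S_helper95.md`, section 6)

`EndF`: the facts about one end of the final configuration `F`, which do not mention the tree path:
`G` is the piece of the tree configuration at the inner end (`G0`), `u` the only exit of `G`, `U` the joint, `v` the vertex of the cut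
on this side, `v'` the other one, `g` the labels of the tree configuration, `K` the turn.
`ends_ps`: two such ends and the chain of the gates give the strong pattern (`six_a`, `key_end`, `path_ps`).
-/

namespace Pool.Agent.MSTS

open Pool.Agent.TriPerc Pool.Agent.MST Pool.Agent.MSTG

/-- The facts about one end of the final configuration. -/
structure EndF (F g : Lab) (O' O G X Y U K : Set V) (r rho n2 mM c R j1 j2 a b : ℤ) (s : ℝ)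
    (u v v' ρb : V) : Prop where
  Gcl : ∀ z ∈ G, ∀ w, Adj z w → w ∈ Op 0 F → w ∈ G ∨ w = u
  GX : G ⊆ X ∩ O
  uU : u ∈ U
  uF : F u ≤ 0
  nu : n2 < nrm u
  nu' : nrm u ≤ mM
  nv : mM < nrm v
  nv' : nrm v < c
  vU : v ∉ U
  vY : v ∈ Y
  cv : Conn (Op 0 F ∩ Ball 0 (c - 1)) u v
  cv' : ¬ Conn (Op 0 F ∩ Ball 0 (c - 1)) u v'
  sa : ∀ z, Conn (Op 0 F ∩ Ball 0 (c - 1)) u z → z ∈ O' ∨ z ∈ U ∨ nrm z < rho
  UR : ∀ z ∈ U, rho < nrm z
  OO : O' ⊆ O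
  clX : ∀ z ∈ X, ∀ z' ∈ O, r ≤ nrm z' → nrm z' ≤ R → Adj z z' → z' ∈ X
  clY : ∀ z ∈ Y, ∀ z' ∈ O, r ≤ nrm z' → nrm z' ≤ R → Adj z z' → z' ∈ Y
  -- the tree configuration
  Og : ∀ z ∈ O', r ≤ nrm z → nrm z < c → g z ≤ 0
  gY : ∀ z, Conn (Op 0 g ∩ Ann 0 r R) v z → z ∈ Y
  vW : ∃ w ∈ Cir r, Conn (Op 0 g ∩ Ann 0 r R) v w
  root : Rt (Ann 0 r R) (Cir r) g v ρb
  c2 : ∀ u ∈ U, ∀ y ∈ Y, Adj u y → g y ≤ 0 →
    (∃ w ∈ Cir r, Conn (Op 0 g ∩ Ann 0 r R) y w) → ¬ Rt (Ann 0 r R) (Cir r) g y ρb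
  -- (5a)
  FY : ∀ z ∈ Y, g z ≤ 0 → j1 ≤ nrm z → F z ≤ g z
  Fg : ∀ z ∈ Y, z ∈ O' → rho < nrm z → nrm z < c → F z = g z
  -- the turn
  rj : r ≤ j1
  jj : j1 < j2
  jr : j2 ≤ rho
  ab : a < b
  br : b ≤ rho
  Kc : IsConn K
  Ks : ∀ z ∈ K, F z < s
  Ka : ∀ z ∈ K, nrm z ≤ a
  Km : ¬ Arm (Y \ K) 0 j1 j2
  ns : ¬ Arm {z | g z < s} 0 a b

variable {F g : Lab} {O' O G G' X X' Y Y' U U' K K' : Set V}
  {r rho rm n2 mM c R j1 j2 a b j1' j2' a' b' mt mu lo rhoG : ℤ} {s s' : ℝ} {u u' v v' ρb ρb' : V}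

/-- The facts about one end of the path. -/
theorem EndF.endIn (H : EndF F g O' O G X Y U K r rho n2 mM c R j1 j2 a b s u v v' ρb)
    (hg : Function.Injective g) (hcR : c ≤ R) {h : ℕ → V} {N t1 t3 : ℕ}
    (hh : IsPa (MT Set.univ ∅ F) h N) (h1 : t1 ≤ t3) (h3 : t3 ≤ N) (hu : h t1 = u)
    (hG : ∀ i < t1, h i ∈ G) (n0 : nrm (h 0) ≤ rho) (hop : ∀ k, t1 ≤ k → k ≤ t3 → F (h k) ≤ 0) :
    EndIn (Op 0 F) O' O X Y U r rho rm n2 mM c R h N t1 t3 v v' where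
  adj i hi := (hh.step i hi).1
  inj := hh.inj
  t13 := h1
  t3N := h3
  op := hop
  g k hk := H.GX (hG k hk)
  n0 := n0
  uU := hu ▸ H.uU
  nu := hu ▸ H.nu
  nu' := hu ▸ H.nu'
  nv := H.nv
  nv' := H.nv'
  cv := hu ▸ H.cv
  cv' := hu ▸ H.cv'
  sa z hz := H.sa z (hu ▸ hz)
  vY := H.vY
  UR := H.UR
  OO := H.OO
  clX := H.clX
  clY := H.clY
  key q kb q1 q2 q3 q4 q5 q6 :=
    key_end hg hh q2 (by omega) q4 q5 H.vU (fun k k1 k2 => by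
      have e1 := q6 k (by omega) k2
      have e2 := mem_ball0.1 e1.right.2
      exact ⟨by omega, H.sa _ (hu ▸ e1)⟩) hcR H.Og H.gY H.vW H.FY H.Fg H.rj H.jj H.jr H.ab H.br
      H.Kc H.Ks H.Ka H.Km H.ns H.root H.c2

/-- **The strong pattern from the static facts.** -/
theorem ends_ps {e α β : ℝ} {x t x3 : V} {m : ℕ → ℤ} {om : ℕ → ℝ} {k : ℕ} {vv p z : ℕ → V}
    (hF : Function.Injective F) (hg : Function.Injective g)
    (H : EndF F g O' O G X Y U K r rho n2 mM c R j1 j2 a b s u v v' ρb)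
    (H' : EndF F g O' O G' X' Y' U' K' r rho n2 mM c R j1' j2' a' b' s' u' v' v ρb')
    -- the chain of the gates
    (hc : Chain F rhoG lo x t m om k vv p z) (hk : 0 < k)
    (hm : ∀ l < k, 64 ≤ m l) (hmm : ∀ l, l + 1 < k → 64 * m (l + 1) ≤ m l)
    (hom : ∀ l < k, 0 < om l) (hun : ∀ l < k, 3 * m l ≤ nrm u) (hvG : ∀ l < k, vv l ∈ G)
    (htu : Adj t u) (hx3 : x3 ∈ G') (hd : Disjoint G G') (hu3 : u ∉ G') (huu : u ≠ u')
    (hux : Conn (Op 0 F) u x3) (hfin : (comp (Op 0 F) u).Finite)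
    -- planar facts
    (cut : ∀ x y, nrm x ≤ mM → c ≤ nrm y → ¬ Conn (Op 0 F \ {v, v'}) x y)
    (d0 : Disjoint X Y) (d0' : Disjoint X Y') (d3 : Disjoint X' Y) (d3' : Disjoint X' Y')
    (ord : ∀ x0 x3 y y', Cr (X ∩ O) rho n2 x0 → Cr (X' ∩ O) rho n2 x3 → Cr (Y ∩ O) rho n2 y →
      Cr (Y' ∩ O) rho n2 y' → SepC rho y y' x0 x3)
    (mg : ∀ z, nrm z = rm → ¬ Four O z mt mu)
    -- numbers
    (ht : 0 ≤ mt) (htm : mt < mu) (hr : r ≤ rho)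
    (hrr : rho < rm) (hrn : rm < n2) (hnM : n2 ≤ mM) (hcR : c ≤ R)
    (hm1 : rho + mu ≤ rm) (hm2 : rm + mu ≤ R) (hm3 : rm + mt ≤ mM)
    (hρ : rho = ⌊3 / 2 * α⌋) (ha : 10 ≤ α) (hab : 2 * α < β) (hb : β ≤ rm) (hb' : rm ≤ β / e)
    (heb : e * β ≤ mt + 1) (n0 : nrm x ≤ α) (n3 : nrm x3 ≤ α) : MSTLim.PS e F α β := by
  obtain ⟨h, N, t1, t3, hh, h0, hN, t13, t3N, ht1, ht3, hG0, -, hG3, -, hop⟩ :=
    six_a hF hc hk hm hmm hom hun H.Gcl hvG htu H.uF (Set.disjoint_right.1 hd hx3) H'.Gcl hx3 hd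
      hu3 huu hux hfin
  have hαρ : ∀ y : V, (nrm y : ℝ) ≤ α → nrm y ≤ rho := fun y hy => by
    rw [hρ]
    exact Int.le_floor.2 (by linarith)
  refine path_ps ((treePath_iff F h N).2 hh)
    (H.endIn hg hcR hh t13.le t3N.le ht1 hG0 (h0 ▸ hαρ x n0) fun k k1 _ => hop k k1 (by omega))
    (H'.endIn hg hcR (hh.rev fun _ _ => MT.symm) (by omega) (by omega) ?_ (fun i hi => ?_) ?_
      fun k k1 k2 => ?_)
    cut d0 d0' d3 d3' ord mg ht htm hr hrr hrn hnM hcR hm1 hm2 hm3 hρ ha hab hb hb' heb (h0 ▸ n0)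
    (hN ▸ n3)
  · rw [show N - (N - t3) = t3 by omega]
    exact ht3
  · exact hG3 _ (by omega) (by omega)
  · rw [Nat.sub_zero, hN]
    exact hαρ x3 n3
  · exact hop _ (by omega) (by omega)

end Pool.Agent.MSTS
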